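import Pool.Agent.R974.AT.Defs

/-! Piece FIX of project AT (MP_097655_pr): a deep dip before a fixed time at one of `n` scales. -/

set_option autoImplicit false

open MeasureTheory ProbabilityTheory Filter Topology Set
open scoped ENNReal NNReal

universe u

namespace Pool.R472.AT

open Pool.Agent.R974.Span (GBM dq mx)
open R974.AT

lemma gauss_lower (v : ℝ≥0) (hv : 0 < v) (y z : ℝ) (hy : 0 ≤ y)
    (hz : (y + √(v : ℝ)) ^ 2 ≤ z * (2 * v)) :
    ENNReal.ofReal ((1 / 3) * Real.exp (-z)) ≤ gaussianReal 0 v (Ioi y) := by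
  have hv' : (0 : ℝ) < v := hv
  rw [gaussianReal_apply 0 hv.ne']
  set s : ℝ := √(v : ℝ) with hs
  have hs0 : 0 < s := Real.sqrt_pos.mpr hv'
  have hss : s ^ 2 = v := Real.sq_sqrt hv'.le
  set c : ℝ := (√(2 * Real.pi * v))⁻¹ * Real.exp (-z) with hc
  have hsq : √(2 * Real.pi * v) ≤ 3 * s := by
    rw [Real.sqrt_le_left (by positivity)]
    have := Real.pi_lt_d2
    nlinarith [hss]
  have hsq0 : 0 < √(2 * Real.pi * v) := Real.sqrt_pos.mpr (by positivity)
  have h1 : (1 / 3) * Real.exp (-z) ≤ c * s := by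
    have h2 : (1 / 3 : ℝ) ≤ (√(2 * Real.pi * v))⁻¹ * s := by
      rw [inv_mul_eq_div, le_div_iff₀ hsq0]
      linarith
    calc (1 / 3) * Real.exp (-z) ≤ ((√(2 * Real.pi * v))⁻¹ * s) * Real.exp (-z) :=
          mul_le_mul_of_nonneg_right h2 (Real.exp_pos _).le
      _ = c * s := by rw [hc]; ring
  have hc0 : 0 ≤ c := by positivity
  calc ENNReal.ofReal ((1 / 3) * Real.exp (-z)) ≤ ENNReal.ofReal (c * s) :=
        ENNReal.ofReal_le_ofReal h1
    _ = ENNReal.ofReal c * volume (Ioc y (y + s)) := by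
        rw [Real.volume_Ioc, ENNReal.ofReal_mul hc0]
        congr 2
        ring
    _ = ∫⁻ _ in Ioc y (y + s), ENNReal.ofReal c := by
        rw [setLIntegral_const]
    _ ≤ ∫⁻ x in Ioc y (y + s), gaussianPDF 0 v x := by
        apply setLIntegral_mono' measurableSet_Ioc
        intro x hx
        rw [gaussianPDF_def]
        apply ENNReal.ofReal_le_ofReal
        rw [gaussianPDFReal_def, hc]
        simp only [sub_zero]
        apply mul_le_mul_of_nonneg_left _ (by positivity)
        apply Real.exp_le_exp.mpr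
        rw [neg_div, neg_le_neg_iff, div_le_iff₀ (by positivity)]
        refine le_trans ?_ hz
        have := hx.1
        have := hx.2
        nlinarith
    _ ≤ ∫⁻ x in Ioi y, gaussianPDF 0 v x := by
        apply lintegral_mono_set
        exact Ioc_subset_Ioi_self

lemma gauss_upper {Ω : Type u} [MeasurableSpace Ω] (P : Measure Ω) [IsProbabilityMeasure P]
    (X : Ω → ℝ) (v : ℝ≥0) (hv : 0 < v) (hX : HasLaw X (gaussianReal 0 v) P) (y z : ℝ)
    (hy : 0 ≤ y) (hz : z * (2 * v) ≤ y ^ 2) :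
    P {ω | X ω < -y} ≤ ENNReal.ofReal (Real.exp (-z)) := by
  have hv' : (0 : ℝ) < v := hv
  have ht : -(y / v) ≤ 0 := by
    have : 0 ≤ y / v := by positivity
    linarith
  have hint : Integrable (fun ω => Real.exp (-(y / v) * X ω)) P := by
    have h1 := integrable_exp_mul_gaussianReal (μ := 0) (v := v) (-(y / v))
    rw [← hX.map_eq] at h1
    exact h1.comp_aemeasurable hX.aemeasurable
  have h2 := measure_le_le_exp_mul_mgf (μ := P) (X := X) (-y) ht hint
  rw [mgf_gaussianReal hX.map_eq, ← Real.exp_add] at h2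
  have h3 : - -(y / v) * -y + (0 * -(y / v) + v * (-(y / v)) ^ 2 / 2) ≤ -z := by
    have e : - -(y / v) * -y + (0 * -(y / v) + v * (-(y / v)) ^ 2 / 2) = -(y ^ 2 / (2 * v)) := by
      field_simp
      ring
    rw [e, neg_le_neg_iff, le_div_iff₀ (by positivity)]
    exact hz
  have h4 : P {ω | X ω < -y} ≤ P {ω | X ω ≤ -y} := measure_mono fun ω (h : X ω < -y) => le_of_lt h
  refine h4.trans ?_
  rw [← ofReal_measureReal]
  exact ENNReal.ofReal_le_ofReal (h2.trans (Real.exp_le_exp.mpr h3))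

theorem fix : S_FIX.{u} := by
  intro c θ hc hc1 hθ
  set x : ℝ := max 100 (5 / θ) with hx
  have hx100 : 100 ≤ x := le_max_left _ _
  have hxθ : 5 / θ ≤ x := le_max_right _ _
  set n : ℕ := ⌈Real.exp (0.65 * x ^ 2)⌉₊ with hn
  set q : ℝ≥0 := 1 / 10000 with hq
  set c' : ℝ≥0 := ⟨c, hc.le⟩ with hc'
  set a : ℕ → ℝ≥0 := fun k => c' * q ^ k with ha
  have hq' : (q : ℝ) = 1 / 10000 := by simp [hq]
  have har : ∀ k, (a k : ℝ) = c * (1 / 10000) ^ k := by
    intro k
    simp only [ha, NNReal.coe_mul, NNReal.coe_pow, hq']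
    rfl
  have hapos : ∀ k, (0 : ℝ) < a k := by
    intro k; rw [har]; positivity
  have haC : ∀ k, (a k : ℝ) ≤ c := by
    intro k
    rw [har]
    have : ((1 : ℝ) / 10000) ^ k ≤ 1 := pow_le_one₀ (by norm_num) (by norm_num)
    nlinarith
  have hasucc : ∀ k, (a (k + 1) : ℝ) = a k / 10000 := by
    intro k; rw [har, har, pow_succ]; ring
  -- numerical estimates
  have hu : x ≤ Real.exp (0.1 * x ^ 2) := by
    have h1 := Real.add_one_le_exp (0.1 * x ^ 2)
    nlinarith
  set U : ℝ := Real.exp (0.1 * x ^ 2) with hU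
  have hU0 : 0 < U := Real.exp_pos _
  have hU5 : 5 / U ≤ θ := by
    rw [div_le_iff₀ hU0]
    have : 5 / θ ≤ U := hxθ.trans hu
    rw [div_le_iff₀ hθ] at this
    linarith
  have hn1 : Real.exp (0.65 * x ^ 2) ≤ n := Nat.le_ceil _
  have hn2 : (n : ℝ) ≤ 2 * Real.exp (0.65 * x ^ 2) := by
    have h1 := (Nat.ceil_lt_add_one (Real.exp_pos (0.65 * x ^ 2)).le).le
    have h2 : (1 : ℝ) ≤ Real.exp (0.65 * x ^ 2) := Real.one_le_exp (by positivity)
    rw [← hn] at h1
    linarith
  have hnexp : ∀ β : ℝ, 3 / 4 ≤ β → n * Real.exp (-β * x ^ 2) ≤ 2 / U := by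
    intro β hβ
    have h1 : n * Real.exp (-β * x ^ 2) ≤ 2 * Real.exp (0.65 * x ^ 2) * Real.exp (-β * x ^ 2) :=
      mul_le_mul_of_nonneg_right hn2 (Real.exp_pos _).le
    have h2 : 2 * Real.exp (0.65 * x ^ 2) * Real.exp (-β * x ^ 2) ≤ 2 / U := by
      rw [hU, mul_assoc, ← Real.exp_add, div_eq_mul_inv, ← Real.exp_neg]
      apply mul_le_mul_of_nonneg_left _ (by norm_num)
      apply Real.exp_le_exp.mpr
      nlinarith [sq_nonneg x]
    exact h1.trans h2
  refine ⟨x, n, a, by linarith, ?_, ?_, ?_⟩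
  · intro k _
    exact ⟨by have := hapos k; exact_mod_cast this, haC k⟩
  · refine (hnexp (3 / 4) le_rfl).trans (le_trans ?_ hU5)
    gcongr
    norm_num
  intro Ω _ P B hB
  have hP := hB.prob
  -- times
  have ha1 : ∀ k, a k ≤ 1 := by
    intro k
    rw [← NNReal.coe_le_coe]
    exact (haC k).trans hc1.le
  let t : ℕ → ℝ≥0 := fun k => 1 - a k
  have htr : ∀ k, (t k : ℝ) = 1 - a k := by
    intro k
    simp only [t]
    rw [NNReal.coe_sub (ha1 k), NNReal.coe_one]
  have htm : Monotone t := by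
    apply monotone_nat_of_le_succ
    intro k
    rw [← NNReal.coe_le_coe, htr, htr, hasucc]
    have := hapos k
    linarith
  have hind := hB.pre.hasIndepIncrements.nat htm
  -- the increments
  let J : ℕ → Ω → ℝ := fun k ω => B (t (k + 1)) ω - B (t k) ω
  let D : ℕ → Ω → ℝ := fun k ω => B 1 ω - B (t k) ω
  have hsqa : ∀ k, 0 < √(a k : ℝ) := fun k => Real.sqrt_pos.mpr (hapos k)
  have hsqa2 : ∀ k, √(a k : ℝ) ^ 2 = a k := fun k => Real.sq_sqrt (hapos k).le
  -- probability that the increment is large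
  let p : ℝ := (1 / 3) * Real.exp (-(0.55 * x ^ 2))
  have hp0 : 0 ≤ p := by positivity
  have hp1 : p ≤ 1 := by
    have : Real.exp (-(0.55 * x ^ 2)) ≤ 1 := Real.exp_le_one_iff.mpr (by nlinarith [sq_nonneg x])
    simp only [p]
    linarith
  have hJmeas : ∀ k, Measurable (J k) := fun k => (hB.meas _).sub (hB.meas _)
  have hJlow : ∀ k, ENNReal.ofReal p ≤ P {ω | 1.02 * x * √(a k : ℝ) < J k ω} := by
    intro k
    have hlaw := hB.pre.hasLaw_sub (t (k + 1)) (t k)
    set v : ℝ≥0 := nndist (t (k + 1)).1 (t k).1 with hv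
    have hvr : (v : ℝ) = 0.9999 * a k := by
      rw [hv, coe_nndist, Real.dist_eq]
      change |((t (k + 1) : ℝ≥0) : ℝ) - ((t k : ℝ≥0) : ℝ)| = _
      rw [htr, htr, hasucc, abs_of_nonneg (by have := hapos k; linarith)]
      ring
    have hv0 : 0 < v := by
      rw [← NNReal.coe_pos, hvr]; have := hapos k; positivity
    have h1 := gauss_lower v hv0 (1.02 * x * √(a k : ℝ)) (0.55 * x ^ 2) (by positivity) (by
      have h2 : √(v : ℝ) ≤ √(a k : ℝ) := by
        apply Real.sqrt_le_sqrt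
        rw [hvr]
        have := hapos k
        linarith
      have h3 : 1.02 * x * √(a k : ℝ) + √(v : ℝ) ≤ 1.03 * x * √(a k : ℝ) := by
        have h4 : √(a k : ℝ) ≤ 0.01 * x * √(a k : ℝ) := by
          have := hsqa k
          nlinarith
        linarith
      have h5 : 0 ≤ 1.02 * x * √(a k : ℝ) + √(v : ℝ) := by positivity
      calc (1.02 * x * √(a k : ℝ) + √(v : ℝ)) ^ 2 ≤ (1.03 * x * √(a k : ℝ)) ^ 2 :=
            pow_le_pow_left₀ h5 h3 2
        _ = 1.0609 * x ^ 2 * a k := by rw [mul_pow, hsqa2]; ring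
        _ ≤ 0.55 * x ^ 2 * (2 * v) := by
            rw [hvr]
            have : 0 ≤ x ^ 2 * a k := mul_nonneg (sq_nonneg x) (hapos k).le
            nlinarith)
    have h6 : P {ω | 1.02 * x * √(a k : ℝ) < J k ω} =
        gaussianReal 0 v (Ioi (1.02 * x * √(a k : ℝ))) := by
      rw [← hlaw.map_eq, Measure.map_apply_of_aemeasurable hlaw.aemeasurable measurableSet_Ioi]
      rfl
    rw [h6]
    exact h1
  have hJup : ∀ k, P {ω | J k ω ≤ 1.02 * x * √(a k : ℝ)} ≤ ENNReal.ofReal (1 - p) := by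
    intro k
    have h1 : {ω | J k ω ≤ 1.02 * x * √(a k : ℝ)} = {ω | 1.02 * x * √(a k : ℝ) < J k ω}ᶜ := by
      ext ω; simp
    rw [h1, prob_compl_eq_one_sub (measurableSet_lt measurable_const (hJmeas k)),
      ENNReal.ofReal_sub _ hp0, ENNReal.ofReal_one]
    exact tsub_le_tsub_left (hJlow k) _
  -- first part
  have hpart1 : P (⋂ k ∈ Finset.range n, J k ⁻¹' (Iic (1.02 * x * √(a k : ℝ)))) ≤
      ENNReal.ofReal (3 / U) := by
    rw [hind.measure_inter_preimage_eq_mul (Finset.range n)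
      (sets := fun k => Iic (1.02 * x * √(a k : ℝ))) (fun k _ => measurableSet_Iic)]
    calc ∏ k ∈ Finset.range n, P (J k ⁻¹' Iic (1.02 * x * √(a k : ℝ)))
        ≤ ∏ _k ∈ Finset.range n, ENNReal.ofReal (1 - p) :=
          Finset.prod_le_prod' fun k _ => hJup k
      _ = ENNReal.ofReal ((1 - p) ^ n) := by
          rw [Finset.prod_const, Finset.card_range, ENNReal.ofReal_pow (by linarith)]
      _ ≤ ENNReal.ofReal (3 / U) := by
          apply ENNReal.ofReal_le_ofReal
          have h1 : (1 - p) ^ n ≤ Real.exp (-(n * p)) := by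
            have h2 : 1 - p ≤ Real.exp (-p) := by
              have := Real.add_one_le_exp (-p)
              linarith
            calc (1 - p) ^ n ≤ (Real.exp (-p)) ^ n := pow_le_pow_left₀ (by linarith) h2 n
              _ = Real.exp (-(n * p)) := by rw [← Real.exp_nat_mul]; congr 1; ring
          have h3 : U / 3 ≤ n * p := by
            have h4 : Real.exp (0.65 * x ^ 2) * p ≤ n * p := mul_le_mul_of_nonneg_right hn1 hp0
            have h5 : Real.exp (0.65 * x ^ 2) * p = U / 3 := by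
              simp only [p, hU]
              rw [mul_left_comm, ← Real.exp_add]
              have : 0.65 * x ^ 2 + -(0.55 * x ^ 2) = 0.1 * x ^ 2 := by ring
              rw [this]
              ring
            linarith
          have h6 : Real.exp (-(n * p)) ≤ Real.exp (-(U / 3)) :=
            Real.exp_le_exp.mpr (by linarith)
          have h7 : Real.exp (-(U / 3)) ≤ 3 / U := by
            rw [Real.exp_neg, inv_le_comm₀ (Real.exp_pos _) (by positivity), inv_div]
            have := Real.add_one_le_exp (U / 3)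
            linarith
          exact h1.trans (h6.trans h7)
  -- second part
  have hpart2 : ∀ k, P {ω | D (k + 1) ω < -(0.02 * x * √(a k : ℝ))} ≤
      ENNReal.ofReal (Real.exp (-(2 * x ^ 2))) := by
    intro k
    have hlaw := hB.pre.hasLaw_sub 1 (t (k + 1))
    set v : ℝ≥0 := nndist (1 : ℝ≥0).1 (t (k + 1)).1 with hv
    have hvr : (v : ℝ) = a k / 10000 := by
      rw [hv, coe_nndist, Real.dist_eq]
      change |((1 : ℝ≥0) : ℝ) - ((t (k + 1) : ℝ≥0) : ℝ)| = _
      rw [htr, hasucc, NNReal.coe_one, abs_of_nonneg (by have := hapos k; linarith)]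
      ring
    have hv0 : 0 < v := by
      rw [← NNReal.coe_pos, hvr]; have := hapos k; positivity
    refine gauss_upper P _ v hv0 hlaw (0.02 * x * √(a k : ℝ)) (2 * x ^ 2) (by positivity) ?_
    rw [hvr, mul_pow, hsqa2]
    apply le_of_eq
    ring
  have hsub : {ω | ∀ k, k < n → -(x * √(a k : ℝ)) ≤ B (1 - a k) ω - B 1 ω} ⊆
      (⋂ k ∈ Finset.range n, J k ⁻¹' (Iic (1.02 * x * √(a k : ℝ)))) ∪
      ⋃ k ∈ Finset.range n, {ω | D (k + 1) ω < -(0.02 * x * √(a k : ℝ))} := by
    intro ω hω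
    by_contra hcon
    simp only [mem_union, not_or, mem_iInter, mem_iUnion, Finset.mem_range, mem_preimage, mem_Iic,
      not_forall, not_exists, not_le, exists_prop] at hcon
    obtain ⟨⟨k, hk, hk1⟩, hk2⟩ := hcon
    have h1 := hω k hk
    have h2 := hk2 k
    simp only [not_and, Set.mem_ofPred_eq, not_lt] at h2
    have h3 := h2 hk
    simp only [J, D, t] at hk1 h3
    linarith
  calc P {ω | ∀ k, k < n → -(x * √(a k : ℝ)) ≤ B (1 - a k) ω - B 1 ω}
      ≤ P ((⋂ k ∈ Finset.range n, J k ⁻¹' (Iic (1.02 * x * √(a k : ℝ)))) ∪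
      ⋃ k ∈ Finset.range n, {ω | D (k + 1) ω < -(0.02 * x * √(a k : ℝ))}) := measure_mono hsub
    _ ≤ P (⋂ k ∈ Finset.range n, J k ⁻¹' (Iic (1.02 * x * √(a k : ℝ)))) +
        P (⋃ k ∈ Finset.range n, {ω | D (k + 1) ω < -(0.02 * x * √(a k : ℝ))}) :=
        measure_union_le _ _
    _ ≤ ENNReal.ofReal (3 / U) + ∑ k ∈ Finset.range n,
        P {ω | D (k + 1) ω < -(0.02 * x * √(a k : ℝ))} :=
        add_le_add hpart1 (measure_biUnion_finset_le _ _)
    _ ≤ ENNReal.ofReal (3 / U) + ∑ _k ∈ Finset.range n,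
        ENNReal.ofReal (Real.exp (-(2 * x ^ 2))) := by
        gcongr with k hk
        exact hpart2 k
    _ = ENNReal.ofReal (3 / U + n * Real.exp (-(2 * x ^ 2))) := by
        rw [Finset.sum_const, Finset.card_range, nsmul_eq_mul,
          ENNReal.ofReal_add (by positivity) (by positivity),
          ENNReal.ofReal_mul (Nat.cast_nonneg n), ENNReal.ofReal_natCast]
    _ ≤ ENNReal.ofReal θ := by
        apply ENNReal.ofReal_le_ofReal
        have h1 := hnexp 2 (by norm_num)
        have h2 : -2 * x ^ 2 = -(2 * x ^ 2) := by ring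
        rw [h2] at h1
        have h3 : 3 / U + 2 / U = 5 / U := by ring
        linarith

end Pool.R472.AT
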