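import Mathlib

/-!
`p`-integral rational numbers: `D p k x` says that `x ∈ p^k ℤ_(p)`.
-/

namespace Pool.Agent.R472.Bala

open Finset

/-- `x` is divisible by `p^k` in the local ring `ℤ_(p)`. -/
def D (p : ℕ) (k : ℕ) (x : ℚ) : Prop := ∃ a b : ℤ, ¬ (p:ℤ) ∣ b ∧ x * b = (p:ℚ)^k * a

variable {p : ℕ}

theorem D_zero (hp : p.Prime) (k : ℕ) : D p k 0 :=
  ⟨0, 1, by
    intro h
    have := Int.eq_one_of_dvd_one (by positivity) h
    have h1 : p = 1 := by exact_mod_cast this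
    exact hp.one_lt.ne' h1, by simp⟩

theorem not_dvd_one (hp : p.Prime) : ¬ (p:ℤ) ∣ 1 := by
  intro h
  have := Int.eq_one_of_dvd_one (by positivity) h
  have h1 : p = 1 := by exact_mod_cast this
  exact hp.one_lt.ne' h1

theorem not_dvd_mul (hp : p.Prime) {a b : ℤ} (ha : ¬ (p:ℤ) ∣ a) (hb : ¬ (p:ℤ) ∣ b) :
    ¬ (p:ℤ) ∣ a * b := by
  intro h
  rcases (Nat.prime_iff_prime_int.1 hp).dvd_or_dvd h with h | h
  · exact ha h
  · exact hb h

theorem D_add (hp : p.Prime) {k : ℕ} {x y : ℚ} (hx : D p k x) (hy : D p k y) :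
    D p k (x + y) := by
  obtain ⟨a, b, hb, h1⟩ := hx
  obtain ⟨c, d, hd, h2⟩ := hy
  refine ⟨a*d + c*b, b*d, not_dvd_mul hp hb hd, ?_⟩
  push_cast
  linear_combination (d:ℚ) * h1 + (b:ℚ) * h2

theorem D_neg {k : ℕ} {x : ℚ} (hx : D p k x) : D p k (-x) := by
  obtain ⟨a, b, hb, h1⟩ := hx
  refine ⟨-a, b, hb, ?_⟩
  push_cast
  linear_combination -h1

theorem D_sub (hp : p.Prime) {k : ℕ} {x y : ℚ} (hx : D p k x) (hy : D p k y) :
    D p k (x - y) := by
  rw [sub_eq_add_neg]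
  exact D_add hp hx (D_neg hy)

theorem D_mul (hp : p.Prime) {k l : ℕ} {x y : ℚ} (hx : D p k x) (hy : D p l y) :
    D p (k+l) (x * y) := by
  obtain ⟨a, b, hb, h1⟩ := hx
  obtain ⟨c, d, hd, h2⟩ := hy
  refine ⟨a*c, b*d, not_dvd_mul hp hb hd, ?_⟩
  push_cast
  rw [pow_add]
  calc x * y * (b * d) = (x*b) * (y*d) := by ring
    _ = (p:ℚ)^k * (p:ℚ)^l * (a*c) := by rw [h1, h2]; ring

theorem D_mono {k l : ℕ} (h : l ≤ k) {x : ℚ} (hx : D p k x) : D p l x := by
  obtain ⟨a, b, hb, h1⟩ := hx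
  refine ⟨(p:ℤ)^(k-l) * a, b, hb, ?_⟩
  push_cast
  rw [h1, ← mul_assoc, ← pow_add]
  congr 2
  omega

theorem D_int (hp : p.Prime) (z : ℤ) : D p 0 (z:ℚ) := ⟨z, 1, not_dvd_one hp, by simp⟩

theorem D_nat (hp : p.Prime) (z : ℕ) : D p 0 (z:ℚ) := by
  have := D_int hp (z:ℤ)
  simpa using this

theorem D_ppow (hp : p.Prime) (k : ℕ) : D p k ((p:ℚ)^k) := ⟨1, 1, not_dvd_one hp, by simp⟩

theorem D_p (hp : p.Prime) : D p 1 (p:ℚ) := by
  have := D_ppow hp 1
  simpa using this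

theorem D_pow (hp : p.Prime) {k : ℕ} {x : ℚ} (hx : D p k x) (s : ℕ) : D p (k*s) (x^s) := by
  induction s with
  | zero =>
    rw [pow_zero, mul_zero]
    simpa using D_int hp 1
  | succ s ih =>
    rw [pow_succ, Nat.mul_succ]
    exact D_mul hp ih hx

/-- multiplication by a `p`-integral number -/
theorem D_mul_left (hp : p.Prime) {k : ℕ} {x y : ℚ} (hx : D p 0 x) (hy : D p k y) :
    D p k (x * y) := by
  have := D_mul hp hx hy
  rwa [zero_add] at this

theorem D_mul_right (hp : p.Prime) {k : ℕ} {x y : ℚ} (hx : D p k x) (hy : D p 0 y) :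
    D p k (x * y) := by
  have := D_mul hp hx hy
  rwa [add_zero] at this

theorem D_sum (hp : p.Prime) {k : ℕ} {ι : Type*} (s : Finset ι) (f : ι → ℚ)
    (h : ∀ i ∈ s, D p k (f i)) : D p k (∑ i ∈ s, f i) := by
  classical
  induction s using Finset.induction_on with
  | empty => rw [sum_empty]; exact D_zero hp k
  | insert a s ha ih =>
    rw [sum_insert ha]
    exact D_add hp (h a (mem_insert_self a s)) (ih fun i hi => h i (mem_insert_of_mem hi))

theorem D_prod (hp : p.Prime) {ι : Type*} (s : Finset ι) (f : ι → ℚ)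
    (h : ∀ i ∈ s, D p 0 (f i)) : D p 0 (∏ i ∈ s, f i) := by
  classical
  induction s using Finset.induction_on with
  | empty => rw [prod_empty]; simpa using D_int hp 1
  | insert a s ha ih =>
    rw [prod_insert ha]
    exact D_mul_left hp (h a (mem_insert_self a s)) (ih fun i hi => h i (mem_insert_of_mem hi))

theorem D_inv (hp : p.Prime) {i : ℕ} (hi : ¬ p ∣ i) : D p 0 (1/(i:ℚ)) := by
  have hi0 : (i:ℚ) ≠ 0 := by
    have : i ≠ 0 := by rintro rfl; exact hi (dvd_zero p)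
    exact_mod_cast this
  refine ⟨1, i, ?_, ?_⟩
  · intro h
    exact hi (by exact_mod_cast h)
  · simp
    field_simp

/-- cancel an integer factor prime to `p` -/
theorem D_cancel (hp : p.Prime) {k : ℕ} {m : ℤ} (hm : ¬ (p:ℤ) ∣ m) {x : ℚ}
    (h : D p k ((m:ℚ) * x)) : D p k x := by
  obtain ⟨a, b, hb, h1⟩ := h
  refine ⟨a, m*b, not_dvd_mul hp hm hb, ?_⟩
  push_cast
  linear_combination h1

/-- back to the integers -/
theorem dvd_of_D (hp : p.Prime) {k : ℕ} {z : ℤ} (h : D p k (z:ℚ)) : (p:ℤ)^k ∣ z := by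
  obtain ⟨a, b, hb, h1⟩ := h
  have h2 : z * b = (p:ℤ)^k * a := by exact_mod_cast h1
  have hc : IsCoprime ((p:ℤ)^k) b := by
    apply IsCoprime.pow_left
    exact (Nat.prime_iff_prime_int.1 hp).coprime_iff_not_dvd.2 hb
  exact hc.dvd_of_dvd_mul_right (Dvd.intro _ h2.symm)

/-- `x^s ≡ y^s` -/
theorem D_pow_sub (hp : p.Prime) {k : ℕ} {x y : ℚ} (hx : D p 0 x) (hy : D p 0 y)
    (h : D p k (x - y)) (s : ℕ) : D p k (x^s - y^s) := by
  induction s with
  | zero => simp only [pow_zero, sub_self]; exact D_zero hp k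
  | succ s ih =>
    have e : x^(s+1) - y^(s+1) = x * (x^s - y^s) + (x - y) * y^s := by ring
    rw [e]
    refine D_add hp (D_mul_left hp hx ih) (D_mul_right hp h ?_)
    have := D_pow hp hy s
    rwa [zero_mul] at this

/-- the product expansion `∏ (1 - x_i)^2 ≡ 1 - 2 ∑ x_i` modulo `p^(2k)` if all `x_i ∈ p^k`. -/
theorem D_prod_exp (hp : p.Prime) {k : ℕ} {ι : Type*} (s : Finset ι) (x : ι → ℚ)
    (h : ∀ i ∈ s, D p k (x i)) :
    D p (k+k) ((∏ i ∈ s, (1 - x i)^2) - (1 - 2 * ∑ i ∈ s, x i)) := by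
  classical
  induction s using Finset.induction_on with
  | empty => simp only [prod_empty, sum_empty, mul_zero, sub_zero, sub_self]; exact D_zero hp _
  | insert a s ha ih =>
    rw [prod_insert ha, sum_insert ha]
    have ih' := ih fun i hi => h i (mem_insert_of_mem hi)
    have hxa := h a (mem_insert_self a s)
    have hS : D p k (∑ i ∈ s, x i) := D_sum hp s x fun i hi => h i (mem_insert_of_mem hi)
    have e : (1 - x a)^2 * ∏ i ∈ s, (1 - x i)^2 - (1 - 2 * (x a + ∑ i ∈ s, x i)) =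
        (1 - x a)^2 * ((∏ i ∈ s, (1 - x i)^2) - (1 - 2 * ∑ i ∈ s, x i)) +
        ((4:ℤ):ℚ) * (x a * ∑ i ∈ s, x i) + (1 - ((2:ℤ):ℚ) * ∑ i ∈ s, x i) * (x a * x a) := by
      push_cast
      ring
    rw [e]
    have hx0 : D p 0 (x a) := D_mono (Nat.zero_le k) hxa
    have hS0 : D p 0 (∑ i ∈ s, x i) := D_mono (Nat.zero_le k) hS
    have h1 : D p 0 (1:ℚ) := by simpa using D_int hp 1
    refine D_add hp (D_add hp (D_mul_left hp ?_ ih') (D_mul_left hp (D_int hp 4) (D_mul hp hxa hS)))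
      (D_mul_left hp (D_sub hp h1 (D_mul_left hp (D_int hp 2) hS0)) (D_mul hp hxa hxa))
    have := D_pow hp (D_sub hp h1 hx0) 2
    rwa [zero_mul] at this

end Pool.Agent.R472.Bala
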