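import Pool.Agent.R472.BalaTerm

namespace Pool.Agent.R472.Bala

open Finset

variable {p : ℕ}

theorem D_one0 (hp : p.Prime) : D p 0 (1:ℚ) := by simpa using D_int hp 1

theorem D_pow0 (hp : p.Prime) {x : ℚ} (s : ℕ) (hx : D p 0 x) : D p 0 (x^s) := by
  have := D_pow hp hx s
  rwa [zero_mul] at this

/-- `T(pq, pj) = T(q, j) R_j`. -/
theorem T_mul (hp : p.Prime) {q j : ℕ} (hq : 1 ≤ q) (hj : 1 ≤ j) :
    T (q*p) (p*j) = T q j * ∏ i ∈ (Ico 1 (p*j)).filter (fun i => ¬ p ∣ i),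
      (1 - (((q*p : ℕ):ℚ)/i)^2)^2 := by
  have hpj : 1 ≤ p*j := Nat.mul_pos hp.pos hj
  have hqp : 1 ≤ q*p := Nat.mul_pos hq hp.pos
  rw [T_formula hqp hpj, T_formula hq hj, ← prod_filter_mul_prod_filter_not (Ico 1 (p*j)) (fun i => p ∣ i)]
  have hp0 : (p:ℚ) ≠ 0 := by exact_mod_cast hp.ne_zero
  have hj0 : (j:ℚ) ≠ 0 := by
    have : j ≠ 0 := by omega
    exact_mod_cast this
  have himg : (Ico 1 (p*j)).filter (fun i => p ∣ i) = (Ico 1 j).image (fun l => p*l) := by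
    ext i
    simp only [mem_filter, mem_Ico, mem_image]
    constructor
    · rintro ⟨⟨h1, h2⟩, ⟨l, rfl⟩⟩
      refine ⟨l, ⟨?_, ?_⟩, rfl⟩
      · rcases Nat.eq_zero_or_pos l with h0 | h0
        · rw [h0, mul_zero] at h1; omega
        · exact h0
      · exact Nat.lt_of_mul_lt_mul_left h2
    · rintro ⟨l, ⟨h1, h2⟩, rfl⟩
      exact ⟨⟨Nat.mul_pos hp.pos h1, Nat.mul_lt_mul_of_pos_left h2 hp.pos⟩, dvd_mul_right p l⟩
  have e1 : ∏ i ∈ (Ico 1 (p*j)).filter (fun i => p ∣ i), (1 - (((q*p : ℕ):ℚ)/i)^2)^2 =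
      ∏ i ∈ Ico 1 j, (1 - ((q:ℚ)/i)^2)^2 := by
    rw [himg, prod_image (fun a _ b _ h => Nat.eq_of_mul_eq_mul_left hp.pos h)]
    apply prod_congr rfl
    intro l hl
    rw [mem_Ico] at hl
    have hl0 : (l:ℚ) ≠ 0 := by
      have : l ≠ 0 := by omega
      exact_mod_cast this
    have : ((q*p : ℕ):ℚ)/((p*l : ℕ):ℚ) = (q:ℚ)/l := by
      push_cast
      field_simp
    rw [this]
  have e2 : ((q*p : ℕ):ℚ)/((p*j : ℕ):ℚ) = (q:ℚ)/j := by
    push_cast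
    field_simp
  rw [e1, e2]
  ring

/-- `R_j ≡ 1 - 2 n² S_2(pj) (mod p^{4(e+1)})`. -/
theorem R_exp (hp : p.Prime) {k n : ℕ} (hk : D p k (n:ℚ)) (N : ℕ) :
    D p (4*k) ((∏ i ∈ (Ico 1 N).filter (fun i => ¬ p ∣ i), (1 - ((n:ℚ)/i)^2)^2) -
      (1 - 2 * ((n:ℚ)^2 * S p 2 N))) := by
  have h1 := D_prod_exp hp (k := k*2) ((Ico 1 N).filter (fun i => ¬ p ∣ i)) (fun i => ((n:ℚ)/i)^2) (by
    intro i hi
    rw [mem_filter] at hi
    apply D_pow hp
    rw [div_eq_mul_one_div]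
    exact D_mul_right hp hk (D_inv hp hi.2))
  have e : ∑ i ∈ (Ico 1 N).filter (fun i => ¬ p ∣ i), ((n:ℚ)/i)^2 = (n:ℚ)^2 * S p 2 N := by
    rcases Nat.eq_zero_or_pos N with h0 | h0
    · subst h0; simp [S]
    · obtain ⟨L, rfl⟩ : ∃ L, N = L+1 := ⟨N-1, by omega⟩
      rw [S_Ico, sum_filter, mul_sum]
      apply sum_congr rfl
      intro i _
      unfold w
      by_cases h : p ∣ i
      · rw [if_neg (not_not.2 h), if_pos h, mul_zero]
      · rw [if_pos h, if_neg h, div_eq_mul_one_div, mul_pow]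
  rw [e] at h1
  have e4 : k*2 + k*2 = 4*k := by ring
  rw [e4] at h1
  exact h1

/-- `T(q,j) ∈ p^{3m}` if `q/j ∈ p^m`. -/
theorem T_div (hp : p.Prime) {e j m : ℕ} (hj : 1 ≤ j) (hjq : j < p^e)
    (hm : D p m (((p^e : ℕ):ℚ)/j)) : D p (m*3) (T (p^e) j) := by
  have hq1 : 1 ≤ p^e := Nat.pow_pos hp.pos
  rw [T_formula hq1 hj, mul_assoc]
  refine D_mul_right hp ?_ (D_mul_left hp (D_sub hp (D_one0 hp) (D_mono (Nat.zero_le m) hm)) ?_)
  · exact D_neg (D_pow hp hm 3)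
  · apply D_prod hp
    intro i hi
    rw [mem_Ico] at hi
    apply D_pow0 hp
    refine D_sub hp (D_one0 hp) (D_pow0 hp 2 ?_)
    exact D_mono (Nat.zero_le 1) (D_div_one hp hi.1 (by omega))

/-- the main term in the case `j = p^(e-1) m`. -/
theorem T_top (hp : p.Prime) {e m : ℕ} (he : 1 ≤ e) (hm : 1 ≤ m) (hmp : m < p) :
    D p 4 (T (p^e) (p^(e-1)*m) + (p:ℚ)^3 * (1/(m:ℚ))^3) := by
  have hq1 : 1 ≤ p^e := Nat.pow_pos hp.pos
  have hpm : ¬ p ∣ m := fun h => by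
    have := Nat.le_of_dvd (by omega) h
    omega
  have hpe : p^e = p^(e-1)*p := by rw [← pow_succ]; congr 1; omega
  have hj : 1 ≤ p^(e-1)*m := Nat.mul_pos (Nat.pow_pos hp.pos) hm
  have hjq : p^(e-1)*m < p^e := by
    rw [hpe]; exact Nat.mul_lt_mul_of_pos_left hmp (Nat.pow_pos hp.pos)
  rw [T_formula hq1 hj]
  have hp0 : (p:ℚ) ≠ 0 := by exact_mod_cast hp.ne_zero
  have hm0 := cast_ne hpm
  have e1 : ((p^e : ℕ):ℚ)/((p^(e-1)*m : ℕ):ℚ) = (p:ℚ) * (1/(m:ℚ)) := by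
    rw [hpe]
    push_cast
    have : (p:ℚ)^(e-1) ≠ 0 := pow_ne_zero _ hp0
    field_simp
  rw [e1]
  obtain ⟨Q, hQ⟩ : ∃ Q : ℚ, Q = ∏ i ∈ Ico 1 (p^(e-1)*m), (1 - (((p^e : ℕ):ℚ)/i)^2)^2 := ⟨_, rfl⟩
  have hx : ∀ i ∈ Ico 1 (p^(e-1)*m), D p 2 ((((p^e : ℕ):ℚ)/i)^2) := by
    intro i hi
    rw [mem_Ico] at hi
    exact D_pow hp (D_div_one hp hi.1 (by omega)) 2
  have h1 := D_prod_exp hp (Ico 1 (p^(e-1)*m)) (fun i : ℕ => (((p^e : ℕ):ℚ)/(i:ℚ))^2) hx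
  rw [← hQ] at h1 ⊢
  have h2 := D_sum hp (Ico 1 (p^(e-1)*m)) (fun i : ℕ => (((p^e : ℕ):ℚ)/(i:ℚ))^2) hx
  have h3 : D p 1 (Q - 1) := by
    have e2 : Q - 1 = (Q - (1 - 2 * ∑ i ∈ Ico 1 (p^(e-1)*m), (((p^e : ℕ):ℚ)/i)^2)) -
        ((2:ℤ):ℚ) * ∑ i ∈ Ico 1 (p^(e-1)*m), (((p^e : ℕ):ℚ)/i)^2 := by push_cast; ring
    rw [e2]
    exact D_sub hp (D_mono (by norm_num) h1) (D_mono (by norm_num) (D_mul_left hp (D_int hp 2) h2))
  have hu := D_inv hp hpm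
  obtain ⟨u, huu⟩ : ∃ u : ℚ, u = 1/(m:ℚ) := ⟨_, rfl⟩
  rw [← huu] at hu ⊢
  have hQ0 : D p 0 Q := by
    have := D_add hp (D_mono (Nat.zero_le 1) h3) (D_one0 hp)
    rwa [sub_add_cancel] at this
  have e3 : -((p:ℚ)*u)^3 * (1 - (p:ℚ)*u) * Q + (p:ℚ)^3*u^3 =
      (p:ℚ)^3 * (u^3 * ((p:ℚ) * (u*Q) - (Q-1))) := by ring
  rw [e3]
  exact D_mul hp (D_ppow hp 3) (D_mul_left hp (D_pow0 hp 3 hu)
    (D_sub hp (D_mul_right hp (D_p hp) (D_mul_left hp hu hQ0)) h3))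

/-- Claim B. -/
theorem claimB (hp : p.Prime) (h5 : 5 ≤ p) {e : ℕ} (he : 1 ≤ e) :
    D p (3*e+6) (∑ j ∈ Ico 1 (p^e), (T (p^e*p) (p*j) - T (p^e) j)) := by
  obtain ⟨q, hq⟩ : ∃ q : ℕ, q = p^e := ⟨_, rfl⟩
  have hq0 : 1 ≤ q := by rw [hq]; exact Nat.pow_pos hp.pos
  have hDn : D p (e+1) ((q*p : ℕ):ℚ) := by
    rw [hq, ← pow_succ]; push_cast; exact D_ppow hp _
  have hDq : D p e (q:ℚ) := by rw [hq]; push_cast; exact D_ppow hp _
  obtain ⟨r0, hr0⟩ : ∃ r0 : ℕ, r0 = p^(e-1) := ⟨_, rfl⟩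
  have hr0pos : 0 < r0 := by rw [hr0]; exact Nat.pow_pos hp.pos
  have hqr : q = r0*p := by rw [hq, hr0, ← pow_succ]; congr 1; omega
  -- the quadratic approximation
  have hstep : ∀ j ∈ Ico 1 q, D p (3*e+6) ((T (q*p) (p*j) - T q j) +
      2 * (((q*p : ℕ):ℚ)^2 * (T q j * S p 2 (p*j)))) := by
    intro j hj
    rw [mem_Ico] at hj
    rw [T_mul hp hq0 hj.1]
    have h1 := R_exp hp hDn (p*j)
    have hT : D p 3 (T q j) := by
      have := T_div hp (e := e) (m := 1) hj.1 (by rw [← hq]; exact hj.2)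
        (D_div_one hp hj.1 (by rw [← hq]; exact hj.2))
      rw [← hq] at this
      exact this
    obtain ⟨R, hR⟩ : ∃ R : ℚ, R = ∏ i ∈ (Ico 1 (p*j)).filter (fun i => ¬ p ∣ i),
      (1 - (((q*p : ℕ):ℚ)/i)^2)^2 := ⟨_, rfl⟩
    rw [← hR] at h1 ⊢
    have e1 : T q j * R - T q j + 2 * (((q*p : ℕ):ℚ)^2 * (T q j * S p 2 (p*j))) =
        T q j * (R - (1 - 2 * (((q*p : ℕ):ℚ)^2 * S p 2 (p*j)))) := by ring
    rw [e1]
    exact D_mono (by omega) (D_mul hp hT h1)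
  have hsum1 := D_sum hp _ _ hstep
  rw [sum_add_distrib] at hsum1
  rw [← hq]
  suffices hmain : D p (3*e+6) (∑ j ∈ Ico 1 q, 2 * (((q*p : ℕ):ℚ)^2 * (T q j * S p 2 (p*j)))) by
    have := D_sub hp hsum1 hmain
    rwa [add_sub_cancel_right] at this
  rw [← sum_filter_add_sum_filter_not (Ico 1 q) (fun j => r0 ∣ j)]
  refine D_add hp ?_ ?_
  · -- multiples of p^(e-1)
    have himg : (Ico 1 q).filter (fun j => r0 ∣ j) = (Ico 1 p).image (fun m => r0*m) := by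
      ext i
      simp only [mem_filter, mem_Ico, mem_image]
      constructor
      · rintro ⟨⟨h1, h2⟩, ⟨l, rfl⟩⟩
        refine ⟨l, ⟨?_, ?_⟩, rfl⟩
        · rcases Nat.eq_zero_or_pos l with h0 | h0
          · rw [h0, mul_zero] at h1; omega
          · exact h0
        · rw [hqr] at h2
          exact Nat.lt_of_mul_lt_mul_left h2
      · rintro ⟨l, ⟨h1, h2⟩, rfl⟩
        refine ⟨⟨Nat.mul_pos hr0pos h1, ?_⟩, dvd_mul_right r0 l⟩
        rw [hqr]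
        exact Nat.mul_lt_mul_of_pos_left h2 hr0pos
    rw [himg, sum_image (fun a _ b _ h => Nat.eq_of_mul_eq_mul_left hr0pos h)]
    have hterm : ∀ m ∈ Ico 1 p, D p (3*e+6) (2 * (((q*p : ℕ):ℚ)^2 * (T q (r0*m) * S p 2 (p*(r0*m)))) +
        2 * (((q*p : ℕ):ℚ)^2 * ((p:ℚ)^3 * (S p 2 q * (1/(m:ℚ))^2)))) := by
      intro m hm
      rw [mem_Ico] at hm
      have hpm : ¬ p ∣ m := fun h => by
        have := Nat.le_of_dvd (by omega) h
        omega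
      have h1 := T_top hp he hm.1 hm.2
      rw [← hq, ← hr0] at h1
      have h2 := S2_ref hp h5 he m
      rw [← hq] at h2
      have e0 : p*(r0*m) = q*m := by rw [hqr]; ring
      rw [e0]
      have hS0 : D p e (S p 2 q) := by rw [hq]; exact S2_pow hp h5 he
      have hSm : D p e (S p 2 (q*m)) := by rw [hq]; exact S2_gen hp h5 he m
      obtain ⟨t, ht⟩ : ∃ t : ℚ, t = T q (r0*m) := ⟨_, rfl⟩
      obtain ⟨sm, hsm⟩ : ∃ t : ℚ, t = S p 2 (q*m) := ⟨_, rfl⟩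
      obtain ⟨s0, hs0⟩ : ∃ t : ℚ, t = S p 2 q := ⟨_, rfl⟩
      rw [← ht] at h1 ⊢
      rw [← hsm] at h2 hSm ⊢
      rw [← hs0] at h2 hS0 ⊢
      have hu := D_inv hp hpm
      have hm0 := cast_ne hpm
      obtain ⟨u, huu⟩ : ∃ u : ℚ, u = 1/(m:ℚ) := ⟨_, rfl⟩
      have hum : u * m = 1 := by rw [huu]; field_simp
      rw [← huu] at h1 hu ⊢
      have e1 : 2 * (((q*p : ℕ):ℚ)^2 * (t * sm)) + 2 * (((q*p : ℕ):ℚ)^2 * ((p:ℚ)^3 * (s0 * u^2))) =
          ((2:ℤ):ℚ) * (((q*p : ℕ):ℚ)^2 * ((t + (p:ℚ)^3*u^3) * sm)) -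
          ((2:ℤ):ℚ) * (((q*p : ℕ):ℚ)^2 * ((p:ℚ)^3 * (u^3 * (sm - m*s0)))) := by
        push_cast
        linear_combination (-2 * ((q:ℚ)*p)^2 * (p:ℚ)^3 * u^2 * s0) * hum
      rw [e1]
      refine D_sub hp (D_mul_left hp (D_int hp 2) ?_) (D_mul_left hp (D_int hp 2) ?_)
      · exact D_mono (by omega) (D_mul hp (D_pow hp hDn 2) (D_mul hp h1 hSm))
      · exact D_mono (by omega) (D_mul hp (D_pow hp hDn 2) (D_mul hp (D_ppow hp 3)
          (D_mul_left hp (D_pow0 hp 3 hu) h2)))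
    have h1 := D_sum hp _ _ hterm
    rw [sum_add_distrib] at h1
    have h2 : D p (3*e+6) (∑ m ∈ Ico 1 p, 2 * (((q*p : ℕ):ℚ)^2 * ((p:ℚ)^3 * (S p 2 q * (1/(m:ℚ))^2)))) := by
      have e2 : ∑ m ∈ Ico 1 p, 2 * (((q*p : ℕ):ℚ)^2 * ((p:ℚ)^3 * (S p 2 q * (1/(m:ℚ))^2))) =
          ((2:ℤ):ℚ) * (((q*p : ℕ):ℚ)^2 * ((p:ℚ)^3 * (S p 2 q * S p 2 p))) := by
        have e3 : S p 2 p = ∑ m ∈ Ico 1 p, (1/(m:ℚ))^2 := by
          obtain ⟨L, hL⟩ : ∃ L, p = L+1 := ⟨p-1, by have := hp.pos; omega⟩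
          have : S p 2 p = ∑ l ∈ Ico 1 p, w p 2 l := by
            have h := S_Ico (p := p) 2 L
            rw [← hL] at h
            exact h
          rw [this]
          apply sum_congr rfl
          intro m hm
          rw [mem_Ico] at hm
          have hpm : ¬ p ∣ m := fun h => by
            have := Nat.le_of_dvd (by omega) h
            omega
          unfold w
          rw [if_neg hpm]
        rw [e3, mul_sum, mul_sum, mul_sum, mul_sum]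
        push_cast
        rfl
      rw [e2]
      have hS0 : D p e (S p 2 q) := by rw [hq]; exact S2_pow hp h5 he
      have hSp : D p 1 (S p 2 p) := by
        have := S2_pow hp h5 (le_refl 1)
        rwa [pow_one] at this
      exact D_mul_left hp (D_int hp 2) (D_mono (by omega) (D_mul hp (D_pow hp hDn 2)
        (D_mul hp (D_ppow hp 3) (D_mul hp hS0 hSp))))
    have h3 := D_sub hp h1 h2
    rwa [add_sub_cancel_right] at h3
  · -- the others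
    apply D_sum hp
    intro j hj
    rw [mem_filter, mem_Ico] at hj
    obtain ⟨v, u, hu, h, hle⟩ := decomp hp hj.1.1
    have hv : v < e - 1 := by
      by_contra hcon
      push Not at hcon
      apply hj.2
      rw [h, hr0]
      exact Dvd.dvd.mul_right (pow_dvd_pow p hcon) u
    have hT : D p ((e-v)*3) (T q j) := by
      rw [hq]
      apply T_div hp hj.1.1 (by rw [← hq]; exact hj.1.2)
      have := D_div hp (N := e) (v := v) hu (by omega)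
      rwa [← h] at this
    have hS : D p (v+1) (S p 2 (p*j)) := by
      have e1 : p*j = p^(v+1)*u := by rw [h, pow_succ]; ring
      rw [e1]
      exact S2_gen hp h5 (by omega) u
    have e2 : 2 * (((q*p : ℕ):ℚ)^2 * (T q j * S p 2 (p*j))) =
        ((2:ℤ):ℚ) * (((q*p : ℕ):ℚ)^2 * (T q j * S p 2 (p*j))) := by push_cast; ring
    rw [e2]
    exact D_mul_left hp (D_int hp 2) (D_mono (by omega) (D_mul hp (D_pow hp hDn 2)
      (D_mul hp hT hS)))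

/-- the supercongruence for the sums. -/
theorem super (hp : p.Prime) (h5 : 5 ≤ p) {e : ℕ} (he : 1 ≤ e) :
    D p (3*e+6) (∑ j ∈ range (p^(e+1)), T (p^(e+1)) j - ∑ j ∈ range (p^e), T (p^e) j) := by
  have hA := claimA hp h5 he
  have hB := claimB hp h5 he
  have hq0 : 1 ≤ p^e := Nat.pow_pos hp.pos
  have hn : p^(e+1) = p^e*p := pow_succ p e
  rw [hn] at hA ⊢
  obtain ⟨q, hq⟩ : ∃ q : ℕ, q = p^e := ⟨_, rfl⟩
  rw [← hq] at hA hB hq0 ⊢
  have hsplit : ∑ j ∈ range (q*p), T (q*p) j =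
      (∑ j ∈ range (q*p), if p ∣ j then 0 else T (q*p) j) + ∑ j ∈ range q, T (q*p) (p*j) := by
    have h1 := sum_filter_add_sum_filter_not (range (q*p)) (fun j => p ∣ j) (fun j => T (q*p) j)
    have himg : (range (q*p)).filter (fun j => p ∣ j) = (range q).image (fun l => p*l) := by
      ext i
      simp only [mem_filter, mem_range, mem_image]
      constructor
      · rintro ⟨h1, ⟨l, rfl⟩⟩
        refine ⟨l, ?_, rfl⟩
        rw [mul_comm q p] at h1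
        exact Nat.lt_of_mul_lt_mul_left h1
      · rintro ⟨l, h1, rfl⟩
        rw [mul_comm q p]
        exact ⟨Nat.mul_lt_mul_of_pos_left h1 hp.pos, dvd_mul_right p l⟩
    rw [← h1, himg, sum_image (fun a _ b _ h => Nat.eq_of_mul_eq_mul_left hp.pos h), sum_filter]
    rw [add_comm]
    congr 1
    apply sum_congr rfl
    intro j _
    by_cases h : p ∣ j
    · rw [if_neg (not_not.2 h), if_pos h]
    · rw [if_pos h, if_neg h]
  have hIco : ∀ f : ℕ → ℚ, ∑ j ∈ range q, f j = f 0 + ∑ j ∈ Ico 1 q, f j := by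
    intro f
    rw [range_eq_Ico, sum_eq_sum_Ico_succ_bot (by omega)]
  rw [hsplit, hIco (fun j => T (q*p) (p*j)), hIco (fun j => T q j)]
  have h0 : T (q*p) (p*0) = T q 0 := by
    unfold T
    simp
  rw [h0]
  have e1 : (∑ j ∈ range (q*p), if p ∣ j then 0 else T (q*p) j) +
      (T q 0 + ∑ j ∈ Ico 1 q, T (q*p) (p*j)) - (T q 0 + ∑ j ∈ Ico 1 q, T q j) =
      (∑ j ∈ range (q*p), if p ∣ j then 0 else T (q*p) j) +
      ∑ j ∈ Ico 1 q, (T (q*p) (p*j) - T q j) := by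
    rw [sum_sub_distrib]; ring
  rw [e1]
  exact D_add hp hA hB

end Pool.Agent.R472.Bala
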