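import Pool.Agent.R472.BalaCore

namespace Pool.Agent.R472.Bala

open Finset

variable {p : ℕ}

/-- `j^{-s}` restricted to the integers prime to `p`. -/
def w (p s j : ℕ) : ℚ := if p ∣ j then 0 else (1/(j:ℚ))^s

/-- the sum of `j^{-s}` over `j < N` prime to `p`. -/
def S (p s N : ℕ) : ℚ := ∑ j ∈ range N, w p s j

theorem w_int (hp : p.Prime) (s j : ℕ) : D p 0 (w p s j) := by
  unfold w
  split_ifs with h
  · exact D_zero hp 0
  · have := D_pow hp (D_inv hp h) s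
    rwa [zero_mul] at this

theorem S_int (hp : p.Prime) (s N : ℕ) : D p 0 (S p s N) :=
  D_sum hp _ _ fun j _ => w_int hp s j

theorem cast_ne {j : ℕ} (h : ¬ p ∣ j) : (j:ℚ) ≠ 0 := by
  have : j ≠ 0 := by rintro rfl; exact h (dvd_zero p)
  exact_mod_cast this

theorem w_shift (hp : p.Prime) {v q : ℕ} (hq : p ∣ q) (hv : D p v (q:ℚ)) (s l c : ℕ) :
    D p v (w p s (q*l + c) - w p s c) := by
  have hiff : p ∣ q*l + c ↔ p ∣ c := (Nat.dvd_add_right (Dvd.dvd.mul_right hq l))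
  unfold w
  by_cases hc : p ∣ c
  · rw [if_pos (hiff.2 hc), if_pos hc, sub_self]
    exact D_zero hp v
  · have hc' : ¬ p ∣ q*l + c := fun h => hc (hiff.1 h)
    rw [if_neg hc', if_neg hc]
    apply D_pow_sub hp (D_inv hp hc') (D_inv hp hc)
    have h1 := cast_ne hc
    have h2 := cast_ne hc'
    have e : 1/((q*l+c : ℕ):ℚ) - 1/(c:ℚ) = -((q:ℚ) * ((l:ℚ) * ((1/((q*l+c : ℕ):ℚ)) * (1/(c:ℚ))))) := by
      field_simp
      push_cast
      ring
    rw [e]
    exact D_neg (D_mul_right hp hv (D_mul_left hp (D_nat hp l) (D_mul_left hp (D_inv hp hc') (D_inv hp hc))))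

theorem S_add (s q M : ℕ) : S p s (q*(M+1)) = S p s (q*M) + ∑ c ∈ range q, w p s (q*M + c) := by
  unfold S
  rw [Nat.mul_succ, sum_range_add]

theorem S_block (hp : p.Prime) {v q : ℕ} (hq : p ∣ q) (hv : D p v (q:ℚ)) (s M : ℕ) :
    D p v (S p s (q*M) - M * S p s q) := by
  induction M with
  | zero => simp [S]; exact D_zero hp v
  | succ M ih =>
    rw [S_add]
    have e : S p s (q*M) + ∑ c ∈ range q, w p s (q*M + c) - ((M+1 : ℕ):ℚ) * S p s q =
        (S p s (q*M) - M * S p s q) + ∑ c ∈ range q, (w p s (q*M + c) - w p s c) := by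
      rw [sum_sub_distrib]
      unfold S
      push_cast
      ring
    rw [e]
    exact D_add hp ih (D_sum hp _ _ fun c _ => w_shift hp hq hv s M c)

theorem S_reflect {q : ℕ} (hq : p ∣ q) (s : ℕ) : ∑ j ∈ range q, w p s (q - j) = S p s q := by
  have h1 : ∑ j ∈ range q, w p s (q - j) = ∑ j ∈ range q, w p s (j + 1) := by
    rw [← sum_range_reflect (fun j => w p s (j+1)) q]
    apply sum_congr rfl
    intro j hj
    rw [mem_range] at hj
    congr 1
    omega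
  have h2 : S p s q + w p s q = ∑ j ∈ range q, w p s (j+1) + w p s 0 := by
    unfold S
    rw [← sum_range_succ, sum_range_succ']
  have h3 : w p s q = 0 := if_pos hq
  have h4 : w p s 0 = 0 := if_pos (dvd_zero p)
  rw [h1]
  linarith

theorem rel_inv {n j : ℕ} (hj : j < n) (h0 : (j:ℚ) ≠ 0) :
    1/((n-j : ℕ):ℚ) + 1/(j:ℚ) - n * (1/(j:ℚ)) * (1/((n-j : ℕ):ℚ)) = 0 := by
  have h1 : ((n-j : ℕ):ℚ) = n - j := by rw [Nat.cast_sub hj.le]
  have h2 : (n:ℚ) - j ≠ 0 := by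
    rw [← h1]
    have : n - j ≠ 0 := by omega
    exact_mod_cast this
  rw [h1]
  field_simp
  ring

theorem not_dvd_sub {n j : ℕ} (hn : p ∣ n) (hj : j < n) (h : ¬ p ∣ j) : ¬ p ∣ n - j := by
  intro hc
  apply h
  have : j = n - (n - j) := by omega
  rw [this]
  exact Nat.dvd_sub hn hc

theorem dvd_sub' {n j : ℕ} (hn : p ∣ n) (h : p ∣ j) : p ∣ n - j := Nat.dvd_sub hn h

/-- `2 S_3(n) + 3 n S_4(n) ≡ 0 (mod p^(2k))` if `p^k | n`. -/
theorem S3_S4 (hp : p.Prime) {k n : ℕ} (hn : p ∣ n) (hk : D p k (n:ℚ)) :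
    D p (k+k) (2 * S p 3 n + 3 * n * S p 4 n) := by
  have e : 2 * S p 3 n + 3 * n * S p 4 n =
      ∑ j ∈ range n, (w p 3 (n-j) + w p 3 j + 3 * n * w p 4 j) := by
    rw [sum_add_distrib, sum_add_distrib, S_reflect hn, ← mul_sum]
    unfold S
    ring
  rw [e]
  apply D_sum hp
  intro j hj
  rw [mem_range] at hj
  unfold w
  by_cases hc : p ∣ j
  · rw [if_pos hc, if_pos hc, if_pos (dvd_sub' hn hc)]
    simp only [mul_zero, add_zero]
    exact D_zero hp _
  · have hc' := not_dvd_sub hn hj hc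
    rw [if_neg hc, if_neg hc, if_neg hc']
    have hrel := rel_inv hj (cast_ne hc)
    have ha := D_inv hp hc
    have hb := D_inv hp hc'
    obtain ⟨a, haa⟩ : ∃ a : ℚ, a = 1/(j:ℚ) := ⟨_, rfl⟩
    obtain ⟨b, hbb⟩ : ∃ b : ℚ, b = 1/((n-j : ℕ):ℚ) := ⟨_, rfl⟩
    rw [← haa, ← hbb] at hrel
    rw [← haa] at ha
    rw [← hbb] at hb
    rw [← haa, ← hbb]
    have e2 : b^3 + a^3 + 3*n*a^4 = ((n:ℚ)*n) * (((3:ℤ):ℚ)*(a^4*b) - ((3:ℤ):ℚ)*(a^3*b^2) + n*(a^3*b^3)) := by
      push_cast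
      linear_combination (b^2 + b*(-a+n*a*b) + (-a+n*a*b)^2 + 3*n*a^3) * hrel
    rw [e2]
    have hz : ∀ {x : ℚ} (s : ℕ), D p 0 x → D p 0 (x^s) := by
      intro x s hx
      have := D_pow hp hx s
      rwa [zero_mul] at this
    refine D_mul_right hp (D_mul hp hk hk) (D_add hp (D_sub hp ?_ ?_) ?_)
    · exact D_mul_left hp (D_int hp 3) (D_mul_left hp (hz 4 ha) hb)
    · exact D_mul_left hp (D_int hp 3) (D_mul_left hp (hz 3 ha) (hz 2 hb))
    · exact D_mul_left hp (D_nat hp n) (D_mul_left hp (hz 3 ha) (hz 3 hb))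

theorem two_unit (hp : p.Prime) (h5 : 5 ≤ p) : ¬ (p:ℤ) ∣ 2 := by
  intro h
  have := Int.le_of_dvd (by norm_num) h
  omega

theorem three_unit (hp : p.Prime) (h5 : 5 ≤ p) : ¬ (p:ℤ) ∣ 3 := by
  intro h
  have := Int.le_of_dvd (by norm_num) h
  omega

/-- `S_3(n) ≡ 0 (mod p)`. -/
theorem S3_one (hp : p.Prime) (h5 : 5 ≤ p) {n : ℕ} (hn : p ∣ n) : D p 1 (S p 3 n) := by
  have hn1 : D p 1 (n:ℚ) := by
    obtain ⟨m, rfl⟩ := hn
    push_cast
    exact D_mul_right hp (D_p hp) (D_nat hp m)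
  have h1 := S3_S4 hp hn hn1
  have h2 : D p 1 (3 * n * S p 4 n) := by
    have e : 3 * (n:ℚ) * S p 4 n = n * (((3:ℤ):ℚ) * S p 4 n) := by push_cast; ring
    rw [e]
    exact D_mul_right hp hn1 (D_mul_left hp (D_int hp 3) (S_int hp 4 n))
  have h3 := D_sub hp (D_mono (by norm_num : 1 ≤ 1+1) h1) h2
  have e3 : 2 * S p 3 n + 3 * n * S p 4 n - 3 * n * S p 4 n = ((2:ℤ):ℚ) * S p 3 n := by
    push_cast; ring
  rw [e3] at h3
  exact D_cancel hp (two_unit hp h5) h3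

/-- doubling permutes the residues -/
theorem S2_pow (hp : p.Prime) (h5 : 5 ≤ p) {v : ℕ} (hv : 1 ≤ v) : D p v (S p 2 (p^v)) := by
  obtain ⟨P, hP⟩ : ∃ P : ℕ, P = p^v := ⟨_, rfl⟩
  rw [← hP]
  have hpP : p ∣ P := by rw [hP]; exact dvd_pow_self p (by omega)
  have hP0 : 0 < P := by rw [hP]; exact Nat.pow_pos hp.pos
  have hDP : D p v (P:ℚ) := by
    rw [hP]; push_cast; exact D_ppow hp v
  have hcop : Nat.Coprime 2 P := by
    rw [hP]
    apply Nat.Coprime.pow_right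
    rw [Nat.coprime_primes Nat.prime_two hp]
    omega
  have hinj : Set.InjOn (fun j => (2*j) % P) (range P : Set ℕ) := by
    intro j hj j' hj' hjj
    simp only [coe_range, Set.mem_Iio] at hj hj'
    simp only at hjj
    have h1 : 2*j ≡ 2*j' [MOD P] := hjj
    have h2 : j ≡ j' [MOD P] := Nat.ModEq.cancel_left_of_coprime (by rwa [Nat.coprime_comm] at hcop) h1
    have h3 : j % P = j' % P := h2
    rwa [Nat.mod_eq_of_lt hj, Nat.mod_eq_of_lt hj'] at h3
  have himg : (range P).image (fun j => (2*j) % P) = range P := by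
    apply Finset.eq_of_subset_of_card_le
    · intro x hx
      rw [mem_image] at hx
      obtain ⟨j, _, rfl⟩ := hx
      exact mem_range.2 (Nat.mod_lt _ hP0)
    · rw [card_image_of_injOn hinj]
  have hsum : S p 2 P = ∑ j ∈ range P, w p 2 ((2*j) % P) := by
    unfold S
    conv_lhs => rw [← himg]
    rw [sum_image hinj]
  have hterm : ∀ j ∈ range P, D p v (4 * w p 2 ((2*j) % P) - w p 2 j) := by
    intro j _
    obtain ⟨c, hc⟩ : ∃ c, c = (2*j) % P := ⟨_, rfl⟩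
    have hdm : P * (2*j/P) + c = 2*j := by rw [hc]; exact Nat.div_add_mod (2*j) P
    rw [← hc]
    have hiff : p ∣ c ↔ p ∣ j := by
      constructor
      · intro h
        have h1 : p ∣ 2*j := by
          rw [← hdm]; exact dvd_add (Dvd.dvd.mul_right hpP _) h
        rcases (Nat.Prime.dvd_mul hp).1 h1 with h | h
        · have := Nat.le_of_dvd (by norm_num) h
          omega
        · exact h
      · intro h
        have h1 : p ∣ P * (2*j/P) + c := by rw [hdm]; exact Dvd.dvd.mul_left h 2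
        exact (Nat.dvd_add_right (Dvd.dvd.mul_right hpP _)).1 h1
    unfold w
    by_cases hj : p ∣ j
    · rw [if_pos hj, if_pos (hiff.2 hj)]
      simp only [mul_zero, sub_zero]
      exact D_zero hp v
    · have hcj : ¬ p ∣ c := fun h => hj (hiff.1 h)
      rw [if_neg hj, if_neg hcj]
      have h1 := cast_ne hj
      have h2 := cast_ne hcj
      have h3 : (P:ℚ) * ((2*j/P : ℕ):ℚ) + c = 2*j := by exact_mod_cast hdm
      have e : 4 * (1/(c:ℚ))^2 - (1/(j:ℚ))^2 =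
          (P:ℚ) * (((2*j/P : ℕ):ℚ) * ((1/(c:ℚ)) * (1/(j:ℚ)) * (((2:ℤ):ℚ) * (1/(c:ℚ)) + 1/(j:ℚ)))) := by
        have e1 : (P:ℚ) * ((2*j/P : ℕ):ℚ) = 2*j - c := by linarith
        have e2 : (P:ℚ) * (((2*j/P : ℕ):ℚ) * ((1/(c:ℚ)) * (1/(j:ℚ)) * (((2:ℤ):ℚ) * (1/(c:ℚ)) + 1/(j:ℚ)))) =
          ((P:ℚ) * ((2*j/P : ℕ):ℚ)) * ((1/(c:ℚ)) * (1/(j:ℚ)) * (2 * (1/(c:ℚ)) + 1/(j:ℚ))) := by
          push_cast; ring
        rw [e2, e1]
        field_simp
        ring
      rw [e]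
      have ha := D_inv hp hcj
      have hb := D_inv hp hj
      exact D_mul_right hp hDP (D_mul_left hp (D_nat hp _) (D_mul_left hp (D_mul_left hp ha hb)
        (D_add hp (D_mul_left hp (D_int hp 2) ha) hb)))
  have h3 : D p v (∑ j ∈ range P, (4 * w p 2 ((2*j) % P) - w p 2 j)) := D_sum hp _ _ hterm
  rw [sum_sub_distrib, ← mul_sum, ← hsum] at h3
  have e : 4 * S p 2 P - ∑ j ∈ range P, w p 2 j = ((3:ℤ):ℚ) * S p 2 P := by
    have : ∑ j ∈ range P, w p 2 j = S p 2 P := rfl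
    rw [this]; push_cast; ring
  rw [e] at h3
  exact D_cancel hp (three_unit hp h5) h3

theorem S2_gen (hp : p.Prime) (h5 : 5 ≤ p) {v : ℕ} (hv : 1 ≤ v) (M : ℕ) :
    D p v (S p 2 (p^v*M)) := by
  have h1 := S_block hp (v := v) (q := p^v) (dvd_pow_self p (by omega)) (by
    push_cast; exact D_ppow hp v) 2 M
  have h2 := D_mul_left hp (D_nat hp M) (S2_pow hp h5 hv)
  have := D_add hp h1 h2
  rwa [sub_add_cancel] at this

/-- refined block formula for `S_2`. -/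
theorem S2_ref (hp : p.Prime) (h5 : 5 ≤ p) {e : ℕ} (he : 1 ≤ e) (m : ℕ) :
    D p (e+1) (S p 2 (p^e*m) - m * S p 2 (p^e)) := by
  obtain ⟨q, hq⟩ : ∃ q : ℕ, q = p^e := ⟨_, rfl⟩
  have hpq : p ∣ q := by rw [hq]; exact dvd_pow_self p (by omega)
  have hDq : D p e (q:ℚ) := by rw [hq]; push_cast; exact D_ppow hp e
  rw [← hq]
  induction m with
  | zero => simp [S]; exact D_zero hp _
  | succ m ih =>
    rw [S_add]
    have e1 : S p 2 (q*m) + ∑ c ∈ range q, w p 2 (q*m + c) - ((m+1 : ℕ):ℚ) * S p 2 q =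
        (S p 2 (q*m) - m * S p 2 q) +
        (∑ c ∈ range q, (w p 2 (q*m + c) - w p 2 c + 2*q*m*w p 3 c) - 2*q*m*S p 3 q) := by
      rw [sum_add_distrib, sum_sub_distrib, ← mul_sum]
      unfold S
      push_cast
      ring
    rw [e1]
    refine D_add hp ih (D_sub hp (D_sum hp _ _ ?_) ?_)
    · intro c _
      have hiff : p ∣ q*m + c ↔ p ∣ c := (Nat.dvd_add_right (Dvd.dvd.mul_right hpq m))
      unfold w
      by_cases hc : p ∣ c
      · rw [if_pos (hiff.2 hc), if_pos hc, if_pos hc]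
        simp only [sub_self, mul_zero, add_zero]
        exact D_zero hp _
      · have hc' : ¬ p ∣ q*m + c := fun h => hc (hiff.1 h)
        rw [if_neg hc', if_neg hc, if_neg hc]
        have ha := D_inv hp hc'
        have hb := D_inv hp hc
        have h1 := cast_ne hc
        have h2 := cast_ne hc'
        have hrel : 1/((q*m+c : ℕ):ℚ) - 1/(c:ℚ) + q*m*(1/((q*m+c : ℕ):ℚ))*(1/(c:ℚ)) = 0 := by
          field_simp
          push_cast
          ring
        obtain ⟨x, hx⟩ : ∃ x : ℚ, x = 1/((q*m+c : ℕ):ℚ) := ⟨_, rfl⟩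
        obtain ⟨y, hy⟩ : ∃ y : ℚ, y = 1/(c:ℚ) := ⟨_, rfl⟩
        rw [← hx, ← hy] at hrel
        rw [← hx] at ha
        rw [← hy] at hb
        rw [← hx, ← hy]
        have e2 : x^2 - y^2 + 2*q*m*y^3 = ((q:ℚ)*q) * ((m:ℚ)^2 * (x*y^2*(x+((2:ℤ):ℚ)*y))) := by
          push_cast
          linear_combination (x + y - q*m*y*(x+2*y)) * hrel
        rw [e2]
        have hz : ∀ {x : ℚ} (s : ℕ), D p 0 x → D p 0 (x^s) := by
          intro x s hx
          have := D_pow hp hx s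
          rwa [zero_mul] at this
        refine D_mono (by omega : e+1 ≤ e+e) (D_mul_right hp (D_mul hp hDq hDq)
          (D_mul_left hp (hz 2 (D_nat hp m)) (D_mul_left hp (D_mul_left hp ha (hz 2 hb))
            (D_add hp ha (D_mul_left hp (D_int hp 2) hb)))))
    · have e3 : 2*(q:ℚ)*m*S p 3 q = ((2:ℤ):ℚ) * ((m:ℚ) * ((q:ℚ) * S p 3 q)) := by
        push_cast; ring
      rw [e3]
      exact D_mul_left hp (D_int hp 2) (D_mul_left hp (D_nat hp m)
        (D_mul hp hDq (S3_one hp h5 hpq)))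

end Pool.Agent.R472.Bala
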