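import Pool.Agent.R472.BalaSums

namespace Pool.Agent.R472.Bala

open Finset

variable {p : ℕ}

/-- the summand, as a rational number -/
def T (n j : ℕ) : ℚ := ((n.choose j * (n-1).choose j * ((n+j-1).choose j)^2 : ℕ) : ℚ)

theorem choose_step (n j : ℕ) : (n.choose (j+1) : ℚ) * (j+1) = n.choose j * ((n:ℚ) - j) := by
  have h := Nat.choose_succ_right_eq n j
  rcases le_or_gt j n with hj | hj
  · have h2 : ((n.choose (j+1) * (j+1) : ℕ) : ℚ) = ((n.choose j * (n - j) : ℕ) : ℚ) := by rw [h]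
    push_cast [Nat.cast_sub hj] at h2
    exact h2
  · rw [Nat.choose_eq_zero_of_lt hj, Nat.choose_eq_zero_of_lt (by omega)]
    simp

theorem T_step {n j : ℕ} (hn : 1 ≤ n) :
    T n (j+1) * ((j:ℚ)+1)^4 = T n j * ((n:ℚ) - j) * ((n:ℚ) - 1 - j) * ((n:ℚ) + j)^2 := by
  have h1 := choose_step n j
  have h2 := choose_step (n-1) j
  have h3 : (((n+j).choose (j+1) : ℕ) : ℚ) * (j+1) = ((n:ℚ) + j) * ((n+j-1).choose j : ℕ) := by
    have h := Nat.add_one_mul_choose_eq (n+j-1) j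
    have e : n + j - 1 + 1 = n + j := by omega
    rw [e] at h
    have h' : (((n + j) * (n+j-1).choose j : ℕ) : ℚ) = (((n+j).choose (j+1) * (j+1) : ℕ) : ℚ) := by
      rw [h]
    push_cast at h'
    linarith
  have hc : ((n-1 : ℕ):ℚ) = (n:ℚ) - 1 := by rw [Nat.cast_sub hn]; simp
  rw [hc] at h2
  have e : n + (j+1) - 1 = n + j := by omega
  unfold T
  rw [e]
  push_cast
  calc (n.choose (j+1) : ℚ) * ((n-1).choose (j+1)) * ((n+j).choose (j+1))^2 * ((j:ℚ)+1)^4
      = ((n.choose (j+1) : ℚ) * (j+1)) * (((n-1).choose (j+1) : ℚ) * (j+1)) *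
        (((n+j).choose (j+1) : ℚ) * (j+1))^2 := by ring
    _ = (n.choose j * ((n:ℚ) - j)) * ((n-1).choose j * ((n:ℚ) - 1 - j)) *
        (((n:ℚ) + j) * ((n+j-1).choose j : ℕ))^2 := by rw [h1, h2, h3]
    _ = _ := by ring

theorem T_formula {n : ℕ} (hn : 1 ≤ n) {j : ℕ} (hj : 1 ≤ j) :
    T n j = -((n:ℚ)/j)^3 * (1 - (n:ℚ)/j) * ∏ i ∈ Ico 1 j, (1 - ((n:ℚ)/i)^2)^2 := by
  induction j, hj using Nat.le_induction with
  | base =>
    unfold T
    simp only [Nat.choose_one_right, Ico_self, prod_empty, Nat.cast_one, div_one, mul_one,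
      Nat.add_sub_cancel]
    push_cast [Nat.cast_sub hn]
    ring
  | succ j hj ih =>
    have h := T_step (n := n) (j := j) hn
    rw [prod_Ico_succ_top hj]
    have hj0 : (j:ℚ) ≠ 0 := by
      have : j ≠ 0 := by omega
      exact_mod_cast this
    have hj1 : (j:ℚ) + 1 ≠ 0 := by positivity
    obtain ⟨P, hP⟩ : ∃ P : ℚ, P = ∏ i ∈ Ico 1 j, (1 - ((n:ℚ)/i)^2)^2 := ⟨_, rfl⟩
    rw [← hP] at ih ⊢
    have h2 : T n (j+1) = T n j * ((n:ℚ) - j) * ((n:ℚ) - 1 - j) * ((n:ℚ) + j)^2 / ((j:ℚ)+1)^4 := by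
      rw [eq_div_iff (by positivity)]
      exact h
    rw [h2, ih]
    push_cast
    field_simp
    ring

/-- `p^N / (p^v u)` -/
theorem D_div (hp : p.Prime) {N v u : ℕ} (hu : ¬ p ∣ u) (hv : v ≤ N) :
    D p (N - v) (((p^N : ℕ):ℚ) / ((p^v*u : ℕ):ℚ)) := by
  have hp0 : (p:ℚ) ≠ 0 := by exact_mod_cast hp.ne_zero
  have hu0 := cast_ne hu
  have e : ((p^N : ℕ):ℚ) / ((p^v*u : ℕ):ℚ) = (p:ℚ)^(N-v) * (1/(u:ℚ)) := by
    push_cast
    have : (p:ℚ)^N = (p:ℚ)^(N-v) * (p:ℚ)^v := by rw [← pow_add]; congr 1; omega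
    rw [this]
    field_simp
  rw [e]
  exact D_mul_right hp (D_ppow hp _) (D_inv hp hu)

theorem decomp (hp : p.Prime) {i : ℕ} (hi : 1 ≤ i) : ∃ v u, ¬ p ∣ u ∧ i = p^v * u ∧ p^v ≤ i := by
  obtain ⟨v, u, hu, h⟩ := Nat.exists_eq_pow_mul_and_not_dvd (by omega : i ≠ 0) p hp.ne_one
  refine ⟨v, u, hu, h, ?_⟩
  have hu0 : 1 ≤ u := by
    rcases Nat.eq_zero_or_pos u with h0 | h0
    · rw [h0] at hu; exact absurd (dvd_zero p) hu
    · exact h0
  calc p^v = p^v * 1 := by ring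
    _ ≤ p^v * u := Nat.mul_le_mul_left _ hu0
    _ = i := h.symm

/-- `p^N / i` for `1 ≤ i < p^N` is divisible by `p`. -/
theorem D_div_one (hp : p.Prime) {N i : ℕ} (hi : 1 ≤ i) (hiN : i < p^N) :
    D p 1 (((p^N : ℕ):ℚ) / (i:ℚ)) := by
  obtain ⟨v, u, hu, h, hle⟩ := decomp hp hi
  have hv : v < N := by
    by_contra hcon
    push Not at hcon
    have := Nat.pow_le_pow_right hp.pos hcon
    omega
  have := D_div hp hu hv.le
  rw [← h] at this
  exact D_mono (by omega) this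

/-- `p^(e+1) / i` for `i` not divisible by `p^e` is divisible by `p^2`. -/
theorem D_div_two (hp : p.Prime) {e i : ℕ} (hi : 1 ≤ i) (hnd : ¬ p^e ∣ i) :
    D p 2 (((p^(e+1) : ℕ):ℚ) / (i:ℚ)) := by
  obtain ⟨v, u, hu, h, hle⟩ := decomp hp hi
  have hv : v < e := by
    by_contra hcon
    push Not at hcon
    apply hnd
    rw [h]
    exact Dvd.dvd.mul_right (pow_dvd_pow p hcon) u
  have := D_div hp (N := e+1) (v := v) hu (by omega)
  rw [← h] at this
  exact D_mono (by omega) this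

theorem S_Ico (s L : ℕ) : S p s (L+1) = ∑ l ∈ Ico 1 (L+1), w p s l := by
  unfold S
  rw [range_eq_Ico, ← sum_Ico_consecutive _ (Nat.zero_le 1) (by omega : 1 ≤ L+1)]
  have : ∑ i ∈ Ico 0 1, w p s i = 0 := by
    simp [w]
  rw [this, zero_add]

/-- the sum `∑_{i<j} (n/i)^2` modulo `p^4`, `n = p^(e+1)`. -/
theorem sum_sq (hp : p.Prime) {e j : ℕ} (he : 1 ≤ e) (hj : j < p^(e+1)) (hpj : ¬ p ∣ j) :
    D p 4 (∑ i ∈ Ico 1 j, (((p^(e+1) : ℕ):ℚ)/i)^2 - (p:ℚ)^2 * S p 2 (j/p^e + 1)) := by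
  obtain ⟨q, hq⟩ : ∃ q : ℕ, q = p^e := ⟨_, rfl⟩
  have hq0 : 0 < q := by rw [hq]; exact Nat.pow_pos hp.pos
  have hpq : p ∣ q := by rw [hq]; exact dvd_pow_self p (by omega)
  have hn : p^(e+1) = q*p := by rw [hq, pow_succ]
  have hqj : ¬ q ∣ j := fun h => hpj (hpq.trans h)
  rw [← hq]
  have himg : (Ico 1 j).filter (fun i => q ∣ i) = (Ico 1 (j/q + 1)).image (fun l => q*l) := by
    ext i
    simp only [mem_filter, mem_Ico, mem_image]
    constructor
    · rintro ⟨⟨h1, h2⟩, ⟨l, rfl⟩⟩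
      refine ⟨l, ⟨?_, ?_⟩, rfl⟩
      · rcases Nat.eq_zero_or_pos l with h0 | h0
        · rw [h0, mul_zero] at h1; omega
        · exact h0
      · have : l ≤ j/q := by
          rw [Nat.le_div_iff_mul_le hq0]
          linarith [mul_comm q l]
        omega
    · rintro ⟨l, ⟨h1, h2⟩, rfl⟩
      have h3 : l ≤ j/q := by omega
      rw [Nat.le_div_iff_mul_le hq0] at h3
      refine ⟨⟨?_, ?_⟩, dvd_mul_right q l⟩
      · exact Nat.mul_pos hq0 h1
      · have h4 : q*l ≤ j := by linarith [mul_comm q l]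
        rcases Nat.lt_or_eq_of_le h4 with h5 | h5
        · exact h5
        · exact absurd ⟨l, h5.symm⟩ hqj
  have hsplit := sum_filter_add_sum_filter_not (Ico 1 j) (fun i => q ∣ i)
    (fun i => (((p^(e+1) : ℕ):ℚ)/i)^2)
  have hmul : ∑ i ∈ (Ico 1 j).filter (fun i => q ∣ i), (((p^(e+1) : ℕ):ℚ)/i)^2 =
      (p:ℚ)^2 * S p 2 (j/q + 1) := by
    rw [himg, sum_image (fun a _ b _ h => Nat.eq_of_mul_eq_mul_left hq0 h), S_Ico, mul_sum]
    apply sum_congr rfl
    intro l hl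
    rw [mem_Ico] at hl
    have hl1 : l < p := by
      have h3 : l ≤ j/q := by omega
      rw [Nat.le_div_iff_mul_le hq0] at h3
      rw [hn] at hj
      by_contra hcon
      push Not at hcon
      nlinarith
    have hpl : ¬ p ∣ l := fun h => by
      have := Nat.le_of_dvd (by omega) h
      omega
    unfold w
    rw [if_neg hpl, hn]
    have hqq : (q:ℚ) ≠ 0 := by exact_mod_cast hq0.ne'
    have hll := cast_ne hpl
    push_cast
    field_simp
  rw [← hsplit, hmul]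
  have e1 : (p:ℚ)^2 * S p 2 (j/q + 1) + ∑ i ∈ (Ico 1 j).filter (fun i => ¬ q ∣ i),
      (((p^(e+1) : ℕ):ℚ)/i)^2 - (p:ℚ)^2 * S p 2 (j/q + 1) =
      ∑ i ∈ (Ico 1 j).filter (fun i => ¬ q ∣ i), (((p^(e+1) : ℕ):ℚ)/i)^2 := by ring
  rw [e1]
  apply D_sum hp
  intro i hi
  rw [mem_filter, mem_Ico] at hi
  have h1 := D_div_two hp (e := e) hi.1.1 (by rw [← hq]; exact hi.2)
  exact D_pow hp h1 2

/-- Claim A. -/
theorem claimA (hp : p.Prime) (h5 : 5 ≤ p) {e : ℕ} (he : 1 ≤ e) :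
    D p (3*e+6) (∑ j ∈ range (p^(e+1)), if p ∣ j then 0 else T (p^(e+1)) j) := by
  obtain ⟨q, hq⟩ : ∃ q : ℕ, q = p^e := ⟨_, rfl⟩
  obtain ⟨n, hn⟩ : ∃ n : ℕ, n = p^(e+1) := ⟨_, rfl⟩
  have hq0 : 0 < q := by rw [hq]; exact Nat.pow_pos hp.pos
  have hpq : p ∣ q := by rw [hq]; exact dvd_pow_self p (by omega)
  have hnq : n = q*p := by rw [hn, hq, pow_succ]
  have hpn : p ∣ n := by rw [hn]; exact dvd_pow_self p (by omega)
  have hn1 : 1 ≤ n := by rw [hn]; exact Nat.pow_pos hp.pos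
  have hDn : D p (e+1) (n:ℚ) := by rw [hn]; push_cast; exact D_ppow hp _
  have hDq : D p e (q:ℚ) := by rw [hq]; push_cast; exact D_ppow hp _
  rw [← hn]
  -- the normalized sum
  have key : D p 3 (∑ j ∈ range n, if p ∣ j then 0 else
      (1/(j:ℚ))^3 * (1 - (n:ℚ)/j) * ∏ i ∈ Ico 1 j, (1 - ((n:ℚ)/i)^2)^2) := by
    have hmain : D p 3 (∑ j ∈ range n, ((if p ∣ j then 0 else
        (1/(j:ℚ))^3 * (1 - (n:ℚ)/j) * ∏ i ∈ Ico 1 j, (1 - ((n:ℚ)/i)^2)^2) -
        (w p 3 j - n * w p 4 j - 2 * (p:ℚ)^2 * (w p 3 j * S p 2 (j/q+1))))) := by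
      apply D_sum hp
      intro j hj
      rw [mem_range] at hj
      unfold w
      by_cases hpj : p ∣ j
      · rw [if_pos hpj, if_pos hpj, if_pos hpj]
        simp only [mul_zero, zero_mul, sub_zero, sub_self]
        exact D_zero hp 3
      · rw [if_neg hpj, if_neg hpj, if_neg hpj]
        have hsq := sum_sq hp he (by rw [← hn]; exact hj) hpj
        rw [← hn, ← hq] at hsq
        have hx : ∀ i ∈ Ico 1 j, D p 2 (((n:ℚ)/i)^2) := by
          intro i hi
          rw [mem_Ico] at hi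
          have h1 : D p 1 ((n:ℚ)/(i:ℚ)) := by
            have := D_div_one hp (N := e+1) hi.1 (by rw [← hn]; omega)
            rwa [← hn] at this
          exact D_pow hp h1 2
        have hprod := D_prod_exp hp (Ico 1 j) (fun i => ((n:ℚ)/i)^2) hx
        obtain ⟨Q, hQ⟩ : ∃ Q : ℚ, Q = ∏ i ∈ Ico 1 j, (1 - ((n:ℚ)/i)^2)^2 := ⟨_, rfl⟩
        rw [← hQ] at hprod ⊢
        obtain ⟨sg, hsg⟩ : ∃ s : ℚ, s = ∑ i ∈ Ico 1 j, ((n:ℚ)/i)^2 := ⟨_, rfl⟩
        rw [← hsg] at hprod hsq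
        obtain ⟨h, hh⟩ : ∃ h : ℚ, h = S p 2 (j/q+1) := ⟨_, rfl⟩
        rw [← hh] at hsq ⊢
        have hh0 : D p 0 h := by rw [hh]; exact S_int hp _ _
        -- Q = 1 - 2 p^2 h mod p^4
        have hQ4 : D p 4 (Q - (1 - 2 * (p:ℚ)^2 * h)) := by
          have e1 : Q - (1 - 2 * (p:ℚ)^2 * h) = (Q - (1 - 2 * sg)) - ((2:ℤ):ℚ) * (sg - (p:ℚ)^2 * h) := by
            push_cast; ring
          rw [e1]
          exact D_sub hp hprod (D_mul_left hp (D_int hp 2) hsq)
        have ha := D_inv hp hpj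
        have hj0 := cast_ne hpj
        obtain ⟨a, haa⟩ : ∃ a : ℚ, a = 1/(j:ℚ) := ⟨_, rfl⟩
        rw [← haa] at ha
        have hna : (n:ℚ)/j = n*a := by rw [haa]; ring
        rw [← haa, hna]
        have e2 : a^3 * (1 - n*a) * Q - (a^3 - n*a^4 - 2*(p:ℚ)^2*(a^3*h)) =
            (a^3 * (1 - n*a)) * (Q - (1 - 2*(p:ℚ)^2*h)) + (n:ℚ) * ((p:ℚ)^2 * (((2:ℤ):ℚ) * (a^4*h))) := by
          push_cast; ring
        rw [e2]
        have hz : ∀ {x : ℚ} (s : ℕ), D p 0 x → D p 0 (x^s) := by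
          intro x s hx
          have := D_pow hp hx s
          rwa [zero_mul] at this
        have h1 : D p 0 (1:ℚ) := by simpa using D_int hp 1
        refine D_add hp ?_ ?_
        · exact D_mono (by norm_num) (D_mul_left hp (D_mul_left hp (hz 3 ha)
            (D_sub hp h1 (D_mul_left hp (D_nat hp n) ha))) hQ4)
        · refine D_mono (by omega : 3 ≤ e+1+(2+0)) (D_mul hp hDn (D_mul hp (D_ppow hp 2)
            (D_mul_left hp (D_int hp 2) (D_mul_left hp (hz 4 ha) hh0))))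
    have hrest : D p 3 (∑ j ∈ range n, (w p 3 j - n * w p 4 j -
        2 * (p:ℚ)^2 * (w p 3 j * S p 2 (j/q+1)))) := by
      rw [sum_sub_distrib, sum_sub_distrib, ← mul_sum, ← mul_sum]
      have hS4 : D p 1 (S p 4 n) := by
        have h1 := S_block hp hpq hDq 4 p
        rw [← hnq] at h1
        have h2 : D p 1 ((p:ℚ) * S p 4 q) := D_mul_right hp (D_p hp) (S_int hp 4 q)
        have := D_add hp (D_mono he h1) h2
        rwa [sub_add_cancel] at this
      have hnS4 : D p 3 ((n:ℚ) * S p 4 n) := D_mono (by omega : 3 ≤ e+1+1) (D_mul hp hDn hS4)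
      have hS3 : D p 3 (S p 3 n) := by
        have h1 := S3_S4 hp hpn hDn
        have h2 := D_sub hp (D_mono (by omega : 3 ≤ e+1+(e+1)) h1)
          (D_mul_left hp (D_int hp 3) hnS4)
        have e3 : 2 * S p 3 n + 3 * n * S p 4 n - ((3:ℤ):ℚ) * (n * S p 4 n) =
            ((2:ℤ):ℚ) * S p 3 n := by push_cast; ring
        rw [e3] at h2
        exact D_cancel hp (two_unit hp h5) h2
      have hblk : ∀ M : ℕ, D p 1 (∑ j ∈ range (q*M), w p 3 j * S p 2 (j/q+1)) := by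
        intro M
        induction M with
        | zero => simp; exact D_zero hp 1
        | succ M ih =>
          rw [Nat.mul_succ, sum_range_add]
          refine D_add hp ih ?_
          have e4 : ∑ c ∈ range q, w p 3 (q*M+c) * S p 2 ((q*M+c)/q+1) =
              (∑ c ∈ range q, (w p 3 (q*M+c) - w p 3 c) + S p 3 q) * S p 2 (M+1) := by
            have e40 : ∑ c ∈ range q, (w p 3 (q*M+c) - w p 3 c) + S p 3 q =
                ∑ c ∈ range q, w p 3 (q*M+c) := by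
              rw [sum_sub_distrib]; unfold S; ring
            rw [e40, sum_mul]
            apply sum_congr rfl
            intro c hc
            rw [mem_range] at hc
            have : (q*M+c)/q = M := by
              rw [Nat.mul_add_div hq0, Nat.div_eq_of_lt hc, add_zero]
            rw [this]
          rw [e4]
          refine D_mul_right hp (D_add hp (D_sum hp _ _ fun c _ => ?_) (S3_one hp h5 hpq)) (S_int hp _ _)
          exact D_mono he (w_shift hp hpq hDq 3 M c)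
      have hb := hblk p
      rw [← hnq] at hb
      refine D_sub hp (D_sub hp hS3 hnS4) ?_
      have e5 : 2 * (p:ℚ)^2 * ∑ j ∈ range n, w p 3 j * S p 2 (j/q+1) =
          ((2:ℤ):ℚ) * ((p:ℚ)^2 * ∑ j ∈ range n, w p 3 j * S p 2 (j/q+1)) := by push_cast; ring
      rw [e5]
      exact D_mul_left hp (D_int hp 2) (D_mul hp (D_ppow hp 2) hb)
    have := D_add hp hmain hrest
    rw [← sum_add_distrib] at this
    simpa only [sub_add_cancel] using this
  have e6 : ∑ j ∈ range n, (if p ∣ j then 0 else T n j) = -((n:ℚ)^3 * ∑ j ∈ range n, (if p ∣ j then 0 else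
      (1/(j:ℚ))^3 * (1 - (n:ℚ)/j) * ∏ i ∈ Ico 1 j, (1 - ((n:ℚ)/i)^2)^2)) := by
    rw [mul_sum, ← sum_neg_distrib]
    apply sum_congr rfl
    intro j _
    by_cases hpj : p ∣ j
    · rw [if_pos hpj, if_pos hpj]; ring
    · rw [if_neg hpj, if_neg hpj, T_formula hn1 (by
        rcases Nat.eq_zero_or_pos j with h0 | h0
        · rw [h0] at hpj; exact absurd (dvd_zero p) hpj
        · exact h0)]
      have hj0 := cast_ne hpj
      field_simp
  rw [e6]
  apply D_neg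
  have h3 := D_mul hp (D_pow hp hDn 3) key
  exact D_mono (by omega) h3

end Pool.Agent.R472.Bala
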