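import Pool.Agent.TH6.CX.Fil

set_option autoImplicit false
set_option linter.unusedSectionVars false

/-! Elementary matrices between neighbouring indices, with coefficients from a generating set of
the ring, generate all elementary matrices (at least three indices); programs of such steps. -/

namespace Pool.Agent.R472.Grid

open Matrix TH57.Thr

variable {R : Type} [Ring R]

/-- `G` generates the ring by right multiplications and additions. -/
def GenBy (G : Set R) : Prop :=
  ∀ P : R → Prop, P 0 → P 1 → (∀ a b, P a → P b → P (a + b)) → (∀ a, P a → P (-a)) →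
    (∀ a, ∀ g ∈ G, P a → P (a * g)) → ∀ r, P r

/-- neighbouring indices -/
def Nb {m : ℕ} (i j : Fin m) : Prop := (i : ℕ) + 1 = j ∨ (j : ℕ) + 1 = i

theorem Nb.ne {m : ℕ} {i j : Fin m} (h : Nb i j) : i ≠ j := by
  rintro rfl
  rcases h with h | h <;> omega

theorem Nb.symm {m : ℕ} {i j : Fin m} (h : Nb i j) : Nb j i := Or.symm h

/-- products of elementary matrices between neighbouring indices with coefficients in `G` -/
def AEl (G : Set R) (m : ℕ) : Submonoid (Matrix (Fin m) (Fin m) R) :=
  Submonoid.closure {M | ∃ i j : Fin m, Nb i j ∧ ∃ a ∈ G, M = 1 + Matrix.single i j a}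

/-- the admissible coefficients at `i j` -/
def Ok (G : Set R) {m : ℕ} (i j : Fin m) (a : R) : Prop :=
  1 + Matrix.single i j a ∈ AEl G m ∧ 1 + Matrix.single i j (-a) ∈ AEl G m

theorem Ok.neg {G : Set R} {m : ℕ} {i j : Fin m} {a : R} (h : Ok G i j a) : Ok G i j (-a) :=
  ⟨h.2, by rw [neg_neg]; exact h.1⟩

theorem Ok.zero {G : Set R} {m : ℕ} {i j : Fin m} : Ok G i j (0 : R) := by
  constructor <;> simp [Matrix.single_zero, one_mem]

theorem Ok.add {G : Set R} {m : ℕ} {i j : Fin m} (hij : i ≠ j) {a b : R} (ha : Ok G i j a)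
    (hb : Ok G i j b) : Ok G i j (a + b) := by
  have key : ∀ x y : R, (1 + Matrix.single i j x) * (1 + Matrix.single i j y)
      = 1 + Matrix.single i j (x + y) := by
    intro x y
    rw [mul_add, add_mul, add_mul, mul_one, one_mul, mul_one,
      Matrix.single_mul_single_of_ne _ _ _ _ hij.symm, add_zero, Matrix.single_add]
    abel
  refine ⟨?_, ?_⟩
  · rw [← key]; exact mul_mem ha.1 hb.1
  · rw [neg_add, ← key]; exact mul_mem ha.2 hb.2

theorem comm_aux {m : ℕ} {i j k : Fin m} (hij : i ≠ j) (hik : i ≠ k) (hkj : k ≠ j) (a b : R) :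
    (1 + Matrix.single i k a) * (1 + Matrix.single k j b) * (1 + Matrix.single i k (-a)) *
      (1 + Matrix.single k j (-b)) = 1 + Matrix.single i j (a * b) := by
  have e1 : Matrix.single i k (-a) = -Matrix.single i k a := by
    rw [eq_neg_iff_add_eq_zero, ← Matrix.single_add]; simp
  have e2 : Matrix.single k j (-b) = -Matrix.single k j b := by
    rw [eq_neg_iff_add_eq_zero, ← Matrix.single_add]; simp
  rw [e1, e2]
  have hEE : Matrix.single i k a * Matrix.single i k a = 0 :=
    Matrix.single_mul_single_of_ne _ _ _ _ hik.symm _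
  have hFF : Matrix.single k j b * Matrix.single k j b = 0 :=
    Matrix.single_mul_single_of_ne _ _ _ _ hkj.symm _
  have hFE : Matrix.single k j b * Matrix.single i k a = 0 :=
    Matrix.single_mul_single_of_ne _ _ _ _ hij.symm _
  have hEF : Matrix.single i k a * Matrix.single k j b = Matrix.single i j (a * b) :=
    Matrix.single_mul_single_same _ _ _ _ _
  have hHE : Matrix.single i j (a * b) * Matrix.single i k a = 0 :=
    Matrix.single_mul_single_of_ne _ _ _ _ hij.symm _
  have hHF : Matrix.single i j (a * b) * Matrix.single k j b = 0 :=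
    Matrix.single_mul_single_of_ne _ _ _ _ hkj.symm _
  generalize Matrix.single i k a = E at *
  generalize Matrix.single k j b = F at *
  generalize Matrix.single i j (a * b) = H at *
  have s1 : (1 + E) * (1 + F) = 1 + E + F + H := by
    simp only [mul_add, add_mul, mul_one, one_mul, hEF]; abel
  have s2 : (1 + E + F + H) * (1 + -E) = 1 + F + H := by
    simp only [mul_add, mul_one, mul_neg, add_mul, one_mul, hEE, hFE, hHE]; abel
  have s3 : (1 + F + H) * (1 + -F) = 1 + H := by
    simp only [mul_add, mul_one, mul_neg, add_mul, one_mul, hFF, hHF]; abel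
  rw [s1, s2, s3]

theorem Ok.mul {G : Set R} {m : ℕ} {i j k : Fin m} (hij : i ≠ j) (hik : i ≠ k) (hkj : k ≠ j)
    {a b : R} (ha : Ok G i k a) (hb : Ok G k j b) : Ok G i j (a * b) := by
  refine ⟨?_, ?_⟩
  · rw [← comm_aux hij hik hkj a b]
    exact mul_mem (mul_mem (mul_mem ha.1 hb.1) ha.2) hb.2
  · rw [← neg_mul, ← comm_aux hij hik hkj (-a) b]
    rw [neg_neg]
    exact mul_mem (mul_mem (mul_mem ha.2 hb.1) ha.1) hb.2

theorem ok_nb {G : Set R} (hneg : ∀ g ∈ G, -g ∈ G) {m : ℕ} {i j : Fin m} (h : Nb i j) {g : R}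
    (hg : g ∈ G) : Ok G i j g :=
  ⟨Submonoid.subset_closure ⟨i, j, h, g, hg, rfl⟩,
    Submonoid.subset_closure ⟨i, j, h, -g, hneg g hg, rfl⟩⟩

theorem ok_gen {G : Set R} (h1 : (1 : R) ∈ G) (hneg : ∀ g ∈ G, -g ∈ G) {m : ℕ} :
    ∀ (D : ℕ) (i j : Fin m), i ≠ j → ((i : ℕ) + D = j ∨ (j : ℕ) + D = i) → ∀ g ∈ G,
      Ok G i j g := by
  intro D
  induction D with
  | zero =>
    intro i j hij h
    exact absurd (Fin.ext (by omega)) hij
  | succ D ih =>
    intro i j hij h g hg
    by_cases hD : D = 0
    · subst hD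
      exact ok_nb hneg h hg
    · rcases h with h | h
      · have hk : (i : ℕ) + 1 < m := by have := j.2; omega
        have h2 : Ok G i (⟨i + 1, hk⟩ : Fin m) g := ok_nb hneg (Or.inl rfl) hg
        have h3 : Ok G (⟨i + 1, hk⟩ : Fin m) j 1 :=
          ih _ _ (fun hh => by have := congrArg Fin.val hh; simp at this; omega)
            (Or.inl (by simp; omega)) 1 h1
        have := Ok.mul hij (fun hh => by have := congrArg Fin.val hh; simp at this)
          (fun hh => by have := congrArg Fin.val hh; simp at this; omega) h2 h3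
        rwa [mul_one] at this
      · have hk : (i : ℕ) - 1 < m := by have := i.2; omega
        have h2 : Ok G i (⟨i - 1, hk⟩ : Fin m) g :=
          ok_nb hneg (Or.inr (by simp; omega)) hg
        have h3 : Ok G (⟨i - 1, hk⟩ : Fin m) j 1 :=
          ih _ _ (fun hh => by have := congrArg Fin.val hh; simp at this; omega)
            (Or.inr (by simp; omega)) 1 h1
        have := Ok.mul hij (fun hh => by have := congrArg Fin.val hh; simp at this; omega)
          (fun hh => by have := congrArg Fin.val hh; simp at this; omega) h2 h3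
        rwa [mul_one] at this

theorem exists_third {m : ℕ} (hm : 3 ≤ m) (i j : Fin m) : ∃ k : Fin m, i ≠ k ∧ k ≠ j := by
  have h : ∃ k : Fin m, k ∉ ({i, j} : Finset (Fin m)) := by
    by_contra hcon
    push Not at hcon
    have h2 : (Finset.univ : Finset (Fin m)) ⊆ {i, j} := fun k _ => hcon k
    have h3 := Finset.card_le_card h2
    have h4 : ({i, j} : Finset (Fin m)).card ≤ 2 := Finset.card_le_two
    rw [Finset.card_univ, Fintype.card_fin] at h3
    omega
  obtain ⟨k, hk⟩ := h
  simp only [Finset.mem_insert, Finset.mem_singleton, not_or] at hk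
  exact ⟨k, fun h => hk.1 h.symm, hk.2⟩

theorem ok_all {G : Set R} (h1 : (1 : R) ∈ G) (hneg : ∀ g ∈ G, -g ∈ G) (hG : GenBy G) {m : ℕ}
    (hm : 3 ≤ m) (r : R) : ∀ i j : Fin m, i ≠ j → Ok G i j r := by
  have hg : ∀ (i j : Fin m), i ≠ j → ∀ g ∈ G, Ok G i j g := by
    intro i j hij g hg
    rcases lt_or_gt_of_ne (fun h => hij (Fin.ext h) : (i : ℕ) ≠ j) with h | h
    · exact ok_gen h1 hneg (j - i) i j hij (Or.inl (by omega)) g hg
    · exact ok_gen h1 hneg (i - j) i j hij (Or.inr (by omega)) g hg
  refine hG (fun r => ∀ i j : Fin m, i ≠ j → Ok G i j r) ?_ ?_ ?_ ?_ ?_ r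
  · intro i j _; exact Ok.zero
  · intro i j hij; exact hg i j hij 1 h1
  · intro a b ha hb i j hij; exact Ok.add hij (ha i j hij) (hb i j hij)
  · intro a ha i j hij; exact (ha i j hij).neg
  · intro a g hgG ha i j hij
    obtain ⟨k, hik, hkj⟩ := exists_third hm i j
    exact Ok.mul hij hik hkj (ha i k hik) (hg k j hkj g hgG)

theorem El_le {G : Set R} (h1 : (1 : R) ∈ G) (hneg : ∀ g ∈ G, -g ∈ G) (hG : GenBy G) {m : ℕ}
    (hm : 3 ≤ m) (M : Matrix (Fin m) (Fin m) R) (hM : M ∈ El (R := R) (Fin m)) :
    M ∈ AEl G m := by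
  have h : El (R := R) (Fin m) ≤ AEl G m := by
    unfold El
    rw [Submonoid.closure_le]
    rintro _ ⟨i, j, hij, a, rfl⟩
    exact (ok_all h1 hneg hG hm a i j hij).1
  exact h hM

/-- a program: elementary steps between neighbouring indices -/
structure Prog (G : Set R) (m : ℕ) where
  /-- source -/
  s : ℕ → Fin m
  /-- target -/
  d : ℕ → Fin m
  /-- coefficient -/
  a : ℕ → R
  nb : ∀ t, Nb (s t) (d t)
  mem : ∀ t, a t ∈ G ∨ a t = 0

/-- the product of the first `t` steps -/
def Prog.run {G : Set R} {m : ℕ} (p : Prog G m) : ℕ → Matrix (Fin m) (Fin m) R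
  | 0 => 1
  | t + 1 => (1 + Matrix.single (p.d t) (p.s t) (p.a t)) * p.run t

theorem run_congr {G : Set R} {m : ℕ} (p q : Prog G m) (L : ℕ)
    (h : ∀ t < L, p.s t = q.s t ∧ p.d t = q.d t ∧ p.a t = q.a t) :
    ∀ t ≤ L, p.run t = q.run t := by
  intro t
  induction t with
  | zero => intro _; rfl
  | succ t ih =>
    intro ht
    obtain ⟨h1, h2, h3⟩ := h t (by omega)
    simp only [Prog.run]
    rw [ih (by omega), h1, h2, h3]

/-- one more step -/
def Prog.upd {G : Set R} {m : ℕ} (p : Prog G m) (L : ℕ) (i j : Fin m) (hij : Nb j i) (a : R)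
    (ha : a ∈ G ∨ a = 0) : Prog G m where
  s := Function.update p.s L j
  d := Function.update p.d L i
  a := Function.update p.a L a
  nb := by
    intro t
    by_cases ht : t = L
    · subst ht; simpa using hij
    · simpa [Function.update_of_ne ht] using p.nb t
  mem := by
    intro t
    by_cases ht : t = L
    · subst ht; simpa using ha
    · simpa [Function.update_of_ne ht] using p.mem t

theorem run_upd {G : Set R} {m : ℕ} (p : Prog G m) (L : ℕ) (i j : Fin m) (hij : Nb j i) (a : R)
    (ha : a ∈ G ∨ a = 0) :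
    (p.upd L i j hij a ha).run (L + 1) = (1 + Matrix.single i j a) * p.run L := by
  have h : (p.upd L i j hij a ha).run L = p.run L := by
    apply run_congr _ _ L _ L le_rfl
    intro t ht
    have : t ≠ L := by omega
    simp [Prog.upd, Function.update_of_ne this]
  simp only [Prog.run]
  rw [h]
  simp [Prog.upd]

/-- every product of elementary matrices is computed by a program with at least one step -/
theorem exists_prog {G : Set R} {m : ℕ} (hm : 3 ≤ m) (M : Matrix (Fin m) (Fin m) R)
    (hM : M ∈ AEl G m) : ∃ (L : ℕ) (p : Prog G m), p.run (L + 1) = M := by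
  have key : ∃ (L : ℕ) (p : Prog G m), p.run L = M := by
    unfold AEl at hM
    induction hM using Submonoid.closure_induction_left with
    | one =>
      exact ⟨0, { s := fun _ => ⟨0, by omega⟩, d := fun _ => ⟨1, by omega⟩, a := fun _ => 0
                  nb := fun _ => Or.inl rfl, mem := fun _ => Or.inr rfl }, rfl⟩
    | mul_left x hx y _ ih =>
      obtain ⟨i, j, hij, a, ha, rfl⟩ := hx
      obtain ⟨L, p, hp⟩ := ih
      exact ⟨L + 1, p.upd L i j hij.symm a (Or.inl ha), by rw [run_upd, hp]⟩
  obtain ⟨L, p, hp⟩ := key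
  have hnb : Nb (⟨0, by omega⟩ : Fin m) ⟨1, by omega⟩ := Or.inl rfl
  refine ⟨L, p.upd L ⟨1, by omega⟩ ⟨0, by omega⟩ hnb 0 (Or.inr rfl), ?_⟩
  rw [run_upd, hp, Matrix.single_zero, add_zero, one_mul]

end Pool.Agent.R472.Grid
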