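import Pool.Agent.R472.GridMat
import Pool.Agent.R719.AT.Red
import Pool.Agent.R719.AT.Shp

set_option autoImplicit false
set_option linter.unusedSectionVars false

/-! Kernel dimensions of matrices over group rings on the grid. The theory of kernel dimensions
(`kap`), in particular for dominant matrices, is that of the starting library and of helper719. -/

namespace Pool.Agent.R472.Grid

open Matrix TH57.Thr.Ati Pool.Agent.R719.AT

variable {G : Type} [Group G] {K L : Type} [Fintype K] [Fintype L] [DecidableEq K] [DecidableEq L]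

theorem kap_emb (X : Matrix K K (MonoidAlgebra ℂ G)) :
    kap (fromBlocks X 0 0 (0 : Matrix L L (MonoidAlgebra ℂ G))) = kap X + Fintype.card L := by
  let E : Matrix (K ⊕ L) K (MonoidAlgebra ℂ G) := fromRows 1 0
  let E' : Matrix K (K ⊕ L) (MonoidAlgebra ℂ G) := fromCols 1 0
  have h1 : E' * E = 1 := by
    simp only [E, E']
    rw [Matrix.fromCols_mul_fromRows]
    simp
  have h3 : fromBlocks X 0 0 (0 : Matrix L L (MonoidAlgebra ℂ G)) = E * (X * E') := by
    simp only [E, E']
    rw [Matrix.mul_fromCols, Matrix.fromRows_mul]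
    ext1 i j
    rcases i with i | i <;> rcases j with j | j <;> simp
  rw [h3, kap_split _ h1, kap_unit_right X h1, Fintype.card_sum]
  push_cast
  ring

theorem kap_self {κ : Type} [Fintype κ] [DecidableEq κ] (A : Matrix κ κ (MonoidAlgebra ℂ G)) :
    kap (A * sta A) = kap A := by
  unfold kap
  congr 1
  ext F
  constructor
  · intro h
    have h1 : Rop (A * sta A) F = 0 := h
    rw [Rop_mul, ContinuousLinearMap.comp_apply, Rop_sta] at h1
    change Rop A F = 0
    rw [← inner_self_eq_zero (𝕜 := ℂ), ← ContinuousLinearMap.adjoint_inner_right, h1,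
      inner_zero_right]
  · intro h
    have h1 : Rop A F = 0 := h
    change Rop (A * sta A) F = 0
    rw [Rop_mul, ContinuousLinearMap.comp_apply, h1, map_zero]

theorem st_zero : st (0 : MonoidAlgebra ℂ G) = 0 := by
  ext g
  rw [st_coeff]
  simp

theorem sta_sq (A : Matrix K L (MonoidAlgebra ℂ G)) :
    sta (sq A) = fromBlocks 0 0 (sta A) 0 := by
  ext1 i j
  rcases i with i | i <;> rcases j with j | j
  · exact st_zero
  · exact st_zero
  · rfl
  · exact st_zero

theorem kap_mul_sta (A : Matrix K L (MonoidAlgebra ℂ G)) : kap (A * sta A) = kap A := by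
  have h1 := kap_self (sq A)
  rw [kap_sq, sta_sq] at h1
  have h2 : sq A * fromBlocks 0 0 (sta A) 0
      = fromBlocks (A * sta A) 0 0 (0 : Matrix L L (MonoidAlgebra ℂ G)) := by
    unfold R719.AT.sq
    rw [fromBlocks_multiply]
    simp
  rw [h2, kap_emb] at h1
  linarith

theorem kap_sta_rect (A : Matrix K L (MonoidAlgebra ℂ G)) :
    kap A + Fintype.card L = kap (sta A) + Fintype.card K := by
  have h1 := kap_sta (sq A)
  rw [kap_sq, sta_sq] at h1
  have h2 : fromBlocks 0 0 (sta A) (0 : Matrix L L (MonoidAlgebra ℂ G))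
      = (sq (sta A)).submatrix (Equiv.sumComm K L) (Equiv.sumComm K L) := by
    ext1 i j
    rcases i with i | i <;> rcases j with j | j <;> rfl
  rw [← h1, ← kap_sq, ← kap_re (Equiv.sumComm K L) (Equiv.sumComm K L), ← h2]

/-- `c g` with `|c| = 1` -/
def Uni (x : MonoidAlgebra ℂ G) : Prop := ∃ (g : G) (c : ℂ), ‖c‖ = 1 ∧ x = MonoidAlgebra.single g c

theorem st_single (g : G) (c : ℂ) : st (MonoidAlgebra.single g c : MonoidAlgebra ℂ G)
    = MonoidAlgebra.single g⁻¹ ((starRingEnd ℂ) c) := by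
  classical
  ext k
  rw [st_coeff, MonoidAlgebra.coeff_single, MonoidAlgebra.coeff_single, Finsupp.single_apply,
    Finsupp.single_apply]
  by_cases hk : g⁻¹ = k
  · rw [if_pos hk, if_pos (by rw [← hk, inv_inv])]
  · rw [if_neg hk, if_neg, map_zero]
    intro h3
    apply hk
    rw [h3, inv_inv]

theorem n1_sum_le {ι : Type} (s : Finset ι) (x : ι → MonoidAlgebra ℂ G) :
    n1 (∑ i ∈ s, x i) ≤ ∑ i ∈ s, n1 (x i) := by
  classical
  induction s using Finset.induction_on with
  | empty => simp [n1_zero]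
  | insert i s hi ih =>
    rw [Finset.sum_insert hi, Finset.sum_insert hi]
    exact (n1_add_le _ _).trans (by linarith)

theorem kap_two_cols (A : Matrix K L (MonoidAlgebra ℂ G)) (h : ∀ j, {i | A i j ≠ 0}.ncard ≤ 2)
    (h2 : ∀ i j, A i j = 0 ∨ Uni (A i j)) :
    ∃ (n : ℕ) (H : Fin n → Subgroup G), n ≤ Fintype.card K ∧ (∀ i, Finite (H i)) ∧
      kap A = ∑ i, (Nat.card (H i) : ℝ)⁻¹ := by
  classical
  rw [← kap_mul_sta A]
  let e : K → L → ℝ := fun i j => if A i j = 0 then 0 else 1
  have he0 : ∀ i j, 0 ≤ e i j := fun i j => by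
    simp only [e]; split_ifs <;> norm_num
  apply kap_formula (d := fun i => ∑ j, e i j)
  intro i
  constructor
  · rw [Matrix.mul_apply, MonoidAlgebra.coeff_sum, Finsupp.finsetSum_apply]
    push_cast
    refine Finset.sum_congr rfl fun j _ => ?_
    change (A i j * st (A i j)).coeff 1 = _
    simp only [e]
    rcases h2 i j with h3 | ⟨g, c, hc, h3⟩
    · rw [h3, zero_mul, if_pos rfl]; simp
    · have hne : A i j ≠ 0 := by
        rw [h3]
        intro h4
        have := congrArg (fun x : MonoidAlgebra ℂ G => x.coeff g) h4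
        simp only [MonoidAlgebra.coeff_single, Finsupp.single_eq_same] at this
        have h5 : c = 0 := this
        rw [h5, norm_zero] at hc
        exact zero_ne_one hc
      rw [if_neg hne, h3, st_single, MonoidAlgebra.single_mul_single, mul_inv_cancel,
        Complex.mul_conj, Complex.normSq_eq_norm_sq, hc]
      simp
  · have hM : ∀ k, n1 ((A * sta A) i k) ≤ ∑ j, e i j * e k j := by
      intro k
      rw [Matrix.mul_apply]
      refine (n1_sum_le _ _).trans (Finset.sum_le_sum fun j _ => ?_)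
      change n1 (A i j * st (A k j)) ≤ _
      simp only [e]
      rcases h2 i j with h3 | ⟨g, c, hc, h3⟩
      · rw [h3, zero_mul, n1_zero, if_pos rfl, zero_mul]
      rcases h2 k j with h4 | ⟨g', c', hc', h4⟩
      · rw [h4, st_zero, mul_zero, n1_zero, if_pos rfl, mul_zero]
      · have hne : ∀ (g : G) (c : ℂ), ‖c‖ = 1 → (MonoidAlgebra.single g c : MonoidAlgebra ℂ G) ≠ 0 := by
          intro g c hc h4
          have := congrArg (fun x : MonoidAlgebra ℂ G => x.coeff g) h4
          simp only [MonoidAlgebra.coeff_single, Finsupp.single_eq_same] at this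
          have h5 : c = 0 := this
          rw [h5, norm_zero] at hc
          exact zero_ne_one hc
        rw [h3, h4, if_neg (hne g c hc), if_neg (hne g' c' hc'), st_single,
          MonoidAlgebra.single_mul_single, n1_single, norm_mul, hc, RCLike.norm_conj, hc']
    refine (Finset.sum_le_sum fun k _ => hM k).trans ?_
    rw [Finset.sum_comm, Finset.mul_sum]
    refine Finset.sum_le_sum fun j _ => ?_
    rw [← Finset.mul_sum, mul_comm]
    refine mul_le_mul_of_nonneg_right ?_ (he0 i j)
    have h5 : ∑ k, e k j = ({k | A k j ≠ 0}.ncard : ℝ) := by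
      simp only [e]
      rw [Set.ncard_eq_toFinset_card']
      have h6 : ({k | A k j ≠ 0} : Set K).toFinset = Finset.univ.filter fun k => A k j ≠ 0 := by
        ext k; simp
      rw [h6, Finset.card_filter]
      push_cast
      refine Finset.sum_congr rfl fun k _ => ?_
      by_cases h7 : A k j = 0
      · rw [if_pos h7, if_neg (not_not.2 h7)]
      · rw [if_neg h7, if_pos h7]
    rw [h5]
    exact_mod_cast h j

theorem kap_two_rows (A : Matrix K L (MonoidAlgebra ℂ G)) (h : ∀ i, {j | A i j ≠ 0}.ncard ≤ 2)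
    (h2 : ∀ i j, A i j = 0 ∨ Uni (A i j)) :
    ∃ (n : ℕ) (H : Fin n → Subgroup G), n ≤ Fintype.card L ∧ (∀ i, Finite (H i)) ∧
      (Fintype.card L : ℝ) - Fintype.card K + kap A = ∑ i, (Nat.card (H i) : ℝ)⁻¹ := by
  have hz : ∀ i j, sta A j i ≠ 0 ↔ A i j ≠ 0 := by
    intro i j
    change st (A i j) ≠ 0 ↔ A i j ≠ 0
    rw [not_iff_not]
    constructor
    · intro h3
      ext g
      have h4 := congrArg (fun x : MonoidAlgebra ℂ G => x.coeff g⁻¹) h3
      simp only [st_coeff, inv_inv] at h4
      have h5 : (starRingEnd ℂ) ((A i j).coeff g) = 0 := h4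
      rw [map_eq_zero] at h5
      rw [h5]; rfl
    · intro h3; rw [h3, st_zero]
  obtain ⟨n, H, hn, hH, hk⟩ := kap_two_cols (sta A) (fun i => by
    have : {j | sta A j i ≠ 0} = {j | A i j ≠ 0} := by ext j; exact hz i j
    rw [this]; exact h i) (fun j i => by
    change st (A i j) = 0 ∨ Uni (st (A i j))
    rcases h2 i j with h3 | ⟨g, c, hc, h3⟩
    · left; rw [h3, st_zero]
    · right; exact ⟨g⁻¹, _, by rw [RCLike.norm_conj, hc], by rw [h3, st_single]⟩)
  refine ⟨n, H, hn, hH, ?_⟩
  have := kap_sta_rect A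
  rw [← hk]
  linarith

/-- a ring is generated by each set whose closure it is -/
theorem genBy_closure {A : Type} [Ring A] (𝒢 : Set A) :
    GenBy (R := Subring.closure 𝒢) {r | (r : A) ∈ 𝒢} := by
  intro P h0 h1 hadd hneg hmul r
  have key : ∀ (a : A) (ha : a ∈ Subring.closure 𝒢) (x : Subring.closure 𝒢), P x →
      P (x * ⟨a, ha⟩) := by
    intro a ha
    induction ha using Subring.closure_induction with
    | mem g hg => intro x hx; exact hmul x ⟨g, Subring.subset_closure hg⟩ hg hx
    | zero => intro x _; rw [show (⟨0, _⟩ : Subring.closure 𝒢) = 0 from rfl, mul_zero]; exact h0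
    | one => intro x hx; rw [show (⟨1, _⟩ : Subring.closure 𝒢) = 1 from rfl, mul_one]; exact hx
    | add a b ha hb iha ihb =>
      intro x hx
      have : x * ⟨a + b, add_mem ha hb⟩ = x * ⟨a, ha⟩ + x * ⟨b, hb⟩ := by
        rw [← mul_add]; rfl
      rw [this]
      exact hadd _ _ (iha x hx) (ihb x hx)
    | neg a ha iha =>
      intro x hx
      have : x * ⟨-a, neg_mem ha⟩ = -(x * ⟨a, ha⟩) := by
        rw [← mul_neg]; rfl
      rw [this]
      exact hneg _ (iha x hx)
    | mul a b ha hb iha ihb =>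
      intro x hx
      have : x * ⟨a * b, mul_mem ha hb⟩ = x * ⟨a, ha⟩ * ⟨b, hb⟩ := by
        rw [mul_assoc]; rfl
      rw [this]
      exact ihb _ (iha x hx)
  have := key r.1 r.2 1 h1
  rwa [one_mul] at this

/-- every matrix has the kernel dimension of a matrix on the grid -/
theorem grid_kap {𝒢 : Set (MonoidAlgebra ℂ G)} (h1 : (1 : MonoidAlgebra ℂ G) ∈ 𝒢)
    (hneg : ∀ g ∈ 𝒢, -g ∈ 𝒢) (A : Matrix K L (MonoidAlgebra ℂ G))
    (hA : ∀ i j, A i j ∈ Subring.closure 𝒢) :
    ∃ (κ : Type) (_ : Fintype κ) (_ : DecidableEq κ) (B : Matrix κ κ (MonoidAlgebra ℂ G)),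
      GridG 𝒢 B ∧ kap B = Fintype.card L + kap A := by
  classical
  let e : Fin (Fintype.card (K ⊕ L)) ≃ K ⊕ L := (Fintype.equivFin _).symm
  have hsq : ∀ i j, sq A i j ∈ Subring.closure 𝒢 := by
    rintro (i | i) (j | j)
    · exact zero_mem _
    · exact hA i j
    · exact zero_mem _
    · exact zero_mem _
  let A' : Matrix (Fin (Fintype.card (K ⊕ L))) (Fin (Fintype.card (K ⊕ L))) (Subring.closure 𝒢) :=
    Matrix.of fun i j => ⟨sq A (e i) (e j), hsq _ _⟩
  obtain ⟨ν, i1, i2, P, Q, _, ρ, c, a1, a2, a3, a4, a5, a6, a7⟩ :=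
    grid_form (R := Subring.closure 𝒢) (G := {r | (r : MonoidAlgebra ℂ G) ∈ 𝒢}) h1
      (fun g hg => hneg _ hg) (genBy_closure 𝒢) A'
  let φ : Subring.closure 𝒢 →+* MonoidAlgebra ℂ G := (Subring.closure 𝒢).subtype
  have hφ : ∀ x : Subring.closure 𝒢, φ x ≠ 0 ↔ x ≠ 0 := by
    intro x
    rw [not_iff_not]
    exact ⟨fun h => Subtype.ext h, fun h => by rw [h, map_zero]⟩
  set B' := P.val * fromBlocks A' 0 0 1 * Q.val with hB'
  refine ⟨Fin (Fintype.card (K ⊕ L)) ⊕ ν, inferInstance, inferInstance, B'.map φ,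
    ⟨ρ, c, a1, a2, a3, fun i j h => a4 i j ((hφ _).1 h), fun i j => ?_, fun i => ?_, fun j => ?_⟩,
    ?_⟩
  · rcases a5 i j with h | h
    · left; change φ (B' i j) = 0; rw [h, map_zero]
    · right; exact h
  · have : {j | B'.map φ i j ≠ 0} = {j | B' i j ≠ 0} := by ext j; exact hφ _
    rw [this]; exact a6 i
  · have : {i | B'.map φ i j ≠ 0} = {i | B' i j ≠ 0} := by ext i; exact hφ _
    rw [this]; exact a7 j
  · have e1 : B'.map φ = P.val.map φ * (fromBlocks (A'.map φ) 0 0 1 * Q.val.map φ) := by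
      rw [hB', Matrix.map_mul, Matrix.map_mul, Matrix.fromBlocks_map, Matrix.mul_assoc]
      simp
    have hP1 : P.val.map φ * P⁻¹.val.map φ = 1 := by
      rw [← Matrix.map_mul, P.mul_inv]; simp
    have hP2 : P⁻¹.val.map φ * P.val.map φ = 1 := by
      rw [← Matrix.map_mul, P.inv_mul]; simp
    have hQ1 : Q.val.map φ * Q⁻¹.val.map φ = 1 := by
      rw [← Matrix.map_mul, Q.mul_inv]; simp
    have e2 : A'.map φ = (sq A).submatrix e e := rfl
    rw [e1, kap_iso _ hP1 hP2, kap_unit_right _ hQ1, kap_stab, e2, kap_re, kap_sq]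
    ring

/-- clearing denominators -/
theorem clear_den (T : Set ℂ) (A : Matrix K L (MonoidAlgebra ℂ G))
    (hA : ∀ i j g, (A i j).coeff g ∈ Subfield.closure T) :
    ∃ A' : Matrix K L (MonoidAlgebra ℂ G),
      (∀ i j g, (A' i j).coeff g ∈ Subring.closure T) ∧ kap A' = kap A := by
  classical
  have h1 : ∀ i j g, ∃ z ∈ Subring.closure T, z ≠ 0 ∧ (A i j).coeff g * z ∈ Subring.closure T := by
    intro i j g
    obtain ⟨y, hy, z, hz, hyz⟩ := Subfield.mem_closure_iff.1 (hA i j g)
    by_cases hz0 : z = 0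
    · refine ⟨1, one_mem _, one_ne_zero, ?_⟩
      rw [← hyz, hz0, div_zero, zero_mul]
      exact zero_mem _
    · refine ⟨z, hz, hz0, ?_⟩
      rw [← hyz, div_mul_cancel₀ _ hz0]
      exact hy
  choose z hz hz0 hzA using h1
  let N : ℂ := ∏ i, ∏ j, ∏ g ∈ (A i j).coeff.support, z i j g
  have hN : N ≠ 0 := Finset.prod_ne_zero_iff.2 fun i _ => Finset.prod_ne_zero_iff.2 fun j _ =>
    Finset.prod_ne_zero_iff.2 fun g _ => hz0 i j g
  have hmul : ∀ i j g, (A i j).coeff g ≠ 0 → ∃ w ∈ Subring.closure T, N = z i j g * w := by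
    intro i j g hg
    have hg' : g ∈ (A i j).coeff.support := Finsupp.mem_support_iff.2 hg
    refine ⟨(∏ g ∈ (A i j).coeff.support.erase g, z i j g) *
      ((∏ j' ∈ Finset.univ.erase j, ∏ g ∈ (A i j').coeff.support, z i j' g) *
        ∏ i' ∈ Finset.univ.erase i, ∏ j, ∏ g ∈ (A i' j).coeff.support, z i' j g), ?_, ?_⟩
    · refine mul_mem (prod_mem fun g _ => hz i j g) (mul_mem (prod_mem fun j' _ =>
        prod_mem fun g _ => hz i j' g) (prod_mem fun i' _ => prod_mem fun j _ =>
        prod_mem fun g _ => hz i' j g))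
    · simp only [N]
      rw [← Finset.mul_prod_erase Finset.univ _ (Finset.mem_univ i),
        ← Finset.mul_prod_erase Finset.univ (fun j => ∏ g ∈ (A i j).coeff.support, z i j g)
          (Finset.mem_univ j), ← Finset.mul_prod_erase _ (fun g => z i j g) hg']
      ring
  let D : Matrix L L (MonoidAlgebra ℂ G) := Matrix.diagonal fun _ => MonoidAlgebra.single 1 N
  let D' : Matrix L L (MonoidAlgebra ℂ G) := Matrix.diagonal fun _ => MonoidAlgebra.single 1 N⁻¹
  have hDD : D * D' = 1 := by
    simp only [D, D']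
    rw [Matrix.diagonal_mul_diagonal, ← Matrix.diagonal_one]
    congr 1
    funext j
    rw [MonoidAlgebra.single_mul_single, mul_one, mul_inv_cancel₀ hN, MonoidAlgebra.one_def]
  refine ⟨A * D, ?_, kap_unit_right A hDD⟩
  intro i j g
  simp only [D]
  rw [Matrix.mul_diagonal, MonoidAlgebra.coeff_mul_single_apply, inv_one, mul_one]
  by_cases hg : (A i j).coeff g = 0
  · rw [hg, zero_mul]
    exact zero_mem _
  · obtain ⟨w, hw, hNw⟩ := hmul i j g hg
    rw [hNw, ← mul_assoc]
    exact mul_mem (hzA i j g) hw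

/-- the generators `± s` and `± t` -/
def gens (S : Set G) (T : Set ℂ) : Set (MonoidAlgebra ℂ G) :=
  {x | (∃ s : G, (s = 1 ∨ s ∈ S ∨ s⁻¹ ∈ S) ∧
      (x = MonoidAlgebra.single s 1 ∨ x = MonoidAlgebra.single s (-1))) ∨
    ∃ t ∈ T, x = MonoidAlgebra.single 1 t ∨ x = MonoidAlgebra.single 1 (-t)}

theorem one_gens (S : Set G) (T : Set ℂ) : (1 : MonoidAlgebra ℂ G) ∈ gens S T :=
  Or.inl ⟨1, Or.inl rfl, Or.inl MonoidAlgebra.one_def⟩

theorem neg_gens (S : Set G) (T : Set ℂ) : ∀ g ∈ gens S T, -g ∈ gens S T := by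
  rintro _ (⟨s, hs, rfl | rfl⟩ | ⟨t, ht, rfl | rfl⟩)
  · exact Or.inl ⟨s, hs, Or.inr (by rw [MonoidAlgebra.single_neg])⟩
  · exact Or.inl ⟨s, hs, Or.inl (by rw [← MonoidAlgebra.single_neg]; norm_num)⟩
  · exact Or.inr ⟨t, ht, Or.inr (by rw [MonoidAlgebra.single_neg])⟩
  · exact Or.inr ⟨t, ht, Or.inl (by rw [← MonoidAlgebra.single_neg]; norm_num)⟩

theorem mem_closure_gens (S : Set G) (hS : Subgroup.closure S = ⊤) (T : Set ℂ)
    (x : MonoidAlgebra ℂ G) (hx : ∀ g, x.coeff g ∈ Subring.closure T) :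
    x ∈ Subring.closure (gens S T) := by
  classical
  have h1 : ∀ g : G, (MonoidAlgebra.single g 1 : MonoidAlgebra ℂ G) ∈ Subring.closure (gens S T) := by
    intro g
    have hmem : g ∈ Subgroup.closure S := by rw [hS]; trivial
    induction hmem using Subgroup.closure_induction_right with
    | one => exact Subring.subset_closure (one_gens S T)
    | mul_right x hx y hy ih =>
      have := mul_mem ih (Subring.subset_closure (s := gens S T) (a := MonoidAlgebra.single y 1)
        (Or.inl ⟨y, Or.inr (Or.inl hy), Or.inl rfl⟩))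
      rwa [MonoidAlgebra.single_mul_single, mul_one] at this
    | mul_inv_cancel x hx y hy ih =>
      have := mul_mem ih (Subring.subset_closure (s := gens S T) (a := MonoidAlgebra.single y⁻¹ 1)
        (Or.inl ⟨y⁻¹, Or.inr (Or.inr (by rw [inv_inv]; exact hy)), Or.inl rfl⟩))
      rwa [MonoidAlgebra.single_mul_single, mul_one] at this
  have h2 : ∀ r ∈ Subring.closure T,
      (MonoidAlgebra.single 1 r : MonoidAlgebra ℂ G) ∈ Subring.closure (gens S T) := by
    intro r hr
    have h3 : Subring.closure T ≤ (Subring.closure (gens S T)).comap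
        (MonoidAlgebra.singleOneRingHom : ℂ →+* MonoidAlgebra ℂ G) := by
      rw [Subring.closure_le]
      intro t ht
      exact Subring.subset_closure (Or.inr ⟨t, ht, Or.inl rfl⟩)
    exact h3 hr
  have h3 : x = ∑ g ∈ x.coeff.support, MonoidAlgebra.single 1 (x.coeff g) *
      MonoidAlgebra.single g 1 := by
    ext h
    rw [MonoidAlgebra.coeff_sum, Finsupp.finsetSum_apply]
    simp only [MonoidAlgebra.single_mul_single, one_mul, mul_one, MonoidAlgebra.coeff_single]
    rw [Finset.sum_congr rfl fun g _ => Finsupp.single_apply, Finset.sum_ite_eq']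
    split_ifs with h3
    · rfl
    · exact Finsupp.notMem_support_iff.1 h3
  rw [h3]
  exact sum_mem fun g _ => mul_mem (h2 _ (hx g)) (h1 g)

end Pool.Agent.R472.Grid
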