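import Pool.Agent.R472.GridPres
import Pool.Agent.R472.GridKer

set_option autoImplicit false
set_option linter.unusedSectionVars false

/-! Projective modules over group rings of torsion-free groups in which each relation involves at
most two generators, with trivial units as coefficients. -/

namespace Pool.Agent.R472.Grid

open Matrix TH57.Thr

section ext

variable {R : Type} [Ring R] {G : Type} [Group G]

/-- trivial units -/
def TU (x : MonoidAlgebra R G) : Prop := ∃ (g : G) (u : Rˣ), x = MonoidAlgebra.single g (u : R)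

theorem TU.mul {x y : MonoidAlgebra R G} (hx : TU x) (hy : TU y) : TU (x * y) := by
  obtain ⟨g, u, rfl⟩ := hx
  obtain ⟨h, v, rfl⟩ := hy
  exact ⟨g * h, u * v, by rw [MonoidAlgebra.single_mul_single, Units.val_mul]⟩

theorem TU.neg {x : MonoidAlgebra R G} (hx : TU x) : TU (-x) := by
  obtain ⟨g, u, rfl⟩ := hx
  exact ⟨g, -u, by rw [Units.val_neg, MonoidAlgebra.single_neg]⟩

theorem TU.inv {x : MonoidAlgebra R G} (hx : TU x) : ∃ y, TU y ∧ x * y = 1 ∧ y * x = 1 := by
  obtain ⟨g, u, rfl⟩ := hx
  refine ⟨MonoidAlgebra.single g⁻¹ ((u⁻¹ : Rˣ) : R), ⟨g⁻¹, u⁻¹, rfl⟩, ?_, ?_⟩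
  · rw [MonoidAlgebra.single_mul_single, mul_inv_cancel, Units.mul_inv]; rfl
  · rw [MonoidAlgebra.single_mul_single, inv_mul_cancel, Units.inv_mul]; rfl

theorem shift_zero (htf : ∀ g : G, ∀ k : ℕ, 0 < k → g ^ k = 1 → g = 1) {g : G} (hg : g ≠ 1)
    (u : Rˣ) (f : MonoidAlgebra R G) (hf : MonoidAlgebra.single g (u : R) * f = f) : f = 0 := by
  classical
  by_contra hne
  obtain ⟨x, hx⟩ : ∃ x, f.coeff x ≠ 0 := by
    by_contra h
    push Not at h
    exact hne (by ext x; exact h x)
  have key : ∀ n : ℕ, f.coeff (g ^ n * x) ≠ 0 := by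
    intro n
    induction n with
    | zero => simpa using hx
    | succ n ih =>
      rw [← hf, MonoidAlgebra.coeff_single_mul_apply]
      have h1 : g⁻¹ * (g ^ (n + 1) * x) = g ^ n * x := by
        rw [pow_succ', mul_assoc, inv_mul_cancel_left]
      rw [h1]
      intro h
      exact ih (u.mul_right_eq_zero.1 h)
  have hinj : Function.Injective fun n : ℕ => g ^ n * x := by
    have h2 : Function.Injective fun n : ℕ => g ^ n := by
      rw [injective_pow_iff_not_isOfFinOrder]
      intro h
      obtain ⟨n, hn, hgn⟩ := isOfFinOrder_iff_pow_eq_one.1 h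
      exact hg (htf g n hn hgn)
    intro a b hab
    exact h2 (mul_right_cancel hab)
  exact (Set.infinite_range_of_injective hinj) ((Finset.finite_toSet f.coeff.support).subset (by
    rintro _ ⟨n, rfl⟩
    exact Finsupp.mem_support_iff.2 (key n)))

/-- coefficients of relations with one generator -/
def Cf (a : MonoidAlgebra R G) : Prop := a = 0 ∨ TU a ∨ ∃ p q, TU p ∧ TU q ∧ a = p + q

theorem Cf.mul {a c : MonoidAlgebra R G} (ha : Cf a) (hc : TU c) : Cf (a * c) := by
  rcases ha with rfl | h | ⟨p, q, hp, hq, rfl⟩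
  · left; rw [zero_mul]
  · right; left; exact h.mul hc
  · right; right; exact ⟨p * c, q * c, hp.mul hc, hq.mul hc, add_mul _ _ _⟩

theorem cf_dich (htf : ∀ g : G, ∀ k : ℕ, 0 < k → g ^ k = 1 → g = 1) {a f : MonoidAlgebra R G}
    (ha : Cf a) (h : a * f = 0) : f = 0 ∨ ∃ (g : G) (r : R), a = MonoidAlgebra.single g r := by
  rcases ha with rfl | h1 | ⟨_, _, ⟨g, u, rfl⟩, ⟨k, v, rfl⟩, rfl⟩
  · right; exact ⟨1, 0, by rw [MonoidAlgebra.single_zero]⟩
  · left
    obtain ⟨y, _, _, h3⟩ := h1.inv
    have : y * (a * f) = f := by rw [← mul_assoc, h3, one_mul]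
    rw [← this, h, mul_zero]
  · by_cases hgk : g = k
    · right
      subst hgk
      exact ⟨g, u + v, by rw [MonoidAlgebra.single_add]⟩
    · left
      apply shift_zero htf (g := k⁻¹ * g) _ (-(v⁻¹ * u)) f
      · have h2 : MonoidAlgebra.single g (u : R) * f = -(MonoidAlgebra.single k (v : R) * f) := by
          rw [add_mul] at h
          exact eq_neg_of_add_eq_zero_left h
        have h3 : (MonoidAlgebra.single (k⁻¹ * g) (((-(v⁻¹ * u) : Rˣ)) : R) : MonoidAlgebra R G)
            = -(MonoidAlgebra.single k⁻¹ ((v⁻¹ : Rˣ) : R) * MonoidAlgebra.single g (u : R)) := by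
          rw [MonoidAlgebra.single_mul_single, Units.val_neg, MonoidAlgebra.single_neg,
            Units.val_mul]
        rw [h3, neg_mul, mul_assoc, h2, mul_neg, neg_neg, ← mul_assoc,
          MonoidAlgebra.single_mul_single, inv_mul_cancel, Units.inv_mul]
        exact one_mul f
      · intro h2
        exact hgk (inv_mul_eq_one.1 h2).symm

/-- the augmentation -/
noncomputable def aug : MonoidAlgebra R G →+* R :=
  MonoidAlgebra.liftNCRingHom (RingHom.id R) (1 : G →* R) (fun _ _ => Commute.one_right _)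

theorem aug_single (g : G) (r : R) : aug (MonoidAlgebra.single g r : MonoidAlgebra R G) = r := by
  unfold aug
  rw [MonoidAlgebra.liftNCRingHom_single]
  simp

theorem ideal_ext (htf : ∀ g : G, ∀ k : ℕ, 0 < k → g ^ k = 1 → g = 1)
    (W : Set (MonoidAlgebra R G)) (hW : ∀ a ∈ W, Cf a)
    (h : Module.Projective (MonoidAlgebra R G)
      (MonoidAlgebra R G ⧸ Submodule.span (MonoidAlgebra R G) W)) :
    ∃ e : R, e * e = e ∧ ∀ x : MonoidAlgebra R G, x ∈ Submodule.span (MonoidAlgebra R G) W ↔
      ∃ y, x = y * MonoidAlgebra.single 1 (1 - e) := by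
  set I := Submodule.span (MonoidAlgebra R G) W with hI
  obtain ⟨s, hs⟩ := Module.projective_lifting_property I.mkQ LinearMap.id I.mkQ_surjective
  have hs' : ∀ x, I.mkQ (s x) = x := fun x => LinearMap.congr_fun hs x
  set f := s (I.mkQ 1) with hf
  have h1 : ∀ x : MonoidAlgebra R G, s (I.mkQ x) = x * f := by
    intro x
    have : I.mkQ x = x • I.mkQ 1 := by rw [← map_smul, smul_eq_mul, mul_one]
    rw [this, map_smul, smul_eq_mul]
  have h2 : f * f = f := by
    rw [← h1 f, hf, hs']
  have h3 : ∀ x, x ∈ I ↔ x * f = 0 := by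
    intro x
    constructor
    · intro hx
      rw [← h1, (Submodule.Quotient.mk_eq_zero I).2 hx |> fun h => (show I.mkQ x = 0 from h),
        map_zero]
    · intro hx
      have := hs' (I.mkQ x)
      rw [h1, hx, map_zero] at this
      exact (Submodule.Quotient.mk_eq_zero I).1 this.symm
  refine ⟨aug f, by rw [← map_mul, h2], ?_⟩
  by_cases hf0 : f = 0
  · intro x
    rw [h3, hf0, mul_zero, map_zero, sub_zero]
    simp only [true_iff]
    exact ⟨x, by rw [← MonoidAlgebra.one_def, mul_one]⟩
  have hWr : ∀ a ∈ W, ∃ (g : G) (r : R), a = MonoidAlgebra.single g r := by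
    intro a ha
    exact (cf_dich htf (hW a ha) ((h3 a).1 (Submodule.subset_span ha))).resolve_left hf0
  have key : ∀ y ∈ I, (MonoidAlgebra.single 1 (aug y) : MonoidAlgebra R G) ∈ I := by
    intro y hy
    rw [hI] at hy
    induction hy using Submodule.span_induction with
    | mem a ha =>
      obtain ⟨g, r, rfl⟩ := hWr a ha
      rw [aug_single]
      have : (MonoidAlgebra.single 1 r : MonoidAlgebra R G)
          = MonoidAlgebra.single g⁻¹ (1 : R) • MonoidAlgebra.single g r := by
        rw [smul_eq_mul, MonoidAlgebra.single_mul_single, inv_mul_cancel, one_mul]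
      rw [this]
      exact I.smul_mem _ (Submodule.subset_span ha)
    | zero => rw [map_zero, MonoidAlgebra.single_zero]; exact I.zero_mem
    | add x y _ _ hx hy => rw [map_add, MonoidAlgebra.single_add]; exact I.add_mem hx hy
    | smul a x _ hx =>
      have h9 : (MonoidAlgebra.single 1 (aug (a • x)) : MonoidAlgebra R G)
          = (MonoidAlgebra.single 1 (aug a) : MonoidAlgebra R G) •
            (MonoidAlgebra.single 1 (aug x) : MonoidAlgebra R G) := by
        rw [smul_eq_mul, smul_eq_mul, map_mul, MonoidAlgebra.single_mul_single, mul_one]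
      rw [h9]
      exact I.smul_mem _ hx
  have h4 : (MonoidAlgebra.single 1 (1 - aug f) : MonoidAlgebra R G) ∈ I := by
    have h5 : 1 - f ∈ I := (h3 _).2 (by rw [sub_mul, one_mul, h2, sub_self])
    have := key _ h5
    rwa [map_sub, map_one] at this
  intro x
  constructor
  · intro hx
    have h5 : ∀ y ∈ I, y * MonoidAlgebra.single 1 (aug f) = 0 := by
      intro y hy
      rw [hI] at hy
      induction hy using Submodule.span_induction with
      | mem a ha =>
        obtain ⟨g, r, rfl⟩ := hWr a ha
        have h6 := congrArg aug ((h3 _).1 (Submodule.subset_span ha))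
        rw [map_mul, aug_single, map_zero] at h6
        rw [MonoidAlgebra.single_mul_single, h6, MonoidAlgebra.single_zero]
      | zero => rw [zero_mul]
      | add x y _ _ hx hy => rw [add_mul, hx, hy, add_zero]
      | smul a x _ hx => rw [smul_eq_mul, mul_assoc, hx, mul_zero]
    refine ⟨x, ?_⟩
    rw [MonoidAlgebra.single_sub, mul_sub, h5 x hx, sub_zero, ← MonoidAlgebra.one_def, mul_one]
  · rintro ⟨y, rfl⟩
    exact I.smul_mem y h4

/-- the diagonal presentation matrix of `⊕ RG e_j` -/
noncomputable def dg {κ : Type} [DecidableEq κ] (G : Type) [Group G] (e : κ → R) :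
    Matrix κ κ (MonoidAlgebra R G) :=
  Matrix.diagonal fun j => MonoidAlgebra.single 1 (1 - e j)

theorem ext_one (htf : ∀ g : G, ∀ k : ℕ, 0 < k → g ^ k = 1 → g = 1) {κ : Type} [Fintype κ]
    [DecidableEq κ] (T : Set (κ → MonoidAlgebra R G))
    (hT : ∀ t ∈ T, ∃ j a, Cf a ∧ t = Pi.single j a)
    (hP : Module.Projective (MonoidAlgebra R G)
      ((κ → MonoidAlgebra R G) ⧸ Submodule.span (MonoidAlgebra R G) T)) :
    ∃ e : κ → R, (∀ j, e j * e j = e j) ∧
      Submodule.span (MonoidAlgebra R G) T = LinearMap.range (dg G e).vecMulLinear := by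
  classical
  set N := Submodule.span (MonoidAlgebra R G) T with hN
  let W : κ → Set (MonoidAlgebra R G) := fun j => {a | Cf a ∧ (Pi.single j a : κ → _) ∈ T}
  let I : κ → Submodule (MonoidAlgebra R G) (MonoidAlgebra R G) := fun j =>
    Submodule.span (MonoidAlgebra R G) (W j)
  have hI : ∀ j, N ≤ (I j).comap (LinearMap.proj j) := by
    intro j
    rw [hN, Submodule.span_le]
    intro t ht
    change t j ∈ I j
    obtain ⟨k, a, ha, rfl⟩ := hT t ht
    by_cases hjk : j = k
    · subst hjk
      rw [Pi.single_eq_same]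
      exact Submodule.subset_span ⟨ha, ht⟩
    · rw [Pi.single_eq_of_ne hjk]
      exact (I j).zero_mem
  have hI1 : ∀ j, I j ≤ N.comap (LinearMap.single (MonoidAlgebra R G)
      (fun _ : κ => MonoidAlgebra R G) j) := by
    intro j
    rw [Submodule.span_le]
    rintro a ⟨_, ha⟩
    exact Submodule.subset_span ha
  have hI2 : ∀ j, ∃ e : R, e * e = e ∧ ∀ x, x ∈ I j ↔
      ∃ y, x = y * MonoidAlgebra.single 1 (1 - e) := by
    intro j
    apply ideal_ext htf (W j) (fun a ha => ha.1)
    exact Module.Projective.of_split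
      ((I j).mapQ N (LinearMap.single (MonoidAlgebra R G) (fun _ : κ => MonoidAlgebra R G) j)
        (hI1 j))
      (N.mapQ (I j) (LinearMap.proj j) (hI j)) (by
        ext
        simp)
  choose e he1 he2 using hI2
  refine ⟨e, he1, ?_⟩
  ext x
  constructor
  · intro hx
    choose y hy using fun j => (he2 j (x j)).1 (hI j hx)
    refine ⟨y, ?_⟩
    rw [Matrix.vecMulLinear_apply]
    funext j
    rw [dg, Matrix.vecMul_diagonal, ← hy]
  · rintro ⟨y, rfl⟩
    rw [Matrix.vecMulLinear_apply, dg]
    have h1 : y ᵥ* Matrix.diagonal (fun j => (MonoidAlgebra.single 1 (1 - e j) :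
        MonoidAlgebra R G)) = ∑ j, Pi.single j (y j * MonoidAlgebra.single 1 (1 - e j)) := by
      funext k
      rw [Matrix.vecMul_diagonal, Finset.sum_apply]
      rw [Finset.sum_eq_single k]
      · rw [Pi.single_eq_same]
      · intro j _ hj
        exact Pi.single_eq_of_ne (Ne.symm hj) _
      · intro h; exact absurd (Finset.mem_univ k) h
    rw [h1]
    refine Submodule.sum_mem _ fun j _ => ?_
    exact hI1 j ((he2 j _).2 ⟨y j, rfl⟩)

/-- relations with at most two generators -/
def PU {κ : Type} [DecidableEq κ] (t : κ → MonoidAlgebra R G) : Prop :=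
  (∃ j a, Cf a ∧ t = Pi.single j a) ∨
    ∃ (j k : κ) (u v : MonoidAlgebra R G), j ≠ k ∧ TU u ∧ TU v ∧
      t = Pi.single j u + Pi.single k v

theorem ext_two (htf : ∀ g : G, ∀ k : ℕ, 0 < k → g ^ k = 1 → g = 1) : ∀ (n : ℕ) (κ : Type)
    [Fintype κ] [DecidableEq κ], Fintype.card κ = n → ∀ T : Set (κ → MonoidAlgebra R G),
    (∀ t ∈ T, PU t) → Module.Projective (MonoidAlgebra R G)
      ((κ → MonoidAlgebra R G) ⧸ Submodule.span (MonoidAlgebra R G) T) →
    ∃ (m : ℕ) (e : Fin m → R), (∀ j, e j * e j = e j) ∧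
      Nonempty (((κ → MonoidAlgebra R G) ⧸ Submodule.span (MonoidAlgebra R G) T)
        ≃ₗ[MonoidAlgebra R G]
        ((Fin m → MonoidAlgebra R G) ⧸ LinearMap.range (dg G e).vecMulLinear)) := by
  classical
  have base : ∀ (κ : Type) [Fintype κ] [DecidableEq κ] (T : Set (κ → MonoidAlgebra R G)),
      (∀ t ∈ T, ∃ j a, Cf a ∧ t = Pi.single j a) → Module.Projective (MonoidAlgebra R G)
        ((κ → MonoidAlgebra R G) ⧸ Submodule.span (MonoidAlgebra R G) T) →
      ∃ (m : ℕ) (e : Fin m → R), (∀ j, e j * e j = e j) ∧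
        Nonempty (((κ → MonoidAlgebra R G) ⧸ Submodule.span (MonoidAlgebra R G) T)
          ≃ₗ[MonoidAlgebra R G]
          ((Fin m → MonoidAlgebra R G) ⧸ LinearMap.range (dg G e).vecMulLinear)) := by
    intro κ _ _ T hT hP
    obtain ⟨e, he, hs⟩ := ext_one htf T hT hP
    let σ : Fin (Fintype.card κ) ≃ κ := (Fintype.equivFin κ).symm
    refine ⟨Fintype.card κ, e ∘ σ, fun j => he _, ⟨?_⟩⟩
    refine Submodule.Quotient.equiv _ _ (LinearEquiv.funCongrLeft (MonoidAlgebra R G)
      (MonoidAlgebra R G) σ) ?_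
    rw [hs]
    ext x
    constructor
    · rintro ⟨_, ⟨y, rfl⟩, rfl⟩
      refine ⟨y ∘ σ, ?_⟩
      funext j
      rw [Matrix.vecMulLinear_apply, dg, Matrix.vecMul_diagonal]
      change _ = (Matrix.vecMulLinear (dg G e)) y (σ j)
      rw [Matrix.vecMulLinear_apply, dg, Matrix.vecMul_diagonal]
      rfl
    · rintro ⟨y, rfl⟩
      refine ⟨(dg G e).vecMulLinear (y ∘ σ.symm), ⟨_, rfl⟩, ?_⟩
      funext j
      change (Matrix.vecMulLinear (dg G e)) (y ∘ σ.symm) (σ j) = _
      rw [Matrix.vecMulLinear_apply, dg, Matrix.vecMul_diagonal, Matrix.vecMulLinear_apply, dg,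
        Matrix.vecMul_diagonal]
      simp
  intro n
  induction n with
  | zero =>
    intro κ _ _ hκ T hT hP
    refine base κ T (fun t ht => ?_) hP
    rcases hT t ht with h | ⟨j, _⟩
    · exact h
    · exact absurd (Fintype.card_pos_iff.2 ⟨j⟩) (by omega)
  | succ n ih =>
    intro κ _ _ hκ T hT hP
    by_cases hall : ∀ t ∈ T, ∃ j a, Cf a ∧ t = Pi.single j a
    · exact base κ T hall hP
    push Not at hall
    obtain ⟨t, ht, hne⟩ := hall
    rcases hT t ht with ⟨j, a, ha, h⟩ | ⟨j, k, u, v, hjk, hu, hv, htt⟩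
    · exact absurd h (hne j a ha)
    obtain ⟨u', hu', huu1, huu2⟩ := hu.inv
    let κ' : Type := {i // i ≠ j}
    let k' : κ' := ⟨k, hjk.symm⟩
    let c : MonoidAlgebra R G := -(u' * v)
    have hc : TU c := (hu'.mul hv).neg
    let f : (κ → MonoidAlgebra R G) →ₗ[MonoidAlgebra R G] (κ' → MonoidAlgebra R G) :=
      { toFun := fun x i => x i + if i = k' then x j * c else 0
        map_add' := by
          intro x y
          funext i
          simp only [Pi.add_apply]
          split_ifs
          · rw [add_mul]; abel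
          · simp
        map_smul' := by
          intro r x
          funext i
          simp only [Pi.smul_apply, smul_eq_mul, RingHom.id_apply]
          split_ifs
          · rw [mul_add, mul_assoc]
          · simp }
    have hf : ∀ x i, f x i = x i + if i = k' then x j * c else 0 := fun x i => rfl
    have hfs : Function.Surjective f := by
      intro y
      refine ⟨fun i => if h : i ≠ j then y ⟨i, h⟩ else 0, ?_⟩
      funext i
      rw [hf]
      have : ¬ (j ≠ j) := fun h => h rfl
      rw [dif_pos i.2, dif_neg this, zero_mul]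
      simp
    have hfj : ∀ a : MonoidAlgebra R G, f (Pi.single j a) = Pi.single k' (a * c) := by
      intro a
      funext i
      rw [hf, Pi.single_eq_same, Pi.single_eq_of_ne i.2, zero_add]
      by_cases hi : i = k'
      · subst hi; rw [if_pos rfl, Pi.single_eq_same]
      · rw [if_neg hi, Pi.single_eq_of_ne hi]
    have hfi : ∀ (i : κ') (a : MonoidAlgebra R G), f (Pi.single (i : κ) a) = Pi.single i a := by
      intro i a
      funext l
      rw [hf, Pi.single_eq_of_ne i.2.symm, zero_mul]
      by_cases hi : l = i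
      · subst hi; simp
      · rw [Pi.single_eq_of_ne hi, Pi.single_eq_of_ne (fun h => hi (Subtype.ext h))]
        simp
    have hker : LinearMap.ker f ≤ Submodule.span (MonoidAlgebra R G) T := by
      intro x hx
      have hx' : ∀ i, f x i = 0 := fun i => congrFun hx i
      have h1 : x = (x j * u') • t := by
        funext i
        rw [htt, Pi.smul_apply, Pi.add_apply, smul_eq_mul]
        by_cases hi : i = j
        · subst hi
          rw [Pi.single_eq_same, Pi.single_eq_of_ne hjk, add_zero, mul_assoc, huu2, mul_one]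
        · rw [Pi.single_eq_of_ne hi, zero_add]
          have h2 := hx' ⟨i, hi⟩
          rw [hf] at h2
          by_cases hk : i = k
          · subst hk
            rw [Pi.single_eq_same]
            rw [if_pos rfl] at h2
            rw [eq_neg_of_add_eq_zero_left h2]
            simp only [c]
            rw [mul_neg, neg_neg, mul_assoc]
          · rw [Pi.single_eq_of_ne hk, mul_zero]
            rw [if_neg (fun h => hk (congrArg Subtype.val h)), add_zero] at h2
            exact h2
      rw [h1]
      exact Submodule.smul_mem _ _ (Submodule.subset_span ht)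
    -- the new relations
    have hT' : ∀ t ∈ f '' T, PU t := by
      rintro _ ⟨t, ht, rfl⟩
      rcases hT t ht with ⟨i, a, ha, rfl⟩ | ⟨i, l, p, q, hil, hp, hq, rfl⟩
      · left
        by_cases hi : i = j
        · subst hi; exact ⟨k', a * c, ha.mul hc, hfj a⟩
        · exact ⟨⟨i, hi⟩, a, ha, hfi ⟨i, hi⟩ a⟩
      · rw [map_add]
        by_cases hi : i = j
        · subst hi
          rw [hfj, show f (Pi.single l q) = _ from hfi ⟨l, hil.symm⟩ q]
          by_cases hl : (⟨l, hil.symm⟩ : κ') = k'
          · left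
            rw [hl]
            exact ⟨k', p * c + q, Or.inr (Or.inr ⟨_, _, hp.mul hc, hq, rfl⟩),
              (Pi.single_add k' _ _).symm⟩
          · right
            exact ⟨k', ⟨l, hil.symm⟩, p * c, q, Ne.symm hl, hp.mul hc, hq, rfl⟩
        · by_cases hl : l = j
          · subst hl
            rw [hfj, show f (Pi.single i p) = _ from hfi ⟨i, hi⟩ p]
            by_cases hl : (⟨i, hi⟩ : κ') = k'
            · left
              rw [hl]
              exact ⟨k', p + q * c, Or.inr (Or.inr ⟨_, _, hp, hq.mul hc, rfl⟩),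
                (Pi.single_add k' _ _).symm⟩
            · right
              exact ⟨⟨i, hi⟩, k', p, q * c, hl, hp, hq.mul hc, rfl⟩
          · right
            rw [show f (Pi.single i p) = _ from hfi ⟨i, hi⟩ p,
              show f (Pi.single l q) = _ from hfi ⟨l, hl⟩ q]
            exact ⟨⟨i, hi⟩, ⟨l, hl⟩, p, q, fun h => hil (congrArg Subtype.val h), hp, hq, rfl⟩
    let g : (κ → MonoidAlgebra R G) →ₗ[MonoidAlgebra R G]
        ((κ' → MonoidAlgebra R G) ⧸ Submodule.span (MonoidAlgebra R G) (f '' T)) :=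
      (Submodule.span (MonoidAlgebra R G) (f '' T)).mkQ ∘ₗ f
    have hg : Function.Surjective g := (Submodule.mkQ_surjective _).comp hfs
    have hgk : LinearMap.ker g = Submodule.span (MonoidAlgebra R G) T := by
      rw [LinearMap.ker_comp, Submodule.ker_mkQ, Submodule.span_image, Submodule.comap_map_eq,
        sup_eq_left.2 hker]
    have e := LinearMap.quotKerEquivOfSurjective g hg
    rw [hgk] at e
    have hP' : Module.Projective (MonoidAlgebra R G)
        ((κ' → MonoidAlgebra R G) ⧸ Submodule.span (MonoidAlgebra R G) (f '' T)) :=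
      Module.Projective.of_equiv e
    have hcard : Fintype.card κ' = n := by
      have : Fintype.card κ' = Fintype.card κ - 1 := by
        rw [Fintype.card_subtype_compl]
        simp
      omega
    obtain ⟨m, ee, h1, ⟨h2⟩⟩ := ih κ' hcard (f '' T) hT' hP'
    exact ⟨m, ee, h1, ⟨e.trans h2⟩⟩

/-- the rows of a matrix with at most two nonzero entries -/
theorem pu_row {κ : Type} [Fintype κ] [DecidableEq κ] [Nonempty κ] (t : κ → MonoidAlgebra R G)
    (h : {j | t j ≠ 0}.ncard ≤ 2) (h2 : ∀ j, t j = 0 ∨ TU (t j)) : PU t := by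
  classical
  by_cases h1 : {j | t j ≠ 0}.ncard ≤ 1
  · left
    rcases Nat.le_one_iff_eq_zero_or_eq_one.1 h1 with h3 | h3
    · rw [Set.ncard_eq_zero] at h3
      refine ⟨Classical.arbitrary κ, 0, Or.inl rfl, ?_⟩
      rw [Pi.single_zero]
      funext j
      by_contra hj
      have : j ∈ {j | t j ≠ 0} := hj
      rw [h3] at this
      exact this
    · obtain ⟨j, hj⟩ := Set.ncard_eq_one.1 h3
      refine ⟨j, t j, (h2 j).imp id Or.inl, ?_⟩
      funext k
      by_cases hk : k = j
      · subst hk; rw [Pi.single_eq_same]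
      · rw [Pi.single_eq_of_ne hk]
        by_contra hk2
        have : k ∈ {j | t j ≠ 0} := hk2
        rw [hj] at this
        exact hk this
  · right
    obtain ⟨j, k, hjk, hS⟩ := Set.ncard_eq_two.1 (le_antisymm h (by omega))
    have hj : t j ≠ 0 := by
      have : j ∈ {j | t j ≠ 0} := by rw [hS]; simp
      exact this
    have hk : t k ≠ 0 := by
      have : k ∈ {j | t j ≠ 0} := by rw [hS]; simp
      exact this
    refine ⟨j, k, t j, t k, hjk, (h2 j).resolve_left hj, (h2 k).resolve_left hk, ?_⟩
    funext l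
    rw [Pi.add_apply]
    by_cases hl : l = j
    · subst hl
      rw [Pi.single_eq_same, Pi.single_eq_of_ne hjk, add_zero]
    · by_cases hl2 : l = k
      · subst hl2
        rw [Pi.single_eq_same, Pi.single_eq_of_ne hl, zero_add]
      · rw [Pi.single_eq_of_ne hl, Pi.single_eq_of_ne hl2, add_zero]
        by_contra hl3
        have : l ∈ {j | t j ≠ 0} := hl3
        rw [hS] at this
        rcases this with h5 | h5
        · exact hl h5
        · exact hl2 h5

/-- projective modules in which each relation involves at most two generators are extended -/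
theorem ext_rows (htf : ∀ g : G, ∀ k : ℕ, 0 < k → g ^ k = 1 → g = 1) {ι κ : Type} [Fintype ι]
    [Fintype κ] (B : Matrix ι κ (MonoidAlgebra R G))
    (h : ∀ i, {j | B i j ≠ 0}.ncard ≤ 2) (h2 : ∀ i j, B i j = 0 ∨ TU (B i j))
    (P : Type) [AddCommGroup P] [Module (MonoidAlgebra R G) P]
    (hP : Module.Projective (MonoidAlgebra R G) P)
    (e : P ≃ₗ[MonoidAlgebra R G] (κ → MonoidAlgebra R G) ⧸ LinearMap.range B.vecMulLinear) :
    ∃ (m : ℕ) (e : Fin m → R), (∀ j, e j * e j = e j) ∧
      Nonempty (P ≃ₗ[MonoidAlgebra R G]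
        ((Fin m → MonoidAlgebra R G) ⧸ LinearMap.range (dg G e).vecMulLinear)) := by
  classical
  have hr : LinearMap.range B.vecMulLinear = Submodule.span _ (Set.range B) := by
    rw [range_vecMulLinear]
    rfl
  rw [hr] at e
  have hP' := Module.Projective.of_equiv e
  rcases isEmpty_or_nonempty κ with hκ | hκ
  · have i1 : Subsingleton ((κ → MonoidAlgebra R G) ⧸
        Submodule.span (MonoidAlgebra R G) (Set.range B)) := inferInstance
    have i0 : Subsingleton P := e.injective.subsingleton
    have i2 : Subsingleton ((Fin 0 → MonoidAlgebra R G) ⧸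
        LinearMap.range (dg G (fun j : Fin 0 => (j.elim0 : R))).vecMulLinear) := inferInstance
    exact ⟨0, fun j => j.elim0, fun j => j.elim0,
      ⟨{ (0 : P →ₗ[MonoidAlgebra R G] ((Fin 0 → MonoidAlgebra R G) ⧸
          LinearMap.range (dg G (fun j : Fin 0 => (j.elim0 : R))).vecMulLinear)) with
        invFun := fun _ => 0
        left_inv := fun _ => Subsingleton.elim _ _
        right_inv := fun _ => Subsingleton.elim _ _ }⟩⟩
  · obtain ⟨m, ee, h1, ⟨h3⟩⟩ := ext_two htf _ κ rfl _
      (by rintro _ ⟨i, rfl⟩; exact pu_row (B i) (h i) (h2 i)) hP'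
    exact ⟨m, ee, h1, ⟨e.trans h3⟩⟩

/-- the generators `± s` and `± t` -/
def gensR (S : Set G) (T : Set R) : Set (MonoidAlgebra R G) :=
  {x | (∃ s : G, (s = 1 ∨ s ∈ S ∨ s⁻¹ ∈ S) ∧
      (x = MonoidAlgebra.single s 1 ∨ x = MonoidAlgebra.single s (-1))) ∨
    ∃ t ∈ T, x = MonoidAlgebra.single 1 t ∨ x = MonoidAlgebra.single 1 (-t)}

theorem one_gensR (S : Set G) (T : Set R) : (1 : MonoidAlgebra R G) ∈ gensR S T :=
  Or.inl ⟨1, Or.inl rfl, Or.inl MonoidAlgebra.one_def⟩

theorem neg_gensR (S : Set G) (T : Set R) : ∀ g ∈ gensR S T, -g ∈ gensR S T := by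
  rintro _ (⟨s, hs, rfl | rfl⟩ | ⟨t, ht, rfl | rfl⟩)
  · exact Or.inl ⟨s, hs, Or.inr (by rw [MonoidAlgebra.single_neg])⟩
  · exact Or.inl ⟨s, hs, Or.inl (by rw [← MonoidAlgebra.single_neg, neg_neg])⟩
  · exact Or.inr ⟨t, ht, Or.inr (by rw [MonoidAlgebra.single_neg])⟩
  · exact Or.inr ⟨t, ht, Or.inl (by rw [← MonoidAlgebra.single_neg, neg_neg])⟩

theorem closure_gensR (S : Set G) (hS : Subgroup.closure S = ⊤) (T : Set R)
    (hT : Subring.closure T = ⊤) : Subring.closure (gensR S T) = ⊤ := by
  classical
  have h1 : ∀ g : G, (MonoidAlgebra.single g 1 : MonoidAlgebra R G) ∈ Subring.closure (gensR S T) := by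
    intro g
    have hmem : g ∈ Subgroup.closure S := by rw [hS]; trivial
    induction hmem using Subgroup.closure_induction_right with
    | one => exact Subring.subset_closure (one_gensR S T)
    | mul_right x hx y hy ih =>
      have := mul_mem ih (Subring.subset_closure (s := gensR S T) (a := MonoidAlgebra.single y 1)
        (Or.inl ⟨y, Or.inr (Or.inl hy), Or.inl rfl⟩))
      rwa [MonoidAlgebra.single_mul_single, mul_one] at this
    | mul_inv_cancel x hx y hy ih =>
      have := mul_mem ih (Subring.subset_closure (s := gensR S T) (a := MonoidAlgebra.single y⁻¹ 1)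
        (Or.inl ⟨y⁻¹, Or.inr (Or.inr (by rw [inv_inv]; exact hy)), Or.inl rfl⟩))
      rwa [MonoidAlgebra.single_mul_single, mul_one] at this
  have h2 : ∀ r : R,
      (MonoidAlgebra.single 1 r : MonoidAlgebra R G) ∈ Subring.closure (gensR S T) := by
    intro r
    have h3 : Subring.closure T ≤ (Subring.closure (gensR S T)).comap
        (MonoidAlgebra.singleOneRingHom : R →+* MonoidAlgebra R G) := by
      rw [Subring.closure_le]
      intro t ht
      exact Subring.subset_closure (Or.inr ⟨t, ht, Or.inl rfl⟩)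
    exact h3 (by rw [hT]; trivial)
  rw [eq_top_iff]
  intro x _
  have h3 : x = ∑ g ∈ x.coeff.support, MonoidAlgebra.single 1 (x.coeff g) *
      MonoidAlgebra.single g 1 := by
    ext h
    rw [MonoidAlgebra.coeff_sum, Finsupp.finsetSum_apply]
    simp only [MonoidAlgebra.single_mul_single, one_mul, mul_one, MonoidAlgebra.coeff_single]
    rw [Finset.sum_congr rfl fun g _ => Finsupp.single_apply, Finset.sum_ite_eq']
    split_ifs with h3
    · rfl
    · exact Finsupp.notMem_support_iff.1 h3
  rw [h3]
  exact sum_mem fun g _ => mul_mem (h2 _) (h1 g)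

theorem genBy_top {A : Type} [Ring A] (𝒢 : Set A) (h : Subring.closure 𝒢 = ⊤) : GenBy 𝒢 := by
  intro P h0 h1 hadd hneg hmul r
  have key : ∀ (a : A), a ∈ Subring.closure 𝒢 → ∀ x : A, P x → P (x * a) := by
    intro a ha
    induction ha using Subring.closure_induction with
    | mem g hg => intro x hx; exact hmul x g hg hx
    | zero => intro x _; rw [mul_zero]; exact h0
    | one => intro x hx; rw [mul_one]; exact hx
    | add a b ha hb iha ihb => intro x hx; rw [mul_add]; exact hadd _ _ (iha x hx) (ihb x hx)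
    | neg a ha iha => intro x hx; rw [mul_neg]; exact hneg _ (iha x hx)
    | mul a b ha hb iha ihb => intro x hx; rw [← mul_assoc]; exact ihb _ (iha x hx)
  have := key r (by rw [h]; trivial) 1 h1
  rwa [one_mul] at this

end ext

end Pool.Agent.R472.Grid
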