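import Pool.Agent.R472.GridExt

set_option autoImplicit false
set_option linter.unusedSectionVars false

/-! Projective modules over group rings of arbitrary groups in which each relation involves at most
two generators, with trivial units as coefficients: induced from finite subgroups. -/

namespace Pool.Agent.R472.Grid

open Matrix TH57.Thr

section fin

variable {R : Type} [Ring R] {G : Type} [Group G]

/-- restriction of the support to a subgroup -/
noncomputable def rst (H : Subgroup G) (x : MonoidAlgebra R G) : MonoidAlgebra R G :=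
  open Classical in ∑ g ∈ x.coeff.support, if g ∈ H then MonoidAlgebra.single g (x.coeff g) else 0

open Classical in
theorem coeff_rst (H : Subgroup G) (x : MonoidAlgebra R G) (g : G) :
    (rst H x).coeff g = if g ∈ H then x.coeff g else 0 := by
  unfold rst
  rw [MonoidAlgebra.coeff_sum, Finsupp.finsetSum_apply]
  have h1 : ∀ h ∈ x.coeff.support, (if h ∈ H then
      (MonoidAlgebra.single h (x.coeff h) : MonoidAlgebra R G) else 0).coeff g
      = if h = g then (if g ∈ H then x.coeff g else 0) else 0 := by
    intro h _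
    by_cases hg : h = g
    · subst hg
      rw [if_pos rfl]
      split_ifs with h2
      · rw [MonoidAlgebra.coeff_single, Finsupp.single_eq_same]
      · rfl
    · rw [if_neg hg]
      split_ifs with h2
      · rw [MonoidAlgebra.coeff_single, Finsupp.single_apply, if_neg hg]
      · rfl
  rw [Finset.sum_congr rfl h1, Finset.sum_ite_eq']
  split_ifs with h2 h3 h3
  · rfl
  · rfl
  · exact (Finsupp.notMem_support_iff.1 h2).symm
  · rfl

theorem rst_zero (H : Subgroup G) : rst H (0 : MonoidAlgebra R G) = 0 := by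
  classical
  ext g; rw [coeff_rst]; simp

theorem rst_add (H : Subgroup G) (x y : MonoidAlgebra R G) :
    rst H (x + y) = rst H x + rst H y := by
  classical
  ext g
  rw [MonoidAlgebra.coeff_add, Finsupp.add_apply, coeff_rst, coeff_rst, coeff_rst,
    MonoidAlgebra.coeff_add, Finsupp.add_apply]
  split_ifs
  · rfl
  · rw [add_zero]

theorem rst_neg (H : Subgroup G) (x : MonoidAlgebra R G) : rst H (-x) = -rst H x := by
  classical
  ext g
  rw [MonoidAlgebra.coeff_neg, Finsupp.neg_apply, coeff_rst, coeff_rst,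
    MonoidAlgebra.coeff_neg, Finsupp.neg_apply]
  split_ifs
  · rfl
  · rw [neg_zero]

theorem rst_single {H : Subgroup G} {g : G} (hg : g ∈ H) (r : R) :
    rst H (MonoidAlgebra.single g r) = MonoidAlgebra.single g r := by
  classical
  ext h
  rw [coeff_rst, MonoidAlgebra.coeff_single, Finsupp.single_apply]
  by_cases h1 : g = h
  · subst h1; rw [if_pos hg]
  · rw [if_neg h1, ite_self]

theorem rst_single' {H : Subgroup G} {g : G} (hg : g ∉ H) (r : R) :
    rst H (MonoidAlgebra.single g r) = 0 := by
  classical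
  ext h
  rw [coeff_rst, MonoidAlgebra.coeff_single, Finsupp.single_apply]
  by_cases h1 : g = h
  · subst h1; rw [if_neg hg]; rfl
  · rw [if_neg h1, ite_self]; rfl

theorem rst_mul_single {H : Subgroup G} {h : G} (hh : h ∈ H) (s : R) (x : MonoidAlgebra R G) :
    rst H (x * MonoidAlgebra.single h s) = rst H x * MonoidAlgebra.single h s := by
  induction x using MonoidAlgebra.induction_linear with
  | zero => rw [zero_mul, rst_zero, zero_mul]
  | add x y hx hy => rw [add_mul, rst_add, hx, hy, rst_add, add_mul]
  | single g r =>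
    rw [MonoidAlgebra.single_mul_single]
    by_cases hg : g ∈ H
    · rw [rst_single (H.mul_mem hg hh), rst_single hg, MonoidAlgebra.single_mul_single]
    · rw [rst_single' (fun h2 => hg ((H.mul_mem_cancel_right hh).1 h2)), rst_single' hg, zero_mul]

theorem rst_single_mul {H : Subgroup G} {h : G} (hh : h ∈ H) (s : R) (x : MonoidAlgebra R G) :
    rst H (MonoidAlgebra.single h s * x) = MonoidAlgebra.single h s * rst H x := by
  induction x using MonoidAlgebra.induction_linear with
  | zero => rw [mul_zero, rst_zero, mul_zero]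
  | add x y hx hy => rw [mul_add, rst_add, hx, hy, rst_add, mul_add]
  | single g r =>
    rw [MonoidAlgebra.single_mul_single]
    by_cases hg : g ∈ H
    · rw [rst_single (H.mul_mem hh hg), rst_single hg, MonoidAlgebra.single_mul_single]
    · rw [rst_single' (fun h2 => hg ((H.mul_mem_cancel_left hh).1 h2)), rst_single' hg, mul_zero]

/-- the elements of `RG` of the form (trivial unit) (element of `R H`), with two summands at most -/
theorem cf_dich' {f : MonoidAlgebra R G} (hf : f ≠ 0) {a : MonoidAlgebra R G} (ha : Cf a)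
    (h : a * f = 0) : ∃ (c : MonoidAlgebra R G) (k : G) (r s : R), TU c ∧
      (∃ v : Rˣ, MonoidAlgebra.single k (v : R) * f = f) ∧
      a = c * (MonoidAlgebra.single 1 r + MonoidAlgebra.single k s) := by
  rcases ha with rfl | h1 | ⟨_, _, ⟨g, u, rfl⟩, ⟨k, v, rfl⟩, rfl⟩
  · refine ⟨MonoidAlgebra.single 1 ((1 : Rˣ) : R), 1, 0, 0, ⟨1, 1, rfl⟩, ⟨1, ?_⟩, ?_⟩
    · rw [Units.val_one]; exact one_mul f
    · simp
  · exfalso
    obtain ⟨y, _, _, h3⟩ := h1.inv
    have : y * (a * f) = f := by rw [← mul_assoc, h3, one_mul]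
    rw [h, mul_zero] at this
    exact hf this.symm
  · refine ⟨MonoidAlgebra.single g (u : R), g⁻¹ * k, 1, ((u⁻¹ * v : Rˣ) : R), ⟨g, u, rfl⟩,
      ⟨-(u⁻¹ * v), ?_⟩, ?_⟩
    · have h2 : MonoidAlgebra.single k (v : R) * f = -(MonoidAlgebra.single g (u : R) * f) := by
        rw [add_mul] at h
        exact eq_neg_of_add_eq_zero_right h
      have h3 : (MonoidAlgebra.single (g⁻¹ * k) (((-(u⁻¹ * v) : Rˣ)) : R) : MonoidAlgebra R G)
          = -(MonoidAlgebra.single g⁻¹ ((u⁻¹ : Rˣ) : R) * MonoidAlgebra.single k (v : R)) := by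
        rw [MonoidAlgebra.single_mul_single, Units.val_neg, MonoidAlgebra.single_neg,
          Units.val_mul]
      rw [h3, neg_mul, mul_assoc, h2, mul_neg, neg_neg, ← mul_assoc,
        MonoidAlgebra.single_mul_single, inv_mul_cancel, Units.inv_mul]
      exact one_mul f
    · rw [mul_add, MonoidAlgebra.single_mul_single, MonoidAlgebra.single_mul_single, mul_one,
        mul_one, mul_inv_cancel_left, Units.val_mul, Units.mul_inv_cancel_left]

theorem ideal_fin (W : Set (MonoidAlgebra R G)) (hW : ∀ a ∈ W, Cf a)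
    (h : Module.Projective (MonoidAlgebra R G)
      (MonoidAlgebra R G ⧸ Submodule.span (MonoidAlgebra R G) W)) :
    ∃ (e : MonoidAlgebra R G) (H : Subgroup G), Finite H ∧ (∀ g, e.coeff g ≠ 0 → g ∈ H) ∧
      e * e = e ∧ ∀ x : MonoidAlgebra R G, x ∈ Submodule.span (MonoidAlgebra R G) W ↔
      ∃ y, x = y * (1 - e) := by
  classical
  set I := Submodule.span (MonoidAlgebra R G) W with hI
  obtain ⟨s, hs⟩ := Module.projective_lifting_property I.mkQ LinearMap.id I.mkQ_surjective
  have hs' : ∀ x, I.mkQ (s x) = x := fun x => LinearMap.congr_fun hs x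
  set f := s (I.mkQ 1) with hf
  have h1 : ∀ x : MonoidAlgebra R G, s (I.mkQ x) = x * f := by
    intro x
    have : I.mkQ x = x • I.mkQ 1 := by rw [← map_smul, smul_eq_mul, mul_one]
    rw [this, map_smul, smul_eq_mul]
  have h2 : f * f = f := by
    rw [← h1 f, hf, hs']
  have h3 : ∀ x, x ∈ I ↔ x * f = 0 := by
    intro x
    constructor
    · intro hx
      rw [← h1, (Submodule.Quotient.mk_eq_zero I).2 hx |> fun h => (show I.mkQ x = 0 from h),
        map_zero]
    · intro hx
      have := hs' (I.mkQ x)
      rw [h1, hx, map_zero] at this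
      exact (Submodule.Quotient.mk_eq_zero I).1 this.symm
  by_cases hf0 : f = 0
  · refine ⟨0, ⊥, inferInstance, fun g hg => absurd rfl hg, mul_zero 0, fun x => ?_⟩
    rw [h3, hf0, mul_zero, sub_zero]
    simp only [true_iff]
    exact ⟨x, (mul_one x).symm⟩
  let H : Subgroup G :=
    { carrier := {k | ∃ v : Rˣ, MonoidAlgebra.single k (v : R) * f = f}
      mul_mem' := by
        rintro a b ⟨v, hv⟩ ⟨v', hv'⟩
        refine ⟨v * v', ?_⟩
        rw [Units.val_mul, ← MonoidAlgebra.single_mul_single, mul_assoc, hv', hv]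
      one_mem' := ⟨1, by rw [Units.val_one]; exact one_mul f⟩
      inv_mem' := by
        rintro a ⟨v, hv⟩
        refine ⟨v⁻¹, ?_⟩
        conv_lhs => rw [← hv]
        rw [← mul_assoc, MonoidAlgebra.single_mul_single, inv_mul_cancel, Units.inv_mul]
        exact one_mul f }
  have hH : ∀ k, k ∈ H ↔ ∃ v : Rˣ, MonoidAlgebra.single k (v : R) * f = f := fun k => Iff.rfl
  obtain ⟨x0, hx0⟩ : ∃ x, f.coeff x ≠ 0 := by
    by_contra h
    push Not at h
    exact hf0 (by ext x; exact h x)
  have hHf : Finite H := by
    refine Finite.of_injective (β := f.coeff.support) (fun k => ⟨(k : G) * x0, ?_⟩) ?_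
    · obtain ⟨v, hv⟩ := (hH k).1 k.2
      rw [Finsupp.mem_support_iff, ← hv, MonoidAlgebra.coeff_single_mul_apply,
        inv_mul_cancel_left]
      intro h
      exact hx0 (v.mul_right_eq_zero.1 h)
    · intro a b hab
      exact Subtype.ext (mul_right_cancel (congrArg Subtype.val hab))
  have hWr : ∀ a ∈ W, ∃ (c : MonoidAlgebra R G) (k : G) (r s : R), TU c ∧ k ∈ H ∧
      a = c * (MonoidAlgebra.single 1 r + MonoidAlgebra.single k s) := by
    intro a ha
    exact cf_dich' hf0 (hW a ha) ((h3 a).1 (Submodule.subset_span ha))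
  have hb1 : ∀ (x : MonoidAlgebra R G) (k : G) (_ : k ∈ H) (r s : R),
      rst H (x * (MonoidAlgebra.single 1 r + MonoidAlgebra.single k s))
        = rst H x * (MonoidAlgebra.single 1 r + MonoidAlgebra.single k s) := by
    intro x k hk r s
    rw [mul_add, rst_add, rst_mul_single H.one_mem, rst_mul_single hk, mul_add]
  have hb2 : ∀ (x : MonoidAlgebra R G) (k : G) (_ : k ∈ H) (r s : R),
      rst H ((MonoidAlgebra.single 1 r + MonoidAlgebra.single k s) * x)
        = (MonoidAlgebra.single 1 r + MonoidAlgebra.single k s) * rst H x := by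
    intro x k hk r s
    rw [add_mul, rst_add, rst_single_mul H.one_mem, rst_single_mul hk, add_mul]
  have key : ∀ y ∈ I, rst H y ∈ I := by
    intro y hy
    rw [hI] at hy
    induction hy using Submodule.closure_induction with
    | zero => rw [rst_zero]; exact I.zero_mem
    | add x y _ _ hx hy => rw [rst_add]; exact I.add_mem hx hy
    | smul_mem x a ha =>
      obtain ⟨c, k, r, s, hc, hk, rfl⟩ := hWr a ha
      obtain ⟨c', _, _, hcc⟩ := hc.inv
      rw [smul_eq_mul, ← mul_assoc, hb1 _ k hk]
      have h4 : rst H (x * c) * (MonoidAlgebra.single 1 r + MonoidAlgebra.single k s)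
          = (rst H (x * c) * c') • (c * (MonoidAlgebra.single 1 r + MonoidAlgebra.single k s)) := by
        rw [smul_eq_mul, mul_assoc, ← mul_assoc c', hcc, one_mul]
      rw [h4]
      exact I.smul_mem _ (Submodule.subset_span ha)
  set e := rst H f with he
  have h4 : 1 - e ∈ I := by
    have h5 : 1 - f ∈ I := (h3 _).2 (by rw [sub_mul, one_mul, h2, sub_self])
    have h6 := key _ h5
    rwa [sub_eq_add_neg, rst_add, rst_neg, MonoidAlgebra.one_def, rst_single H.one_mem,
      ← MonoidAlgebra.one_def, ← sub_eq_add_neg] at h6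
  have h5 : ∀ y ∈ I, y * e = 0 := by
    intro y hy
    rw [hI] at hy
    induction hy using Submodule.span_induction with
    | mem a ha =>
      obtain ⟨c, k, r, s, hc, hk, hac⟩ := hWr a ha
      obtain ⟨c', _, _, hcc⟩ := hc.inv
      have h6 := (h3 _).1 (Submodule.subset_span ha)
      have h7 : (MonoidAlgebra.single 1 r + MonoidAlgebra.single k s) * f = 0 := by
        have : c' * (a * f) = (MonoidAlgebra.single 1 r + MonoidAlgebra.single k s) * f := by
          rw [hac, mul_assoc c, ← mul_assoc c', hcc, one_mul]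
        rw [← this, h6, mul_zero]
      rw [hac, mul_assoc, he, ← hb2 _ k hk, h7, rst_zero, mul_zero]
    | zero => rw [zero_mul]
    | add x y _ _ hx hy => rw [add_mul, hx, hy, add_zero]
    | smul a x _ hx => rw [smul_eq_mul, mul_assoc, hx, mul_zero]
  refine ⟨e, H, hHf, fun g hg => ?_, ?_, fun x => ⟨fun hx => ⟨x, ?_⟩, ?_⟩⟩
  · rw [he, coeff_rst] at hg
    by_contra h6
    rw [if_neg h6] at hg
    exact hg rfl
  · have h6 := h5 _ h4
    rw [sub_mul, one_mul, sub_eq_zero] at h6
    exact h6.symm
  · rw [mul_sub, h5 x hx, mul_one, sub_zero]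
  · rintro ⟨y, rfl⟩
    exact I.smul_mem y h4

theorem fin_one {κ : Type} [Fintype κ]
    [DecidableEq κ] (T : Set (κ → MonoidAlgebra R G))
    (hT : ∀ t ∈ T, ∃ j a, Cf a ∧ t = Pi.single j a)
    (hP : Module.Projective (MonoidAlgebra R G)
      ((κ → MonoidAlgebra R G) ⧸ Submodule.span (MonoidAlgebra R G) T)) :
    ∃ (e : κ → MonoidAlgebra R G) (H : κ → Subgroup G), (∀ j, Finite (H j)) ∧
      (∀ j g, (e j).coeff g ≠ 0 → g ∈ H j) ∧ (∀ j, e j * e j = e j) ∧
      Submodule.span (MonoidAlgebra R G) T
        = LinearMap.range (Matrix.diagonal fun j => 1 - e j).vecMulLinear := by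
  classical
  set N := Submodule.span (MonoidAlgebra R G) T with hN
  let W : κ → Set (MonoidAlgebra R G) := fun j => {a | Cf a ∧ (Pi.single j a : κ → _) ∈ T}
  let I : κ → Submodule (MonoidAlgebra R G) (MonoidAlgebra R G) := fun j =>
    Submodule.span (MonoidAlgebra R G) (W j)
  have hI : ∀ j, N ≤ (I j).comap (LinearMap.proj j) := by
    intro j
    rw [hN, Submodule.span_le]
    intro t ht
    change t j ∈ I j
    obtain ⟨k, a, ha, rfl⟩ := hT t ht
    by_cases hjk : j = k
    · subst hjk
      rw [Pi.single_eq_same]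
      exact Submodule.subset_span ⟨ha, ht⟩
    · rw [Pi.single_eq_of_ne hjk]
      exact (I j).zero_mem
  have hI1 : ∀ j, I j ≤ N.comap (LinearMap.single (MonoidAlgebra R G)
      (fun _ : κ => MonoidAlgebra R G) j) := by
    intro j
    rw [Submodule.span_le]
    rintro a ⟨_, ha⟩
    exact Submodule.subset_span ha
  have hI2 : ∀ j, ∃ (e : MonoidAlgebra R G) (H : Subgroup G), Finite H ∧
      (∀ g, e.coeff g ≠ 0 → g ∈ H) ∧ e * e = e ∧ ∀ x, x ∈ I j ↔ ∃ y, x = y * (1 - e) := by
    intro j
    apply ideal_fin (W j) (fun a ha => ha.1)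
    exact Module.Projective.of_split
      ((I j).mapQ N (LinearMap.single (MonoidAlgebra R G) (fun _ : κ => MonoidAlgebra R G) j)
        (hI1 j))
      (N.mapQ (I j) (LinearMap.proj j) (hI j)) (by
        ext
        simp)
  choose e H hH he0 he1 he2 using hI2
  refine ⟨e, H, hH, he0, he1, ?_⟩
  ext x
  constructor
  · intro hx
    choose y hy using fun j => (he2 j (x j)).1 (hI j hx)
    refine ⟨y, ?_⟩
    rw [Matrix.vecMulLinear_apply]
    funext j
    rw [Matrix.vecMul_diagonal, ← hy]
  · rintro ⟨y, rfl⟩
    rw [Matrix.vecMulLinear_apply]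
    have h1 : y ᵥ* Matrix.diagonal (fun j => (1 - e j : MonoidAlgebra R G))
        = ∑ j, Pi.single j (y j * (1 - e j)) := by
      funext k
      rw [Matrix.vecMul_diagonal, Finset.sum_apply]
      rw [Finset.sum_eq_single k]
      · rw [Pi.single_eq_same]
      · intro j _ hj
        exact Pi.single_eq_of_ne (Ne.symm hj) _
      · intro h; exact absurd (Finset.mem_univ k) h
    rw [h1]
    refine Submodule.sum_mem _ fun j _ => ?_
    exact hI1 j ((he2 j _).2 ⟨y j, rfl⟩)

/-- elimination of generators -/
theorem reduce_two : ∀ (n : ℕ) (κ : Type) [Fintype κ] [DecidableEq κ], Fintype.card κ = n →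
    ∀ T : Set (κ → MonoidAlgebra R G), (∀ t ∈ T, PU t) →
    ∃ (κ' : Type) (_ : Fintype κ') (_ : DecidableEq κ') (T' : Set (κ' → MonoidAlgebra R G)),
      (∀ t ∈ T', ∃ j a, Cf a ∧ t = Pi.single j a) ∧
      Nonempty (((κ → MonoidAlgebra R G) ⧸ Submodule.span (MonoidAlgebra R G) T)
        ≃ₗ[MonoidAlgebra R G]
        ((κ' → MonoidAlgebra R G) ⧸ Submodule.span (MonoidAlgebra R G) T')) := by
  classical
  intro n
  induction n with
  | zero =>
    intro κ _ _ hκ T hT
    refine ⟨κ, inferInstance, inferInstance, T, fun t ht => ?_, ⟨LinearEquiv.refl _ _⟩⟩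
    rcases hT t ht with h | ⟨j, _⟩
    · exact h
    · exact absurd (Fintype.card_pos_iff.2 ⟨j⟩) (by omega)
  | succ n ih =>
    intro κ _ _ hκ T hT
    by_cases hall : ∀ t ∈ T, ∃ j a, Cf a ∧ t = Pi.single j a
    · exact ⟨κ, inferInstance, inferInstance, T, hall, ⟨LinearEquiv.refl _ _⟩⟩
    push Not at hall
    obtain ⟨t, ht, hne⟩ := hall
    rcases hT t ht with ⟨j, a, ha, h⟩ | ⟨j, k, u, v, hjk, hu, hv, htt⟩
    · exact absurd h (hne j a ha)
    obtain ⟨u', hu', huu1, huu2⟩ := hu.inv
    let κ' : Type := {i // i ≠ j}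
    let k' : κ' := ⟨k, hjk.symm⟩
    let c : MonoidAlgebra R G := -(u' * v)
    have hc : TU c := (hu'.mul hv).neg
    let f : (κ → MonoidAlgebra R G) →ₗ[MonoidAlgebra R G] (κ' → MonoidAlgebra R G) :=
      { toFun := fun x i => x i + if i = k' then x j * c else 0
        map_add' := by
          intro x y
          funext i
          simp only [Pi.add_apply]
          split_ifs
          · rw [add_mul]; abel
          · simp
        map_smul' := by
          intro r x
          funext i
          simp only [Pi.smul_apply, smul_eq_mul, RingHom.id_apply]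
          split_ifs
          · rw [mul_add, mul_assoc]
          · simp }
    have hf : ∀ x i, f x i = x i + if i = k' then x j * c else 0 := fun x i => rfl
    have hfs : Function.Surjective f := by
      intro y
      refine ⟨fun i => if h : i ≠ j then y ⟨i, h⟩ else 0, ?_⟩
      funext i
      rw [hf]
      have : ¬ (j ≠ j) := fun h => h rfl
      rw [dif_pos i.2, dif_neg this, zero_mul]
      simp
    have hfj : ∀ a : MonoidAlgebra R G, f (Pi.single j a) = Pi.single k' (a * c) := by
      intro a
      funext i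
      rw [hf, Pi.single_eq_same, Pi.single_eq_of_ne i.2, zero_add]
      by_cases hi : i = k'
      · subst hi; rw [if_pos rfl, Pi.single_eq_same]
      · rw [if_neg hi, Pi.single_eq_of_ne hi]
    have hfi : ∀ (i : κ') (a : MonoidAlgebra R G), f (Pi.single (i : κ) a) = Pi.single i a := by
      intro i a
      funext l
      rw [hf, Pi.single_eq_of_ne i.2.symm, zero_mul]
      by_cases hi : l = i
      · subst hi; simp
      · rw [Pi.single_eq_of_ne hi, Pi.single_eq_of_ne (fun h => hi (Subtype.ext h))]
        simp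
    have hker : LinearMap.ker f ≤ Submodule.span (MonoidAlgebra R G) T := by
      intro x hx
      have hx' : ∀ i, f x i = 0 := fun i => congrFun hx i
      have h1 : x = (x j * u') • t := by
        funext i
        rw [htt, Pi.smul_apply, Pi.add_apply, smul_eq_mul]
        by_cases hi : i = j
        · subst hi
          rw [Pi.single_eq_same, Pi.single_eq_of_ne hjk, add_zero, mul_assoc, huu2, mul_one]
        · rw [Pi.single_eq_of_ne hi, zero_add]
          have h2 := hx' ⟨i, hi⟩
          rw [hf] at h2
          by_cases hk : i = k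
          · subst hk
            rw [Pi.single_eq_same]
            rw [if_pos rfl] at h2
            rw [eq_neg_of_add_eq_zero_left h2]
            simp only [c]
            rw [mul_neg, neg_neg, mul_assoc]
          · rw [Pi.single_eq_of_ne hk, mul_zero]
            rw [if_neg (fun h => hk (congrArg Subtype.val h)), add_zero] at h2
            exact h2
      rw [h1]
      exact Submodule.smul_mem _ _ (Submodule.subset_span ht)
    -- the new relations
    have hT' : ∀ t ∈ f '' T, PU t := by
      rintro _ ⟨t, ht, rfl⟩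
      rcases hT t ht with ⟨i, a, ha, rfl⟩ | ⟨i, l, p, q, hil, hp, hq, rfl⟩
      · left
        by_cases hi : i = j
        · subst hi; exact ⟨k', a * c, ha.mul hc, hfj a⟩
        · exact ⟨⟨i, hi⟩, a, ha, hfi ⟨i, hi⟩ a⟩
      · rw [map_add]
        by_cases hi : i = j
        · subst hi
          rw [hfj, show f (Pi.single l q) = _ from hfi ⟨l, hil.symm⟩ q]
          by_cases hl : (⟨l, hil.symm⟩ : κ') = k'
          · left
            rw [hl]
            exact ⟨k', p * c + q, Or.inr (Or.inr ⟨_, _, hp.mul hc, hq, rfl⟩),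
              (Pi.single_add k' _ _).symm⟩
          · right
            exact ⟨k', ⟨l, hil.symm⟩, p * c, q, Ne.symm hl, hp.mul hc, hq, rfl⟩
        · by_cases hl : l = j
          · subst hl
            rw [hfj, show f (Pi.single i p) = _ from hfi ⟨i, hi⟩ p]
            by_cases hl : (⟨i, hi⟩ : κ') = k'
            · left
              rw [hl]
              exact ⟨k', p + q * c, Or.inr (Or.inr ⟨_, _, hp, hq.mul hc, rfl⟩),
                (Pi.single_add k' _ _).symm⟩
            · right
              exact ⟨⟨i, hi⟩, k', p, q * c, hl, hp, hq.mul hc, rfl⟩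
          · right
            rw [show f (Pi.single i p) = _ from hfi ⟨i, hi⟩ p,
              show f (Pi.single l q) = _ from hfi ⟨l, hl⟩ q]
            exact ⟨⟨i, hi⟩, ⟨l, hl⟩, p, q, fun h => hil (congrArg Subtype.val h), hp, hq, rfl⟩
    let g : (κ → MonoidAlgebra R G) →ₗ[MonoidAlgebra R G]
        ((κ' → MonoidAlgebra R G) ⧸ Submodule.span (MonoidAlgebra R G) (f '' T)) :=
      (Submodule.span (MonoidAlgebra R G) (f '' T)).mkQ ∘ₗ f
    have hg : Function.Surjective g := (Submodule.mkQ_surjective _).comp hfs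
    have hgk : LinearMap.ker g = Submodule.span (MonoidAlgebra R G) T := by
      rw [LinearMap.ker_comp, Submodule.ker_mkQ, Submodule.span_image, Submodule.comap_map_eq,
        sup_eq_left.2 hker]
    have e := LinearMap.quotKerEquivOfSurjective g hg
    rw [hgk] at e
    have hcard : Fintype.card κ' = n := by
      have : Fintype.card κ' = Fintype.card κ - 1 := by
        rw [Fintype.card_subtype_compl]
        simp
      omega
    obtain ⟨κ2, i1, i2, T2, h1, ⟨h2⟩⟩ := ih κ' hcard (f '' T) hT'
    exact ⟨κ2, i1, i2, T2, h1, ⟨e.trans h2⟩⟩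

/-- projective modules in which each relation involves at most two generators are induced from finite
subgroups -/
theorem fin_rows {ι κ : Type} [Fintype ι]
    [Fintype κ] (B : Matrix ι κ (MonoidAlgebra R G))
    (h : ∀ i, {j | B i j ≠ 0}.ncard ≤ 2) (h2 : ∀ i j, B i j = 0 ∨ TU (B i j))
    (P : Type) [AddCommGroup P] [Module (MonoidAlgebra R G) P]
    (hP : Module.Projective (MonoidAlgebra R G) P)
    (e : P ≃ₗ[MonoidAlgebra R G] (κ → MonoidAlgebra R G) ⧸ LinearMap.range B.vecMulLinear) :
    ∃ (μ : Type) (_ : Fintype μ) (_ : DecidableEq μ) (e : μ → MonoidAlgebra R G)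
      (H : μ → Subgroup G), (∀ j, Finite (H j)) ∧ (∀ j g, (e j).coeff g ≠ 0 → g ∈ H j) ∧
      (∀ j, e j * e j = e j) ∧ Nonempty (P ≃ₗ[MonoidAlgebra R G]
        ((μ → MonoidAlgebra R G) ⧸
          LinearMap.range (Matrix.diagonal fun j => 1 - e j).vecMulLinear)) := by
  classical
  rcases isEmpty_or_nonempty κ with hκ | hκ
  · have i1 : Subsingleton ((κ → MonoidAlgebra R G) ⧸ LinearMap.range B.vecMulLinear) :=
      inferInstance
    have i0 : Subsingleton P := e.injective.subsingleton
    have i2 : Subsingleton ((Fin 0 → MonoidAlgebra R G) ⧸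
        LinearMap.range (Matrix.diagonal fun j : Fin 0 => (1 - (j.elim0 : MonoidAlgebra R G)) :
          Matrix (Fin 0) (Fin 0) (MonoidAlgebra R G)).vecMulLinear) := inferInstance
    exact ⟨Fin 0, inferInstance, inferInstance, fun j => j.elim0, fun j => j.elim0,
      fun j => j.elim0, fun j => j.elim0, fun j => j.elim0,
      ⟨{ (0 : P →ₗ[MonoidAlgebra R G] ((Fin 0 → MonoidAlgebra R G) ⧸
        LinearMap.range (Matrix.diagonal fun j : Fin 0 => (1 - (j.elim0 : MonoidAlgebra R G)) :
          Matrix (Fin 0) (Fin 0) (MonoidAlgebra R G)).vecMulLinear)) with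
        invFun := fun _ => 0
        left_inv := fun _ => Subsingleton.elim _ _
        right_inv := fun _ => Subsingleton.elim _ _ }⟩⟩
  · have hr : LinearMap.range B.vecMulLinear = Submodule.span _ (Set.range B) := by
      rw [range_vecMulLinear]
      rfl
    rw [hr] at e
    obtain ⟨κ', i1, i2, T', h3, ⟨h4⟩⟩ := reduce_two _ κ rfl (Set.range B)
      (by rintro _ ⟨i, rfl⟩; exact pu_row (B i) (h i) (h2 i))
    obtain ⟨ee, H, h5, h6, h7, h8⟩ := fin_one T' h3 (Module.Projective.of_equiv (e.trans h4))
    rw [h8] at h4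
    exact ⟨κ', i1, i2, ee, H, h5, h6, h7, ⟨e.trans h4⟩⟩

end fin

end Pool.Agent.R472.Grid
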