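import Pool.Agent.R472.GridExt
import Pool.Agent.TH6.PF.SBar

set_option autoImplicit false
set_option linter.unusedSectionVars false

/-! Quadratic forms over the group ring of a group over a ring with involution, with an orientation
character, on pieces of the triangular lattice. -/

namespace Pool.Agent.R472.GridL

open Matrix TH57.Thr TH6.CX TH6.PF Pool.Agent.R472.Grid

section iso

variable {R : Type} [Ring R] [StarRing R] {Γ : Type} [Group Γ] (w : Γ →* ℤˣ)

/-- isometry of `ε`-quadratic forms (matrices modulo the matrices `χ - εχ*`) -/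
def Iso {κ : Type} [Fintype κ] [DecidableEq κ] (ε : ℤ)
    (ψ ψ' : Matrix κ κ (MonoidAlgebra R Γ)) : Prop :=
  ∃ (E : (Matrix κ κ (MonoidAlgebra R Γ))ˣ) (χ : Matrix κ κ (MonoidAlgebra R Γ)),
    E.val * ψ * sadj w E.val = ψ' + (χ - ε • sadj w χ)

/-- hyperbolic planes -/
noncomputable def hypL (R Γ : Type) [Ring R] [Group Γ] (ν : Type) [DecidableEq ν] :
    Matrix (ν ⊕ ν) (ν ⊕ ν) (MonoidAlgebra R Γ) := fromBlocks 0 1 0 0

theorem fb_sub' {a b c d : Type} {A : Type} [Ring A] (A1 : Matrix a c A) (B1 : Matrix a d A)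
    (C1 : Matrix b c A) (D1 : Matrix b d A) (A2 : Matrix a c A) (B2 : Matrix a d A)
    (C2 : Matrix b c A) (D2 : Matrix b d A) :
    fromBlocks A1 B1 C1 D1 - fromBlocks A2 B2 C2 D2
      = fromBlocks (A1 - A2) (B1 - B2) (C1 - C2) (D1 - D2) := by
  ext (i | i) (j | j) <;> rfl

theorem sadj_fromRows {κ μ ν : Type} (A : Matrix μ κ (MonoidAlgebra R Γ))
    (B : Matrix ν κ (MonoidAlgebra R Γ)) :
    sadj w (fromRows A B) = fromCols (sadj w A) (sadj w B) := by
  ext1 i j
  rcases j with j | j <;> rfl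

theorem iso_alg {n V : Type} [Fintype n] [DecidableEq n] [Fintype V] [DecidableEq V] (ε : ℤ)
    (ψ : Matrix n n (MonoidAlgebra R Γ)) (N : Matrix V V (MonoidAlgebra R Γ))
    (F : Matrix V n (MonoidAlgebra R Γ)) (K : Matrix V V (MonoidAlgebra R Γ))
    (hK : sadj w F * K * F = ψ)
    (E : (Matrix (n ⊕ (V ⊕ V)) (n ⊕ (V ⊕ V)) (MonoidAlgebra R Γ))ˣ)
    (hE : E.val = fromBlocks 1 (fromCols (ε • (sadj w F * sadj w K)) (-sadj w F)) 0
      (fromBlocks (1 - N) 0 K 1)) :
    Iso w ε (fromBlocks ψ 0 0 (hypL R Γ V))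
      (fromBlocks 0 0 (fromRows (-((1 - N) * F)) 0) (fromBlocks 0 (1 - N) 0 K)) := by
  refine ⟨E, fromBlocks ψ 0 (fromRows 0 (-(K * F))) 0, ?_⟩
  have hψ : sadj w F * sadj w K * F = sadj w ψ := by
    rw [← hK, sadj_mul, sadj_mul, sadj_sadj, Matrix.mul_assoc]
  rw [hE]
  unfold hypL
  rw [sadj_fromBlocks, sadj_fromCols, sadj_fromBlocks, fromBlocks_multiply]
  simp only [Matrix.one_mul, Matrix.mul_zero, Matrix.zero_mul, add_zero, zero_add]
  rw [fromCols_mul_fromBlocks, fromBlocks_multiply]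
  simp only [Matrix.one_mul, Matrix.mul_one, Matrix.mul_zero, Matrix.zero_mul, add_zero, zero_add]
  rw [fromBlocks_multiply]
  simp only [Matrix.one_mul, Matrix.mul_one, Matrix.mul_zero, Matrix.zero_mul, add_zero, zero_add,
    sadj_one, sadj_zero]
  rw [fromCols_mul_fromRows, fromCols_mul_fromBlocks, fromBlocks_mul_fromRows, fromBlocks_multiply]
  simp only [Matrix.one_mul, Matrix.mul_one, Matrix.mul_zero, Matrix.zero_mul, add_zero, zero_add]
  rw [sadj_fromBlocks, sadj_fromRows, fromBlocks_smul, fb_sub', fromBlocks_add]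
  simp only [sadj_zero, sadj_neg, sadj_sadj, smul_zero, sub_zero, zero_sub, add_zero, zero_add]
  have e1 : (ε • (sadj w F * sadj w K)) * -(F) = -(ε • sadj w ψ) := by
    rw [Matrix.mul_neg, Matrix.smul_mul, hψ]
  rw [e1, sadj_mul]
  congr 1
  · abel
  · ext1 i j
    rcases j with j | j <;> simp [fromCols]
  · ext1 i j
    rcases i with i | i
    · have e2 : (1 - N) * -F = -((1 - N) * F) := Matrix.mul_neg _ _
      have e3 := congrFun (congrFun e2 i) j
      rw [← add_zero ((-((1 - N) * F) : Matrix V n (MonoidAlgebra R Γ)) i j)] at e3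
      exact e3
    · have e2 : K * -F = -(K * F) := Matrix.mul_neg _ _
      have e3 := congrFun (congrFun e2 i) j
      rw [← zero_add ((-(K * F) : Matrix V n (MonoidAlgebra R Γ)) i j)] at e3
      exact e3

end iso

/-- neighbouring points of the triangular lattice -/
def TriAdj (a b : ℤ × ℤ) : Prop :=
  GridAdj a b ∨ (a.1 + 1 = b.1 ∧ a.2 + 1 = b.2) ∨ (b.1 + 1 = a.1 ∧ b.2 + 1 = a.2)

theorem TriAdj.symm {a b : ℤ × ℤ} (h : TriAdj a b) : TriAdj b a := by
  unfold TriAdj GridAdj at *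
  omega

/-- forms on pieces of the triangular lattice, with entries in `G` and `0`, zero diagonal, at most
three neighbours for each basis vector -/
def TriG {R : Type} [Ring R] (G : Set R) {κ : Type} (φ : Matrix κ κ R) : Prop :=
  ∃ pos : κ → ℤ × ℤ, Function.Injective pos ∧ (∀ i j, φ i j ≠ 0 → TriAdj (pos i) (pos j)) ∧
    (∀ i j, φ i j ≠ 0 → φ j i = 0) ∧ (∀ i j, φ i j = 0 ∨ φ i j ∈ G) ∧
    (∀ i, {j | φ i j ≠ 0 ∨ φ j i ≠ 0}.ncard ≤ 3)

section all

variable {R : Type} [Ring R] [StarRing R] {Γ : Type} [Group Γ] (w : Γ →* ℤˣ)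

section mats

variable {G : Set (MonoidAlgebra R Γ)} {m n : ℕ} (p : Prog G m) (x y : Fin n → Fin m) (L : ℕ)

/-- coupling of the outputs -/
noncomputable def Kc (R : Type) [Ring R] [StarRing R] {Γ : Type} [Group Γ] (w : Γ →* ℤˣ) {m n : ℕ} (x y : Fin n → Fin m) (L : ℕ) :
    Matrix (Fin (L + 1) × Fin m) (Fin (L + 1) × Fin m) (MonoidAlgebra R Γ) :=
  sadj w (Dm x L (MonoidAlgebra R Γ)) * Dm y L (MonoidAlgebra R Γ)

open Classical in
theorem Kc_apply (hx : Function.Injective x) (v v' : Fin (L + 1) × Fin m) :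
    Kc R w x y L v v' = if ∃ i, ((v.1 : ℕ) = L ∧ v.2 = x i) ∧ (v'.1 : ℕ) = L ∧ v'.2 = y i
      then 1 else 0 := by
  unfold Kc
  rw [Matrix.mul_apply]
  have hb : ∀ i, sadj w (Dm x L (MonoidAlgebra R Γ)) v i
      = if (v.1 : ℕ) = L ∧ v.2 = x i then 1 else 0 := by
    intro i
    change sbar w (if (v.1 : ℕ) = L ∧ v.2 = x i then 1 else 0) = _
    split_ifs
    · exact sbar_one w
    · exact sbar_zero w
  by_cases h : ∃ i, ((v.1 : ℕ) = L ∧ v.2 = x i) ∧ (v'.1 : ℕ) = L ∧ v'.2 = y i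
  · rw [if_pos h]
    obtain ⟨i, h1, h2⟩ := h
    rw [Finset.sum_eq_single i]
    · rw [hb, if_pos h1, one_mul]
      exact if_pos h2
    · intro b _ hbi
      rw [hb, if_neg, zero_mul]
      rintro ⟨_, h3⟩
      exact hbi (hx (by rw [← h3, h1.2]))
    · simp
  · rw [if_neg h]
    refine Finset.sum_eq_zero fun i _ => ?_
    rw [hb]
    by_cases h1 : (v.1 : ℕ) = L ∧ v.2 = x i
    · have h2 : ¬ ((v'.1 : ℕ) = L ∧ v'.2 = y i) := fun h2 => h ⟨i, h1, h2⟩
      have h3 : Dm y L (MonoidAlgebra R Γ) i v' = 0 := if_neg h2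
      rw [h3, mul_zero]
    · rw [if_neg h1, zero_mul]

/-- the form on the triangular lattice -/
noncomputable def tform : Matrix (Fin n ⊕ (Fin (L + 1) × Fin m ⊕ Fin (L + 1) × Fin m))
    (Fin n ⊕ (Fin (L + 1) × Fin m ⊕ Fin (L + 1) × Fin m)) (MonoidAlgebra R Γ) :=
  fromBlocks 0 0 (fromRows (-(p.Cm x L)) 0) (fromBlocks 0 (1 - p.Nm L) 0 (Kc R w x y L))

theorem E_fil (ε : ℤ) : Fil
    (fun k : Fin n ⊕ (Fin (L + 1) × Fin m ⊕ Fin (L + 1) × Fin m) =>
      Sum.elim (fun _ => -(2 * (L : ℤ) + 10))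
        (Sum.elim (fun v => -hgt L v) (fun _ => -(2 * (L : ℤ) + 9))) k)
    (fun k : Fin n ⊕ (Fin (L + 1) × Fin m ⊕ Fin (L + 1) × Fin m) =>
      Sum.elim (fun _ => -(2 * (L : ℤ) + 10))
        (Sum.elim (fun v => -hgt L v) (fun _ => -(2 * (L : ℤ) + 9))) k) 1
    (fromBlocks 1 (fromCols (ε • (sadj w (p.Fm x L) * sadj w (Kc R w x y L))) (-sadj w (p.Fm x L))) 0
      (fromBlocks (1 - p.Nm L) 0 (Kc R w x y L) 1) - 1) := by
  have h : (fromBlocks 1 (fromCols (ε • (sadj w (p.Fm x L) * sadj w (Kc R w x y L))) (-sadj w (p.Fm x L))) 0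
      (fromBlocks (1 - p.Nm L) 0 (Kc R w x y L) 1) - 1 :
      Matrix (Fin n ⊕ (Fin (L + 1) × Fin m ⊕ Fin (L + 1) × Fin m))
    (Fin n ⊕ (Fin (L + 1) × Fin m ⊕ Fin (L + 1) × Fin m)) (MonoidAlgebra R Γ))
      = fromBlocks 0 (fromCols (ε • (sadj w (p.Fm x L) * sadj w (Kc R w x y L))) (-sadj w (p.Fm x L))) 0
      (fromBlocks (-(p.Nm L)) 0 (Kc R w x y L) 0) := by
    ext (i | i | i) (j | j | j) <;> simp [Matrix.one_apply]
  rw [h]
  rintro (i | v | v) (j | v' | v') hne
  · exact absurd rfl hne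
  · simp only [Sum.elim_inl, Sum.elim_inr]
    have := v'.1.2
    unfold hgt
    omega
  · simp only [Sum.elim_inl, Sum.elim_inr]
    omega
  · exact absurd rfl hne
  · simp only [Sum.elim_inr, Sum.elim_inl]
    have h2 : p.Nm L v v' ≠ 0 := by
      intro h3
      apply hne
      simp [h3]
    have := N_lower p L h2
    omega
  · exact absurd rfl hne
  · exact absurd rfl hne
  · simp only [Sum.elim_inl, Sum.elim_inr]
    have := v'.1.2
    unfold hgt
    omega
  · exact absurd rfl hne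

theorem iso_tform (ε : ℤ) (hε : ε * ε = 1) (ψ : Matrix (Fin n) (Fin n) (MonoidAlgebra R Γ))
    (h1 : ∀ i j, p.run (L + 1) (y i) (x j) = ψ i j)
    (h2 : ∀ i j, p.run (L + 1) (x i) (x j) = (1 : Matrix (Fin n) (Fin n) (MonoidAlgebra R Γ)) i j) :
    Iso w ε (fromBlocks ψ 0 0 (hypL R Γ (Fin (L + 1) × Fin m))) (tform w p x y L) := by
  obtain ⟨E, hE⟩ := unit_of_fil _ _ (E_fil w p x y L ε)
  have h3 := iso_alg w ε ψ (p.Nm L) (p.Fm x L) (Kc R w x y L) (by
    have e1 : Dm x L (MonoidAlgebra R Γ) * p.Fm x L = 1 := by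
      rw [DF]; ext i j; rw [← h2]; rfl
    have e2 : Dm y L (MonoidAlgebra R Γ) * p.Fm x L = ψ := by
      rw [DF]; ext i j; rw [← h1]; rfl
    unfold Kc
    rw [← Matrix.mul_assoc, ← sadj_mul, e1, sadj_one, Matrix.one_mul, e2]) E hE
  rw [NF] at h3
  exact h3

/-- positions of the basis vectors -/
def tpos : Fin n ⊕ (Fin (L + 1) × Fin m ⊕ Fin (L + 1) × Fin m) → ℤ × ℤ
  | Sum.inl j => colPos x L (Sum.inl j)
  | Sum.inr (Sum.inl v) => rowPos y L (Sum.inr v)
  | Sum.inr (Sum.inr v) => colPos x L (Sum.inr v)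

theorem tpos_inj (hx : Function.Injective x) (hy : Function.Injective y) :
    Function.Injective (tpos x y L) := by
  rintro (i | v | v) (j | v' | v') h
  · change colPos x L (Sum.inl i) = colPos x L (Sum.inl j) at h
    rw [Sum.inl.inj (colPos_inj x L hx h)]
  · change colPos x L (Sum.inl i) = rowPos y L (Sum.inr v') at h
    exact absurd h.symm (pos_ne x y L _ _)
  · change colPos x L (Sum.inl i) = colPos x L (Sum.inr v') at h
    exact absurd (colPos_inj x L hx h) (by simp)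
  · change rowPos y L (Sum.inr v) = colPos x L (Sum.inl j) at h
    exact absurd h (pos_ne x y L _ _)
  · change rowPos y L (Sum.inr v) = rowPos y L (Sum.inr v') at h
    rw [Sum.inr.inj (rowPos_inj y L hy h)]
  · change rowPos y L (Sum.inr v) = colPos x L (Sum.inr v') at h
    exact absurd h (pos_ne x y L _ _)
  · change colPos x L (Sum.inr v) = colPos x L (Sum.inl j) at h
    exact absurd (colPos_inj x L hx h) (by simp)
  · change colPos x L (Sum.inr v) = rowPos y L (Sum.inr v') at h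
    exact absurd h.symm (pos_ne x y L _ _)
  · change colPos x L (Sum.inr v) = colPos x L (Sum.inr v') at h
    rw [Sum.inr.inj (colPos_inj x L hx h)]

/-- the nonzero entries -/
inductive Lk : Fin n ⊕ (Fin (L + 1) × Fin m ⊕ Fin (L + 1) × Fin m) →
    Fin n ⊕ (Fin (L + 1) × Fin m ⊕ Fin (L + 1) × Fin m) → Prop
  | c1 (v : Fin (L + 1) × Fin m) (j : Fin n) (h : Cell p x y L (Sum.inr v) (Sum.inl j)) :
      Lk (Sum.inr (Sum.inl v)) (Sum.inl j)
  | c2 (v v' : Fin (L + 1) × Fin m) (h : Cell p x y L (Sum.inr v) (Sum.inr v')) :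
      Lk (Sum.inr (Sum.inl v)) (Sum.inr (Sum.inr v'))
  | c3 (v v' : Fin (L + 1) × Fin m) (h1 : (v.1 : ℕ) = L) (h2 : (v'.1 : ℕ) = L)
      (h3 : (v.2 : ℕ) % 2 = 0) (h4 : (v'.2 : ℕ) = v.2 + 1) :
      Lk (Sum.inr (Sum.inr v)) (Sum.inr (Sum.inr v'))

theorem lk_of_ne (hx : Function.Injective x) (hx2 : ∀ i, (x i : ℕ) % 2 = 0)
    (hxy : ∀ i, (y i : ℕ) = x i + 1)
    (k l : Fin n ⊕ (Fin (L + 1) × Fin m ⊕ Fin (L + 1) × Fin m)) (h : tform w p x y L k l ≠ 0) :
    Lk p x y L k l := by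
  rcases k with i | v | v <;> rcases l with j | v' | v'
  · exact absurd rfl h
  · exact absurd rfl h
  · exact absurd rfl h
  · exact Lk.c1 v j (cell_of_ne p x y L _ _ h)
  · exact absurd rfl h
  · exact Lk.c2 v v' (cell_of_ne p x y L _ _ h)
  · exact absurd rfl h
  · exact absurd rfl h
  · have h2 : Kc R w x y L v v' ≠ 0 := h
    rw [Kc_apply w x y L hx] at h2
    by_cases h3 : ∃ i, ((v.1 : ℕ) = L ∧ v.2 = x i) ∧ (v'.1 : ℕ) = L ∧ v'.2 = y i
    · obtain ⟨i, h4, h5⟩ := h3
      exact Lk.c3 v v' h4.1 h5.1 (by rw [h4.2]; exact hx2 i) (by rw [h4.2, h5.2]; exact hxy i)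
    · rw [if_neg h3] at h2
      exact absurd rfl h2

theorem lk_adj (k l : Fin n ⊕ (Fin (L + 1) × Fin m ⊕ Fin (L + 1) × Fin m))
    (h : Lk p x y L k l) : TriAdj (tpos x y L k) (tpos x y L l) := by
  cases h with
  | c1 v j h => exact Or.inl (cell_adj p x y L _ _ h)
  | c2 v v' h => exact Or.inl (cell_adj p x y L _ _ h)
  | c3 v v' h1 h2 h3 h4 =>
    right; left
    simp only [tpos, colPos]
    omega

/-- the three possible positions of the neighbours -/
theorem lk_three (k : Fin n ⊕ (Fin (L + 1) × Fin m ⊕ Fin (L + 1) × Fin m)) :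
    ∃ S : Finset (ℤ × ℤ), S.card ≤ 3 ∧
    ∀ l, Lk p x y L k l ∨ Lk p x y L l k → tpos x y L l ∈ S := by
  rcases k with i | v | v
  · obtain ⟨S, hS, h2⟩ := col_three p x y L (Sum.inl i)
    refine ⟨S, hS, fun l h => ?_⟩
    rcases h with h | h
    · cases h
    · cases h with
      | c1 v _ h => exact h2 _ h
  · obtain ⟨S, hS, h2⟩ := row_three p x y L (Sum.inr v)
    refine ⟨S, hS, fun l h => ?_⟩
    rcases h with h | h
    · cases h with
      | c1 _ j h => exact h2 _ h
      | c2 _ v' h => exact h2 _ h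
    · cases h
  · by_cases hL : (v.1 : ℕ) = L
    · refine ⟨{(2 * ((v.1 : ℕ) : ℤ) + 1 + (((v.2 : ℕ) % 2 : ℕ) : ℤ), ((v.2 : ℕ) : ℤ)),
        (if (v.2 : ℕ) % 2 = 0 then (2 * (L : ℤ) + 3, ((v.2 : ℕ) : ℤ) + 1) else
          (2 * (L : ℤ) + 2, ((v.2 : ℕ) : ℤ) - 1)),
        (2 * ((v.1 : ℕ) : ℤ) + 2 + (((v.2 : ℕ) % 2 : ℕ) : ℤ),
        ((p.d ((v.1 : ℕ) + (v.2 : ℕ) % 2) : ℕ) : ℤ))}, Finset.card_le_three, fun l h => ?_⟩
      simp only [Finset.mem_insert, Finset.mem_singleton]
      rcases h with h | h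
      · cases h with
        | c3 _ v' h1 h2 h3 h4 =>
          right; left
          rw [if_pos h3]
          simp only [tpos, colPos, Prod.mk.injEq]
          omega
      · cases h with
        | c2 v' _ h =>
          cases h with
          | self => left; rfl
          | ver _ _ h1 h2 =>
            exfalso
            have := v'.1.2
            omega
          | rung _ _ h1 h2 h3 =>
            right; right
            have hnb := p.nb v'.1
            unfold Nb at hnb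
            rw [← h1, ← h2] at hnb
            have h4 : (v'.1 : ℕ) = (v.1 : ℕ) + (v.2 : ℕ) % 2 := by omega
            simp only [tpos, rowPos, Prod.mk.injEq]
            rw [← h4, ← h1]
            omega
        | c3 v' _ h1 h2 h3 h4 =>
          right; left
          rw [if_neg (by omega)]
          simp only [tpos, colPos, Prod.mk.injEq]
          omega
    · obtain ⟨S, hS, h2⟩ := col_three p x y L (Sum.inr v)
      refine ⟨S, hS, fun l h => ?_⟩
      rcases h with h | h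
      · cases h with
        | c3 _ v' h1 h3 h4 h5 => exact absurd h1 hL
      · cases h with
        | c2 v' _ h => exact h2 _ h
        | c3 v' _ h1 h3 h4 h5 => exact absurd h3 hL

theorem triG_tform (h1 : (1 : MonoidAlgebra R Γ) ∈ G) (hneg : ∀ g ∈ G, -g ∈ G)
    (hx : Function.Injective x) (hx2 : ∀ i, (x i : ℕ) % 2 = 0)
    (hxy : ∀ i, (y i : ℕ) = x i + 1) : TriG G (tform w p x y L) := by
  classical
  have hy : Function.Injective y := by
    intro i j h
    apply hx
    apply Fin.ext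
    have := congrArg Fin.val h
    rw [hxy, hxy] at this
    omega
  refine ⟨tpos x y L, tpos_inj x y L hx hy, fun i j h => ?_, fun i j h => ?_, fun i j => ?_,
    fun i => ?_⟩
  · exact lk_adj p x y L i j (lk_of_ne w p x y L hx hx2 hxy i j h)
  · by_contra h2
    have e1 := lk_of_ne w p x y L hx hx2 hxy i j h
    have e2 := lk_of_ne w p x y L hx hx2 hxy j i h2
    cases e1 with
    | c1 => cases e2
    | c2 => cases e2
    | c3 v v' a1 a2 a3 a4 =>
      cases e2 with
      | c3 _ _ b1 b2 b3 b4 => omega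
  · obtain ⟨_, _, _, _, _, _, hv, _, _⟩ := gridG_B p x y L h1 hneg hx hy
    rcases i with i | v | v <;> rcases j with j | v' | v'
    · exact Or.inl rfl
    · exact Or.inl rfl
    · exact Or.inl rfl
    · exact hv (Sum.inr v) (Sum.inl j)
    · exact Or.inl rfl
    · exact hv (Sum.inr v) (Sum.inr v')
    · exact Or.inl rfl
    · exact Or.inl rfl
    · change Kc R w x y L v v' = 0 ∨ Kc R w x y L v v' ∈ G
      rw [Kc_apply w x y L hx]
      split_ifs
      · exact Or.inr h1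
      · exact Or.inl rfl
  · obtain ⟨S, hS, hS2⟩ := lk_three p x y L i
    refine le_trans (le_trans (Set.ncard_le_ncard_of_injOn (t := (S : Set (ℤ × ℤ))) (tpos x y L)
      (fun j hj => ?_) (tpos_inj x y L hx hy).injOn (Finset.finite_toSet S)) ?_) hS
    · exact hS2 j (hj.imp (lk_of_ne w p x y L hx hx2 hxy i j) (lk_of_ne w p x y L hx hx2 hxy j i))
    · rw [Set.ncard_coe_finset]

end mats

/-- every quadratic form, stabilised by hyperbolic planes, is simply isometric to a form on the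
triangular lattice -/
theorem tri_form {G : Set (MonoidAlgebra R Γ)} (h1 : (1 : MonoidAlgebra R Γ) ∈ G)
    (hneg : ∀ g ∈ G, -g ∈ G) (hG : GenBy G) (ε : ℤ) (hε : ε * ε = 1) {n : ℕ}
    (ψ : Matrix (Fin n) (Fin n) (MonoidAlgebra R Γ)) :
    ∃ (ν : Type) (_ : Fintype ν) (_ : DecidableEq ν)
      (φ : Matrix (Fin n ⊕ (ν ⊕ ν)) (Fin n ⊕ (ν ⊕ ν)) (MonoidAlgebra R Γ)),
      TriG G φ ∧ Iso w ε (fromBlocks ψ 0 0 (hypL R Γ ν)) φ := by
  classical
  let m := n + n + 3
  let x : Fin n → Fin m := fun j => ⟨2 * (j : ℕ), by have := j.2; omega⟩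
  let y : Fin n → Fin m := fun i => ⟨2 * (i : ℕ) + 1, by have := i.2; omega⟩
  have hx : Function.Injective x := fun i j h => Fin.ext (by
    have := congrArg Fin.val h; simp only [x] at this; omega)
  let Z : Matrix (Fin m) (Fin m) (MonoidAlgebra R Γ) := fun k l =>
    if h : ((k : ℕ) % 2 = 1 ∧ (k : ℕ) < n + n) ∧ ((l : ℕ) % 2 = 0 ∧ (l : ℕ) < n + n) then
      ψ ⟨(k : ℕ) / 2, by omega⟩ ⟨(l : ℕ) / 2, by omega⟩ else 0
  have hZ : 1 + Z ∈ El (R := MonoidAlgebra R Γ) (Fin m) := by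
    apply el_unip (Finset.univ.filter fun k : Fin m => (k : ℕ) % 2 = 1)
    intro k l h
    by_cases hh : ((k : ℕ) % 2 = 1 ∧ (k : ℕ) < n + n) ∧ ((l : ℕ) % 2 = 0 ∧ (l : ℕ) < n + n)
    · simp only [Finset.mem_filter, Finset.mem_univ, true_and]
      omega
    · exact absurd (dif_neg hh) h
  have hZ1 : ∀ i j, (1 + Z) (y i) (x j) = ψ i j := by
    intro i j
    have e1 : (1 : Matrix (Fin m) (Fin m) (MonoidAlgebra R Γ)) (y i) (x j) = 0 := by
      apply Matrix.one_apply_ne
      intro h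
      have := congrArg Fin.val h
      simp only [x, y] at this
      omega
    rw [Matrix.add_apply, e1, zero_add]
    have h : (((y i : Fin m) : ℕ) % 2 = 1 ∧ ((y i : Fin m) : ℕ) < n + n) ∧
        (((x j : Fin m) : ℕ) % 2 = 0 ∧ ((x j : Fin m) : ℕ) < n + n) := by
      simp only [x, y]
      have := i.2
      have := j.2
      omega
    refine (dif_pos h).trans ?_
    congr 1
    · apply Fin.ext; simp only [y]; omega
    · apply Fin.ext; simp only [x]; omega
  have hZ2 : ∀ i j, (1 + Z) (x i) (x j) = (1 : Matrix (Fin n) (Fin n) (MonoidAlgebra R Γ)) i j := by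
    intro i j
    have e1 : Z (x i) (x j) = 0 := by
      apply dif_neg
      simp only [x]
      omega
    rw [Matrix.add_apply, e1, add_zero]
    by_cases hij : i = j
    · rw [hij, Matrix.one_apply_eq, Matrix.one_apply_eq]
    · rw [Matrix.one_apply_ne hij, Matrix.one_apply_ne (fun h => hij (hx h))]
  obtain ⟨L, p, hp⟩ := exists_prog (G := G) (by omega) (1 + Z)
    (El_le h1 hneg hG (by omega) (1 + Z) hZ)
  refine ⟨Fin (L + 1) × Fin m, inferInstance, inferInstance, tform w p x y L, ?_, ?_⟩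
  · exact triG_tform w p x y L h1 hneg hx (fun i => by simp only [x]; omega)
      (fun i => by simp only [x, y])
  · exact iso_tform w p x y L ε hε ψ (fun i j => by rw [hp, hZ1]) (fun i j => by rw [hp, hZ2])

end all

end Pool.Agent.R472.GridL
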