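import Pool.Agent.R472.GridLTwo

set_option autoImplicit false
set_option linter.unusedSectionVars false

/-! Nonsingular forms over group rings of torsion-free groups in which each row has at most two
nonzero entries, which are monomials with regular coefficients. -/

namespace Pool.Agent.R472.GridL

open Matrix TH57.Thr TH6.PF Pool.Agent.R472.Grid

section gain

variable {R : Type} [Ring R] {Γ : Type} [Group Γ] {κ : Type} [Fintype κ] [DecidableEq κ]

/-- matrices whose entries are zero or monomials with regular coefficients, with at most two nonzero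
ones in each row, and symmetric positions and group elements -/
structure GnR (M : Matrix κ κ (MonoidAlgebra R Γ)) (γ : κ → κ → Γ) (u : κ → κ → R) : Prop where
  val : ∀ i j, M i j ≠ 0 → M i j = MonoidAlgebra.single (γ i j) (u i j)
  reg : ∀ i j c, M i j ≠ 0 → u i j * c = 0 → c = 0
  symm : ∀ i j, M i j ≠ 0 → M j i ≠ 0
  inv : ∀ i j, M i j ≠ 0 → γ j i = (γ i j)⁻¹
  two : ∀ i, {j | M i j ≠ 0}.ncard ≤ 2

variable {M : Matrix κ κ (MonoidAlgebra R Γ)} {γ : κ → κ → Γ} {u : κ → κ → R}

theorem row_twoR (hM : GnR M γ u) {i j k : κ} (hj : M i j ≠ 0) (hk : M i k ≠ 0) (hjk : j ≠ k) (l : κ)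
    (hl : M i l ≠ 0) : l = j ∨ l = k := by
  classical
  by_contra hcon
  push Not at hcon
  have h1 : ({j, k, l} : Set κ) ⊆ {j | M i j ≠ 0} := by
    rintro x (rfl | rfl | rfl)
    · exact hj
    · exact hk
    · exact hl
  have h2 := Set.ncard_le_ncard h1 (Set.toFinite _)
  have h3 : ({j, k, l} : Set κ).ncard = 3 := by
    rw [Set.ncard_eq_toFinset_card']
    have : ({j, k, l} : Set κ).toFinset = {j, k, l} := by ext; simp
    rw [this, Finset.card_eq_three]
    exact ⟨j, k, l, hjk, fun h => hcon.1 h.symm, fun h => hcon.2 h.symm, rfl⟩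
  have := hM.two i
  omega

/-- no holonomy around a cycle -/
theorem hol_trivialR [Nontrivial R] (htf : ∀ g : Γ, ∀ k : ℕ, 0 < k → g ^ k = 1 → g = 1)
    (hM : GnR M γ u) (N : Matrix κ κ (MonoidAlgebra R Γ)) (hN : M * N = 1) (a : ℕ → κ) (m : ℕ)
    (hm : 0 < m) (P1 : ∀ n, M (a n) (a (n + 1)) ≠ 0) (P2 : ∀ n, a (n + 2) ≠ a n)
    (P3 : ∀ n, a (n + m) = a n) (P4 : ∀ n, a n = a 0 → m ∣ n) : sg γ a m = 1 := by
  classical
  by_contra hc
  let f : ℕ → Γ → R := fun n h => (N (a n) (a 0)).coeff ((sg γ a n)⁻¹ * h)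
  have row : ∀ n h, u (a (n + 1)) (a n) * f n h + u (a (n + 1)) (a (n + 2)) * f (n + 2) h
      = if a (n + 1) = a 0 ∧ h = sg γ a (n + 1) then 1 else 0 := by
    intro n h
    have e1 := congrFun (congrFun hN (a (n + 1))) (a 0)
    have hA : M (a (n + 1)) (a n) ≠ 0 := hM.symm _ _ (P1 n)
    have hB : M (a (n + 1)) (a (n + 2)) ≠ 0 := P1 (n + 1)
    rw [Matrix.mul_apply, Finset.sum_eq_add (a n) (a (n + 2)) (P2 n).symm (fun l _ hl => by
      rw [not_not.1 (fun h2 => (row_twoR hM hA hB (P2 n).symm l h2).elim hl.1 hl.2), zero_mul])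
      (fun h => absurd (Finset.mem_univ _) h) (fun h => absurd (Finset.mem_univ _) h)] at e1
    have e2 := congrArg (fun x : MonoidAlgebra R Γ => x.coeff ((sg γ a (n + 1))⁻¹ * h)) e1
    rw [hM.val _ _ hA, hM.val _ _ hB, MonoidAlgebra.coeff_add, Finsupp.add_apply,
      MonoidAlgebra.coeff_single_mul_apply, MonoidAlgebra.coeff_single_mul_apply] at e2
    have e3 : (γ (a (n + 1)) (a n))⁻¹ * ((sg γ a (n + 1))⁻¹ * h) = (sg γ a n)⁻¹ * h := by
      rw [hM.inv _ _ (P1 n)]
      simp only [sg, inv_inv, _root_.mul_inv_rev]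
      group
    have e4 : (γ (a (n + 1)) (a (n + 2)))⁻¹ * ((sg γ a (n + 1))⁻¹ * h)
        = (sg γ a (n + 2))⁻¹ * h := by
      have : sg γ a (n + 2) = sg γ a (n + 1) * γ (a (n + 1)) (a (n + 2)) := rfl
      rw [this]
      group
    rw [e3, e4] at e2
    refine e2.trans ?_
    by_cases h5 : a (n + 1) = a 0
    · rw [h5, Matrix.one_apply_eq, MonoidAlgebra.one_def, MonoidAlgebra.coeff_single,
        Finsupp.single_apply]
      by_cases h6 : h = sg γ a (n + 1)
      · rw [if_pos (by rw [h6, inv_mul_cancel]), if_pos ⟨rfl, h6⟩]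
      · rw [if_neg (fun h7 => h6 (by
          rw [eq_comm, inv_mul_eq_one] at h7; exact h7.symm)), if_neg (fun h7 => h6 h7.2)]
    · rw [Matrix.one_apply_ne h5, if_neg (fun h7 => h5 h7.1)]
      rfl
  obtain ⟨s, q, hs, hq, hK, hs2⟩ : ∃ s q : ℕ, 0 < s ∧ 0 < q ∧ 2 * s = q * m ∧
      ∀ t, 0 < t → t < s → ¬ m ∣ 2 * t := by
    rcases Nat.even_or_odd' m with ⟨k, hk | hk⟩
    · refine ⟨k, 1, by omega, one_pos, by omega, fun t h1 h2 h3 => ?_⟩
      have := Nat.le_of_dvd (by omega) h3
      omega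
    · refine ⟨m, 2, hm, two_pos, rfl, fun t h1 h2 h3 => ?_⟩
      have h4 : m ∣ t := by
        apply Nat.Coprime.dvd_of_dvd_mul_left _ h3
        rw [hk]
        simp
      have := Nat.le_of_dvd h1 h4
      omega
  have hmul : ∀ q n, a (n + q * m) = a n ∧ sg γ a (n + q * m) = sg γ a m ^ q * sg γ a n := by
    intro q
    induction q with
    | zero => intro n; simp
    | succ q ih =>
      intro n
      have e1 : n + (q + 1) * m = (n + q * m) + m := by ring
      rw [e1, P3, sg_shift γ a m P3, (ih n).1, (ih n).2, pow_succ', mul_assoc]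
      exact ⟨rfl, rfl⟩
  have hC : sg γ a (2 * s) = sg γ a m ^ q := by
    have := (hmul q 0).2
    rw [zero_add] at this
    rw [hK, this]
    simp [sg]
  have hC1 : ∀ k : ℕ, 0 < k → sg γ a (2 * s) ^ k ≠ 1 := by
    intro k hk h
    rw [hC, ← pow_mul] at h
    exact hc (htf _ _ (Nat.mul_pos hq hk) h)
  have odd : ∀ t, t < s → ∀ h, (f 1 h ≠ 0 ↔ f (2 * t + 1) h ≠ 0) := by
    intro t
    induction t with
    | zero => intro _ h; rfl
    | succ t ih =>
      intro ht h
      rw [ih (by omega) h]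
      have e1 := row (2 * t + 1) h
      rw [if_neg (fun h2 => hs2 (t + 1) (by omega) ht (P4 _ (by
        rw [show 2 * (t + 1) = 2 * t + 1 + 1 by ring]; exact h2.1)))] at e1
      have e2 : 2 * (t + 1) + 1 = 2 * t + 1 + 2 := by ring
      rw [e2]
      constructor
      · intro h3 h4
        rw [h4, mul_zero, add_zero] at e1
        exact h3 (hM.reg _ _ _ (hM.symm _ _ (P1 _)) e1)
      · intro h3 h4
        rw [h4, mul_zero, zero_add] at e1
        exact h3 (hM.reg _ _ _ (P1 _) e1)
  have last : ∀ h, u (a (2 * (s - 1) + 2)) (a (2 * (s - 1) + 1)) * f (2 * (s - 1) + 1) h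
      + u (a (2 * (s - 1) + 2)) (a (2 * (s - 1) + 3)) * f 1 ((sg γ a (2 * s))⁻¹ * h)
      = if h = sg γ a (2 * s) then 1 else 0 := by
    intro h
    have e1 := row (2 * (s - 1) + 1) h
    have e2 : 2 * (s - 1) + 1 + 1 = 2 * s := by omega
    have e3 : 2 * (s - 1) + 1 + 2 = 1 + q * m := by omega
    have e4 : f (2 * (s - 1) + 1 + 2) h = f 1 ((sg γ a (2 * s))⁻¹ * h) := by
      rw [e3]
      simp only [f]
      rw [(hmul q 1).1, (hmul q 1).2, hC, _root_.mul_inv_rev, mul_assoc]
    have e5 : a (2 * s) = a 0 := by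
      have := (hmul q 0).1
      rw [zero_add] at this
      rw [hK, this]
    rw [e4] at e1
    rw [show 2 * (s - 1) + 3 = 2 * (s - 1) + 1 + 2 by ring,
      show 2 * (s - 1) + 2 = 2 * (s - 1) + 1 + 1 by ring, e1, e2, e5]
    simp
  have hempty : {h | f 1 h ≠ 0} = ∅ := by
    refine fin_shift ?_ hC1 (fun h hh => ?_)
    · refine Set.Finite.subset ((Finset.finite_toSet (N (a 1) (a 0)).coeff.support).image
        (fun g => sg γ a 1 * g)) ?_
      intro h hh
      exact ⟨(sg γ a 1)⁻¹ * h, Finsupp.mem_support_iff.2 hh, by simp⟩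
    · have e1 := last h
      rw [if_neg hh] at e1
      change f 1 h ≠ 0 ↔ f 1 ((sg γ a (2 * s))⁻¹ * h) ≠ 0
      rw [odd (s - 1) (by omega) h]
      constructor
      · intro h3 h4
        rw [h4, mul_zero, add_zero] at e1
        exact h3 (hM.reg _ _ _ (hM.symm _ _ (P1 _)) e1)
      · intro h3 h4
        rw [h4, mul_zero, zero_add] at e1
        exact h3 (hM.reg _ _ _ (P1 _) e1)
  have hz : ∀ h, f 1 h = 0 := by
    intro h
    by_contra h2
    have : h ∈ {h | f 1 h ≠ 0} := h2
    rw [hempty] at this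
    exact this
  have e1 := last (sg γ a (2 * s))
  rw [if_pos rfl, hz, mul_zero, add_zero] at e1
  have e2 : f (2 * (s - 1) + 1) (sg γ a (2 * s)) = 0 := by
    by_contra h3
    exact (odd (s - 1) (by omega) _).2 h3 (hz _)
  rw [e2, mul_zero] at e1
  exact zero_ne_one e1

/-- the graph of the nonzero entries -/
def GrR (M : Matrix κ κ (MonoidAlgebra R Γ)) (h2 : ∀ i j, M i j ≠ 0 → M j i ≠ 0) : SimpleGraph κ where
  Adj i j := i ≠ j ∧ M i j ≠ 0
  symm := ⟨fun i j h => ⟨h.1.symm, h2 i j h.2⟩⟩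
  loopless := ⟨fun i h => h.1 rfl⟩

theorem cyc_trivialR [Nontrivial R] (htf : ∀ g : Γ, ∀ k : ℕ, 0 < k → g ^ k = 1 → g = 1)
    (hM : GnR M γ u) (N : Matrix κ κ (MonoidAlgebra R Γ)) (hN : M * N = 1) (v : κ)
    (c : (GrR M hM.symm).Walk v v) (hc : c.IsCycle) : wg γ c = 1 := by
  have h3 := hc.three_le_length
  have hinj := hc.getVert_injOn'
  have hmod : ∀ n, (n + 1) % c.length = n % c.length + 1 ∨
      (n % c.length + 1 = c.length ∧ (n + 1) % c.length = 0) := by
    intro n
    have h4 := Nat.mod_lt n (show 0 < c.length by omega)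
    rw [Nat.add_mod, Nat.mod_eq_of_lt (show 1 < c.length by omega)]
    by_cases h5 : n % c.length + 1 = c.length
    · right; exact ⟨h5, by rw [h5, Nat.mod_self]⟩
    · left; exact Nat.mod_eq_of_lt (by omega)
  have hsucc : ∀ n, c.getVert ((n + 1) % c.length) = c.getVert (n % c.length + 1) := by
    intro n
    rcases hmod n with h | ⟨h4, h5⟩
    · rw [h]
    · rw [h5, h4, SimpleGraph.Walk.getVert_zero, SimpleGraph.Walk.getVert_length]
  have key := hol_trivialR htf hM N hN (fun n => c.getVert (n % c.length)) c.length (by omega)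
    (fun n => ?_) (fun n h => ?_) (fun n => ?_) (fun n h => ?_)
  · rw [wg_eq, ← key]
    apply sg_congr
    intro k hk
    rcases Nat.lt_or_ge k c.length with h4 | h4
    · rw [Nat.mod_eq_of_lt h4]
    · have : k = c.length := by omega
      rw [this, Nat.mod_self, SimpleGraph.Walk.getVert_zero, SimpleGraph.Walk.getVert_length]
  · rw [hsucc]
    exact (c.adj_getVert_succ (Nat.mod_lt n (by omega))).2
  · have h4 := hinj (by
      have := Nat.mod_lt (n + 2) (show 0 < c.length by omega)
      rw [Set.mem_ofPred_eq]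
      omega) (by
      have := Nat.mod_lt n (show 0 < c.length by omega)
      rw [Set.mem_ofPred_eq]
      omega) h
    have h5 : n + 2 ≡ n + 0 [MOD c.length] := h4
    have h6 := Nat.ModEq.add_left_cancel' n h5
    have h7 : c.length ∣ 2 := (Nat.modEq_zero_iff_dvd).1 h6
    have := Nat.le_of_dvd two_pos h7
    omega
  · simp only [Nat.add_mod_right]
  · have h4 := hinj (by
      have := Nat.mod_lt n (show 0 < c.length by omega)
      rw [Set.mem_ofPred_eq]
      omega) (by
      have := Nat.mod_lt 0 (show 0 < c.length by omega)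
      rw [Set.mem_ofPred_eq]
      omega) h
    rw [Nat.zero_mod] at h4
    exact Nat.dvd_of_mod_eq_zero h4


/-- over torsion-free groups the group elements are a coboundary -/
theorem gains_trivialR (htf : ∀ g : Γ, ∀ k : ℕ, 0 < k → g ^ k = 1 → g = 1)
    (hM : GnR M γ u) (N : Matrix κ κ (MonoidAlgebra R Γ)) (hN : M * N = 1) :
    ∃ g : κ → Γ, ∀ i j, M i j ≠ 0 → γ i j = (g i)⁻¹ * g j := by
  rcases subsingleton_or_nontrivial R with hR | hR
  · refine ⟨fun _ => 1, fun i j h => absurd ?_ h⟩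
    ext g
    exact Subsingleton.elim _ _
  have hex : ∃ g : κ → Γ, ∀ i j, (GrR M hM.symm).Adj i j → γ i j = (g i)⁻¹ * g j := by
    refine pot_exists (G := GrR M hM.symm) (fun i j h => hM.inv i j h.2) (fun v c hc => ?_)
    exact cyc_trivialR htf hM N hN v c hc
  obtain ⟨g, hg⟩ := hex
  refine ⟨g, fun i j h => ?_⟩
  by_cases hij : i = j
  · subst hij
    have h3 := hM.inv i i h
    have h4 : γ i i = 1 := htf _ 2 two_pos (by
      rw [sq]
      nth_rewrite 2 [h3]
      exact mul_inv_cancel _)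
    rw [h4, inv_mul_cancel]
  · exact hg i j ⟨hij, h⟩

end gain

section form

variable {R : Type} [Ring R] [StarRing R] {Γ : Type} [Group Γ] (w : Γ →* ℤˣ) {κ : Type}
  [Fintype κ] [DecidableEq κ]

/-- one half of the part away from the identity -/
noncomputable def cutP (M : Matrix κ κ (MonoidAlgebra R Γ)) : Matrix κ κ (MonoidAlgebra R Γ) := by
  classical
  exact fun i j => .ofCoeff ((M i j).coeff.filter (fun g => WellOrderingRel g g⁻¹))

open Classical in
theorem coeff_cutP (M : Matrix κ κ (MonoidAlgebra R Γ)) (i j : κ) (g : Γ) :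
    (cutP M i j).coeff g = if WellOrderingRel g g⁻¹ then (M i j).coeff g else 0 := by
  unfold cutP
  simp only [Finsupp.filter_apply]

theorem coeff_lamL (ε : ℤ) (M : Matrix κ κ (MonoidAlgebra R Γ)) (i j : κ) (g : Γ) :
    (lamL w ε M i j).coeff g
      = (M i j).coeff g + ε • (((w g : ℤˣ) : ℤ) • star ((M j i).coeff g⁻¹)) := by
  change (M i j + ε • sbar w (M j i)).coeff g = _
  rw [MonoidAlgebra.coeff_add, Finsupp.add_apply, MonoidAlgebra.coeff_smul, Finsupp.smul_apply,
    coeff_sbar]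

theorem cut_spec (hno : ∀ g : Γ, g = g⁻¹ → g = 1) (ε : ℤ)
    (M : Matrix κ κ (MonoidAlgebra R Γ)) (hM : ∀ i j g, g ≠ 1 → (lamL w ε M i j).coeff g = 0) :
    M = (M.map fun x => MonoidAlgebra.single 1 (x.coeff 1))
      + (cutP M - ε • sadj w (cutP M)) := by
  classical
  ext i j g
  have e1 : (((M.map fun x => MonoidAlgebra.single 1 (x.coeff 1))
      + (cutP M - ε • sadj w (cutP M)) : Matrix κ κ (MonoidAlgebra R Γ)) i j).coeff g
      = (MonoidAlgebra.single 1 ((M i j).coeff 1) : MonoidAlgebra R Γ).coeff g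
        + ((cutP M i j).coeff g - ε • (((w g : ℤˣ) : ℤ) • star ((cutP M j i).coeff g⁻¹))) := by
    change (MonoidAlgebra.single 1 ((M i j).coeff 1)
      + (cutP M i j - ε • sbar w (cutP M j i)) : MonoidAlgebra R Γ).coeff g = _
    rw [MonoidAlgebra.coeff_add, Finsupp.add_apply, MonoidAlgebra.coeff_sub, Finsupp.sub_apply,
      MonoidAlgebra.coeff_smul, Finsupp.smul_apply, coeff_sbar]
  rw [e1, coeff_cutP, coeff_cutP, inv_inv, MonoidAlgebra.coeff_single, Finsupp.single_apply]
  by_cases hg : g = 1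
  · subst hg
    have h2 : ¬ WellOrderingRel (1 : Γ) (1 : Γ) := irrefl_of WellOrderingRel 1
    rw [inv_one, if_pos rfl, if_neg h2, if_neg h2, star_zero, smul_zero, smul_zero, sub_zero,
      add_zero]
  · rw [if_neg (fun h => hg h.symm), zero_add]
    have h3 := hM i j g hg
    rw [coeff_lamL] at h3
    rcases trichotomous_of WellOrderingRel g g⁻¹ with h | h | h
    · have h' : ¬ WellOrderingRel g⁻¹ g := fun h'' => asymm_of WellOrderingRel h h''
      rw [if_pos h, if_neg h', star_zero, smul_zero, smul_zero, sub_zero]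
    · exact absurd (hno g h) hg
    · have h' : ¬ WellOrderingRel g g⁻¹ := fun h'' => asymm_of WellOrderingRel h h''
      rw [if_neg h', if_pos h, zero_sub]
      exact eq_neg_of_add_eq_zero_left h3

/-- at most two nonzero entries in each row of the symmetrization, all of them monomials with
regular coefficients: the form comes from `R` -/
theorem reg_ext (htf : ∀ g : Γ, ∀ k : ℕ, 0 < k → g ^ k = 1 → g = 1) (ε : ℤ) (hε : ε * ε = 1)
    (φ : Matrix κ κ (MonoidAlgebra R Γ)) (hu : IsUnit (lamL w ε φ))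
    (hm : ∀ i j, lamL w ε φ i j ≠ 0 → ∃ (g : Γ) (r : R), (∀ c, r * c = 0 → c = 0) ∧
      lamL w ε φ i j = MonoidAlgebra.single g r)
    (h2 : ∀ i, {j | lamL w ε φ i j ≠ 0}.ncard ≤ 2) :
    ∃ (g : κ → Γ) (ψ : Matrix κ κ R) (χ : Matrix κ κ (MonoidAlgebra R Γ)),
      IsUnit (ψ + ε • ψᴴ) ∧
      (diagonal fun i => MonoidAlgebra.single (g i) 1) * φ *
          sadj w (diagonal fun i => MonoidAlgebra.single (g i) 1)
        = (ψ.map fun r => MonoidAlgebra.single 1 r) + (χ - ε • sadj w χ) := by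
  classical
  set M := lamL w ε φ with hM
  have h3 : ∀ i j, ∃ (g : Γ) (r : R), M i j ≠ 0 → (∀ c, r * c = 0 → c = 0) ∧
      M i j = MonoidAlgebra.single g r := by
    intro i j
    by_cases h : M i j = 0
    · exact ⟨1, 0, fun h4 => absurd h h4⟩
    · obtain ⟨g, r, h4⟩ := hm i j h
      exact ⟨g, r, fun _ => h4⟩
  choose γ u hγ using h3
  have hsym : ∀ i j, M j i = ε • sbar w (M i j) := by
    intro i j
    have h4 := congrFun (congrFun (sadj_lamL w ε hε φ) j) i
    have h5 : sbar w (M i j) = ε • M j i := h4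
    rw [h5, smul_smul, hε, one_smul]
  have hne : ∀ i j, M i j ≠ 0 → M j i ≠ 0 := by
    intro i j h h4
    have h5 := hsym j i
    rw [h4, sbar_zero, smul_zero] at h5
    exact h h5
  have hinv : ∀ i j, M i j ≠ 0 → γ j i = (γ i j)⁻¹ := by
    intro i j h
    have hne0 : u j i ≠ 0 := by
      intro h4
      apply hne i j h
      rw [(hγ j i (hne i j h)).2, h4, MonoidAlgebra.single_zero]
    have h4 := hsym i j
    rw [(hγ i j h).2, (hγ j i (hne i j h)).2, sbar_single] at h4
    have h5 : (ε • (MonoidAlgebra.single (γ i j)⁻¹ (((w (γ i j) : ℤˣ) : ℤ) • star (u i j : R)) :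
        MonoidAlgebra R Γ)) = MonoidAlgebra.single (γ i j)⁻¹
          (ε • (((w (γ i j) : ℤˣ) : ℤ) • star (u i j : R))) := by
      rw [MonoidAlgebra.smul_single]
    rw [h5] at h4
    exact single_inj hne0 h4
  have hG : GnR M γ u :=
    ⟨fun i j h => (hγ i j h).2, fun i j c h => (hγ i j h).1 c, hne, hinv, h2⟩
  obtain ⟨Λ, hΛ⟩ := id hu
  obtain ⟨g, hg⟩ := gains_trivialR htf hG (Λ⁻¹).val (by rw [← hΛ, Λ.mul_inv])
  let D : Matrix κ κ (MonoidAlgebra R Γ) := diagonal fun i => MonoidAlgebra.single (g i) 1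
  let D' : Matrix κ κ (MonoidAlgebra R Γ) := diagonal fun i => MonoidAlgebra.single (g i)⁻¹ 1
  have hDD : D * D' = 1 := by
    simp only [D, D', diagonal_mul_diagonal, MonoidAlgebra.single_mul_single, mul_inv_cancel,
      mul_one]
    rfl
  have hDD' : D' * D = 1 := by
    simp only [D, D', diagonal_mul_diagonal, MonoidAlgebra.single_mul_single, inv_mul_cancel,
      mul_one]
    rfl
  let Du : (Matrix κ κ (MonoidAlgebra R Γ))ˣ := ⟨D, D', hDD, hDD'⟩
  let Dv : (Matrix κ κ (MonoidAlgebra R Γ))ˣ := ⟨sadj w D, sadj w D',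
    by rw [← sadj_mul, hDD', sadj_one], by rw [← sadj_mul, hDD, sadj_one]⟩
  have hent : ∀ (X : Matrix κ κ (MonoidAlgebra R Γ)) i j, (D * X * sadj w D) i j
      = MonoidAlgebra.single (g i) 1 * X i j * sbar w (MonoidAlgebra.single (g j) 1) := by
    intro X i j
    have h5 : sadj w D = diagonal fun i => sbar w (MonoidAlgebra.single (g i) 1) := by
      ext1 i j
      change sbar w (D j i) = _
      by_cases hij : j = i
      · subst hij
        simp only [D, diagonal_apply_eq]
      · simp only [D]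
        rw [diagonal_apply_ne _ hij, diagonal_apply_ne _ (Ne.symm hij), sbar_zero]
    rw [h5, mul_diagonal, diagonal_mul]
  have hone : ∀ i j, ∃ r : R, lamL w ε (D * φ * sadj w D) i j = MonoidAlgebra.single 1 r := by
    intro i j
    rw [lamL_conj, hent]
    by_cases h : M i j = 0
    · exact ⟨0, by rw [← hM, h, mul_zero, zero_mul, MonoidAlgebra.single_zero]⟩
    · refine ⟨1 * u i j * (((w (g j) : ℤˣ) : ℤ) • star 1), ?_⟩
      rw [← hM, (hγ i j h).2, hg i j h, sbar_single, MonoidAlgebra.single_mul_single,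
        MonoidAlgebra.single_mul_single]
      congr 1
      group
  have hco : ∀ i j h, h ≠ 1 → (lamL w ε (D * φ * sadj w D) i j).coeff h = 0 := by
    intro i j h hh
    obtain ⟨r, hr⟩ := hone i j
    rw [hr, MonoidAlgebra.coeff_single, Finsupp.single_apply, if_neg (fun h2 => hh h2.symm)]
  have hcut := cut_spec w (fun x hx => htf x 2 two_pos (by
    rw [sq]
    nth_rewrite 2 [hx]
    exact mul_inv_cancel x)) ε (D * φ * sadj w D) hco
  refine ⟨g, (D * φ * sadj w D).map fun x => x.coeff 1, cutP (D * φ * sadj w D), ?_, hcut⟩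
  have h5 : IsUnit (lamL w ε (D * φ * sadj w D)) := by
    rw [lamL_conj]
    exact (Du.isUnit.mul hu).mul Dv.isUnit
  have h6 := h5.map (Grid.aug (R := R) (G := Γ)).mapMatrix
  have h7 : (Grid.aug (R := R) (G := Γ)).mapMatrix (lamL w ε (D * φ * sadj w D))
      = (D * φ * sadj w D).map (fun x => x.coeff 1)
        + ε • ((D * φ * sadj w D).map (fun x => x.coeff 1))ᴴ := by
    ext1 i j
    change Grid.aug (lamL w ε (D * φ * sadj w D) i j)
      = ((D * φ * sadj w D) i j).coeff 1 + ε • star (((D * φ * sadj w D) j i).coeff 1)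
    obtain ⟨r, hr⟩ := hone i j
    have h8 := coeff_lamL w ε (D * φ * sadj w D) i j 1
    rw [hr, MonoidAlgebra.coeff_single, Finsupp.single_apply, if_pos rfl, map_one w, Units.val_one,
      one_smul, inv_one] at h8
    rw [hr, Grid.aug_single, h8]
  rwa [h7] at h6

end form

end Pool.Agent.R472.GridL
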