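import Pool.Agent.R472.GridLForm

set_option autoImplicit false
set_option linter.unusedSectionVars false

/-! Nonsingular forms over group rings of torsion-free groups in which each basis vector has at most
two partners, with trivial units as entries. -/

namespace Pool.Agent.R472.GridL

open Matrix TH57.Thr TH6.PF Pool.Agent.R472.Grid

section gain

variable {R : Type} [Ring R] {Γ : Type} [Group Γ] {κ : Type} [Fintype κ] [DecidableEq κ]

/-- matrices with zero diagonal whose entries are zero or trivial units, with at most two nonzero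
ones in each row, and symmetric positions and group elements -/
structure Gn (M : Matrix κ κ (MonoidAlgebra R Γ)) (γ : κ → κ → Γ) (u : κ → κ → Rˣ) : Prop where
  diag : ∀ i, M i i = 0
  val : ∀ i j, M i j ≠ 0 → M i j = MonoidAlgebra.single (γ i j) (u i j : R)
  symm : ∀ i j, M i j ≠ 0 → M j i ≠ 0
  inv : ∀ i j, M i j ≠ 0 → γ j i = (γ i j)⁻¹
  two : ∀ i, {j | M i j ≠ 0}.ncard ≤ 2

/-- product of the group elements along a sequence -/
def sg (γ : κ → κ → Γ) (a : ℕ → κ) : ℕ → Γ
  | 0 => 1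
  | n + 1 => sg γ a n * γ (a n) (a (n + 1))

theorem sg_shift (γ : κ → κ → Γ) (a : ℕ → κ) (m : ℕ) (hP : ∀ n, a (n + m) = a n) (n : ℕ) :
    sg γ a (n + m) = sg γ a m * sg γ a n := by
  induction n with
  | zero => rw [zero_add]; simp [sg]
  | succ n ih =>
    have e1 : n + 1 + m = (n + m) + 1 := by omega
    rw [e1]
    simp only [sg]
    rw [ih, hP, show n + m + 1 = (n + 1) + m by omega, hP, mul_assoc]

theorem fin_shift {S : Set Γ} (hS : S.Finite) {C : Γ} (hC : ∀ k : ℕ, 0 < k → C ^ k ≠ 1)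
    (h : ∀ x, x ≠ C → (x ∈ S ↔ C⁻¹ * x ∈ S)) : S = ∅ := by
  classical
  let S1 : Set Γ := (fun x => C * x) '' S
  have h1 : ∀ x, x ∈ S1 ↔ C⁻¹ * x ∈ S := by
    intro x
    constructor
    · rintro ⟨y, hy, rfl⟩
      simpa using hy
    · intro hx
      exact ⟨_, hx, by simp⟩
  have hfin : S1.Finite := hS.image _
  have hcard : S1.ncard = S.ncard := Set.ncard_image_of_injective _ (mul_right_injective C)
  have h2 : S1 \ {C} = S \ {C} := by
    ext x
    simp only [Set.mem_sdiff, Set.mem_singleton_iff, h1]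
    constructor
    · rintro ⟨h3, h4⟩; exact ⟨(h x h4).2 h3, h4⟩
    · rintro ⟨h3, h4⟩; exact ⟨(h x h4).1 h3, h4⟩
  have h3 : S1 = S := by
    by_cases hc1 : C ∈ S1
    · by_cases hc2 : C ∈ S
      · rw [← Set.insert_sdiff_self_of_mem hc1, ← Set.insert_sdiff_self_of_mem hc2, h2]
      · exfalso
        have e1 := Set.ncard_sdiff_singleton_add_one hc1 hfin
        rw [h2, Set.sdiff_singleton_eq_self hc2] at e1
        omega
    · by_cases hc2 : C ∈ S
      · exfalso
        have e1 := Set.ncard_sdiff_singleton_add_one hc2 hS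
        rw [← h2, Set.sdiff_singleton_eq_self hc1] at e1
        omega
      · rw [← Set.sdiff_singleton_eq_self hc1, ← Set.sdiff_singleton_eq_self hc2, h2]
  by_contra hne
  obtain ⟨x, hx⟩ := Set.nonempty_iff_ne_empty.2 hne
  have key : ∀ n : ℕ, C ^ n * x ∈ S := by
    intro n
    induction n with
    | zero => simpa using hx
    | succ n ih =>
      rw [← h3, h1, pow_succ', mul_assoc, inv_mul_cancel_left]
      exact ih
  have hinj : Function.Injective fun n : ℕ => C ^ n * x := by
    have h2 : Function.Injective fun n : ℕ => C ^ n := by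
      rw [injective_pow_iff_not_isOfFinOrder]
      intro h
      obtain ⟨n, hn, hgn⟩ := isOfFinOrder_iff_pow_eq_one.1 h
      exact hC n hn hgn
    intro a b hab
    exact h2 (mul_right_cancel hab)
  exact (Set.infinite_range_of_injective hinj) (hS.subset (by
    rintro _ ⟨n, rfl⟩
    exact key n))

variable {M : Matrix κ κ (MonoidAlgebra R Γ)} {γ : κ → κ → Γ} {u : κ → κ → Rˣ}

theorem row_two (hM : Gn M γ u) {i j k : κ} (hj : M i j ≠ 0) (hk : M i k ≠ 0) (hjk : j ≠ k) (l : κ)
    (hl : M i l ≠ 0) : l = j ∨ l = k := by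
  classical
  by_contra hcon
  push Not at hcon
  have h1 : ({j, k, l} : Set κ) ⊆ {j | M i j ≠ 0} := by
    rintro x (rfl | rfl | rfl)
    · exact hj
    · exact hk
    · exact hl
  have h2 := Set.ncard_le_ncard h1 (Set.toFinite _)
  have h3 : ({j, k, l} : Set κ).ncard = 3 := by
    rw [Set.ncard_eq_toFinset_card']
    have : ({j, k, l} : Set κ).toFinset = {j, k, l} := by ext; simp
    rw [this, Finset.card_eq_three]
    exact ⟨j, k, l, hjk, fun h => hcon.1 h.symm, fun h => hcon.2 h.symm, rfl⟩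
  have := hM.two i
  omega

/-- no holonomy around a cycle -/
theorem hol_trivial [Nontrivial R] (htf : ∀ g : Γ, ∀ k : ℕ, 0 < k → g ^ k = 1 → g = 1)
    (hM : Gn M γ u) (N : Matrix κ κ (MonoidAlgebra R Γ)) (hN : M * N = 1) (a : ℕ → κ) (m : ℕ)
    (hm : 0 < m) (P1 : ∀ n, M (a n) (a (n + 1)) ≠ 0) (P2 : ∀ n, a (n + 2) ≠ a n)
    (P3 : ∀ n, a (n + m) = a n) (P4 : ∀ n, a n = a 0 → m ∣ n) : sg γ a m = 1 := by
  classical
  by_contra hc
  let f : ℕ → Γ → R := fun n h => (N (a n) (a 0)).coeff ((sg γ a n)⁻¹ * h)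
  have row : ∀ n h, (u (a (n + 1)) (a n) : R) * f n h + (u (a (n + 1)) (a (n + 2)) : R) * f (n + 2) h
      = if a (n + 1) = a 0 ∧ h = sg γ a (n + 1) then 1 else 0 := by
    intro n h
    have e1 := congrFun (congrFun hN (a (n + 1))) (a 0)
    have hA : M (a (n + 1)) (a n) ≠ 0 := hM.symm _ _ (P1 n)
    have hB : M (a (n + 1)) (a (n + 2)) ≠ 0 := P1 (n + 1)
    rw [Matrix.mul_apply, Finset.sum_eq_add (a n) (a (n + 2)) (P2 n).symm (fun l _ hl => by
      rw [not_not.1 (fun h2 => (row_two hM hA hB (P2 n).symm l h2).elim hl.1 hl.2), zero_mul])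
      (fun h => absurd (Finset.mem_univ _) h) (fun h => absurd (Finset.mem_univ _) h)] at e1
    have e2 := congrArg (fun x : MonoidAlgebra R Γ => x.coeff ((sg γ a (n + 1))⁻¹ * h)) e1
    rw [hM.val _ _ hA, hM.val _ _ hB, MonoidAlgebra.coeff_add, Finsupp.add_apply,
      MonoidAlgebra.coeff_single_mul_apply, MonoidAlgebra.coeff_single_mul_apply] at e2
    have e3 : (γ (a (n + 1)) (a n))⁻¹ * ((sg γ a (n + 1))⁻¹ * h) = (sg γ a n)⁻¹ * h := by
      rw [hM.inv _ _ (P1 n)]
      simp only [sg, inv_inv, _root_.mul_inv_rev]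
      group
    have e4 : (γ (a (n + 1)) (a (n + 2)))⁻¹ * ((sg γ a (n + 1))⁻¹ * h)
        = (sg γ a (n + 2))⁻¹ * h := by
      have : sg γ a (n + 2) = sg γ a (n + 1) * γ (a (n + 1)) (a (n + 2)) := rfl
      rw [this]
      group
    rw [e3, e4] at e2
    refine e2.trans ?_
    by_cases h5 : a (n + 1) = a 0
    · rw [h5, Matrix.one_apply_eq, MonoidAlgebra.one_def, MonoidAlgebra.coeff_single,
        Finsupp.single_apply]
      by_cases h6 : h = sg γ a (n + 1)
      · rw [if_pos (by rw [h6, inv_mul_cancel]), if_pos ⟨rfl, h6⟩]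
      · rw [if_neg (fun h7 => h6 (by
          rw [eq_comm, inv_mul_eq_one] at h7; exact h7.symm)), if_neg (fun h7 => h6 h7.2)]
    · rw [Matrix.one_apply_ne h5, if_neg (fun h7 => h5 h7.1)]
      rfl
  obtain ⟨s, q, hs, hq, hK, hs2⟩ : ∃ s q : ℕ, 0 < s ∧ 0 < q ∧ 2 * s = q * m ∧
      ∀ t, 0 < t → t < s → ¬ m ∣ 2 * t := by
    rcases Nat.even_or_odd' m with ⟨k, hk | hk⟩
    · refine ⟨k, 1, by omega, one_pos, by omega, fun t h1 h2 h3 => ?_⟩
      have := Nat.le_of_dvd (by omega) h3
      omega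
    · refine ⟨m, 2, hm, two_pos, rfl, fun t h1 h2 h3 => ?_⟩
      have h4 : m ∣ t := by
        apply Nat.Coprime.dvd_of_dvd_mul_left _ h3
        rw [hk]
        simp
      have := Nat.le_of_dvd h1 h4
      omega
  have hmul : ∀ q n, a (n + q * m) = a n ∧ sg γ a (n + q * m) = sg γ a m ^ q * sg γ a n := by
    intro q
    induction q with
    | zero => intro n; simp
    | succ q ih =>
      intro n
      have e1 : n + (q + 1) * m = (n + q * m) + m := by ring
      rw [e1, P3, sg_shift γ a m P3, (ih n).1, (ih n).2, pow_succ', mul_assoc]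
      exact ⟨rfl, rfl⟩
  have hC : sg γ a (2 * s) = sg γ a m ^ q := by
    have := (hmul q 0).2
    rw [zero_add] at this
    rw [hK, this]
    simp [sg]
  have hC1 : ∀ k : ℕ, 0 < k → sg γ a (2 * s) ^ k ≠ 1 := by
    intro k hk h
    rw [hC, ← pow_mul] at h
    exact hc (htf _ _ (Nat.mul_pos hq hk) h)
  have odd : ∀ t, t < s → ∀ h, (f 1 h ≠ 0 ↔ f (2 * t + 1) h ≠ 0) := by
    intro t
    induction t with
    | zero => intro _ h; rfl
    | succ t ih =>
      intro ht h
      rw [ih (by omega) h]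
      have e1 := row (2 * t + 1) h
      rw [if_neg (fun h2 => hs2 (t + 1) (by omega) ht (P4 _ (by
        rw [show 2 * (t + 1) = 2 * t + 1 + 1 by ring]; exact h2.1)))] at e1
      have e2 : 2 * (t + 1) + 1 = 2 * t + 1 + 2 := by ring
      rw [e2]
      constructor
      · intro h3 h4
        rw [h4, mul_zero, add_zero] at e1
        exact h3 ((u _ _).mul_right_eq_zero.1 e1)
      · intro h3 h4
        rw [h4, mul_zero, zero_add] at e1
        exact h3 ((u _ _).mul_right_eq_zero.1 e1)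
  have last : ∀ h, (u (a (2 * (s - 1) + 2)) (a (2 * (s - 1) + 1)) : R) * f (2 * (s - 1) + 1) h
      + (u (a (2 * (s - 1) + 2)) (a (2 * (s - 1) + 3)) : R) * f 1 ((sg γ a (2 * s))⁻¹ * h)
      = if h = sg γ a (2 * s) then 1 else 0 := by
    intro h
    have e1 := row (2 * (s - 1) + 1) h
    have e2 : 2 * (s - 1) + 1 + 1 = 2 * s := by omega
    have e3 : 2 * (s - 1) + 1 + 2 = 1 + q * m := by omega
    have e4 : f (2 * (s - 1) + 1 + 2) h = f 1 ((sg γ a (2 * s))⁻¹ * h) := by
      rw [e3]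
      simp only [f]
      rw [(hmul q 1).1, (hmul q 1).2, hC, _root_.mul_inv_rev, mul_assoc]
    have e5 : a (2 * s) = a 0 := by
      have := (hmul q 0).1
      rw [zero_add] at this
      rw [hK, this]
    rw [e4] at e1
    rw [show 2 * (s - 1) + 3 = 2 * (s - 1) + 1 + 2 by ring,
      show 2 * (s - 1) + 2 = 2 * (s - 1) + 1 + 1 by ring, e1, e2, e5]
    simp
  have hempty : {h | f 1 h ≠ 0} = ∅ := by
    refine fin_shift ?_ hC1 (fun h hh => ?_)
    · refine Set.Finite.subset ((Finset.finite_toSet (N (a 1) (a 0)).coeff.support).image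
        (fun g => sg γ a 1 * g)) ?_
      intro h hh
      exact ⟨(sg γ a 1)⁻¹ * h, Finsupp.mem_support_iff.2 hh, by simp⟩
    · have e1 := last h
      rw [if_neg hh] at e1
      change f 1 h ≠ 0 ↔ f 1 ((sg γ a (2 * s))⁻¹ * h) ≠ 0
      rw [odd (s - 1) (by omega) h]
      constructor
      · intro h3 h4
        rw [h4, mul_zero, add_zero] at e1
        exact h3 ((u _ _).mul_right_eq_zero.1 e1)
      · intro h3 h4
        rw [h4, mul_zero, zero_add] at e1
        exact h3 ((u _ _).mul_right_eq_zero.1 e1)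
  have hz : ∀ h, f 1 h = 0 := by
    intro h
    by_contra h2
    have : h ∈ {h | f 1 h ≠ 0} := h2
    rw [hempty] at this
    exact this
  have e1 := last (sg γ a (2 * s))
  rw [if_pos rfl, hz, mul_zero, add_zero] at e1
  have e2 : f (2 * (s - 1) + 1) (sg γ a (2 * s)) = 0 := by
    by_contra h3
    exact (odd (s - 1) (by omega) _).2 h3 (hz _)
  rw [e2, mul_zero] at e1
  exact zero_ne_one e1

theorem sg_congr {γ : κ → κ → Γ} {a b : ℕ → κ} : ∀ n : ℕ, (∀ k ≤ n, a k = b k) →
    sg γ a n = sg γ b n := by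
  intro n
  induction n with
  | zero => intro _; rfl
  | succ n ih =>
    intro h
    simp only [sg]
    rw [ih (fun k hk => h k (by omega)), h n (by omega), h (n + 1) le_rfl]

theorem sg_succ' (γ : κ → κ → Γ) (a : ℕ → κ) (n : ℕ) :
    sg γ a (n + 1) = γ (a 0) (a 1) * sg γ (fun k => a (k + 1)) n := by
  induction n with
  | zero => simp [sg]
  | succ n ih =>
    rw [sg, ih, sg, mul_assoc]

/-- product of the group elements along a walk -/
def wg {G : SimpleGraph κ} (γ : κ → κ → Γ) : ∀ {i j : κ}, G.Walk i j → Γ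
  | _, _, .nil => 1
  | _, _, .cons (u := i) (v := k) _ p => γ i k * wg γ p

theorem wg_eq {G : SimpleGraph κ} (γ : κ → κ → Γ) {i j : κ} (p : G.Walk i j) :
    wg γ p = sg γ p.getVert p.length := by
  induction p with
  | nil => rfl
  | cons h p ih =>
    rw [SimpleGraph.Walk.length_cons, sg_succ']
    simp only [wg, SimpleGraph.Walk.getVert_zero, SimpleGraph.Walk.getVert_cons_succ]
    rw [ih]

theorem wg_append {G : SimpleGraph κ} (γ : κ → κ → Γ) {i j k : κ} (p : G.Walk i j)
    (q : G.Walk j k) : wg γ (p.append q) = wg γ p * wg γ q := by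
  induction p with
  | nil => simp [wg]
  | cons h p ih =>
    rw [SimpleGraph.Walk.cons_append]
    simp only [wg]
    rw [ih, mul_assoc]

theorem wg_reverse {G : SimpleGraph κ} {γ : κ → κ → Γ}
    (hγ : ∀ i j, G.Adj i j → γ j i = (γ i j)⁻¹) {i j : κ} (p : G.Walk i j) :
    wg γ p.reverse = (wg γ p)⁻¹ := by
  induction p with
  | nil => simp [wg]
  | cons h p ih =>
    rw [SimpleGraph.Walk.reverse_cons, wg_append, ih]
    simp only [wg, mul_one]
    rw [hγ _ _ h, _root_.mul_inv_rev]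

theorem wg_bypass {G : SimpleGraph κ} {γ : κ → κ → Γ}
    (hγ : ∀ i j, G.Adj i j → γ j i = (γ i j)⁻¹)
    (hc : ∀ (v : κ) (c : G.Walk v v), c.IsCycle → wg γ c = 1) {i j : κ} (p : G.Walk i j) :
    wg γ p.bypass = wg γ p := by
  induction p with
  | nil => rfl
  | cons h p ih =>
    rename_i a b c
    simp only [SimpleGraph.Walk.bypass]
    split_ifs with hs
    · have e1 := SimpleGraph.Walk.take_spec p.bypass hs
      have e2 : wg γ (SimpleGraph.Walk.cons h p) = γ a b * wg γ p := rfl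
      have e3 : wg γ p = wg γ (p.bypass.takeUntil a hs) * wg γ (p.bypass.dropUntil a hs) := by
        rw [← wg_append, e1, ih]
      rw [e2, e3, ← mul_assoc]
      have hp : (p.bypass.takeUntil a hs).IsPath := p.bypass_isPath.takeUntil hs
      suffices h4 : γ a b * wg γ (p.bypass.takeUntil a hs) = 1 by rw [h4, one_mul]
      by_cases he : s(a, b) ∈ (p.bypass.takeUntil a hs).edges
      · have e4 := hp.length_eq_one_of_mem_edges (by rw [Sym2.eq_swap]; exact he)
        rw [wg_eq, e4]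
        have e5 : (p.bypass.takeUntil a hs).getVert 1 = a := by
          have := (p.bypass.takeUntil a hs).getVert_length
          rwa [e4] at this
        simp only [sg, one_mul, zero_add, SimpleGraph.Walk.getVert_zero]
        rw [e5, hγ _ _ h, mul_inv_cancel]
      · exact hc a _ (SimpleGraph.Path.cons_isCycle ⟨_, hp⟩ h he)
    · change γ a b * wg γ p.bypass = γ a b * wg γ p
      rw [ih]

theorem pot_exists {G : SimpleGraph κ} {γ : κ → κ → Γ}
    (hγ : ∀ i j, G.Adj i j → γ j i = (γ i j)⁻¹)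
    (hc : ∀ (v : κ) (c : G.Walk v v), c.IsCycle → wg γ c = 1) :
    ∃ g : κ → Γ, ∀ i j, G.Adj i j → γ i j = (g i)⁻¹ * g j := by
  have hcl : ∀ {v : κ} (p : G.Walk v v), wg γ p = 1 := by
    intro v p
    rw [← wg_bypass hγ hc p]
    have h1 := (SimpleGraph.Path.loop_eq ⟨p.bypass, p.bypass_isPath⟩)
    have h2 : p.bypass = SimpleGraph.Walk.nil := congrArg Subtype.val h1
    rw [h2]
    rfl
  have hr : ∀ i, G.Reachable (G.connectedComponentMk i).out i := by
    intro i
    exact SimpleGraph.ConnectedComponent.exact (Quot.out_eq (G.connectedComponentMk i))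
  choose W _ using fun i => (hr i).exists_walk_length_eq_dist
  refine ⟨fun i => wg γ (W i), fun i j hij => ?_⟩
  have key : ∀ (r r' : κ) (_ : r = r') (p : G.Walk r i) (q : G.Walk r' j),
      γ i j = (wg γ p)⁻¹ * wg γ q := by
    rintro r _ rfl p q
    have e1 := hcl ((p.append (SimpleGraph.Walk.cons hij SimpleGraph.Walk.nil)).append q.reverse)
    rw [wg_append, wg_append, wg_reverse hγ] at e1
    have e2 : wg γ (SimpleGraph.Walk.cons hij SimpleGraph.Walk.nil) = γ i j := by
      simp [wg]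
    rw [e2, mul_inv_eq_one] at e1
    rw [← e1, inv_mul_cancel_left]
  exact key _ _ (by
    rw [SimpleGraph.ConnectedComponent.sound hij.reachable]) _ _

/-- the graph of the nonzero entries -/
def GrM (M : Matrix κ κ (MonoidAlgebra R Γ)) (h1 : ∀ i, M i i = 0)
    (h2 : ∀ i j, M i j ≠ 0 → M j i ≠ 0) : SimpleGraph κ where
  Adj i j := M i j ≠ 0
  symm := ⟨fun i j h => h2 i j h⟩
  loopless := ⟨fun i h => h (h1 i)⟩

/-- over torsion-free groups the group elements are a coboundary -/
theorem gains_trivial (htf : ∀ g : Γ, ∀ k : ℕ, 0 < k → g ^ k = 1 → g = 1)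
    (hM : Gn M γ u) (N : Matrix κ κ (MonoidAlgebra R Γ)) (hN : M * N = 1) :
    ∃ g : κ → Γ, ∀ i j, M i j ≠ 0 → γ i j = (g i)⁻¹ * g j := by
  rcases subsingleton_or_nontrivial R with hR | hR
  · refine ⟨fun _ => 1, fun i j h => absurd ?_ h⟩
    ext g
    exact Subsingleton.elim _ _
  refine pot_exists (G := GrM M hM.diag hM.symm) hM.inv (fun v c hc => ?_)
  have h3 := hc.three_le_length
  have hinj := hc.getVert_injOn'
  have hmod : ∀ n, (n + 1) % c.length = n % c.length + 1 ∨
      (n % c.length + 1 = c.length ∧ (n + 1) % c.length = 0) := by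
    intro n
    have h4 := Nat.mod_lt n (show 0 < c.length by omega)
    rw [Nat.add_mod, Nat.mod_eq_of_lt (show 1 < c.length by omega)]
    by_cases h5 : n % c.length + 1 = c.length
    · right; exact ⟨h5, by rw [h5, Nat.mod_self]⟩
    · left; exact Nat.mod_eq_of_lt (by omega)
  have hsucc : ∀ n, c.getVert ((n + 1) % c.length) = c.getVert (n % c.length + 1) := by
    intro n
    rcases hmod n with h | ⟨h4, h5⟩
    · rw [h]
    · rw [h5, h4, SimpleGraph.Walk.getVert_zero, SimpleGraph.Walk.getVert_length]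
  have key := hol_trivial htf hM N hN (fun n => c.getVert (n % c.length)) c.length (by omega)
    (fun n => ?_) (fun n h => ?_) (fun n => ?_) (fun n h => ?_)
  · rw [wg_eq, ← key]
    apply sg_congr
    intro k hk
    rcases Nat.lt_or_ge k c.length with h4 | h4
    · rw [Nat.mod_eq_of_lt h4]
    · have : k = c.length := by omega
      rw [this, Nat.mod_self, SimpleGraph.Walk.getVert_zero, SimpleGraph.Walk.getVert_length]
  · rw [hsucc]
    exact c.adj_getVert_succ (Nat.mod_lt n (by omega))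
  · have h4 := hinj (by
      have := Nat.mod_lt (n + 2) (show 0 < c.length by omega)
      rw [Set.mem_ofPred_eq]
      omega) (by
      have := Nat.mod_lt n (show 0 < c.length by omega)
      rw [Set.mem_ofPred_eq]
      omega) h
    have h5 : n + 2 ≡ n + 0 [MOD c.length] := h4
    have h6 := Nat.ModEq.add_left_cancel' n h5
    have h7 : c.length ∣ 2 := (Nat.modEq_zero_iff_dvd).1 h6
    have := Nat.le_of_dvd two_pos h7
    omega
  · simp only [Nat.add_mod_right]
  · have h4 := hinj (by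
      have := Nat.mod_lt n (show 0 < c.length by omega)
      rw [Set.mem_ofPred_eq]
      omega) (by
      have := Nat.mod_lt 0 (show 0 < c.length by omega)
      rw [Set.mem_ofPred_eq]
      omega) h
    rw [Nat.zero_mod] at h4
    exact Nat.dvd_of_mod_eq_zero h4

end gain

section two

variable {R : Type} [Ring R] [StarRing R] {Γ : Type} [Group Γ] (w : Γ →* ℤˣ) {κ : Type}
  [Fintype κ] [DecidableEq κ]

/-- the symmetrization -/
noncomputable def lamL (ε : ℤ) (φ : Matrix κ κ (MonoidAlgebra R Γ)) :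
    Matrix κ κ (MonoidAlgebra R Γ) := φ + ε • sadj w φ

theorem sadj_lamL (ε : ℤ) (hε : ε * ε = 1) (φ : Matrix κ κ (MonoidAlgebra R Γ)) :
    sadj w (lamL w ε φ) = ε • lamL w ε φ := by
  unfold lamL
  rw [sadj_add, sadj_zsmul, sadj_sadj, smul_add, smul_smul, hε, one_smul, add_comm]

theorem lamL_conj (ε : ℤ) (φ E : Matrix κ κ (MonoidAlgebra R Γ)) :
    lamL w ε (E * φ * sadj w E) = E * lamL w ε φ * sadj w E := by
  unfold lamL
  rw [sadj_mul, sadj_mul, sadj_sadj, Matrix.mul_add, Matrix.add_mul, Matrix.mul_smul,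
    Matrix.smul_mul, Matrix.mul_assoc, Matrix.mul_assoc]

theorem TU.zsmul {ε : ℤ} (hε : ε * ε = 1) {x : MonoidAlgebra R Γ} (hx : TU x) : TU (ε • x) := by
  rcases Int.isUnit_iff.1 (IsUnit.of_mul_eq_one _ hε) with h | h
  · rw [h, one_smul]; exact hx
  · rw [h, neg_smul, one_smul]; exact hx.neg

theorem TU.sbar {x : MonoidAlgebra R Γ} (hx : TU x) : TU (sbar w x) := by
  obtain ⟨g, u, rfl⟩ := hx
  rw [sbar_single]
  rcases Int.units_eq_one_or (w g) with h | h
  · refine ⟨g⁻¹, star u, ?_⟩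
    rw [h]; simp
  · refine ⟨g⁻¹, -star u, ?_⟩
    rw [h]; simp

theorem lamL_cases (ε : ℤ) (hε : ε * ε = 1) (φ : Matrix κ κ (MonoidAlgebra R Γ))
    (h0 : ∀ i j, φ i j ≠ 0 → φ j i = 0) (hm : ∀ i j, φ i j = 0 ∨ TU (φ i j)) (i j : κ) :
    (lamL w ε φ i j = 0 ∨ TU (lamL w ε φ i j)) ∧
      (φ i j ≠ 0 → lamL w ε φ i j = φ i j) ∧ (lamL w ε φ i j ≠ 0 → φ i j ≠ 0 ∨ φ j i ≠ 0) := by
  have e : lamL w ε φ i j = φ i j + ε • sbar w (φ j i) := rfl
  rw [e]
  by_cases h1 : φ i j = 0
  · rw [h1, zero_add]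
    refine ⟨?_, fun h => absurd rfl h, fun h => ?_⟩
    · rcases hm j i with h2 | h2
      · left; rw [h2, sbar_zero, smul_zero]
      · right; exact TU.zsmul hε (TU.sbar w h2)
    · right
      intro h2
      rw [h2, sbar_zero, smul_zero] at h
      exact h rfl
  · rw [h0 i j h1, sbar_zero, smul_zero, add_zero]
    exact ⟨hm i j, fun _ => rfl, fun _ => Or.inl h1⟩

theorem single_inj {g h : Γ} {r s : R} (hr : r ≠ 0)
    (e : (MonoidAlgebra.single g r : MonoidAlgebra R Γ) = MonoidAlgebra.single h s) : g = h := by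
  classical
  by_contra hne
  have h1 := congrArg (fun x : MonoidAlgebra R Γ => x.coeff g) e
  simp only [MonoidAlgebra.coeff_single, Finsupp.single_apply, if_true,
    if_neg (fun h2 => hne (Eq.symm h2) : ¬ h = g)] at h1
  exact hr h1

/-- at most two partners for each basis vector: the form comes from `R` -/
theorem two_ext (htf : ∀ g : Γ, ∀ k : ℕ, 0 < k → g ^ k = 1 → g = 1) (ε : ℤ) (hε : ε * ε = 1)
    (φ : Matrix κ κ (MonoidAlgebra R Γ)) (hu : IsUnit (lamL w ε φ))
    (h0 : ∀ i j, φ i j ≠ 0 → φ j i = 0) (hm : ∀ i j, φ i j = 0 ∨ TU (φ i j))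
    (h2 : ∀ i, {j | φ i j ≠ 0 ∨ φ j i ≠ 0}.ncard ≤ 2) :
    ∃ (g : κ → Γ) (ψ : Matrix κ κ R), IsUnit (ψ + ε • ψᴴ) ∧
      ∀ i j, MonoidAlgebra.single (g i) 1 * φ i j * sbar w (MonoidAlgebra.single (g j) 1)
        = MonoidAlgebra.single 1 (ψ i j) := by
  classical
  set M := lamL w ε φ with hM
  have h3 : ∀ i j, ∃ (g : Γ) (u : Rˣ), M i j ≠ 0 → M i j = MonoidAlgebra.single g (u : R) := by
    intro i j
    rcases (lamL_cases w ε hε φ h0 hm i j).1 with h | ⟨g, u, h⟩
    · exact ⟨1, 1, fun h4 => absurd h h4⟩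
    · exact ⟨g, u, fun _ => h⟩
  choose γ u hγ using h3
  have hsym : ∀ i j, M j i = ε • sbar w (M i j) := by
    intro i j
    have h4 := congrFun (congrFun (sadj_lamL w ε hε φ) j) i
    have h5 : sbar w (M i j) = ε • M j i := h4
    rw [h5, smul_smul, hε, one_smul]
  have hne : ∀ i j, M i j ≠ 0 → M j i ≠ 0 := by
    intro i j h h4
    have h5 := hsym j i
    rw [h4, sbar_zero, smul_zero] at h5
    exact h h5
  have hinv : ∀ i j, M i j ≠ 0 → γ j i = (γ i j)⁻¹ := by
    intro i j h
    have hnt : Nontrivial R := by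
      rw [← not_subsingleton_iff_nontrivial]
      intro hs
      exact h (by ext g; exact Subsingleton.elim _ _)
    have h4 := hsym i j
    rw [hγ i j h, hγ j i (hne i j h), sbar_single] at h4
    have h5 : (ε • (MonoidAlgebra.single (γ i j)⁻¹ (((w (γ i j) : ℤˣ) : ℤ) • star (u i j : R)) :
        MonoidAlgebra R Γ)) = MonoidAlgebra.single (γ i j)⁻¹
          (ε • (((w (γ i j) : ℤˣ) : ℤ) • star (u i j : R))) := by
      rw [MonoidAlgebra.smul_single]
    rw [h5] at h4
    exact single_inj (u j i).ne_zero h4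
  have hdiag : ∀ i, φ i i = 0 := fun i => by
    by_contra h
    exact h (h0 i i h)
  have hG : Gn M γ u := by
    refine ⟨fun i => ?_, hγ, hne, hinv, fun i => le_trans (Set.ncard_le_ncard (fun j hj => ?_)
      (Set.toFinite _)) (h2 i)⟩
    · by_contra h
      rcases (lamL_cases w ε hε φ h0 hm i i).2.2 h with h | h
      · exact h (hdiag i)
      · exact h (hdiag i)
    · exact (lamL_cases w ε hε φ h0 hm i j).2.2 hj
  obtain ⟨Λ, hΛ⟩ := id hu
  obtain ⟨g, hg⟩ := gains_trivial htf hG (Λ⁻¹).val (by rw [← hΛ, Λ.mul_inv])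
  let D : Matrix κ κ (MonoidAlgebra R Γ) := diagonal fun i => MonoidAlgebra.single (g i) 1
  let D' : Matrix κ κ (MonoidAlgebra R Γ) := diagonal fun i => MonoidAlgebra.single (g i)⁻¹ 1
  have hDD : D * D' = 1 := by
    simp only [D, D', diagonal_mul_diagonal, MonoidAlgebra.single_mul_single, mul_inv_cancel,
      mul_one]
    rfl
  have hDD' : D' * D = 1 := by
    simp only [D, D', diagonal_mul_diagonal, MonoidAlgebra.single_mul_single, inv_mul_cancel,
      mul_one]
    rfl
  let Du : (Matrix κ κ (MonoidAlgebra R Γ))ˣ := ⟨D, D', hDD, hDD'⟩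
  let Dv : (Matrix κ κ (MonoidAlgebra R Γ))ˣ := ⟨sadj w D, sadj w D',
    by rw [← sadj_mul, hDD', sadj_one], by rw [← sadj_mul, hDD, sadj_one]⟩
  have hent : ∀ i j, (D * φ * sadj w D) i j
      = MonoidAlgebra.single (g i) 1 * φ i j * sbar w (MonoidAlgebra.single (g j) 1) := by
    intro i j
    have h5 : sadj w D = diagonal fun i => sbar w (MonoidAlgebra.single (g i) 1) := by
      ext1 i j
      change sbar w (D j i) = _
      by_cases hij : j = i
      · subst hij
        simp only [D, diagonal_apply_eq]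
      · simp only [D]
        rw [diagonal_apply_ne _ hij, diagonal_apply_ne _ (Ne.symm hij), sbar_zero]
    rw [h5, mul_diagonal, diagonal_mul]
  have hone : ∀ i j, ∃ r : R, (D * φ * sadj w D) i j = MonoidAlgebra.single 1 r := by
    intro i j
    rw [hent]
    by_cases h : φ i j = 0
    · exact ⟨0, by rw [h, mul_zero, zero_mul, MonoidAlgebra.single_zero]⟩
    · have h5 : M i j = φ i j := (lamL_cases w ε hε φ h0 hm i j).2.1 h
      have h6 : M i j ≠ 0 := by rw [h5]; exact h
      refine ⟨1 * (u i j : R) * (((w (g j) : ℤˣ) : ℤ) • star 1), ?_⟩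
      rw [← h5, hγ i j h6, hg i j h6, sbar_single, MonoidAlgebra.single_mul_single,
        MonoidAlgebra.single_mul_single]
      congr 1
      group
  refine ⟨g, (D * φ * sadj w D).map Grid.aug, ?_, fun i j => ?_⟩
  · have h5 : IsUnit (lamL w ε (D * φ * sadj w D)) := by
      rw [lamL_conj]
      exact (Du.isUnit.mul hu).mul Dv.isUnit
    have h6 := h5.map (Grid.aug (R := R) (G := Γ)).mapMatrix
    have haug : ∀ x : MonoidAlgebra R Γ, (∃ r : R, x = MonoidAlgebra.single 1 r) →
        Grid.aug (sbar w x) = star (Grid.aug x) := by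
      rintro _ ⟨r, rfl⟩
      rw [sbar_single, Grid.aug_single, Grid.aug_single, map_one, Units.val_one, one_smul]
    have h7 : (Grid.aug (R := R) (G := Γ)).mapMatrix (lamL w ε (D * φ * sadj w D))
        = (D * φ * sadj w D).map Grid.aug + ε • ((D * φ * sadj w D).map Grid.aug)ᴴ := by
      ext1 i j
      change Grid.aug ((D * φ * sadj w D) i j + ε • sbar w ((D * φ * sadj w D) j i))
        = Grid.aug ((D * φ * sadj w D) i j) + ε • star (Grid.aug ((D * φ * sadj w D) j i))
      rw [map_add, map_zsmul, haug _ (hone j i)]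
    rwa [h7] at h6
  · obtain ⟨r, hr⟩ := hone i j
    rw [← hent]
    change _ = MonoidAlgebra.single 1 (Grid.aug ((D * φ * sadj w D) i j))
    rw [hr, Grid.aug_single]

theorem iso_unitL {ε : ℤ} (hε : ε * ε = 1) {ψ ψ' : Matrix κ κ (MonoidAlgebra R Γ)}
    (h : Iso w ε ψ ψ') (hu : IsUnit (lamL w ε ψ)) : IsUnit (lamL w ε ψ') := by
  obtain ⟨E, χ, h1⟩ := h
  have e1 : lamL w ε ψ' = E.val * lamL w ε ψ * sadj w E.val := by
    rw [← lamL_conj, h1]
    unfold lamL
    rw [sadj_add, sadj_sub, sadj_zsmul, sadj_sadj, smul_add, smul_sub, smul_smul, hε, one_smul]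
    abel
  let E' : (Matrix κ κ (MonoidAlgebra R Γ))ˣ := ⟨sadj w E.val, sadj w E⁻¹.val,
    by rw [← sadj_mul, E.inv_mul, sadj_one], by rw [← sadj_mul, E.mul_inv, sadj_one]⟩
  rw [e1]
  exact (E.isUnit.mul hu).mul E'.isUnit

theorem unit_stabL {n ν : Type} [Fintype n] [DecidableEq n] [Fintype ν] [DecidableEq ν] {ε : ℤ}
    (hε : ε * ε = 1) {ψ : Matrix n n (MonoidAlgebra R Γ)} (hu : IsUnit (lamL w ε ψ)) :
    IsUnit (lamL w ε (fromBlocks ψ 0 0 (hypL R Γ ν))) := by
  obtain ⟨L, hL⟩ := hu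
  have e1 : lamL w ε (fromBlocks ψ 0 0 (hypL R Γ ν)) = fromBlocks (lamL w ε ψ) 0 0
      (fromBlocks 0 1 (ε • 1) 0) := by
    unfold lamL hypL
    rw [sadj_fromBlocks, sadj_fromBlocks, fromBlocks_smul, fromBlocks_smul, fromBlocks_add,
      fromBlocks_add]
    simp only [sadj_zero, sadj_one, smul_zero, add_zero, zero_add]
  rw [e1, ← hL]
  have h1 : ε • (1 : Matrix ν ν (MonoidAlgebra R Γ)) * ε • 1 = 1 := by
    rw [Matrix.smul_mul, Matrix.one_mul, smul_smul, hε, one_smul]
  refine ⟨⟨fromBlocks L.val 0 0 (fromBlocks 0 1 (ε • 1) 0),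
    fromBlocks L⁻¹.val 0 0 (fromBlocks 0 (ε • 1) 1 0), ?_, ?_⟩, rfl⟩
  · rw [fromBlocks_multiply, fromBlocks_multiply]
    simp only [Matrix.mul_zero, Matrix.zero_mul, add_zero, zero_add, L.mul_inv, Matrix.mul_one, h1,
      fromBlocks_one]
  · rw [fromBlocks_multiply, fromBlocks_multiply]
    simp only [Matrix.mul_zero, Matrix.zero_mul, add_zero, zero_add, L.inv_mul, Matrix.mul_one, h1,
      fromBlocks_one]

end two

end Pool.Agent.R472.GridL
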