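import Pool.Agent.R472.GridEl

set_option autoImplicit false
set_option linter.unusedSectionVars false

/-! Every invertible matrix over a ring is equal in `K₁` to a matrix supported on a piece of the
square grid with at most three nonzero entries in each row and column. -/

namespace Pool.Agent.R472.Grid

open Matrix TH57.Thr TH6.CX

/-- neighbouring points of the square grid -/
def GridAdj (a b : ℤ × ℤ) : Prop :=
  (a.1 = b.1 ∧ (a.2 = b.2 + 1 ∨ a.2 + 1 = b.2)) ∨ (a.2 = b.2 ∧ (a.1 = b.1 + 1 ∨ a.1 + 1 = b.1))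

/-- matrices supported on a piece of the grid, with entries in `G` and `0`, at most three nonzero
ones in each row and column -/
def GridG {R : Type} [Ring R] (G : Set R) {κ : Type} (B : Matrix κ κ R) : Prop :=
  ∃ ρ c : κ → ℤ × ℤ, Function.Injective ρ ∧ Function.Injective c ∧ (∀ i j, ρ i ≠ c j) ∧
    (∀ i j, B i j ≠ 0 → GridAdj (ρ i) (c j)) ∧ (∀ i j, B i j = 0 ∨ B i j ∈ G) ∧
    (∀ i, {j | B i j ≠ 0}.ncard ≤ 3) ∧ (∀ j, {i | B i j ≠ 0}.ncard ≤ 3)

variable {R : Type} [Ring R] {G : Set R} {m : ℕ} (p : Prog G m)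

/-- delay: `1` if the source is even -/
def dl (w : Fin m) : ℕ := 1 - (w : ℕ) % 2

/-- coefficient of the variable `(τ, w')` in the equation that computes the variable `(t + 1, w)` -/
def Prog.K (t : ℕ) (w : Fin m) (τ : ℕ) (w' : Fin m) : R :=
  (if τ = t ∧ w' = w then 1 else 0) +
  (if w = p.d t ∧ w' = p.s t ∧ τ = t + dl (p.s t) then p.a t else 0)

theorem run_step (t : ℕ) (w v : Fin m) : p.run (t + 1) w v
    = p.run t w v + (if w = p.d t then p.a t * p.run t (p.s t) v else 0) := by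
  simp only [Prog.run]
  rw [Matrix.add_mul, Matrix.one_mul, Matrix.add_apply]
  congr 1
  by_cases h : w = p.d t
  · subst h
    rw [if_pos rfl, Matrix.single_mul_apply_same]
  · rw [if_neg h, Matrix.single_mul_apply_of_ne _ _ _ _ _ h]

theorem run_src (t : ℕ) (v : Fin m) :
    p.run (t + dl (p.s t)) (p.s t) v = p.run t (p.s t) v := by
  have h : dl (p.s t) = 0 ∨ dl (p.s t) = 1 := by unfold dl; omega
  rcases h with h | h
  · rw [h, add_zero]
  · rw [h, run_step, if_neg (p.nb t).ne, add_zero]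

theorem K_sum (L t : ℕ) (ht : t ≤ L) (w v : Fin m) :
    ∑ τ ∈ Finset.range (L + 2), ∑ w', p.K t w τ w' * p.run τ w' v = p.run (t + 1) w v := by
  simp only [Prog.K, add_mul, Finset.sum_add_distrib]
  rw [run_step]
  congr 1
  · rw [Finset.sum_eq_single t]
    · rw [Finset.sum_eq_single w]
      · simp
      · intro b _ hb; simp [hb]
      · simp
    · intro τ _ hτ; simp [hτ]
    · intro h; exact absurd (Finset.mem_range.2 (by omega)) h
  · by_cases h : w = p.d t
    · rw [if_pos h, Finset.sum_eq_single (t + dl (p.s t))]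
      · rw [Finset.sum_eq_single (p.s t)]
        · rw [if_pos ⟨h, rfl, rfl⟩, run_src]
        · intro b _ hb; simp [hb]
        · simp
      · intro τ _ hτ
        refine Finset.sum_eq_zero fun b _ => ?_
        rw [if_neg (by tauto), zero_mul]
      · intro h2
        exact absurd (Finset.mem_range.2 (by unfold dl; omega)) h2
    · rw [if_neg h]
      refine Finset.sum_eq_zero fun τ _ => Finset.sum_eq_zero fun b _ => ?_
      rw [if_neg (by tauto), zero_mul]

theorem K_ne {t : ℕ} {w : Fin m} {τ : ℕ} {w' : Fin m} (h : p.K t w τ w' ≠ 0) :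
    (τ = t ∧ w' = w) ∨ (w = p.d t ∧ w' = p.s t ∧ τ = t + dl (p.s t)) := by
  by_contra hcon
  push Not at hcon
  apply h
  unfold Prog.K
  rw [if_neg (by tauto), if_neg (by tauto), add_zero]

theorem K_val (h1 : (1 : R) ∈ G) (t : ℕ) (w : Fin m) (τ : ℕ) (w' : Fin m) :
    p.K t w τ w' = 0 ∨ p.K t w τ w' ∈ G := by
  unfold Prog.K
  by_cases ha : τ = t ∧ w' = w
  · have hb : ¬ (w = p.d t ∧ w' = p.s t ∧ τ = t + dl (p.s t)) := by
      rintro ⟨h2, h3, _⟩
      exact (p.nb t).ne (by rw [← h3, ← h2, ha.2])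
    rw [if_pos ha, if_neg hb, add_zero]
    exact Or.inr h1
  · rw [if_neg ha, zero_add]
    split_ifs with hb
    · exact (p.mem t).symm
    · exact Or.inl rfl

section mats

variable {n : ℕ} (x y : Fin n → Fin m) (L : ℕ)

/-- internal equations -/
def Prog.Nm : Matrix (Fin (L + 1) × Fin m) (Fin (L + 1) × Fin m) R :=
  Matrix.of fun v v' => p.K v.1 v.2 (v'.1 + 1) v'.2

/-- inputs -/
def Prog.Cm : Matrix (Fin (L + 1) × Fin m) (Fin n) R :=
  Matrix.of fun v j => p.K v.1 v.2 0 (x j)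

/-- the values of the variables -/
def Prog.Fm : Matrix (Fin (L + 1) × Fin m) (Fin n) R :=
  Matrix.of fun v j => p.run (v.1 + 1) v.2 (x j)

/-- outputs -/
def Dm (R : Type) [Ring R] : Matrix (Fin n) (Fin (L + 1) × Fin m) R :=
  Matrix.of fun i v => if (v.1 : ℕ) = L ∧ v.2 = y i then 1 else 0

theorem NF : (1 - p.Nm L) * p.Fm x L = p.Cm x L := by
  ext ⟨t, w⟩ j
  rw [Matrix.sub_mul, Matrix.one_mul, Matrix.sub_apply, Matrix.mul_apply, Fintype.sum_prod_type]
  have h := K_sum p L t (by omega) w (x j)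
  rw [Finset.sum_range_succ', Finset.sum_range] at h
  have h0 : ∑ w', p.K t w 0 w' * p.run 0 w' (x j) = p.K t w 0 (x j) := by
    rw [Finset.sum_eq_single (x j)]
    · simp [Prog.run]
    · intro b _ hb; simp [Prog.run, Matrix.one_apply_ne hb]
    · simp
  rw [h0] at h
  simp only [Prog.Nm, Prog.Fm, Prog.Cm, Matrix.of_apply]
  rw [← h]
  abel

theorem DF : Dm y L R * p.Fm x L = Matrix.of fun i j => p.run (L + 1) (y i) (x j) := by
  ext i j
  rw [Matrix.mul_apply, Finset.sum_eq_single (⟨L, by omega⟩, y i)]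
  · simp [Dm, Prog.Fm]
  · rintro ⟨t, w⟩ _ hb
    simp only [Dm, Matrix.of_apply]
    rw [if_neg, zero_mul]
    rintro ⟨h1, h2⟩
    exact hb (Prod.ext (Fin.ext h1) h2)
  · simp

/-- the grid matrix -/
def Prog.B : Matrix (Fin n ⊕ Fin (L + 1) × Fin m) (Fin n ⊕ Fin (L + 1) × Fin m) R :=
  Matrix.fromBlocks 0 (Dm y L R) (-(p.Cm x L)) (1 - p.Nm L)

theorem B_eq (A : Matrix (Fin n) (Fin n) R) (hA : ∀ i j, A i j = p.run (L + 1) (y i) (x j)) :
    Matrix.fromBlocks 1 (Dm y L R) 0 (1 - p.Nm L) * Matrix.fromBlocks A 0 0 1 *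
      Matrix.fromBlocks 1 0 (-(p.Fm x L)) 1 = p.B x y L := by
  have h1 : A = Dm y L R * p.Fm x L := by
    rw [DF]; ext i j; exact hA i j
  rw [Matrix.fromBlocks_multiply, Matrix.fromBlocks_multiply]
  unfold Prog.B
  congr 1
  · simp [h1]
  · simp
  · simp only [Matrix.zero_mul, Matrix.mul_zero, Matrix.mul_one, Matrix.mul_neg, zero_add, add_zero]
    rw [NF]
  · simp

/-- heights -/
def hgt (v : Fin (L + 1) × Fin m) : ℤ := 2 * ((v.1 : ℕ) : ℤ) + 2 + (((v.2 : ℕ) % 2 : ℕ) : ℤ)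

theorem N_lower {v v' : Fin (L + 1) × Fin m} (h : p.Nm L v v' ≠ 0) : hgt L v' < hgt L v := by
  rcases K_ne p h with ⟨h1, h2⟩ | ⟨h1, h2, h3⟩
  · unfold hgt
    rw [h2]
    omega
  · have hnb := p.nb v.1
    unfold Nb at hnb
    unfold dl at h3
    rw [← h1, ← h2] at hnb
    rw [← h2] at h3
    unfold hgt
    omega

theorem P_fil : Fil (fun k : Fin n ⊕ Fin (L + 1) × Fin m => Sum.elim (fun _ => -(2 * (L : ℤ) + 9))
      (fun v => -hgt L v) k)
    (fun k : Fin n ⊕ Fin (L + 1) × Fin m => Sum.elim (fun _ => -(2 * (L : ℤ) + 9))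
      (fun v => -hgt L v) k) 1
    (Matrix.fromBlocks 1 (Dm y L R) 0 (1 - p.Nm L) - 1) := by
  have h : (Matrix.fromBlocks 1 (Dm y L R) 0 (1 - p.Nm L) - 1 :
      Matrix (Fin n ⊕ Fin (L + 1) × Fin m) (Fin n ⊕ Fin (L + 1) × Fin m) R)
      = Matrix.fromBlocks 0 (Dm y L R) 0 (-(p.Nm L)) := by
    ext (i | i) (j | j) <;> simp [Matrix.one_apply]
  rw [h]
  rintro (i | v) (j | v') hne
  · exact absurd rfl hne
  · simp only [Sum.elim_inl, Sum.elim_inr]
    have := v'.1.2
    unfold hgt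
    omega
  · exact absurd rfl hne
  · simp only [Sum.elim_inr]
    have h2 : p.Nm L v v' ≠ 0 := by
      intro h3
      apply hne
      simp [h3]
    have := N_lower p L h2
    omega

theorem Q_fil : Fil (fun k : Fin n ⊕ Fin (L + 1) × Fin m => Sum.elim (fun _ => (1 : ℤ))
      (fun _ => 0) k)
    (fun k : Fin n ⊕ Fin (L + 1) × Fin m => Sum.elim (fun _ => (1 : ℤ)) (fun _ => 0) k) 1
    (Matrix.fromBlocks 1 0 (-(p.Fm x L)) 1 - 1) := by
  have h : (Matrix.fromBlocks 1 0 (-(p.Fm x L)) 1 - 1 :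
      Matrix (Fin n ⊕ Fin (L + 1) × Fin m) (Fin n ⊕ Fin (L + 1) × Fin m) R)
      = Matrix.fromBlocks 0 0 (-(p.Fm x L)) 0 := by
    ext (i | i) (j | j) <;> simp [Matrix.one_apply]
  rw [h]
  rintro (i | v) (j | v') hne
  · exact absurd rfl hne
  · exact absurd rfl hne
  · simp
  · exact absurd rfl hne

/-- positions of the rows -/
def rowPos : Fin n ⊕ Fin (L + 1) × Fin m → ℤ × ℤ
  | Sum.inl i => (2 * (L : ℤ) + 3 + (((y i : ℕ) % 2 : ℕ) : ℤ), ((y i : ℕ) : ℤ))
  | Sum.inr v => (2 * ((v.1 : ℕ) : ℤ) + 1 + (((v.2 : ℕ) % 2 : ℕ) : ℤ), ((v.2 : ℕ) : ℤ))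

/-- positions of the columns -/
def colPos : Fin n ⊕ Fin (L + 1) × Fin m → ℤ × ℤ
  | Sum.inl j => ((((x j : ℕ) % 2 : ℕ) : ℤ), ((x j : ℕ) : ℤ))
  | Sum.inr v => (2 * ((v.1 : ℕ) : ℤ) + 2 + (((v.2 : ℕ) % 2 : ℕ) : ℤ), ((v.2 : ℕ) : ℤ))

theorem rowPos_inj (hy : Function.Injective y) : Function.Injective (rowPos y L) := by
  rintro (i | ⟨t, w⟩) (j | ⟨t', w'⟩) h <;> simp only [rowPos, Prod.mk.injEq] at h
  · have : y i = y j := Fin.ext (by omega)
    rw [hy this]
  · exfalso; have := t'.2; omega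
  · exfalso; have := t.2; omega
  · have h1 : w = w' := Fin.ext (by omega)
    subst h1
    have h2 : t = t' := Fin.ext (by omega)
    rw [h2]

theorem colPos_inj (hx : Function.Injective x) : Function.Injective (colPos x L) := by
  rintro (i | ⟨t, w⟩) (j | ⟨t', w'⟩) h <;> simp only [colPos, Prod.mk.injEq] at h
  · have : x i = x j := Fin.ext (by omega)
    rw [hx this]
  · exfalso; omega
  · exfalso; omega
  · have h1 : w = w' := Fin.ext (by omega)
    subst h1
    have h2 : t = t' := Fin.ext (by omega)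
    rw [h2]

theorem pos_ne (i j : Fin n ⊕ Fin (L + 1) × Fin m) : rowPos y L i ≠ colPos x L j := by
  rcases i with i | ⟨t, w⟩ <;> rcases j with j | ⟨t', w'⟩ <;>
    simp only [rowPos, colPos, ne_eq, Prod.mk.injEq] <;> omega

/-- the nonzero entries -/
inductive Cell : Fin n ⊕ Fin (L + 1) × Fin m → Fin n ⊕ Fin (L + 1) × Fin m → Prop
  | out (i : Fin n) (v : Fin (L + 1) × Fin m) (h1 : (v.1 : ℕ) = L) (h2 : v.2 = y i) :
      Cell (Sum.inl i) (Sum.inr v)
  | inV (v : Fin (L + 1) × Fin m) (j : Fin n) (h1 : (v.1 : ℕ) = 0) (h2 : x j = v.2) :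
      Cell (Sum.inr v) (Sum.inl j)
  | inR (v : Fin (L + 1) × Fin m) (j : Fin n) (h1 : (v.1 : ℕ) = 0) (h2 : v.2 = p.d v.1)
      (h3 : x j = p.s v.1) (h4 : ((x j : ℕ)) % 2 = 1) : Cell (Sum.inr v) (Sum.inl j)
  | self (v : Fin (L + 1) × Fin m) : Cell (Sum.inr v) (Sum.inr v)
  | ver (v v' : Fin (L + 1) × Fin m) (h1 : (v'.1 : ℕ) + 1 = v.1) (h2 : v'.2 = v.2) :
      Cell (Sum.inr v) (Sum.inr v')
  | rung (v v' : Fin (L + 1) × Fin m) (h1 : v.2 = p.d v.1) (h2 : v'.2 = p.s v.1)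
      (h3 : (v'.1 : ℕ) + 1 = v.1 + (1 - (v'.2 : ℕ) % 2)) : Cell (Sum.inr v) (Sum.inr v')

theorem cell_of_ne (k l : Fin n ⊕ Fin (L + 1) × Fin m) (h : p.B x y L k l ≠ 0) :
    Cell p x y L k l := by
  rcases k with i | v <;> rcases l with j | v'
  · exact absurd rfl h
  · have h2 : Dm y L R i v' ≠ 0 := h
    simp only [Dm, Matrix.of_apply] at h2
    by_cases h3 : (v'.1 : ℕ) = L ∧ v'.2 = y i
    · exact Cell.out i v' h3.1 h3.2
    · rw [if_neg h3] at h2; exact absurd rfl h2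
  · have h2 : p.K v.1 v.2 0 (x j) ≠ 0 := by
      intro h3
      apply h
      change -(p.K v.1 v.2 0 (x j)) = 0
      rw [h3, neg_zero]
    rcases K_ne p h2 with ⟨h3, h4⟩ | ⟨h3, h4, h5⟩
    · exact Cell.inV v j h3.symm h4
    · unfold dl at h5
      rw [← h4] at h5
      exact Cell.inR v j (by omega) h3 h4 (by omega)
  · by_cases hv : v = v'
    · subst hv; exact Cell.self v
    · have h2 : p.K v.1 v.2 (v'.1 + 1) v'.2 ≠ 0 := by
        intro h3
        apply h
        change (1 - p.Nm L) v v' = 0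
        rw [Matrix.sub_apply, Matrix.one_apply_ne hv]
        change 0 - p.K v.1 v.2 (v'.1 + 1) v'.2 = 0
        rw [h3, sub_zero]
      rcases K_ne p h2 with ⟨h3, h4⟩ | ⟨h3, h4, h5⟩
      · exact Cell.ver v v' h3 h4
      · unfold dl at h5
        rw [← h4] at h5
        exact Cell.rung v v' h3 h4 h5

theorem cell_adj (k l : Fin n ⊕ Fin (L + 1) × Fin m) (h : Cell p x y L k l) :
    GridAdj (rowPos y L k) (colPos x L l) := by
  unfold GridAdj
  cases h with
  | out i v h1 h2 => simp only [rowPos, colPos]; rw [h2]; omega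
  | inV v j h1 h2 => simp only [rowPos, colPos]; rw [h2]; omega
  | inR v j h1 h2 h3 h4 =>
    have hnb := p.nb v.1
    unfold Nb at hnb
    rw [← h2, ← h3] at hnb
    simp only [rowPos, colPos]
    omega
  | self v =>
    right
    refine ⟨rfl, Or.inr ?_⟩
    simp only [rowPos, colPos]
    ring
  | ver v v' h1 h2 => simp only [rowPos, colPos]; rw [h2]; omega
  | rung v v' h1 h2 h3 =>
    have hnb := p.nb v.1
    unfold Nb at hnb
    rw [← h1, ← h2] at hnb
    simp only [rowPos, colPos]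
    omega

/-- the three possible positions of the columns of nonzero entries in a row -/
theorem row_three (k : Fin n ⊕ Fin (L + 1) × Fin m) : ∃ S : Finset (ℤ × ℤ), S.card ≤ 3 ∧
    ∀ l, Cell p x y L k l → colPos x L l ∈ S := by
  rcases k with i | v
  · refine ⟨{(2 * (L : ℤ) + 2 + (((y i : ℕ) % 2 : ℕ) : ℤ), ((y i : ℕ) : ℤ))}, by simp, ?_⟩
    intro l h
    cases h with
    | out i v h1 h2 => simp only [colPos, Finset.mem_singleton]; rw [h2, h1]
  · refine ⟨{(2 * ((v.1 : ℕ) : ℤ) + 2 + (((v.2 : ℕ) % 2 : ℕ) : ℤ), ((v.2 : ℕ) : ℤ)),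
      (2 * ((v.1 : ℕ) : ℤ) + (((v.2 : ℕ) % 2 : ℕ) : ℤ), ((v.2 : ℕ) : ℤ)),
      (2 * ((v.1 : ℕ) : ℤ) + 1 + (((v.2 : ℕ) % 2 : ℕ) : ℤ), ((p.s v.1 : ℕ) : ℤ))},
      Finset.card_le_three, ?_⟩
    intro l h
    simp only [Finset.mem_insert, Finset.mem_singleton]
    cases h with
    | inV _ j h1 h2 =>
      right; left
      simp only [colPos, Prod.mk.injEq]; rw [h2]; omega
    | inR _ j h1 h2 h3 h4 =>
      right; right
      have hnb := p.nb v.1
      unfold Nb at hnb
      rw [← h2, ← h3] at hnb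
      simp only [colPos, Prod.mk.injEq]
      rw [← h3]
      omega
    | self _ => left; rfl
    | ver _ v' h1 h2 =>
      right; left
      simp only [colPos, Prod.mk.injEq]; rw [h2]; omega
    | rung _ v' h1 h2 h3 =>
      right; right
      have hnb := p.nb v.1
      unfold Nb at hnb
      rw [← h1, ← h2] at hnb
      simp only [colPos, Prod.mk.injEq]
      rw [← h2]
      omega

/-- the three possible positions of the rows of nonzero entries in a column -/
theorem col_three (l : Fin n ⊕ Fin (L + 1) × Fin m) : ∃ S : Finset (ℤ × ℤ), S.card ≤ 3 ∧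
    ∀ k, Cell p x y L k l → rowPos y L k ∈ S := by
  rcases l with j | v
  · refine ⟨{(1 + (((x j : ℕ) % 2 : ℕ) : ℤ), ((x j : ℕ) : ℤ)),
      ((1 : ℤ), ((p.d 0 : ℕ) : ℤ))}, le_trans Finset.card_le_two (by norm_num), ?_⟩
    intro k h
    simp only [Finset.mem_insert, Finset.mem_singleton]
    cases h with
    | inV v _ h1 h2 =>
      left
      simp only [rowPos, Prod.mk.injEq]; rw [h2]; omega
    | inR v _ h1 h2 h3 h4 =>
      right
      have hnb := p.nb v.1
      unfold Nb at hnb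
      rw [← h2, ← h3] at hnb
      simp only [rowPos, Prod.mk.injEq]
      rw [← h1, ← h2]
      omega
  · refine ⟨{(2 * ((v.1 : ℕ) : ℤ) + 1 + (((v.2 : ℕ) % 2 : ℕ) : ℤ), ((v.2 : ℕ) : ℤ)),
      (2 * ((v.1 : ℕ) : ℤ) + 3 + (((v.2 : ℕ) % 2 : ℕ) : ℤ), ((v.2 : ℕ) : ℤ)),
      (2 * ((v.1 : ℕ) : ℤ) + 2 + (((v.2 : ℕ) % 2 : ℕ) : ℤ),
        ((p.d ((v.1 : ℕ) + (v.2 : ℕ) % 2) : ℕ) : ℤ))},
      Finset.card_le_three, ?_⟩
    intro k h
    simp only [Finset.mem_insert, Finset.mem_singleton]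
    cases h with
    | out i _ h1 h2 =>
      right; left
      simp only [rowPos, Prod.mk.injEq]; rw [h2, h1]; omega
    | self _ => left; rfl
    | ver v' _ h1 h2 =>
      right; left
      simp only [rowPos, Prod.mk.injEq]; rw [h2]; omega
    | rung v' _ h1 h2 h3 =>
      right; right
      have hnb := p.nb v'.1
      unfold Nb at hnb
      rw [← h1, ← h2] at hnb
      have h4 : (v'.1 : ℕ) = (v.1 : ℕ) + (v.2 : ℕ) % 2 := by omega
      simp only [rowPos, Prod.mk.injEq]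
      rw [← h4, ← h1]
      omega

theorem gridG_B (h1 : (1 : R) ∈ G) (hneg : ∀ g ∈ G, -g ∈ G) (hx : Function.Injective x)
    (hy : Function.Injective y) : GridG G (p.B x y L) := by
  classical
  refine ⟨rowPos y L, colPos x L, rowPos_inj y L hy, colPos_inj x L hx, pos_ne x y L, ?_, ?_, ?_,
    ?_⟩
  · intro i j h
    exact cell_adj p x y L i j (cell_of_ne p x y L i j h)
  · rintro (i | v) (j | v')
    · exact Or.inl rfl
    · change Dm y L R i v' = 0 ∨ Dm y L R i v' ∈ G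
      simp only [Dm, Matrix.of_apply]
      split_ifs
      · exact Or.inr h1
      · exact Or.inl rfl
    · change -(p.K v.1 v.2 0 (x j)) = 0 ∨ -(p.K v.1 v.2 0 (x j)) ∈ G
      rcases K_val p h1 v.1 v.2 0 (x j) with h | h
      · left; rw [h, neg_zero]
      · right; exact hneg _ h
    · change (1 - p.Nm L) v v' = 0 ∨ (1 - p.Nm L) v v' ∈ G
      rw [Matrix.sub_apply]
      change (1 : Matrix _ _ R) v v' - p.K v.1 v.2 (v'.1 + 1) v'.2 = 0 ∨
        (1 : Matrix _ _ R) v v' - p.K v.1 v.2 (v'.1 + 1) v'.2 ∈ G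
      by_cases hv : v = v'
      · subst hv
        have h2 : p.K v.1 v.2 (v.1 + 1) v.2 = 0 := by
          by_contra h3
          rcases K_ne p h3 with ⟨h4, _⟩ | ⟨h4, h5, _⟩
          · omega
          · exact (p.nb v.1).ne (by rw [← h5, ← h4])
        rw [h2, sub_zero, Matrix.one_apply_eq]
        exact Or.inr h1
      · rw [Matrix.one_apply_ne hv, zero_sub]
        rcases K_val p h1 v.1 v.2 (v'.1 + 1) v'.2 with h | h
        · left; rw [h, neg_zero]
        · right; exact hneg _ h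
  · intro i
    obtain ⟨S, hS, hS2⟩ := row_three p x y L i
    refine le_trans (le_trans (Set.ncard_le_ncard_of_injOn (t := (S : Set (ℤ × ℤ))) (colPos x L)
      (fun j hj => ?_) (colPos_inj x L hx).injOn (Finset.finite_toSet S)) ?_) hS
    · exact hS2 j (cell_of_ne p x y L i j hj)
    · rw [Set.ncard_coe_finset]
  · intro j
    obtain ⟨S, hS, hS2⟩ := col_three p x y L j
    refine le_trans (le_trans (Set.ncard_le_ncard_of_injOn (t := (S : Set (ℤ × ℤ))) (rowPos y L)
      (fun i hi => ?_) (rowPos_inj y L hy).injOn (Finset.finite_toSet S)) ?_) hS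
    · exact hS2 i (cell_of_ne p x y L i j hi)
    · rw [Set.ncard_coe_finset]

end mats

/-- **Main reduction.** -/
theorem grid_form {G : Set R} (h1 : (1 : R) ∈ G) (hneg : ∀ g ∈ G, -g ∈ G) (hG : GenBy G) {n : ℕ}
    (A : Matrix (Fin n) (Fin n) R) :
    ∃ (ν : Type) (_ : Fintype ν) (_ : DecidableEq ν)
      (P Q : (Matrix (Fin n ⊕ ν) (Fin n ⊕ ν) R)ˣ),
      (∀ U : Subgroup Rˣ, TT U P ∧ TT U Q) ∧
      GridG G ((P : Matrix (Fin n ⊕ ν) (Fin n ⊕ ν) R) * Matrix.fromBlocks A 0 0 1 *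
        (Q : Matrix (Fin n ⊕ ν) (Fin n ⊕ ν) R)) := by
  classical
  let m := n + n + 3
  let x : Fin n → Fin m := fun j => ⟨j, by have := j.2; omega⟩
  let y : Fin n → Fin m := fun i => ⟨n + i, by have := i.2; omega⟩
  have hx : Function.Injective x := fun i j h => Fin.ext (by
    have := congrArg Fin.val h; simpa [x] using this)
  have hy : Function.Injective y := fun i j h => Fin.ext (by
    have := congrArg Fin.val h; simpa [y] using this)
  let Z : Matrix (Fin m) (Fin m) R := fun k l =>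
    if h : (n ≤ (k : ℕ) ∧ (k : ℕ) < n + n) ∧ (l : ℕ) < n then
      A ⟨(k : ℕ) - n, by omega⟩ ⟨l, h.2⟩ else 0
  have hZ : 1 + Z ∈ El (R := R) (Fin m) := by
    apply el_unip (Finset.univ.filter fun k : Fin m => n ≤ (k : ℕ))
    intro k l h
    by_cases hh : (n ≤ (k : ℕ) ∧ (k : ℕ) < n + n) ∧ (l : ℕ) < n
    · simp only [Finset.mem_filter, Finset.mem_univ, true_and]
      omega
    · exact absurd (dif_neg hh) h
  have hZ2 : ∀ i j, (1 + Z) (y i) (x j) = A i j := by
    intro i j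
    have e1 : (1 : Matrix (Fin m) (Fin m) R) (y i) (x j) = 0 := by
      apply Matrix.one_apply_ne
      intro h
      have := congrArg Fin.val h
      simp only [x, y] at this
      have := j.2
      omega
    rw [Matrix.add_apply, e1, zero_add]
    have h : (n ≤ ((y i : Fin m) : ℕ) ∧ ((y i : Fin m) : ℕ) < n + n) ∧ ((x j : Fin m) : ℕ) < n := by
      simp only [x, y]
      have := i.2
      have := j.2
      omega
    change (if h : (n ≤ ((y i : Fin m) : ℕ) ∧ ((y i : Fin m) : ℕ) < n + n) ∧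
      ((x j : Fin m) : ℕ) < n then A ⟨((y i : Fin m) : ℕ) - n, by omega⟩ ⟨(x j : Fin m), h.2⟩
      else 0) = A i j
    rw [dif_pos h]
    congr 1
    · apply Fin.ext; simp [y]
  obtain ⟨L, p, hp⟩ := exists_prog (G := G) (by omega) (1 + Z)
    (El_le h1 hneg hG (by omega) (1 + Z) hZ)
  obtain ⟨P, hP⟩ := unit_of_fil _ _ (P_fil p y L)
  obtain ⟨Q, hQ⟩ := unit_of_fil _ _ (Q_fil p x L)
  refine ⟨Fin (L + 1) × Fin m, inferInstance, inferInstance, P, Q, fun U => ⟨?_, ?_⟩, ?_⟩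
  · exact TT_of_fil U _ P (by rw [hP]; exact P_fil p y L)
  · exact TT_of_fil U _ Q (by rw [hQ]; exact Q_fil p x L)
  · rw [hP, hQ, B_eq p x y L A (fun i j => by rw [hp, hZ2])]
    exact gridG_B p x y L h1 hneg hx hy

end Pool.Agent.R472.Grid
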