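import Pool.Agent.R472.GridTwo
import Pool.Agent.R719.DD.Pres

set_option autoImplicit false
set_option linter.unusedSectionVars false

/-! Modules in which each relation involves at most two generators. The dictionary between
presentations and stably free idempotent matrices, and the lemmas on presentations, are those of
helper719. -/

namespace Pool.Agent.R472.Grid

open Matrix TH57.Thr TH57.TT2 TH6.LF Pool.Agent.R719.DD

section pres

variable {R : Type} [Ring R]

/-- cyclic projective modules over rings without nontrivial idempotents -/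
theorem ideal_trivial (hR : ∀ e : R, e * e = e → e = 0 ∨ e = 1) (I : Submodule R R)
    (h : Module.Projective R (R ⧸ I)) : I = ⊥ ∨ I = ⊤ := by
  obtain ⟨s, hs⟩ := Module.projective_lifting_property I.mkQ LinearMap.id I.mkQ_surjective
  have hs' : ∀ x, I.mkQ (s x) = x := fun x => LinearMap.congr_fun hs x
  set f := s (I.mkQ 1) with hf
  have h1 : ∀ x : R, s (I.mkQ x) = x * f := by
    intro x
    have : I.mkQ x = x • I.mkQ 1 := by rw [← map_smul, smul_eq_mul, mul_one]
    rw [this, map_smul, smul_eq_mul]
  have h2 : f * f = f := by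
    rw [← h1 f, hf, hs']
  rcases hR f h2 with h3 | h3
  · right
    rw [Ideal.eq_top_iff_one (I := I)]
    have h4 := hs' (I.mkQ 1)
    rw [← hf, h3, map_zero] at h4
    exact (Submodule.Quotient.mk_eq_zero I).1 h4.symm
  · left
    rw [eq_bot_iff]
    intro x hx
    have h4 := h1 x
    have h5 : I.mkQ x = 0 := (Submodule.Quotient.mk_eq_zero I).2 hx
    rw [h5, map_zero, h3, mul_one] at h4
    exact h4.symm

/-- relations with at most one generator, or with two generators and invertible coefficients -/
def PT {κ : Type} [DecidableEq κ] (t : κ → R) : Prop :=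
  (∃ j a, t = Pi.single j a) ∨
    ∃ (j k : κ) (u v : Rˣ), j ≠ k ∧ t = Pi.single j (u : R) + Pi.single k (v : R)

theorem free_one (hR : ∀ e : R, e * e = e → e = 0 ∨ e = 1) {κ : Type} [Fintype κ] [DecidableEq κ]
    (T : Set (κ → R)) (hT : ∀ t ∈ T, ∃ j a, t = Pi.single j a)
    (hP : Module.Projective R ((κ → R) ⧸ Submodule.span R T)) :
    Module.Free R ((κ → R) ⧸ Submodule.span R T) := by
  classical
  set N := Submodule.span R T with hN
  let I : κ → Submodule R R := fun j => N.comap (LinearMap.single R (fun _ : κ => R) j)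
  have hI : ∀ j, N ≤ (I j).comap (LinearMap.proj j) := by
    intro j
    rw [hN, Submodule.span_le]
    intro t ht
    change Pi.single j (t j) ∈ N
    obtain ⟨k, a, rfl⟩ := hT t ht
    by_cases hjk : j = k
    · subst hjk
      rw [Pi.single_eq_same]
      exact Submodule.subset_span ht
    · rw [Pi.single_eq_of_ne hjk, Pi.single_zero]
      exact N.zero_mem
  have hI2 : ∀ j, I j = ⊥ ∨ I j = ⊤ := by
    intro j
    apply ideal_trivial hR
    exact Module.Projective.of_split
      ((I j).mapQ N (LinearMap.single R (fun _ : κ => R) j) le_rfl)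
      (N.mapQ (I j) (LinearMap.proj j) (hI j)) (by
        ext
        simp)
  let f : (κ → R) →ₗ[R] ({j // I j = ⊥} → R) := LinearMap.funLeft R R Subtype.val
  have hf : Function.Surjective f := LinearMap.funLeft_surjective_of_injective R R _
    Subtype.val_injective
  have hker : LinearMap.ker f = N := by
    ext x
    rw [LinearMap.mem_ker]
    constructor
    · intro hx
      have h1 : x = ∑ j, Pi.single j (x j) := by
        rw [Finset.univ_sum_single]
      rw [h1]
      refine Submodule.sum_mem _ fun j _ => ?_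
      change x j ∈ I j
      rcases hI2 j with h2 | h2
      · have : x j = 0 := congrFun hx ⟨j, h2⟩
        rw [this]; exact Submodule.zero_mem _
      · rw [h2]; trivial
    · intro hx
      funext ⟨j, hj⟩
      have := hI j hx
      rw [Submodule.mem_comap, hj] at this
      exact this
  have e := LinearMap.quotKerEquivOfSurjective f hf
  rw [hker] at e
  exact Module.Free.of_equiv e.symm

/-- elimination of a generator -/
theorem free_two (hR : ∀ e : R, e * e = e → e = 0 ∨ e = 1) : ∀ (n : ℕ) (κ : Type) [Fintype κ]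
    [DecidableEq κ], Fintype.card κ = n → ∀ T : Set (κ → R), (∀ t ∈ T, PT t) →
    Module.Projective R ((κ → R) ⧸ Submodule.span R T) →
    Module.Free R ((κ → R) ⧸ Submodule.span R T) := by
  classical
  intro n
  induction n with
  | zero =>
    intro κ _ _ hκ T hT hP
    refine free_one hR T (fun t ht => ?_) hP
    rcases hT t ht with h | ⟨j, _⟩
    · exact h
    · exact absurd (Fintype.card_pos_iff.2 ⟨j⟩) (by omega)
  | succ n ih =>
    intro κ _ _ hκ T hT hP
    by_cases hall : ∀ t ∈ T, ∃ j a, t = Pi.single j a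
    · exact free_one hR T hall hP
    push Not at hall
    obtain ⟨t, ht, hne⟩ := hall
    rcases hT t ht with ⟨j, a, h⟩ | ⟨j, k, u, v, hjk, htt⟩
    · exact absurd h (hne j a)
    let κ' : Type := {i // i ≠ j}
    let k' : κ' := ⟨k, hjk.symm⟩
    let c : R := -(((u⁻¹ : Rˣ) : R) * (v : R))
    let f : (κ → R) →ₗ[R] (κ' → R) :=
      { toFun := fun x i => x i + if i = k' then x j * c else 0
        map_add' := by
          intro x y
          funext i
          simp only [Pi.add_apply]
          split_ifs
          · rw [add_mul]; abel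
          · simp
        map_smul' := by
          intro r x
          funext i
          simp only [Pi.smul_apply, smul_eq_mul, RingHom.id_apply]
          split_ifs
          · rw [mul_add, mul_assoc]
          · simp }
    have hf : ∀ x i, f x i = x i + if i = k' then x j * c else 0 := fun x i => rfl
    have hfs : Function.Surjective f := by
      intro y
      refine ⟨fun i => if h : i ≠ j then y ⟨i, h⟩ else 0, ?_⟩
      funext i
      rw [hf]
      have : ¬ (j ≠ j) := fun h => h rfl
      rw [dif_pos i.2, dif_neg this, zero_mul]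
      simp
    have hfj : ∀ a : R, f (Pi.single j a) = Pi.single k' (a * c) := by
      intro a
      funext i
      rw [hf, Pi.single_eq_same, Pi.single_eq_of_ne i.2, zero_add]
      by_cases hi : i = k'
      · subst hi; rw [if_pos rfl, Pi.single_eq_same]
      · rw [if_neg hi, Pi.single_eq_of_ne hi]
    have hfi : ∀ (i : κ') (a : R), f (Pi.single (i : κ) a) = Pi.single i a := by
      intro i a
      funext l
      rw [hf, Pi.single_eq_of_ne i.2.symm, zero_mul]
      by_cases hi : l = i
      · subst hi; simp
      · rw [Pi.single_eq_of_ne hi, Pi.single_eq_of_ne (fun h => hi (Subtype.ext h))]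
        simp
    have hker : LinearMap.ker f ≤ Submodule.span R T := by
      intro x hx
      have hx' : ∀ i, f x i = 0 := fun i => congrFun hx i
      have h1 : x = (x j * ((u⁻¹ : Rˣ) : R)) • t := by
        funext i
        rw [htt, Pi.smul_apply, Pi.add_apply, smul_eq_mul]
        by_cases hi : i = j
        · subst hi
          rw [Pi.single_eq_same, Pi.single_eq_of_ne hjk, add_zero, mul_assoc, Units.inv_mul,
            mul_one]
        · rw [Pi.single_eq_of_ne hi, zero_add]
          have h2 := hx' ⟨i, hi⟩
          rw [hf] at h2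
          by_cases hk : i = k
          · subst hk
            rw [Pi.single_eq_same]
            rw [if_pos rfl] at h2
            rw [eq_neg_of_add_eq_zero_left h2]
            simp only [c]
            rw [mul_neg, neg_neg, mul_assoc]
          · rw [Pi.single_eq_of_ne hk, mul_zero]
            rw [if_neg (fun h => hk (congrArg Subtype.val h)), add_zero] at h2
            exact h2
      rw [h1]
      exact Submodule.smul_mem _ _ (Submodule.subset_span ht)
    have hcu : IsUnit c := by
      have : c = ((-(u⁻¹ * v) : Rˣ) : R) := by simp [c]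
      rw [this]; exact Units.isUnit _
    obtain ⟨cu, hcu⟩ := hcu
    -- the new relations
    have hT' : ∀ t ∈ f '' T, PT t := by
      rintro _ ⟨t, ht, rfl⟩
      rcases hT t ht with ⟨i, a, rfl⟩ | ⟨i, l, p, q, hil, rfl⟩
      · left
        by_cases hi : i = j
        · subst hi; exact ⟨k', a * c, hfj a⟩
        · exact ⟨⟨i, hi⟩, a, hfi ⟨i, hi⟩ a⟩
      · rw [map_add]
        by_cases hi : i = j
        · subst hi
          rw [hfj, show f (Pi.single l (q : R)) = _ from hfi ⟨l, hil.symm⟩ q]
          by_cases hl : (⟨l, hil.symm⟩ : κ') = k'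
          · left
            rw [hl]
            exact ⟨k', _, (Pi.single_add k' _ _).symm⟩
          · right
            refine ⟨k', ⟨l, hil.symm⟩, p * cu, q, Ne.symm hl, ?_⟩
            rw [Units.val_mul, hcu]
        · by_cases hl : l = j
          · subst hl
            rw [hfj, show f (Pi.single i (p : R)) = _ from hfi ⟨i, hi⟩ p]
            by_cases hl : (⟨i, hi⟩ : κ') = k'
            · left
              rw [hl]
              exact ⟨k', _, (Pi.single_add k' _ _).symm⟩
            · right
              refine ⟨⟨i, hi⟩, k', p, q * cu, hl, ?_⟩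
              rw [Units.val_mul, hcu]
          · right
            rw [show f (Pi.single i (p : R)) = _ from hfi ⟨i, hi⟩ p,
              show f (Pi.single l (q : R)) = _ from hfi ⟨l, hl⟩ q]
            exact ⟨⟨i, hi⟩, ⟨l, hl⟩, p, q, fun h => hil (congrArg Subtype.val h), rfl⟩
    let g : (κ → R) →ₗ[R] ((κ' → R) ⧸ Submodule.span R (f '' T)) :=
      (Submodule.span R (f '' T)).mkQ ∘ₗ f
    have hg : Function.Surjective g := (Submodule.mkQ_surjective _).comp hfs
    have hgk : LinearMap.ker g = Submodule.span R T := by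
      rw [LinearMap.ker_comp, Submodule.ker_mkQ, Submodule.span_image, Submodule.comap_map_eq,
        sup_eq_left.2 hker]
    have e := LinearMap.quotKerEquivOfSurjective g hg
    rw [hgk] at e
    have hP' : Module.Projective R ((κ' → R) ⧸ Submodule.span R (f '' T)) :=
      Module.Projective.of_equiv e
    have hcard : Fintype.card κ' = n := by
      have : Fintype.card κ' = Fintype.card κ - 1 := by
        rw [Fintype.card_subtype_compl]
        simp
      omega
    have := ih κ' hcard (f '' T) hT' hP'
    exact Module.Free.of_equiv e.symm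

theorem mat_of {κ μ : Type} [Fintype κ] [DecidableEq κ] (f : (κ → R) →ₗ[R] (μ → R)) :
    ∃ M : Matrix κ μ R, ∀ x, x ᵥ* M = f x := by
  let A : Matrix κ μ R := fun i => f (Pi.single i 1)
  have hA : A.vecMulLinear = f := by
    apply (Pi.basisFun R κ).ext
    intro j
    rw [Matrix.vecMulLinear_apply, Pi.basisFun_apply, Matrix.single_one_vecMul]
    rfl
  exact ⟨A, fun x => LinearMap.congr_fun hA x⟩

theorem mat_ext {κ μ : Type} [Fintype κ] [DecidableEq κ] {M N : Matrix κ μ R}
    (h : ∀ x : κ → R, x ᵥ* M = x ᵥ* N) : M = N := by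
  funext i
  have := h (Pi.single i 1)
  rw [Matrix.single_one_vecMul, Matrix.single_one_vecMul] at this
  exact this

section reg

variable {ι κ : Type} [Fintype κ] [DecidableEq κ] [Fintype ι] [DecidableEq ι]

/-- the section given by a regular matrix -/
theorem exists_section (B : Matrix ι κ R) (Y : Matrix κ ι R) (hY : B * Y * B = B) :
    ∃ s : ((κ → R) ⧸ LinearMap.range B.vecMulLinear) →ₗ[R] (κ → R),
      (∀ x, s ((LinearMap.range B.vecMulLinear).mkQ x) = x ᵥ* (1 - Y * B)) ∧
      ∀ y, (LinearMap.range B.vecMulLinear).mkQ (s y) = y := by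
  have h1 : B * (1 - Y * B) = 0 := by
    rw [Matrix.mul_sub, Matrix.mul_one, ← Matrix.mul_assoc, hY, sub_self]
  have hle : LinearMap.range B.vecMulLinear ≤ LinearMap.ker (1 - Y * B).vecMulLinear := by
    rintro _ ⟨y, rfl⟩
    rw [LinearMap.mem_ker, Matrix.vecMulLinear_apply, Matrix.vecMulLinear_apply,
      Matrix.vecMul_vecMul, h1, Matrix.vecMul_zero]
  refine ⟨(LinearMap.range B.vecMulLinear).liftQ (1 - Y * B).vecMulLinear hle, fun x => rfl,
    fun y => ?_⟩
  obtain ⟨x, rfl⟩ := Submodule.mkQ_surjective _ y
  change (LinearMap.range B.vecMulLinear).mkQ (x ᵥ* (1 - Y * B)) = _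
  rw [Matrix.vecMul_sub, Matrix.vecMul_one, map_sub]
  have h2 : (LinearMap.range B.vecMulLinear).mkQ (x ᵥ* (Y * B)) = 0 := by
    rw [← LinearMap.mem_ker, Submodule.ker_mkQ]
    exact ⟨x ᵥ* Y, by rw [Matrix.vecMulLinear_apply, Matrix.vecMul_vecMul]⟩
  rw [h2, sub_zero]

theorem projective_of_regular (B : Matrix ι κ R) (Y : Matrix κ ι R) (hY : B * Y * B = B) :
    Module.Projective R ((κ → R) ⧸ LinearMap.range B.vecMulLinear) := by
  obtain ⟨s, _, hs⟩ := exists_section B Y hY
  exact Module.Projective.of_split s (LinearMap.range B.vecMulLinear).mkQ (by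
    apply LinearMap.ext; intro y; exact hs y)

theorem SFC_of_free (B : Matrix ι κ R) (Y : Matrix κ ι R) (hY : B * Y * B = B)
    (hfree : Module.Free R ((κ → R) ⧸ LinearMap.range B.vecMulLinear)) : SFC B := by
  classical
  obtain ⟨s, hs1, hs2⟩ := exists_section B Y hY
  have : Module.Finite R ((κ → R) ⧸ LinearMap.range B.vecMulLinear) :=
    Module.Finite.of_surjective _ (Submodule.mkQ_surjective _)
  let J : Type := Module.Free.ChooseBasisIndex R ((κ → R) ⧸ LinearMap.range B.vecMulLinear)
  let θ : ((κ → R) ⧸ LinearMap.range B.vecMulLinear) ≃ₗ[R] (J → R) :=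
    (Module.Free.chooseBasis R _).equivFun
  obtain ⟨U, hU⟩ := mat_of (θ.toLinearMap ∘ₗ (LinearMap.range B.vecMulLinear).mkQ)
  obtain ⟨V, hV⟩ := mat_of (s ∘ₗ θ.symm.toLinearMap)
  have hUV : U * V = 1 - Y * B := by
    apply mat_ext
    intro x
    rw [← Matrix.vecMul_vecMul, hU, hV]
    change s (θ.symm (θ _)) = _
    rw [LinearEquiv.symm_apply_apply]
    exact hs1 x
  have hVU : V * U = 1 := by
    apply mat_ext
    intro y
    rw [← Matrix.vecMul_vecMul, hV, hU, Matrix.vecMul_one]
    change θ ((LinearMap.range B.vecMulLinear).mkQ (s (θ.symm y))) = y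
    rw [hs2, LinearEquiv.apply_symm_apply]
  refine ⟨Y, hY, Fin 0, J, inferInstance, inferInstance, inferInstance, inferInstance,
    fromRows U 0, fromCols V 0, ?_, ?_⟩
  · rw [Matrix.fromRows_mul_fromCols, hUV]
    congr 1
    · simp
    · simp
    · ext i; exact i.elim0
  · rw [Matrix.fromCols_mul_fromRows, hVU]
    simp

end reg

/-- the rows of a matrix with at most two nonzero entries -/
theorem pt_row {κ : Type} [Fintype κ] [DecidableEq κ] [Nonempty κ] (t : κ → R)
    (h : {j | t j ≠ 0}.ncard ≤ 2) (h2 : ∀ j, t j = 0 ∨ IsUnit (t j)) : PT t := by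
  classical
  by_cases h1 : {j | t j ≠ 0}.ncard ≤ 1
  · left
    rcases Nat.le_one_iff_eq_zero_or_eq_one.1 h1 with h3 | h3
    · rw [Set.ncard_eq_zero] at h3
      refine ⟨Classical.arbitrary κ, 0, ?_⟩
      rw [Pi.single_zero]
      funext j
      by_contra hj
      have : j ∈ {j | t j ≠ 0} := hj
      rw [h3] at this
      exact this
    · obtain ⟨j, hj⟩ := Set.ncard_eq_one.1 h3
      refine ⟨j, t j, ?_⟩
      funext k
      by_cases hk : k = j
      · subst hk; rw [Pi.single_eq_same]
      · rw [Pi.single_eq_of_ne hk]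
        by_contra hk2
        have : k ∈ {j | t j ≠ 0} := hk2
        rw [hj] at this
        exact hk this
  · right
    obtain ⟨j, k, hjk, hS⟩ := Set.ncard_eq_two.1 (le_antisymm h (by omega))
    have hj : t j ≠ 0 := by
      have : j ∈ {j | t j ≠ 0} := by rw [hS]; simp
      exact this
    have hk : t k ≠ 0 := by
      have : k ∈ {j | t j ≠ 0} := by rw [hS]; simp
      exact this
    obtain ⟨u, hu⟩ := (h2 j).resolve_left hj
    obtain ⟨v, hv⟩ := (h2 k).resolve_left hk
    refine ⟨j, k, u, v, hjk, ?_⟩
    funext l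
    rw [hu, hv, Pi.add_apply]
    by_cases hl : l = j
    · subst hl
      rw [Pi.single_eq_same, Pi.single_eq_of_ne hjk, add_zero]
    · by_cases hl2 : l = k
      · subst hl2
        rw [Pi.single_eq_same, Pi.single_eq_of_ne hl, zero_add]
      · rw [Pi.single_eq_of_ne hl, Pi.single_eq_of_ne hl2, add_zero]
        by_contra hl3
        have : l ∈ {j | t j ≠ 0} := hl3
        rw [hS] at this
        rcases this with h5 | h5
        · exact hl h5
        · exact hl2 h5

/-- projective modules in which each relation involves at most two generators are free -/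
theorem free_rows (hR : ∀ e : R, e * e = e → e = 0 ∨ e = 1) {ι κ : Type} [Fintype ι]
    [DecidableEq ι] [Fintype κ] [DecidableEq κ] (B : Matrix ι κ R)
    (h : ∀ i, {j | B i j ≠ 0}.ncard ≤ 2) (h2 : ∀ i j, B i j = 0 ∨ IsUnit (B i j))
    (hP : Module.Projective R ((κ → R) ⧸ LinearMap.range B.vecMulLinear)) :
    Module.Free R ((κ → R) ⧸ LinearMap.range B.vecMulLinear) := by
  classical
  rcases isEmpty_or_nonempty κ with hκ | hκ
  · exact Module.Free.of_subsingleton R _
  have hr : LinearMap.range B.vecMulLinear = Submodule.span R (Set.range B) := by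
    rw [range_vecMulLinear]
    rfl
  rw [hr] at hP ⊢
  exact free_two hR _ κ rfl _ (by rintro _ ⟨i, rfl⟩; exact pt_row (B i) (h i) (h2 i)) hP

end pres

variable {Γ : Type} [Group Γ]

theorem unit_mono {x : MonoidAlgebra ℤ Γ} (h : Mono x) : IsUnit x := by
  obtain ⟨g, rfl | rfl⟩ := h
  · exact ⟨⟨MonoidAlgebra.single g 1, MonoidAlgebra.single g⁻¹ 1,
      by rw [MonoidAlgebra.single_mul_single, mul_inv_cancel, one_mul]; rfl,
      by rw [MonoidAlgebra.single_mul_single, inv_mul_cancel, one_mul]; rfl⟩, rfl⟩
  · exact ⟨⟨MonoidAlgebra.single g (-1), MonoidAlgebra.single g⁻¹ (-1),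
      by rw [MonoidAlgebra.single_mul_single, mul_inv_cancel, neg_one_mul, neg_neg]; rfl,
      by rw [MonoidAlgebra.single_mul_single, inv_mul_cancel, neg_one_mul, neg_neg]; rfl⟩, rfl⟩

/-- each relation involves at most two generators: free -/
theorem free_two_rows {ι κ : Type} [Fintype ι] [DecidableEq ι] [Fintype κ] [DecidableEq κ]
    (B : Matrix ι κ (MonoidAlgebra ℤ Γ)) (h : ∀ i, {j | B i j ≠ 0}.ncard ≤ 2)
    (h2 : ∀ i j, B i j = 0 ∨ Mono (B i j)) (P : Type) [AddCommGroup P]
    [Module (MonoidAlgebra ℤ Γ) P] (hP : Module.Projective (MonoidAlgebra ℤ Γ) P)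
    (e : P ≃ₗ[MonoidAlgebra ℤ Γ] (κ → MonoidAlgebra ℤ Γ) ⧸ LinearMap.range B.vecMulLinear) :
    Module.Free (MonoidAlgebra ℤ Γ) P := by
  have := free_rows idem_trivial B h (fun i j => (h2 i j).imp id unit_mono)
    (Module.Projective.of_equiv e)
  exact Module.Free.of_equiv e.symm

/-- each generator is involved in at most two relations: stably free -/
theorem free_two_cols {ι κ : Type} [Fintype ι] [DecidableEq ι] [Fintype κ] [DecidableEq κ]
    (B : Matrix ι κ (MonoidAlgebra ℤ Γ)) (h : ∀ j, {i | B i j ≠ 0}.ncard ≤ 2)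
    (h2 : ∀ i j, B i j = 0 ∨ Mono (B i j)) (P : Type) [AddCommGroup P]
    [Module (MonoidAlgebra ℤ Γ) P] (hP : Module.Projective (MonoidAlgebra ℤ Γ) P)
    (e : P ≃ₗ[MonoidAlgebra ℤ Γ] (κ → MonoidAlgebra ℤ Γ) ⧸ LinearMap.range B.vecMulLinear) :
    ∃ n m : ℕ, Nonempty ((P × (Fin n → MonoidAlgebra ℤ Γ)) ≃ₗ[MonoidAlgebra ℤ Γ]
      (Fin m → MonoidAlgebra ℤ Γ)) := by
  obtain ⟨Y, hY⟩ := regular_of_projective B P hP e
  have hY' : adj B * adj Y * adj B = adj B := by
    rw [← adj_mul, ← adj_mul, ← Matrix.mul_assoc, hY]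
  have h3 : Module.Free (MonoidAlgebra ℤ Γ)
      ((ι → MonoidAlgebra ℤ Γ) ⧸ LinearMap.range (adj B).vecMulLinear) := by
    apply free_rows idem_trivial (adj B)
    · intro j
      have : {i | adj B j i ≠ 0} = {i | B i j ≠ 0} := by
        ext i
        change bar (B i j) ≠ 0 ↔ B i j ≠ 0
        rw [ne_eq, bar_zero_iff]
      rw [this]; exact h j
    · intro j i
      change bar (B i j) = 0 ∨ IsUnit (bar (B i j))
      rcases h2 i j with h4 | h4
      · left; rw [bar_zero_iff]; exact h4
      · right; exact unit_mono (adj_mono h4)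
    · exact projective_of_regular (adj B) (adj Y) hY'
  exact free_of_SFC B (SFC_of_adj B (SFC_of_free (adj B) (adj Y) hY' h3)) P e

end Pool.Agent.R472.Grid
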