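import Pool.Agent.R472.GridTwo
import Pool.Agent.R719.LF.Shp

set_option autoImplicit false
set_option linter.unusedSectionVars false

/-! Quadratic forms over integral group rings on pieces of the triangular lattice. The set-up of
simple isometries is that of helper719. -/

namespace Pool.Agent.R472.Grid

open Matrix TH57.Thr TH6.LF TH6.CX Pool.Agent.Y75.Th Pool.Agent.Y35.KC.TTm Pool.Agent.R719.DD
  Pool.Agent.R719.LF

variable {Γ : Type} [Group Γ]

theorem adj_fromCols {κ μ ν : Type} (A : Matrix κ μ (MonoidAlgebra ℤ Γ))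
    (B : Matrix κ ν (MonoidAlgebra ℤ Γ)) : adj (fromCols A B) = fromRows (adj A) (adj B) := by
  ext1 i j
  rcases i with i | i <;> rfl

theorem adj_fromRows {κ μ ν : Type} (A : Matrix μ κ (MonoidAlgebra ℤ Γ))
    (B : Matrix ν κ (MonoidAlgebra ℤ Γ)) : adj (fromRows A B) = fromCols (adj A) (adj B) := by
  ext1 i j
  rcases j with j | j <;> rfl

theorem iso_alg {n V : Type} [Fintype n] [DecidableEq n] [Fintype V] [DecidableEq V] (ε : ℤ)
    (ψ : Matrix n n (MonoidAlgebra ℤ Γ)) (N : Matrix V V (MonoidAlgebra ℤ Γ))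
    (F : Matrix V n (MonoidAlgebra ℤ Γ)) (K : Matrix V V (MonoidAlgebra ℤ Γ))
    (hK : adj F * K * F = ψ)
    (E : (Matrix (n ⊕ (V ⊕ V)) (n ⊕ (V ⊕ V)) (MonoidAlgebra ℤ Γ))ˣ)
    (hE : E.val = fromBlocks 1 (fromCols (ε • (adj F * adj K)) (-adj F)) 0
      (fromBlocks (1 - N) 0 K 1)) (hT : TT (TU Γ) E) :
    Iso ε (fromBlocks ψ 0 0 (hyp Γ V))
      (fromBlocks 0 0 (fromRows (-((1 - N) * F)) 0) (fromBlocks 0 (1 - N) 0 K)) := by
  refine ⟨E, fromBlocks ψ 0 (fromRows 0 (-(K * F))) 0, hT, ?_⟩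
  have hψ : adj F * adj K * F = adj ψ := by
    rw [← hK, adj_mul, adj_mul, adj_adj, Matrix.mul_assoc]
  rw [hE]
  unfold hyp
  rw [adj_fromBlocks, adj_fromCols, adj_fromBlocks, fromBlocks_multiply]
  simp only [Matrix.one_mul, Matrix.mul_zero, Matrix.zero_mul, add_zero, zero_add]
  rw [fromCols_mul_fromBlocks, fromBlocks_multiply]
  simp only [Matrix.one_mul, Matrix.mul_one, Matrix.mul_zero, Matrix.zero_mul, add_zero, zero_add]
  rw [fromBlocks_multiply]
  simp only [Matrix.one_mul, Matrix.mul_one, Matrix.mul_zero, Matrix.zero_mul, add_zero, zero_add,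
    adj_one, adj_zero]
  rw [fromCols_mul_fromRows, fromCols_mul_fromBlocks, fromBlocks_mul_fromRows, fromBlocks_multiply]
  simp only [Matrix.one_mul, Matrix.mul_one, Matrix.mul_zero, Matrix.zero_mul, add_zero, zero_add]
  rw [adj_fromBlocks, adj_fromRows, fromBlocks_smul, fb_sub, fromBlocks_add]
  simp only [adj_zero, adj_neg, adj_adj, smul_zero, sub_zero, zero_sub, add_zero, zero_add]
  have e1 : (ε • (adj F * adj K)) * -(F) = -(ε • adj ψ) := by
    rw [Matrix.mul_neg, Matrix.smul_mul, hψ]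
  rw [e1, adj_mul]
  congr 1
  · abel
  · ext1 i j
    rcases j with j | j <;> simp [fromCols]
  · ext1 i j
    rcases i with i | i
    · have e2 : (1 - N) * -F = -((1 - N) * F) := Matrix.mul_neg _ _
      have e3 := congrFun (congrFun e2 i) j
      rw [← add_zero ((-((1 - N) * F) : Matrix V n (MonoidAlgebra ℤ Γ)) i j)] at e3
      exact e3
    · have e2 : K * -F = -(K * F) := Matrix.mul_neg _ _
      have e3 := congrFun (congrFun e2 i) j
      rw [← zero_add ((-(K * F) : Matrix V n (MonoidAlgebra ℤ Γ)) i j)] at e3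
      exact e3

/-- neighbouring points of the triangular lattice -/
def TriAdj (a b : ℤ × ℤ) : Prop :=
  GridAdj a b ∨ (a.1 + 1 = b.1 ∧ a.2 + 1 = b.2) ∨ (b.1 + 1 = a.1 ∧ b.2 + 1 = a.2)

theorem TriAdj.symm {a b : ℤ × ℤ} (h : TriAdj a b) : TriAdj b a := by
  unfold TriAdj GridAdj at *
  omega

/-- forms on pieces of the triangular lattice, with entries in `G` and `0`, zero diagonal, at most
three neighbours for each basis vector -/
def TriG {R : Type} [Ring R] (G : Set R) {κ : Type} (φ : Matrix κ κ R) : Prop :=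
  ∃ pos : κ → ℤ × ℤ, Function.Injective pos ∧ (∀ i j, φ i j ≠ 0 → TriAdj (pos i) (pos j)) ∧
    (∀ i j, φ i j ≠ 0 → φ j i = 0) ∧ (∀ i j, φ i j = 0 ∨ φ i j ∈ G) ∧
    (∀ i, {j | φ i j ≠ 0 ∨ φ j i ≠ 0}.ncard ≤ 3)

section mats

variable {G : Set (MonoidAlgebra ℤ Γ)} {m n : ℕ} (p : Prog G m) (x y : Fin n → Fin m) (L : ℕ)

/-- coupling of the outputs -/
noncomputable def Kc (Γ : Type) [Group Γ] {m n : ℕ} (x y : Fin n → Fin m) (L : ℕ) :
    Matrix (Fin (L + 1) × Fin m) (Fin (L + 1) × Fin m) (MonoidAlgebra ℤ Γ) :=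
  adj (Dm x L (MonoidAlgebra ℤ Γ)) * Dm y L (MonoidAlgebra ℤ Γ)

open Classical in
theorem Kc_apply (hx : Function.Injective x) (v v' : Fin (L + 1) × Fin m) :
    Kc Γ x y L v v' = if ∃ i, ((v.1 : ℕ) = L ∧ v.2 = x i) ∧ (v'.1 : ℕ) = L ∧ v'.2 = y i
      then 1 else 0 := by
  unfold Kc
  rw [Matrix.mul_apply]
  have hb : ∀ i, adj (Dm x L (MonoidAlgebra ℤ Γ)) v i
      = if (v.1 : ℕ) = L ∧ v.2 = x i then 1 else 0 := by
    intro i
    change bar (if (v.1 : ℕ) = L ∧ v.2 = x i then 1 else 0) = _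
    split_ifs
    · exact bar_one
    · exact (bar_zero_iff 0).2 rfl
  by_cases h : ∃ i, ((v.1 : ℕ) = L ∧ v.2 = x i) ∧ (v'.1 : ℕ) = L ∧ v'.2 = y i
  · rw [if_pos h]
    obtain ⟨i, h1, h2⟩ := h
    rw [Finset.sum_eq_single i]
    · rw [hb, if_pos h1, one_mul]
      exact if_pos h2
    · intro b _ hbi
      rw [hb, if_neg, zero_mul]
      rintro ⟨_, h3⟩
      exact hbi (hx (by rw [← h3, h1.2]))
    · simp
  · rw [if_neg h]
    refine Finset.sum_eq_zero fun i _ => ?_
    rw [hb]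
    by_cases h1 : (v.1 : ℕ) = L ∧ v.2 = x i
    · have h2 : ¬ ((v'.1 : ℕ) = L ∧ v'.2 = y i) := fun h2 => h ⟨i, h1, h2⟩
      have h3 : Dm y L (MonoidAlgebra ℤ Γ) i v' = 0 := if_neg h2
      rw [h3, mul_zero]
    · rw [if_neg h1, zero_mul]

/-- the form on the triangular lattice -/
noncomputable def tform : Matrix (Fin n ⊕ (Fin (L + 1) × Fin m ⊕ Fin (L + 1) × Fin m))
    (Fin n ⊕ (Fin (L + 1) × Fin m ⊕ Fin (L + 1) × Fin m)) (MonoidAlgebra ℤ Γ) :=
  fromBlocks 0 0 (fromRows (-(p.Cm x L)) 0) (fromBlocks 0 (1 - p.Nm L) 0 (Kc Γ x y L))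

theorem E_fil (ε : ℤ) : Fil
    (fun k : Fin n ⊕ (Fin (L + 1) × Fin m ⊕ Fin (L + 1) × Fin m) =>
      Sum.elim (fun _ => -(2 * (L : ℤ) + 10))
        (Sum.elim (fun v => -hgt L v) (fun _ => -(2 * (L : ℤ) + 9))) k)
    (fun k : Fin n ⊕ (Fin (L + 1) × Fin m ⊕ Fin (L + 1) × Fin m) =>
      Sum.elim (fun _ => -(2 * (L : ℤ) + 10))
        (Sum.elim (fun v => -hgt L v) (fun _ => -(2 * (L : ℤ) + 9))) k) 1
    (fromBlocks 1 (fromCols (ε • (adj (p.Fm x L) * adj (Kc Γ x y L))) (-adj (p.Fm x L))) 0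
      (fromBlocks (1 - p.Nm L) 0 (Kc Γ x y L) 1) - 1) := by
  have h : (fromBlocks 1 (fromCols (ε • (adj (p.Fm x L) * adj (Kc Γ x y L))) (-adj (p.Fm x L))) 0
      (fromBlocks (1 - p.Nm L) 0 (Kc Γ x y L) 1) - 1 :
      Matrix (Fin n ⊕ (Fin (L + 1) × Fin m ⊕ Fin (L + 1) × Fin m))
    (Fin n ⊕ (Fin (L + 1) × Fin m ⊕ Fin (L + 1) × Fin m)) (MonoidAlgebra ℤ Γ))
      = fromBlocks 0 (fromCols (ε • (adj (p.Fm x L) * adj (Kc Γ x y L))) (-adj (p.Fm x L))) 0
      (fromBlocks (-(p.Nm L)) 0 (Kc Γ x y L) 0) := by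
    ext (i | i | i) (j | j | j) <;> simp [Matrix.one_apply]
  rw [h]
  rintro (i | v | v) (j | v' | v') hne
  · exact absurd rfl hne
  · simp only [Sum.elim_inl, Sum.elim_inr]
    have := v'.1.2
    unfold hgt
    omega
  · simp only [Sum.elim_inl, Sum.elim_inr]
    omega
  · exact absurd rfl hne
  · simp only [Sum.elim_inr, Sum.elim_inl]
    have h2 : p.Nm L v v' ≠ 0 := by
      intro h3
      apply hne
      simp [h3]
    have := N_lower p L h2
    omega
  · exact absurd rfl hne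
  · exact absurd rfl hne
  · simp only [Sum.elim_inl, Sum.elim_inr]
    have := v'.1.2
    unfold hgt
    omega
  · exact absurd rfl hne

theorem iso_tform (ε : ℤ) (hε : ε * ε = 1) (ψ : Matrix (Fin n) (Fin n) (MonoidAlgebra ℤ Γ))
    (h1 : ∀ i j, p.run (L + 1) (y i) (x j) = ψ i j)
    (h2 : ∀ i j, p.run (L + 1) (x i) (x j) = (1 : Matrix (Fin n) (Fin n) (MonoidAlgebra ℤ Γ)) i j) :
    Iso ε (fromBlocks ψ 0 0 (hyp Γ (Fin (L + 1) × Fin m))) (tform p x y L) := by
  obtain ⟨E, hE⟩ := unit_of_fil _ _ (E_fil p x y L ε)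
  have h3 := iso_alg ε ψ (p.Nm L) (p.Fm x L) (Kc Γ x y L) (by
    have e1 : Dm x L (MonoidAlgebra ℤ Γ) * p.Fm x L = 1 := by
      rw [DF]; ext i j; rw [← h2]; rfl
    have e2 : Dm y L (MonoidAlgebra ℤ Γ) * p.Fm x L = ψ := by
      rw [DF]; ext i j; rw [← h1]; rfl
    unfold Kc
    rw [← Matrix.mul_assoc, ← adj_mul, e1, adj_one, Matrix.one_mul, e2]) E hE
    (TT_of_fil _ _ E (by rw [hE]; exact E_fil p x y L ε))
  rw [NF] at h3
  exact h3

/-- positions of the basis vectors -/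
def tpos : Fin n ⊕ (Fin (L + 1) × Fin m ⊕ Fin (L + 1) × Fin m) → ℤ × ℤ
  | Sum.inl j => colPos x L (Sum.inl j)
  | Sum.inr (Sum.inl v) => rowPos y L (Sum.inr v)
  | Sum.inr (Sum.inr v) => colPos x L (Sum.inr v)

theorem tpos_inj (hx : Function.Injective x) (hy : Function.Injective y) :
    Function.Injective (tpos x y L) := by
  rintro (i | v | v) (j | v' | v') h
  · change colPos x L (Sum.inl i) = colPos x L (Sum.inl j) at h
    rw [Sum.inl.inj (colPos_inj x L hx h)]
  · change colPos x L (Sum.inl i) = rowPos y L (Sum.inr v') at h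
    exact absurd h.symm (pos_ne x y L _ _)
  · change colPos x L (Sum.inl i) = colPos x L (Sum.inr v') at h
    exact absurd (colPos_inj x L hx h) (by simp)
  · change rowPos y L (Sum.inr v) = colPos x L (Sum.inl j) at h
    exact absurd h (pos_ne x y L _ _)
  · change rowPos y L (Sum.inr v) = rowPos y L (Sum.inr v') at h
    rw [Sum.inr.inj (rowPos_inj y L hy h)]
  · change rowPos y L (Sum.inr v) = colPos x L (Sum.inr v') at h
    exact absurd h (pos_ne x y L _ _)
  · change colPos x L (Sum.inr v) = colPos x L (Sum.inl j) at h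
    exact absurd (colPos_inj x L hx h) (by simp)
  · change colPos x L (Sum.inr v) = rowPos y L (Sum.inr v') at h
    exact absurd h.symm (pos_ne x y L _ _)
  · change colPos x L (Sum.inr v) = colPos x L (Sum.inr v') at h
    rw [Sum.inr.inj (colPos_inj x L hx h)]

/-- the nonzero entries -/
inductive Lk : Fin n ⊕ (Fin (L + 1) × Fin m ⊕ Fin (L + 1) × Fin m) →
    Fin n ⊕ (Fin (L + 1) × Fin m ⊕ Fin (L + 1) × Fin m) → Prop
  | c1 (v : Fin (L + 1) × Fin m) (j : Fin n) (h : Cell p x y L (Sum.inr v) (Sum.inl j)) :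
      Lk (Sum.inr (Sum.inl v)) (Sum.inl j)
  | c2 (v v' : Fin (L + 1) × Fin m) (h : Cell p x y L (Sum.inr v) (Sum.inr v')) :
      Lk (Sum.inr (Sum.inl v)) (Sum.inr (Sum.inr v'))
  | c3 (v v' : Fin (L + 1) × Fin m) (h1 : (v.1 : ℕ) = L) (h2 : (v'.1 : ℕ) = L)
      (h3 : (v.2 : ℕ) % 2 = 0) (h4 : (v'.2 : ℕ) = v.2 + 1) :
      Lk (Sum.inr (Sum.inr v)) (Sum.inr (Sum.inr v'))

theorem lk_of_ne (hx : Function.Injective x) (hx2 : ∀ i, (x i : ℕ) % 2 = 0)
    (hxy : ∀ i, (y i : ℕ) = x i + 1)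
    (k l : Fin n ⊕ (Fin (L + 1) × Fin m ⊕ Fin (L + 1) × Fin m)) (h : tform p x y L k l ≠ 0) :
    Lk p x y L k l := by
  rcases k with i | v | v <;> rcases l with j | v' | v'
  · exact absurd rfl h
  · exact absurd rfl h
  · exact absurd rfl h
  · exact Lk.c1 v j (cell_of_ne p x y L _ _ h)
  · exact absurd rfl h
  · exact Lk.c2 v v' (cell_of_ne p x y L _ _ h)
  · exact absurd rfl h
  · exact absurd rfl h
  · have h2 : Kc Γ x y L v v' ≠ 0 := h
    rw [Kc_apply x y L hx] at h2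
    by_cases h3 : ∃ i, ((v.1 : ℕ) = L ∧ v.2 = x i) ∧ (v'.1 : ℕ) = L ∧ v'.2 = y i
    · obtain ⟨i, h4, h5⟩ := h3
      exact Lk.c3 v v' h4.1 h5.1 (by rw [h4.2]; exact hx2 i) (by rw [h4.2, h5.2]; exact hxy i)
    · rw [if_neg h3] at h2
      exact absurd rfl h2

theorem lk_adj (k l : Fin n ⊕ (Fin (L + 1) × Fin m ⊕ Fin (L + 1) × Fin m))
    (h : Lk p x y L k l) : TriAdj (tpos x y L k) (tpos x y L l) := by
  cases h with
  | c1 v j h => exact Or.inl (cell_adj p x y L _ _ h)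
  | c2 v v' h => exact Or.inl (cell_adj p x y L _ _ h)
  | c3 v v' h1 h2 h3 h4 =>
    right; left
    simp only [tpos, colPos]
    omega

/-- the three possible positions of the neighbours -/
theorem lk_three (k : Fin n ⊕ (Fin (L + 1) × Fin m ⊕ Fin (L + 1) × Fin m)) :
    ∃ S : Finset (ℤ × ℤ), S.card ≤ 3 ∧
    ∀ l, Lk p x y L k l ∨ Lk p x y L l k → tpos x y L l ∈ S := by
  rcases k with i | v | v
  · obtain ⟨S, hS, h2⟩ := col_three p x y L (Sum.inl i)
    refine ⟨S, hS, fun l h => ?_⟩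
    rcases h with h | h
    · cases h
    · cases h with
      | c1 v _ h => exact h2 _ h
  · obtain ⟨S, hS, h2⟩ := row_three p x y L (Sum.inr v)
    refine ⟨S, hS, fun l h => ?_⟩
    rcases h with h | h
    · cases h with
      | c1 _ j h => exact h2 _ h
      | c2 _ v' h => exact h2 _ h
    · cases h
  · by_cases hL : (v.1 : ℕ) = L
    · refine ⟨{(2 * ((v.1 : ℕ) : ℤ) + 1 + (((v.2 : ℕ) % 2 : ℕ) : ℤ), ((v.2 : ℕ) : ℤ)),
        (if (v.2 : ℕ) % 2 = 0 then (2 * (L : ℤ) + 3, ((v.2 : ℕ) : ℤ) + 1) else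
          (2 * (L : ℤ) + 2, ((v.2 : ℕ) : ℤ) - 1)),
        (2 * ((v.1 : ℕ) : ℤ) + 2 + (((v.2 : ℕ) % 2 : ℕ) : ℤ),
        ((p.d ((v.1 : ℕ) + (v.2 : ℕ) % 2) : ℕ) : ℤ))}, Finset.card_le_three, fun l h => ?_⟩
      simp only [Finset.mem_insert, Finset.mem_singleton]
      rcases h with h | h
      · cases h with
        | c3 _ v' h1 h2 h3 h4 =>
          right; left
          rw [if_pos h3]
          simp only [tpos, colPos, Prod.mk.injEq]
          omega
      · cases h with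
        | c2 v' _ h =>
          cases h with
          | self => left; rfl
          | ver _ _ h1 h2 =>
            exfalso
            have := v'.1.2
            omega
          | rung _ _ h1 h2 h3 =>
            right; right
            have hnb := p.nb v'.1
            unfold Nb at hnb
            rw [← h1, ← h2] at hnb
            have h4 : (v'.1 : ℕ) = (v.1 : ℕ) + (v.2 : ℕ) % 2 := by omega
            simp only [tpos, rowPos, Prod.mk.injEq]
            rw [← h4, ← h1]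
            omega
        | c3 v' _ h1 h2 h3 h4 =>
          right; left
          rw [if_neg (by omega)]
          simp only [tpos, colPos, Prod.mk.injEq]
          omega
    · obtain ⟨S, hS, h2⟩ := col_three p x y L (Sum.inr v)
      refine ⟨S, hS, fun l h => ?_⟩
      rcases h with h | h
      · cases h with
        | c3 _ v' h1 h3 h4 h5 => exact absurd h1 hL
      · cases h with
        | c2 v' _ h => exact h2 _ h
        | c3 v' _ h1 h3 h4 h5 => exact absurd h3 hL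

theorem triG_tform (h1 : (1 : MonoidAlgebra ℤ Γ) ∈ G) (hneg : ∀ g ∈ G, -g ∈ G)
    (hx : Function.Injective x) (hx2 : ∀ i, (x i : ℕ) % 2 = 0)
    (hxy : ∀ i, (y i : ℕ) = x i + 1) : TriG G (tform p x y L) := by
  classical
  have hy : Function.Injective y := by
    intro i j h
    apply hx
    apply Fin.ext
    have := congrArg Fin.val h
    rw [hxy, hxy] at this
    omega
  refine ⟨tpos x y L, tpos_inj x y L hx hy, fun i j h => ?_, fun i j h => ?_, fun i j => ?_,
    fun i => ?_⟩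
  · exact lk_adj p x y L i j (lk_of_ne p x y L hx hx2 hxy i j h)
  · by_contra h2
    have e1 := lk_of_ne p x y L hx hx2 hxy i j h
    have e2 := lk_of_ne p x y L hx hx2 hxy j i h2
    cases e1 with
    | c1 => cases e2
    | c2 => cases e2
    | c3 v v' a1 a2 a3 a4 =>
      cases e2 with
      | c3 _ _ b1 b2 b3 b4 => omega
  · obtain ⟨_, _, _, _, _, _, hv, _, _⟩ := gridG_B p x y L h1 hneg hx hy
    rcases i with i | v | v <;> rcases j with j | v' | v'
    · exact Or.inl rfl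
    · exact Or.inl rfl
    · exact Or.inl rfl
    · exact hv (Sum.inr v) (Sum.inl j)
    · exact Or.inl rfl
    · exact hv (Sum.inr v) (Sum.inr v')
    · exact Or.inl rfl
    · exact Or.inl rfl
    · change Kc Γ x y L v v' = 0 ∨ Kc Γ x y L v v' ∈ G
      rw [Kc_apply x y L hx]
      split_ifs
      · exact Or.inr h1
      · exact Or.inl rfl
  · obtain ⟨S, hS, hS2⟩ := lk_three p x y L i
    refine le_trans (le_trans (Set.ncard_le_ncard_of_injOn (t := (S : Set (ℤ × ℤ))) (tpos x y L)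
      (fun j hj => ?_) (tpos_inj x y L hx hy).injOn (Finset.finite_toSet S)) ?_) hS
    · exact hS2 j (hj.imp (lk_of_ne p x y L hx hx2 hxy i j) (lk_of_ne p x y L hx hx2 hxy j i))
    · rw [Set.ncard_coe_finset]

end mats

/-- every quadratic form, stabilised by hyperbolic planes, is simply isometric to a form on the
triangular lattice -/
theorem tri_form {G : Set (MonoidAlgebra ℤ Γ)} (h1 : (1 : MonoidAlgebra ℤ Γ) ∈ G)
    (hneg : ∀ g ∈ G, -g ∈ G) (hG : GenBy G) (ε : ℤ) (hε : ε * ε = 1) {n : ℕ}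
    (ψ : Matrix (Fin n) (Fin n) (MonoidAlgebra ℤ Γ)) :
    ∃ (ν : Type) (_ : Fintype ν) (_ : DecidableEq ν)
      (φ : Matrix (Fin n ⊕ (ν ⊕ ν)) (Fin n ⊕ (ν ⊕ ν)) (MonoidAlgebra ℤ Γ)),
      TriG G φ ∧ Iso ε (fromBlocks ψ 0 0 (hyp Γ ν)) φ := by
  classical
  let m := n + n + 3
  let x : Fin n → Fin m := fun j => ⟨2 * (j : ℕ), by have := j.2; omega⟩
  let y : Fin n → Fin m := fun i => ⟨2 * (i : ℕ) + 1, by have := i.2; omega⟩
  have hx : Function.Injective x := fun i j h => Fin.ext (by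
    have := congrArg Fin.val h; simp only [x] at this; omega)
  let Z : Matrix (Fin m) (Fin m) (MonoidAlgebra ℤ Γ) := fun k l =>
    if h : ((k : ℕ) % 2 = 1 ∧ (k : ℕ) < n + n) ∧ ((l : ℕ) % 2 = 0 ∧ (l : ℕ) < n + n) then
      ψ ⟨(k : ℕ) / 2, by omega⟩ ⟨(l : ℕ) / 2, by omega⟩ else 0
  have hZ : 1 + Z ∈ El (R := MonoidAlgebra ℤ Γ) (Fin m) := by
    apply el_unip (Finset.univ.filter fun k : Fin m => (k : ℕ) % 2 = 1)
    intro k l h
    by_cases hh : ((k : ℕ) % 2 = 1 ∧ (k : ℕ) < n + n) ∧ ((l : ℕ) % 2 = 0 ∧ (l : ℕ) < n + n)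
    · simp only [Finset.mem_filter, Finset.mem_univ, true_and]
      omega
    · exact absurd (dif_neg hh) h
  have hZ1 : ∀ i j, (1 + Z) (y i) (x j) = ψ i j := by
    intro i j
    have e1 : (1 : Matrix (Fin m) (Fin m) (MonoidAlgebra ℤ Γ)) (y i) (x j) = 0 := by
      apply Matrix.one_apply_ne
      intro h
      have := congrArg Fin.val h
      simp only [x, y] at this
      omega
    rw [Matrix.add_apply, e1, zero_add]
    have h : (((y i : Fin m) : ℕ) % 2 = 1 ∧ ((y i : Fin m) : ℕ) < n + n) ∧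
        (((x j : Fin m) : ℕ) % 2 = 0 ∧ ((x j : Fin m) : ℕ) < n + n) := by
      simp only [x, y]
      have := i.2
      have := j.2
      omega
    refine (dif_pos h).trans ?_
    congr 1
    · apply Fin.ext; simp only [y]; omega
    · apply Fin.ext; simp only [x]; omega
  have hZ2 : ∀ i j, (1 + Z) (x i) (x j) = (1 : Matrix (Fin n) (Fin n) (MonoidAlgebra ℤ Γ)) i j := by
    intro i j
    have e1 : Z (x i) (x j) = 0 := by
      apply dif_neg
      simp only [x]
      omega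
    rw [Matrix.add_apply, e1, add_zero]
    by_cases hij : i = j
    · rw [hij, Matrix.one_apply_eq, Matrix.one_apply_eq]
    · rw [Matrix.one_apply_ne hij, Matrix.one_apply_ne (fun h => hij (hx h))]
  obtain ⟨L, p, hp⟩ := exists_prog (G := G) (by omega) (1 + Z)
    (El_le h1 hneg hG (by omega) (1 + Z) hZ)
  refine ⟨Fin (L + 1) × Fin m, inferInstance, inferInstance, tform p x y L, ?_, ?_⟩
  · exact triG_tform p x y L h1 hneg hx (fun i => by simp only [x]; omega)
      (fun i => by simp only [x, y])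
  · exact iso_tform p x y L ε hε ψ (fun i j => by rw [hp, hZ1]) (fun i j => by rw [hp, hZ2])

section two

variable {κ : Type} [Fintype κ] [DecidableEq κ]

/-- the graph of a form -/
def gr (φ : Matrix κ κ (MonoidAlgebra ℤ Γ)) (h0 : ∀ i j, φ i j ≠ 0 → φ j i = 0) :
    SimpleGraph κ where
  Adj i j := φ i j ≠ 0 ∨ φ j i ≠ 0
  symm := ⟨fun _ _ h => h.symm⟩
  loopless := ⟨fun i h => h.elim (fun h => h (h0 i i h)) (fun h => h (h0 i i h))⟩

theorem lam_cases (ε : ℤ) (hε : ε * ε = 1) (φ : Matrix κ κ (MonoidAlgebra ℤ Γ))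
    (h0 : ∀ i j, φ i j ≠ 0 → φ j i = 0) (hm : ∀ i j, φ i j = 0 ∨ Mono (φ i j)) (i j : κ) :
    (lam ε φ i j = 0 ∧ ¬ (gr φ h0).Adj i j) ∨ (Mono (lam ε φ i j) ∧ (gr φ h0).Adj i j) := by
  have hs : ∀ x : MonoidAlgebra ℤ Γ, Mono x → Mono (ε • x) := by
    rintro x ⟨g, hg⟩
    have : ε = 1 ∨ ε = -1 := by
      rcases Int.isUnit_iff.1 (IsUnit.of_mul_eq_one _ hε) with h | h <;> simp [h]
    refine ⟨g, ?_⟩
    rcases this with rfl | rfl
    · rwa [one_smul]
    · rw [neg_smul, one_smul]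
      rcases hg with rfl | rfl
      · right; rw [MonoidAlgebra.single_neg]
      · left; rw [← MonoidAlgebra.single_neg]; norm_num
  rw [lam_apply]
  by_cases h1 : φ i j = 0
  · by_cases h2 : φ j i = 0
    · left
      refine ⟨by rw [h1, h2, (bar_zero_iff 0).2 rfl, smul_zero, add_zero], ?_⟩
      rintro (h | h)
      · exact h h1
      · exact h h2
    · right
      refine ⟨?_, Or.inr h2⟩
      rw [h1, zero_add]
      exact hs _ (adj_mono ((hm j i).resolve_left h2))
  · right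
    refine ⟨?_, Or.inl h1⟩
    rw [h0 i j h1, (bar_zero_iff 0).2 rfl, smul_zero, add_zero]
    exact (hm i j).resolve_left h1

theorem mono_ne {x : MonoidAlgebra ℤ Γ} (h : Mono x) : x ≠ 0 := by
  intro h2
  have := l1_mono h
  rw [h2, (l1_zero_iff (0 : MonoidAlgebra ℤ Γ)).2 rfl] at this
  exact zero_ne_one this

theorem gr_acyclic (ε : ℤ) (hε : ε * ε = 1) (φ : Matrix κ κ (MonoidAlgebra ℤ Γ))
    (hu : IsUnit (lam ε φ)) (h0 : ∀ i j, φ i j ≠ 0 → φ j i = 0)
    (hm : ∀ i j, φ i j = 0 ∨ Mono (φ i j))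
    (h2 : ∀ i, {j | φ i j ≠ 0 ∨ φ j i ≠ 0}.ncard ≤ 2) : (gr φ h0).IsAcyclic := by
  classical
  intro v c hc
  let O : Set κ := {w | w ∈ c.support}
  have hO : ∀ w ∈ O, (gr φ h0).neighborSet w = c.toSubgraph.neighborSet w := by
    intro w hw
    symm
    refine Set.eq_of_subset_of_ncard_le (c.toSubgraph.neighborSet_subset w) ?_ (Set.toFinite _)
    rw [hc.ncard_neighborSet_toSubgraph_eq_two hw]
    exact h2 w
  have hO2 : ∀ w ∈ O, ∀ j, (gr φ h0).Adj w j → j ∈ O := by
    intro w hw j hj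
    have : j ∈ c.toSubgraph.neighborSet w := by rw [← hO w hw]; exact hj
    have h3 : j ∈ c.toSubgraph.verts := SimpleGraph.Subgraph.Adj.snd_mem this
    rwa [SimpleGraph.Walk.mem_verts_toSubgraph] at h3
  let f : MonoidAlgebra ℤ Γ →+* ZMod 2 := (Int.castRingHom (ZMod 2)).comp augZ
  let u : κ → ZMod 2 := fun j => if j ∈ O then 1 else 0
  have hf : ∀ x : MonoidAlgebra ℤ Γ, Mono x → f x = 1 := by
    rintro x ⟨g, rfl | rfl⟩
    · change (Int.castRingHom (ZMod 2)) (augZ (MonoidAlgebra.single g 1)) = 1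
      have : augZ (MonoidAlgebra.single g 1 : MonoidAlgebra ℤ Γ) = 1 := by simp [augZ]
      rw [this]; simp
    · change (Int.castRingHom (ZMod 2)) (augZ (MonoidAlgebra.single g (-1))) = 1
      have : augZ (MonoidAlgebra.single g (-1) : MonoidAlgebra ℤ Γ) = -1 := by simp [augZ]
      rw [this]; decide
  have key : f.mapMatrix (lam ε φ) *ᵥ u = 0 := by
    funext i
    have e1 : (f.mapMatrix (lam ε φ) *ᵥ u) i
        = ∑ j, if (gr φ h0).Adj i j ∧ j ∈ O then (1 : ZMod 2) else 0 := by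
      rw [Matrix.mulVec, dotProduct]
      refine Finset.sum_congr rfl fun j _ => ?_
      change f (lam ε φ i j) * u j = _
      rcases lam_cases ε hε φ h0 hm i j with ⟨h3, h4⟩ | ⟨h3, h4⟩
      · rw [h3, map_zero, zero_mul, if_neg (by tauto)]
      · rw [hf _ h3, one_mul]
        simp only [u, h4, true_and]
    rw [e1]
    change _ = (0 : ZMod 2)
    by_cases hi : i ∈ O
    · have e2 : ∀ j, ((gr φ h0).Adj i j ∧ j ∈ O) ↔ j ∈ c.toSubgraph.neighborSet i := by
        intro j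
        rw [← hO i hi]
        exact ⟨fun h => h.1, fun h => ⟨h, hO2 i hi j h⟩⟩
      simp only [e2]
      rw [← Finset.sum_filter, Finset.sum_const, nsmul_one]
      have e3 := hc.ncard_neighborSet_toSubgraph_eq_two hi
      rw [Set.ncard_eq_toFinset_card'] at e3
      have e4 : (Finset.univ.filter fun j => j ∈ c.toSubgraph.neighborSet i)
          = (c.toSubgraph.neighborSet i).toFinset := by ext j; simp
      rw [e4, e3]
      decide
    · refine Finset.sum_eq_zero fun j _ => ?_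
      rw [if_neg]
      rintro ⟨h3, h4⟩
      exact hi (hO2 j h4 i h3.symm)
  obtain ⟨M, hM⟩ := hu
  have h3 : f.mapMatrix M⁻¹.val * f.mapMatrix (lam ε φ) = 1 := by
    rw [← map_mul, ← hM, M.inv_mul, map_one]
  have h4 : u = 0 := by
    rw [← Matrix.one_mulVec u, ← h3, ← Matrix.mulVec_mulVec, key, Matrix.mulVec_zero]
  have h5 := congrFun h4 v
  simp only [u, O, Set.mem_ofPred_eq, SimpleGraph.Walk.start_mem_support, if_true,
    Pi.zero_apply] at h5
  exact one_ne_zero h5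

/-- at most two neighbours for each basis vector: hyperbolic -/
theorem two_hyp (ε : ℤ) (hε : ε * ε = 1) (φ : Matrix κ κ (MonoidAlgebra ℤ Γ))
    (hu : IsUnit (lam ε φ)) (h0 : ∀ i j, φ i j ≠ 0 → φ j i = 0)
    (hm : ∀ i j, φ i j = 0 ∨ Mono (φ i j))
    (h2 : ∀ i, {j | φ i j ≠ 0 ∨ φ j i ≠ 0}.ncard ≤ 2) :
    ∃ (μ : Type) (_ : Fintype μ) (_ : DecidableEq μ) (e : μ ⊕ μ ≃ κ),
      Iso ε (φ.submatrix e e) (hyp Γ μ) := by
  classical
  let C := (gr_acyclic ε hε φ hu h0 hm h2).coloringTwo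
  have hC : ∀ i j, (gr φ h0).Adj i j → C i ≠ C j := fun i j h => C.valid h
  obtain ⟨Λ, hΛ⟩ := id hu
  obtain ⟨σ, hσ⟩ := exists_transversal Λ
  have hσ2 : ∀ i, (gr φ h0).Adj i (σ i) := by
    intro i
    rcases lam_cases ε hε φ h0 hm i (σ i) with ⟨h3, h4⟩ | ⟨h3, h4⟩
    · exact absurd h3 (by rw [← hΛ]; exact hσ i)
    · exact h4
  let f01 : {i // C i = 0} → {i // ¬ C i = 0} := fun i => ⟨σ i, fun h => by
    have := hC _ _ (hσ2 i)
    rw [i.2, h] at this
    exact this rfl⟩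
  let f10 : {i // ¬ C i = 0} → {i // C i = 0} := fun i => ⟨σ i, by
    have := hC _ _ (hσ2 i)
    have h3 := i.2
    omega⟩
  have hf01 : Function.Injective f01 := fun i j h =>
    Subtype.ext (σ.injective (congrArg Subtype.val h))
  have hf10 : Function.Injective f10 := fun i j h =>
    Subtype.ext (σ.injective (congrArg Subtype.val h))
  have hbij : Function.Bijective f01 := by
    rw [Fintype.bijective_iff_injective_and_card]
    exact ⟨hf01, le_antisymm (Fintype.card_le_of_injective _ hf01)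
      (Fintype.card_le_of_injective _ hf10)⟩
  let e1 : {i // C i = 0} ≃ {i // ¬ C i = 0} := Equiv.ofBijective f01 hbij
  let e : {i // C i = 0} ⊕ {i // C i = 0} ≃ κ :=
    (Equiv.sumCongr (Equiv.refl _) e1).trans (Equiv.sumCompl (fun i => C i = 0))
  let X : Matrix {i // C i = 0} {i // C i = 0} (MonoidAlgebra ℤ Γ) :=
    Matrix.of fun i j => φ i (e1 j)
  let Y : Matrix {i // C i = 0} {i // C i = 0} (MonoidAlgebra ℤ Γ) :=
    Matrix.of fun i j => φ (e1 i) j
  have hφ : φ.submatrix e e = fromBlocks 0 X Y 0 := by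
    ext1 i j
    rcases i with i | i <;> rcases j with j | j
    · change φ i j = 0
      by_contra h
      have := hC _ _ (show (gr φ h0).Adj i j from Or.inl h)
      rw [i.2, j.2] at this
      exact this rfl
    · rfl
    · rfl
    · change φ (e1 i) (e1 j) = 0
      by_contra h
      have h3 := hC _ _ (show (gr φ h0).Adj (e1 i) (e1 j) from Or.inl h)
      have h4 := (e1 i).2
      have h5 := (e1 j).2
      omega
  have hl : (lam ε φ).submatrix e e = fromBlocks 0 (X + ε • adj Y) (Y + ε • adj X) 0 := by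
    have h3 : (lam ε φ).submatrix e e = lam ε (φ.submatrix e e) := rfl
    rw [h3, hφ]
    unfold lam
    rw [adj_fromBlocks, fromBlocks_smul, fromBlocks_add]
    simp only [adj_zero, smul_zero, add_zero, zero_add]
  have hl2 : (lam ε φ).submatrix e e * (Λ⁻¹.val).submatrix e e = 1 := by
    rw [Matrix.submatrix_mul_equiv, ← hΛ, Λ.mul_inv, Matrix.submatrix_one_equiv]
  have hl3 : (Λ⁻¹.val).submatrix e e * (lam ε φ).submatrix e e = 1 := by
    rw [Matrix.submatrix_mul_equiv, ← hΛ, Λ.inv_mul, Matrix.submatrix_one_equiv]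
  rw [hl] at hl2 hl3
  set M := (Λ⁻¹.val).submatrix e e with hM
  rw [← fromBlocks_toBlocks M, fromBlocks_multiply, ← fromBlocks_one, fromBlocks_inj] at hl2 hl3
  let A : (Matrix {i // C i = 0} {i // C i = 0} (MonoidAlgebra ℤ Γ))ˣ :=
    ⟨X + ε • adj Y, M.toBlocks₂₁, by
      have := hl2.1
      rwa [Matrix.zero_mul, zero_add] at this, by
      have := hl3.2.2.2
      rwa [Matrix.mul_zero, add_zero] at this⟩
  have hA1 : ∀ i j, A.val i j = lam ε φ i (e1 j) := by
    intro i j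
    have h3 := congrFun (congrFun hl (Sum.inl i)) (Sum.inr j)
    exact h3.symm
  have hA : TT (TU Γ) A := by
    apply TT_two
    · intro i
      refine le_trans ?_ (h2 i)
      refine Set.ncard_le_ncard_of_injOn (fun j => ((e1 j : κ))) (fun j hj => ?_) ?_ (Set.toFinite _)
      · rcases lam_cases ε hε φ h0 hm i (e1 j) with ⟨h3, h4⟩ | ⟨h3, h4⟩
        · exact absurd (by rw [hA1]; exact h3) hj
        · exact h4
      · intro j _ k _ hjk
        exact e1.injective (Subtype.ext hjk)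
    · intro i j
      rw [hA1]
      rcases lam_cases ε hε φ h0 hm i (e1 j) with ⟨h3, h4⟩ | ⟨h3, h4⟩
      · exact Or.inl h3
      · exact Or.inr h3
  obtain ⟨E, hE1, hE2⟩ := TT_blocks (TU Γ) A⁻¹
    (1 : (Matrix {i // C i = 0} {i // C i = 0} (MonoidAlgebra ℤ Γ))ˣ) (TT_inv _ _ hA) (TT_one _)
  refine ⟨{i // C i = 0}, inferInstance, inferInstance, e, ?_⟩
  rw [hφ]
  have i1 : Iso ε (fromBlocks 0 X Y 0) (fromBlocks 0 A.val 0 0) := by
    refine ⟨1, fromBlocks 0 0 Y 0, TT_one _, ?_⟩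
    rw [Units.val_one, adj_one, Matrix.one_mul, Matrix.mul_one, adj_fromBlocks, fromBlocks_smul,
      fb_sub, fromBlocks_add]
    change _ = fromBlocks _ (X + ε • adj Y + _) _ _
    simp only [adj_zero, smul_zero, add_zero, zero_add, sub_zero, zero_sub, sub_self]
    congr 1
    abel
  have i2 : Iso ε (fromBlocks 0 A.val 0 0) (hyp Γ {i // C i = 0}) := by
    refine ⟨E, 0, hE2, ?_⟩
    rw [hE1, adj_zero, smul_zero, sub_zero, add_zero, adj_fromBlocks, fromBlocks_multiply,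
      fromBlocks_multiply]
    unfold hyp
    simp only [adj_zero, adj_one, Matrix.mul_zero, Matrix.zero_mul, add_zero, zero_add,
      Units.val_one, Matrix.one_mul, Matrix.mul_one, A.inv_mul]
  exact i1.trans i2

theorem iso_unit {ε : ℤ} (hε : ε * ε = 1) {ψ ψ' : Matrix κ κ (MonoidAlgebra ℤ Γ)}
    (h : Iso ε ψ ψ') (hu : IsUnit (lam ε ψ)) : IsUnit (lam ε ψ') := by
  obtain ⟨E, χ, _, h1⟩ := h
  have e1 : lam ε ψ' = E.val * lam ε ψ * adj E.val := by
    rw [← lam_conj, h1]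
    unfold lam
    rw [adj_add, adj_sub, adj_zsmul, adj_adj, smul_add, smul_sub, smul_smul, hε, one_smul]
    abel
  rw [e1]
  exact (E.isUnit.mul hu).mul (adx E).isUnit

theorem unit_stab {n ν : Type} [Fintype n] [DecidableEq n] [Fintype ν] [DecidableEq ν] {ε : ℤ}
    (hε : ε * ε = 1) {ψ : Matrix n n (MonoidAlgebra ℤ Γ)} (hu : IsUnit (lam ε ψ)) :
    IsUnit (lam ε (fromBlocks ψ 0 0 (hyp Γ ν))) := by
  obtain ⟨L, hL⟩ := hu
  have e1 : lam ε (fromBlocks ψ 0 0 (hyp Γ ν)) = fromBlocks (lam ε ψ) 0 0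
      (fromBlocks 0 1 (ε • 1) 0) := by
    unfold lam hyp
    rw [adj_fromBlocks, adj_fromBlocks, fromBlocks_smul, fromBlocks_smul, fromBlocks_add,
      fromBlocks_add]
    simp only [adj_zero, adj_one, smul_zero, add_zero, zero_add]
  rw [e1, ← hL]
  have h1 : ε • (1 : Matrix ν ν (MonoidAlgebra ℤ Γ)) * ε • 1 = 1 := by
    rw [Matrix.smul_mul, Matrix.one_mul, smul_smul, hε, one_smul]
  refine ⟨⟨fromBlocks L.val 0 0 (fromBlocks 0 1 (ε • 1) 0),
    fromBlocks L⁻¹.val 0 0 (fromBlocks 0 (ε • 1) 1 0), ?_, ?_⟩, rfl⟩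
  · rw [fromBlocks_multiply, fromBlocks_multiply]
    simp only [Matrix.mul_zero, Matrix.zero_mul, add_zero, zero_add, L.mul_inv, Matrix.mul_one, h1,
      fromBlocks_one]
  · rw [fromBlocks_multiply, fromBlocks_multiply]
    simp only [Matrix.mul_zero, Matrix.zero_mul, add_zero, zero_add, L.inv_mul, Matrix.mul_one, h1,
      fromBlocks_one]

end two

end Pool.Agent.R472.Grid
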