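import Pool.Agent.R472.GridMat
import Pool.Agent.R719.DD.Elim
import Pool.Agent.TH6.CX.Fin
import Pool.Agent.Y75.Th.Init
import Pool.Agent.Y75.Th.Piv

set_option autoImplicit false
set_option linter.unusedSectionVars false

/-! Invertible matrices over integral group rings with at most two nonzero entries, each of the form
`± g`, in each row: zero in the Whitehead group. The dictionary between `TT` and explicit
statements, and the lemma on rows dominated by one coefficient, are those of helper719. -/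

namespace Pool.Agent.R472.Grid

open Matrix TH57.Thr TH6.LF TH6.CX Pool.Agent.Y75.Th Pool.Agent.Y35.KC.TTm Pool.Agent.R719.DD

variable {Γ : Type} [Group Γ] {κ : Type} [Fintype κ] [DecidableEq κ]

theorem HH_bot : HH (⊥ : Subgroup (MonoidAlgebra ℤ Γ)ˣ) κ = commutator _ := by
  refine le_antisymm (sup_le le_rfl ?_) (commutator_le_HH _)
  rw [Subgroup.closure_le]
  rintro _ ⟨i, u, hu, rfl⟩
  rw [Subgroup.mem_bot.1 hu, map_one]
  exact one_mem _

/-- the adjoint as a unit -/
noncomputable def adx (A : (Matrix κ κ (MonoidAlgebra ℤ Γ))ˣ) :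
    (Matrix κ κ (MonoidAlgebra ℤ Γ))ˣ :=
  ⟨adj A.val, adj A⁻¹.val, by rw [← adj_mul, A.inv_mul, adj_one],
    by rw [← adj_mul, A.mul_inv, adj_one]⟩

theorem adU_adx (A : (Matrix κ κ (MonoidAlgebra ℤ Γ))ˣ) : adU κ (adx A)⁻¹ = A := by
  apply Units.ext
  rw [adU_val, inv_inv]
  exact adj_adj _

/-- rows dominated by one coefficient -/
theorem TT_mono (A : (Matrix κ κ (MonoidAlgebra ℤ Γ))ˣ) (σ : κ ≃ κ)
    (h : ∀ i, ∃ g : Γ, (∑ j, (l1 (A.val i j) : ℤ)) ≤ 2 * |(A.val i (σ i)).coeff g|) :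
    TT (TU Γ) A := by
  classical
  choose g hg using h
  have hs : ∀ i, ∃ ε : ℤ, ε * ε = 1 ∧ ε * (A.val i (σ i)).coeff (g i)
      = |(A.val i (σ i)).coeff (g i)| := by
    intro i
    rcases abs_choice ((A.val i (σ i)).coeff (g i)) with h1 | h1
    · exact ⟨1, by norm_num, by rw [h1, one_mul]⟩
    · exact ⟨-1, by norm_num, by rw [h1]; ring⟩
  choose ε hε1 hε2 using hs
  let D := dgs (fun i => (g i)⁻¹) ε hε1
  let P := pu (R := MonoidAlgebra ℤ Γ) σ.symm
  have hP : ∀ (X : Matrix κ κ (MonoidAlgebra ℤ Γ)) i j, (X * P.val) i j = X i (σ j) := by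
    intro X i j
    rw [Matrix.mul_apply, Finset.sum_eq_single (σ j)]
    · change X i (σ j) * (1 : Matrix κ κ (MonoidAlgebra ℤ Γ)) (σ.symm (σ j)) j = _
      rw [Equiv.symm_apply_apply, Matrix.one_apply_eq, mul_one]
    · intro k _ hk
      change X i k * (1 : Matrix κ κ (MonoidAlgebra ℤ Γ)) (σ.symm k) j = _
      rw [Matrix.one_apply_ne, mul_zero]
      intro h1
      exact hk (by rw [← h1, Equiv.apply_symm_apply])
    · simp
  have hD : ∀ i j, (D * A * P).val i j
      = MonoidAlgebra.single (g i)⁻¹ (ε i) * A.val i (σ j) := by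
    intro i j
    rw [Units.val_mul, hP, Units.val_mul]
    change (Matrix.diagonal (fun i => MonoidAlgebra.single (g i)⁻¹ (ε i)) * A.val) i (σ j) = _
    rw [Matrix.diagonal_mul]
  have h1 : DDom (D * A * P).val := by
    intro i
    have e1 : ((D * A * P).val i i).coeff 1 = |(A.val i (σ i)).coeff (g i)| := by
      rw [hD, MonoidAlgebra.coeff_single_mul_apply, ← hε2]
      simp
    rw [e1]
    refine le_trans ?_ (hg i)
    rw [← Equiv.sum_comp σ (fun j => (l1 (A.val i j) : ℤ))]
    refine Finset.sum_le_sum fun j _ => ?_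
    rw [hD]
    have e2 := l1_single_mul (g i)⁻¹ (ε i) (A.val i (σ j))
    have e3 : (ε i).natAbs = 1 := by
      have := congrArg Int.natAbs (hε1 i)
      rw [Int.natAbs_mul] at this
      exact Nat.eq_one_of_mul_eq_one_left this
    rw [e3, one_mul] at e2
    exact_mod_cast e2
  have h2 := TT_rowdom (TU Γ) _ κ rfl (D * A * P) h1
  have h3 : A = D⁻¹ * (D * A * P) * P⁻¹ := by group
  rw [h3]
  exact TT_mul _ _ _ (TT_mul _ _ _ (TT_inv _ _ (TT_of_mem _ _ (dgs_mem _ _ _))) h2)
    (TT_inv _ _ (TT_pu _))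

/-- an invertible matrix has a transversal of nonzero entries -/
theorem exists_transversal (A : (Matrix κ κ (MonoidAlgebra ℤ Γ))ˣ) :
    ∃ σ : κ ≃ κ, ∀ i, A.val i (σ i) ≠ 0 := by
  let φ : MonoidAlgebra ℤ Γ →+* ℤ := augZ
  have h1 : φ.mapMatrix A.val * φ.mapMatrix A⁻¹.val = 1 := by
    rw [← map_mul, A.mul_inv, map_one]
  have h2 : (φ.mapMatrix A.val).det ≠ 0 := by
    intro h
    have := congrArg Matrix.det h1
    rw [Matrix.det_mul, h, zero_mul, Matrix.det_one] at this
    exact zero_ne_one this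
  rw [← Matrix.det_transpose, Matrix.det_apply] at h2
  obtain ⟨σ, _, hσ⟩ := Finset.exists_ne_zero_of_sum_ne_zero h2
  refine ⟨σ, fun i h => hσ ?_⟩
  rw [Finset.prod_eq_zero (Finset.mem_univ i), smul_zero]
  change φ (A.val i (σ i)) = 0
  rw [h, map_zero]

/-- `± g` -/
def Mono (x : MonoidAlgebra ℤ Γ) : Prop :=
  ∃ g : Γ, x = MonoidAlgebra.single g 1 ∨ x = MonoidAlgebra.single g (-1)

theorem l1_mono {x : MonoidAlgebra ℤ Γ} (h : Mono x) : l1 x = 1 := by
  obtain ⟨g, rfl | rfl⟩ := h <;> rw [l1_single] <;> rfl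

/-- at most two nonzero entries in each row, all nonzero entries `± g` -/
theorem TT_two (A : (Matrix κ κ (MonoidAlgebra ℤ Γ))ˣ)
    (h : ∀ i, {j | A.val i j ≠ 0}.ncard ≤ 2) (h2 : ∀ i j, A.val i j = 0 ∨ Mono (A.val i j)) :
    TT (TU Γ) A := by
  classical
  obtain ⟨σ, hσ⟩ := exists_transversal A
  refine TT_mono A σ fun i => ?_
  have h3 : Mono (A.val i (σ i)) := (h2 i (σ i)).resolve_left (hσ i)
  obtain ⟨g, hg⟩ := h3
  refine ⟨g, ?_⟩
  have e1 : |(A.val i (σ i)).coeff g| = 1 := by
    rcases hg with hg | hg <;> rw [hg] <;> simp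
  rw [e1]
  have e2 : ∀ j, (l1 (A.val i j) : ℤ) = if A.val i j ≠ 0 then 1 else 0 := by
    intro j
    split_ifs with h4
    · rw [l1_mono ((h2 i j).resolve_left h4)]; rfl
    · push Not at h4
      rw [h4, (l1_zero_iff (0 : MonoidAlgebra ℤ Γ)).2 rfl]; rfl
  rw [Finset.sum_congr rfl fun j _ => e2 j, ← Finset.sum_filter, Finset.sum_const, nsmul_one]
  have h5 := h i
  rw [Set.ncard_eq_toFinset_card'] at h5
  have h6 : (Finset.univ.filter fun j => A.val i j ≠ 0) = {j | A.val i j ≠ 0}.toFinset := by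
    ext j; simp
  rw [h6]
  push_cast
  omega

theorem adj_mono {x : MonoidAlgebra ℤ Γ} (h : Mono x) : Mono (bar x) := by
  obtain ⟨g, h⟩ := h
  refine ⟨g⁻¹, ?_⟩
  have e : ∀ z : ℤ, bar (MonoidAlgebra.single g z : MonoidAlgebra ℤ Γ)
      = MonoidAlgebra.single g⁻¹ z := by
    intro z
    classical
    ext k
    rw [coeff_bar, MonoidAlgebra.coeff_single, MonoidAlgebra.coeff_single, Finsupp.single_apply,
      Finsupp.single_apply]
    by_cases hk : g⁻¹ = k
    · rw [if_pos hk, if_pos (by rw [← hk, inv_inv])]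
    · rw [if_neg hk, if_neg]
      intro h3
      apply hk
      rw [h3, inv_inv]
  rcases h with rfl | rfl
  · exact Or.inl (e 1)
  · exact Or.inr (e (-1))

theorem bar_zero_iff (x : MonoidAlgebra ℤ Γ) : bar x = 0 ↔ x = 0 := by
  constructor
  · intro h
    ext g
    have := congrArg (fun y : MonoidAlgebra ℤ Γ => y.coeff g⁻¹) h
    simp only [coeff_bar, inv_inv] at this
    simpa using this
  · rintro rfl
    ext g
    rw [coeff_bar]; simp

/-- at most two nonzero entries in each column, all nonzero entries `± g` -/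
theorem TT_two_col (A : (Matrix κ κ (MonoidAlgebra ℤ Γ))ˣ)
    (h : ∀ j, {i | A.val i j ≠ 0}.ncard ≤ 2) (h2 : ∀ i j, A.val i j = 0 ∨ Mono (A.val i j)) :
    TT (TU Γ) A := by
  have h1 : TT (TU Γ) (adx A) := by
    apply TT_two
    · intro j
      have : {i | (adx A).val j i ≠ 0} = {i | A.val i j ≠ 0} := by
        ext i
        change bar (A.val i j) ≠ 0 ↔ A.val i j ≠ 0
        rw [ne_eq, bar_zero_iff]
      rw [this]
      exact h j
    · intro j i
      change bar (A.val i j) = 0 ∨ Mono (bar (A.val i j))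
      rcases h2 i j with h3 | h3
      · left; rw [bar_zero_iff]; exact h3
      · right; exact adj_mono h3
  have h3 := TT_adU _ (TT_inv _ _ h1)
  rwa [adU_adx] at h3

/-- the group ring is generated by the elements `± s`, `s` in a generating set -/
theorem genBy (S : Set Γ) (hS : Subgroup.closure S = ⊤) :
    GenBy {x : MonoidAlgebra ℤ Γ | ∃ s : Γ, (s = 1 ∨ s ∈ S ∨ s⁻¹ ∈ S) ∧
      (x = MonoidAlgebra.single s 1 ∨ x = MonoidAlgebra.single s (-1))} := by
  classical
  intro P h0 h1 hadd hneg hmul r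
  let H : AddSubgroup (MonoidAlgebra ℤ Γ) :=
    { carrier := {x | P x}, zero_mem' := h0, add_mem' := fun ha hb => hadd _ _ ha hb
      neg_mem' := fun ha => hneg _ ha }
  have hg : ∀ g : Γ, P (MonoidAlgebra.single g 1) := by
    intro g
    have hmem : g ∈ Subgroup.closure S := by rw [hS]; trivial
    induction hmem using Subgroup.closure_induction_right with
    | one => rw [← MonoidAlgebra.one_def]; exact h1
    | mul_right x hx y hy ih =>
      have := hmul _ (MonoidAlgebra.single y 1) ⟨y, Or.inr (Or.inl hy), Or.inl rfl⟩ ih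
      rwa [MonoidAlgebra.single_mul_single, mul_one] at this
    | mul_inv_cancel x hx y hy ih =>
      have := hmul _ (MonoidAlgebra.single y⁻¹ 1)
        ⟨y⁻¹, Or.inr (Or.inr (by rw [inv_inv]; exact hy)), Or.inl rfl⟩ ih
      rwa [MonoidAlgebra.single_mul_single, mul_one] at this
  have hz : ∀ (g : Γ) (z : ℤ), MonoidAlgebra.single g z ∈ H := by
    intro g z
    have h2 : (MonoidAlgebra.single g z : MonoidAlgebra ℤ Γ)
        = z • (MonoidAlgebra.single g 1 : MonoidAlgebra ℤ Γ) := by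
      rw [MonoidAlgebra.smul_single]; simp
    rw [h2]
    exact H.zsmul_mem (hg g) z
  have h2 : r = ∑ g ∈ r.coeff.support, MonoidAlgebra.single g (r.coeff g) := by
    ext h
    rw [MonoidAlgebra.coeff_sum, Finsupp.finsetSum_apply]
    simp only [MonoidAlgebra.coeff_single]
    rw [Finset.sum_congr rfl fun g _ => Finsupp.single_apply, Finset.sum_ite_eq']
    split_ifs with h3
    · rfl
    · exact Finsupp.notMem_support_iff.1 h3
  have h3 : r ∈ H := by
    rw [h2]
    exact sum_mem fun g _ => hz g _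
  exact h3

end Pool.Agent.R472.Grid
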