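import Pool.Agent.R472.SortedGroup

/-!
# Existence of a sorted optimum on `range n` (MP_e22fa6_co)
-/

namespace Pool.Agent.R472.SortedCore

open Finset

/-- `C` is convex with respect to the values -/
def SortedSet {α : Type*} (v : α → ℝ) (U C : Finset α) : Prop :=
  ∀ i ∈ C, ∀ j ∈ C, ∀ k ∈ U, v i ≤ v k → v k ≤ v j → k ∈ C

theorem K_symm {α : Type*} [DecidableEq α] (v : α → ℝ) {U C : Finset α} (hC : C ⊆ U) :
    K v U (U \ C) = K v U C := by
  rw [K, K, Finset.sdiff_sdiff_eq_self hC, add_comm]

theorem KC_eq (v : ℕ → ℝ) (n : ℕ) (c : ℕ → Bool) : KC v n c = K v (range n) (S c n true) := by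
  have : S c n false = range n \ S c n true := by
    ext i
    simp only [S, Finset.mem_filter, Finset.mem_range, Finset.mem_sdiff]
    constructor
    · rintro ⟨h1, h2⟩; exact ⟨h1, fun h => by rw [h2] at h; exact absurd h.2 (by simp)⟩
    · rintro ⟨h1, h2⟩
      refine ⟨h1, ?_⟩
      by_contra h3
      exact h2 ⟨h1, by simpa using h3⟩
  rw [KC, this, K]

theorem S_decide {n : ℕ} {C : Finset ℕ} (hC : C ⊆ range n) :
    S (fun i => decide (i ∈ C)) n true = C := by
  ext i
  simp only [S, Finset.mem_filter, decide_eq_true_eq]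
  exact ⟨fun h => h.2, fun h => ⟨hC h, h⟩⟩

theorem S_cs {n s : ℕ} (hs : s ≤ n) : S (cs s) n true = range s := by
  ext i
  simp only [S, cs, Finset.mem_filter, decide_eq_true_eq, Finset.mem_range]
  omega

theorem D_max {v : ℕ → ℝ} {n : ℕ} {a b x : ℝ} (ha : a ≤ x) (hb : x ≤ b) :
    D v (range n) x ≤ D v (range n) a ∨ D v (range n) x ≤ D v (range n) b := by
  have key : (b - a) * D v (range n) x ≤ (b - x) * D v (range n) a + (x - a) * D v (range n) b := by
    unfold D
    rw [Finset.mul_sum, Finset.mul_sum, Finset.mul_sum, ← Finset.sum_add_distrib]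
    apply Finset.sum_le_sum
    intro j _
    have h1 : (b - a) * |v j - x| = |(b - x) * (v j - a) + (x - a) * (v j - b)| := by
      rw [← abs_of_nonneg (show 0 ≤ b - a by linarith), ← abs_mul]
      congr 1
      ring
    rw [h1]
    refine (abs_add_le _ _).trans ?_
    rw [abs_mul, abs_mul, abs_of_nonneg (show 0 ≤ b - x by linarith),
      abs_of_nonneg (show 0 ≤ x - a by linarith)]
  by_contra hcon
  push Not at hcon
  obtain ⟨h1, h2⟩ := hcon
  rcases ha.eq_or_lt with h | h
  · rw [h] at h1; exact lt_irrefl _ h1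
  · nlinarith

theorem K_single (v : ℕ → ℝ) {n i : ℕ} (hi : i ∈ range n) :
    K v (range n) {i} = (W v (range n) - 2 * D v (range n) (v i)) / ((n : ℝ) - 2) := by
  have h1 : F v ({i} : Finset ℕ) = 0 := by simp [F, W]
  have h2 : range n = (range n \ {i}) ∪ {i} := by
    rw [Finset.sdiff_union_self_eq_union, Finset.union_eq_left.mpr (by simpa using hi)]
  have h3 : W v (range n) = W v (range n \ {i}) + 2 * D v (range n \ {i}) (v i) := by
    conv_lhs => rw [h2]
    rw [W_union v Finset.sdiff_disjoint (x0 := v i) (by intro k hk; rw [Finset.mem_singleton.mp hk])]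
    simp
  have h4 : D v (range n) (v i) = D v (range n \ {i}) (v i) := by
    unfold D
    conv_lhs => rw [h2]
    rw [Finset.sum_union Finset.sdiff_disjoint]
    simp
  have h5 : ((range n \ {i}).card : ℝ) = n - 1 := by
    rw [Finset.card_sdiff_of_subset (by simpa using hi), Finset.card_range, Finset.card_singleton]
    have : 1 ≤ n := by
      have := Finset.mem_range.mp hi
      omega
    push_cast [Nat.cast_sub this]; ring
  rw [K, h1, F, h5, h3, h4]
  ring_nf

theorem sorted_group {v : ℕ → ℝ} {U : Finset ℕ} {x0 : ℝ}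
    (h : (∀ k ∈ U, x0 ≤ v k) ∨ (∀ k ∈ U, v k ≤ x0)) :
    SortedSet v U (U.filter (fun k => v k = x0)) ∧
      SortedSet v U (U \ U.filter (fun k => v k = x0)) := by
  constructor
  · intro i hi j hj k hk h1 h2
    rw [Finset.mem_filter] at hi hj ⊢
    exact ⟨hk, le_antisymm (by rw [← hj.2]; exact h2) (by rw [← hi.2]; exact h1)⟩
  · intro i hi j hj k hk h1 h2
    simp only [Finset.mem_sdiff, Finset.mem_filter] at hi hj ⊢
    refine ⟨hk, fun h3 => ?_⟩
    rcases h with h | h
    · have := h i hi.1
      exact hi.2 ⟨hi.1, le_antisymm (by rw [← h3.2]; exact h1) this⟩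
    · have := h j hj.1
      exact hj.2 ⟨hj.1, le_antisymm this (by rw [← h3.2]; exact h2)⟩

/-- singletons, HIS -/
theorem single_case {v : ℕ → ℝ} {n : ℕ} (hn : 2 ≤ n) (hv : ∀ i j, i ≤ j → j < n → v i ≤ v j)
    {i : ℕ} (hi : i ∈ range n) :
    ∃ C ⊆ range n, SortedSet v (range n) C ∧ SortedSet v (range n) (range n \ C) ∧
      K v (range n) C ≤ K v (range n) {i} := by
  have hi' := Finset.mem_range.mp hi
  have hext : ∃ e ∈ range n, ((∀ k ∈ range n, v e ≤ v k) ∨ (∀ k ∈ range n, v k ≤ v e)) ∧
      K v (range n) {e} ≤ K v (range n) {i} := by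
    have hn2 : (0 : ℝ) ≤ (n : ℝ) - 2 := by
      have : (2 : ℝ) ≤ n := by exact_mod_cast hn
      linarith
    rcases D_max (v := v) (n := n) (hv 0 i (by omega) hi') (hv i (n - 1) (by omega) (by omega)) with h | h
    · refine ⟨0, Finset.mem_range.mpr (by omega), Or.inl ?_, ?_⟩
      · intro k hk; exact hv 0 k (by omega) (Finset.mem_range.mp hk)
      · rw [K_single v hi, K_single v (Finset.mem_range.mpr (by omega : 0 < n))]
        exact div_le_div_of_nonneg_right (by linarith) hn2
    · refine ⟨n - 1, Finset.mem_range.mpr (by omega), Or.inr ?_, ?_⟩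
      · intro k hk
        have := Finset.mem_range.mp hk
        exact hv k (n - 1) (by omega) (by omega)
      · rw [K_single v hi, K_single v (Finset.mem_range.mpr (by omega : n - 1 < n))]
        exact div_le_div_of_nonneg_right (by linarith) hn2
  obtain ⟨e, he, hext, hKe⟩ := hext
  obtain ⟨s1, s2⟩ := sorted_group (v := v) (U := range n) (x0 := v e) hext
  set Γ := (range n).filter (fun k => v k = v e) with hΓ
  have heΓ : e ∈ Γ := Finset.mem_filter.mpr ⟨he, rfl⟩
  have hΓU : Γ ⊆ range n := Finset.filter_subset _ _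
  by_cases hj : ∃ j ∈ range n \ {e}, v e = v j
  · obtain ⟨j, hj, hej⟩ := hj
    have hu : ({e} : Finset ℕ) ∪ Γ = Γ :=
      Finset.union_eq_right.mpr (by simpa using heΓ)
    have hd : ({e} : Finset ℕ) \ Γ = ∅ :=
      Finset.sdiff_eq_empty_iff_subset.mpr (by simpa using heΓ)
    rcases group_HIS (v := v) (U := range n) (C := {e}) (by simpa using he)
      (Finset.mem_singleton_self e) hj hej with h | h
    · rw [← hΓ, hu] at h
      exact ⟨Γ, hΓU, s1, s2, h.trans hKe⟩
    · rw [← hΓ, hd] at h
      refine ⟨∅, Finset.empty_subset _, ?_, ?_, h.trans hKe⟩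
      · intro i hi; simp at hi
      · intro i _ j _ k hk _ _; simpa using hk
  · push Not at hj
    have hΓe : Γ = {e} := by
      apply Finset.Subset.antisymm
      · intro k hk
        rw [Finset.mem_filter] at hk
        by_contra hne
        exact hj k (Finset.mem_sdiff.mpr ⟨hk.1, hne⟩) hk.2.symm
      · simpa using heΓ
    exact ⟨Γ, hΓU, s1, s2, by rw [hΓe]; exact hKe⟩

/-- both sides have at least two agents -/
theorem big_case {v : ℕ → ℝ} {n : ℕ} (hn : 2 ≤ n) (hv : ∀ i j, i ≤ j → j < n → v i ≤ v j)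
    {C : Finset ℕ} (hC : C ⊆ range n) (hus : Unsplit v (range n) C)
    (h2 : 2 ≤ C.card) (h2' : 2 ≤ (range n \ C).card)
    (hmin : ∀ C' ⊆ range n, FeasU (range n) C' → K v (range n) C ≤ K v (range n) C') :
    ∃ C' ⊆ range n, FeasU (range n) C' ∧ SortedSet v (range n) C' ∧
      SortedSet v (range n) (range n \ C') ∧ K v (range n) C' ≤ K v (range n) C := by
  set c : ℕ → Bool := fun i => decide (i ∈ C) with hc
  have hSt : S c n true = C := S_decide hC
  have hSf : S c n false = range n \ C := by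
    ext i
    simp only [S, hc, Finset.mem_filter, Finset.mem_sdiff, decide_eq_false_iff_not]
  have hA : ∀ x, 0 < A c n x := by
    intro x
    unfold A
    rw [← S_card]
    cases x
    · rw [hSf]
      have : (2 : ℝ) ≤ ((range n \ C).card : ℝ) := by exact_mod_cast h2'
      linarith
    · rw [hSt]
      have : (2 : ℝ) ≤ (C.card : ℝ) := by exact_mod_cast h2
      linarith
  have hgap : ∀ s, 1 ≤ s → s < n → c (s - 1) ≠ c s → v (s - 1) < v s := by
    intro s h1 hsn hne
    refine lt_of_le_of_ne (hv (s - 1) s (by omega) hsn) ?_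
    by_cases hs : s ∈ C
    · have hs1 : s - 1 ∉ C := by
        intro h; apply hne; simp [hc, hs, h]
      exact (hus s hs (s - 1) (Finset.mem_sdiff.mpr ⟨Finset.mem_range.mpr (by omega), hs1⟩)).symm
    · have hs1 : s - 1 ∈ C := by
        by_contra h; apply hne; simp [hc, hs, h]
      exact hus (s - 1) hs1 s (Finset.mem_sdiff.mpr ⟨Finset.mem_range.mpr hsn, hs⟩)
  have hD : ∀ s, 1 ≤ s → s < n → 0 ≤ Δ c n s := by
    intro s h1 hsn
    by_cases hne : c (s - 1) = c s
    · rw [Δ, if_neg (by simpa using hne)]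
    · refine swap_opt hn hv hA h1 hsn hne (hgap s h1 hsn hne) ?_
      rw [KC_eq, KC_eq, hSt]
      apply hmin _ (S_sub _ _ _)
      have e1 : ((S (sw c s) n true).card : ℝ) = C.card := by
        rw [S_card, sw_l_gt c true h1 (by omega), ← S_card, hSt]
      have e1' : (S (sw c s) n true).card = C.card := by exact_mod_cast e1
      refine ⟨by omega, ?_⟩
      have e2 : (range n \ S (sw c s) n true).card = n - (S (sw c s) n true).card := by
        rw [Finset.card_sdiff_of_subset (S_sub _ _ _), Finset.card_range]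
      have e3 : (range n \ C).card = n - C.card := by
        rw [Finset.card_sdiff_of_subset hC, Finset.card_range]
      omega
  rcases core hn hv hA hD with h | ⟨s, hs1, hs2, hs3, hs4⟩
  · rw [KC_eq, KC_eq, hSt, S_cs le_rfl] at h
    refine ⟨range n, subset_rfl, ⟨by rw [Finset.card_range]; omega, by simp⟩, ?_, ?_, h⟩
    · intro i _ j _ k hk _ _; exact hk
    · intro i hi; simp at hi
  · rw [KC_eq, KC_eq, hSt, S_cs (by omega)] at hs4
    have hg := hgap s (by omega) (by omega) hs3
    have hsub : range s ⊆ range n := Finset.range_subset_range.mpr (by omega)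
    refine ⟨range s, hsub, ⟨by rw [Finset.card_range]; omega, ?_⟩, ?_, ?_, hs4⟩
    · rw [Finset.card_sdiff_of_subset hsub, Finset.card_range, Finset.card_range]; omega
    · intro i hi j hj k hk h5 h6
      rw [Finset.mem_range] at hi hj hk ⊢
      by_contra hks
      have a1 := hv s k (by omega) hk
      have a2 := hv j (s - 1) (by omega) (by omega)
      linarith
    · intro i hi j hj k hk h5 h6
      simp only [Finset.mem_sdiff, Finset.mem_range] at hi hj hk ⊢
      refine ⟨hk, fun hks => ?_⟩
      have a1 := hv k (s - 1) (by omega) (by omega)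
      have a2 := hv s i (by omega) hi.1
      linarith

/-- **Main theorem on `range n`.** `b = true`: UIS, `b = false`: HIS. -/
theorem best {v : ℕ → ℝ} {n : ℕ} (hn : 2 ≤ n) (hv : ∀ i j, i ≤ j → j < n → v i ≤ v j) (b : Bool) :
    ∃ C ⊆ range n, (b = true → FeasU (range n) C) ∧ SortedSet v (range n) C ∧
      SortedSet v (range n) (range n \ C) ∧
      ∀ C' ⊆ range n, (b = true → FeasU (range n) C') → K v (range n) C ≤ K v (range n) C' := by
  classical
  -- a minimiser
  have hne : ((range n).powerset.filter (fun C => b = true → FeasU (range n) C)).Nonempty := by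
    refine ⟨∅, ?_⟩
    simp only [Finset.mem_filter, Finset.mem_powerset, Finset.empty_subset, true_and]
    intro _
    exact ⟨by simp, by rw [Finset.sdiff_empty, Finset.card_range]; omega⟩
  obtain ⟨C0, hC0, hmin0⟩ := Finset.exists_min_image _ (fun C => K v (range n) C) hne
  simp only [Finset.mem_filter, Finset.mem_powerset] at hC0 hmin0
  -- unsplit
  obtain ⟨C1, hC1, hf1, hus, hK1⟩ : ∃ C1 ⊆ range n, (b = true → FeasU (range n) C1) ∧
      Unsplit v (range n) C1 ∧ K v (range n) C1 ≤ K v (range n) C0 := by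
    cases b
    · obtain ⟨C', a1, a2, a3⟩ := unsplit_HIS (v := v) _ C0 hC0.1 le_rfl
      exact ⟨C', a1, by simp, a2, a3⟩
    · obtain ⟨C', a1, a0, a2, a3⟩ := unsplit_UIS (v := v) _ C0 hC0.1 le_rfl (hC0.2 rfl)
      exact ⟨C', a1, fun _ => a0, a2, a3⟩
  have hmin1 : ∀ C' ⊆ range n, (b = true → FeasU (range n) C') → K v (range n) C1 ≤ K v (range n) C' :=
    fun C' h1 h2 => hK1.trans (hmin0 C' ⟨h1, h2⟩)
  suffices h : ∃ C ⊆ range n, (b = true → FeasU (range n) C) ∧ SortedSet v (range n) C ∧
      SortedSet v (range n) (range n \ C) ∧ K v (range n) C ≤ K v (range n) C1 by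
    obtain ⟨C, a1, a2, a3, a4, a5⟩ := h
    exact ⟨C, a1, a2, a3, a4, fun C' h1 h2 => a5.trans (hmin1 C' h1 h2)⟩
  by_cases hz : C1.card = 0
  · have hz' := Finset.card_eq_zero.mp hz
    subst hz'
    refine ⟨∅, hC1, hf1, ?_, ?_, le_rfl⟩
    · intro i hi; simp at hi
    · intro i _ j _ k hk _ _; simpa using hk
  by_cases hz2 : (range n \ C1).card = 0
  · have hz' := Finset.card_eq_zero.mp hz2
    refine ⟨C1, hC1, hf1, ?_, ?_, le_rfl⟩
    · intro i _ j _ k hk _ _
      exact Finset.sdiff_eq_empty_iff_subset.mp hz' hk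
    · rw [hz']; intro i hi; simp at hi
  by_cases h1 : C1.card = 1
  · cases b
    · obtain ⟨i, rfl⟩ := Finset.card_eq_one.mp h1
      obtain ⟨C, a1, a2, a3, a4⟩ := single_case hn hv (i := i) (by simpa using hC1)
      exact ⟨C, a1, by simp, a2, a3, a4⟩
    · exact absurd h1 (hf1 rfl).1
  by_cases h1' : (range n \ C1).card = 1
  · cases b
    · obtain ⟨i, hi⟩ := Finset.card_eq_one.mp h1'
      have hir : i ∈ range n := by
        have : i ∈ range n \ C1 := by rw [hi]; simp
        exact (Finset.mem_sdiff.mp this).1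
      obtain ⟨C, a1, a2, a3, a4⟩ := single_case hn hv (i := i) hir
      refine ⟨C, a1, by simp, a2, a3, a4.trans (le_of_eq ?_)⟩
      rw [← hi, K_symm v hC1]
    · exact absurd h1' (hf1 rfl).2
  obtain ⟨C', a1, a2, a3, a4, a5⟩ := big_case hn hv hC1 hus (by omega) (by omega)
    (fun C' h3 h4 => hmin1 C' h3 (fun _ => h4))
  exact ⟨C', a1, fun _ => a2, a3, a4, a5⟩

end Pool.Agent.R472.SortedCore
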