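import Mathlib

/-!
# Combinatorial core for MP_e22fa6_co (average-distance costs, two coalitions)
-/

namespace Pool.Agent.R472.SortedCore

open Finset

/-- number of indices `i < t` of colour `x` (as a real) -/
noncomputable def l (c : ℕ → Bool) (x : Bool) (t : ℕ) : ℝ :=
  (((range t).filter (fun i => c i = x)).card : ℝ)

theorem l_zero (c : ℕ → Bool) (x : Bool) : l c x 0 = 0 := by simp [l]

theorem l_succ (c : ℕ → Bool) (x : Bool) (t : ℕ) :
    l c x (t + 1) = l c x t + if c t = x then 1 else 0 := by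
  unfold l
  rw [Finset.range_add_one, Finset.filter_insert]
  split_ifs with h
  · rw [Finset.card_insert_of_notMem (by simp)]
    push_cast; ring
  · simp

theorem l_succ_eq {c : ℕ → Bool} {x : Bool} {t : ℕ} (h : c t = x) :
    l c x (t + 1) = l c x t + 1 := by rw [l_succ, if_pos h]

theorem l_succ_ne {c : ℕ → Bool} {x : Bool} {t : ℕ} (h : c t ≠ x) :
    l c x (t + 1) = l c x t := by rw [l_succ, if_neg h, add_zero]

theorem l_add (c : ℕ → Bool) (x : Bool) (t : ℕ) : l c x t + l c (!x) t = t := by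
  induction t with
  | zero => simp [l_zero]
  | succ t ih =>
    rw [l_succ, l_succ]
    push_cast
    rw [← ih]
    cases hx : x <;> cases hc : c t <;> simp <;> ring

theorem l_nonneg (c : ℕ → Bool) (x : Bool) (t : ℕ) : 0 ≤ l c x t := by
  unfold l; positivity

theorem l_mono (c : ℕ → Bool) (x : Bool) {s t : ℕ} (h : s ≤ t) : l c x s ≤ l c x t := by
  unfold l
  exact_mod_cast Finset.card_le_card (Finset.filter_subset_filter _ (Finset.range_subset_range.mpr h))

/-- own size minus one -/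
noncomputable def A (c : ℕ → Bool) (n : ℕ) (x : Bool) : ℝ := l c x n - 1

theorem A_add (c : ℕ → Bool) (n : ℕ) (x : Bool) : A c n x + A c n (!x) = n - 2 := by
  have := l_add c x n
  unfold A; linarith

noncomputable def Q (c : ℕ → Bool) (n : ℕ) (t : ℕ) : ℝ :=
  l c true t * (l c true t - 1) / A c n true + l c false t * (l c false t - 1) / A c n false

theorem Q_eq (c : ℕ → Bool) (n : ℕ) (t : ℕ) (x : Bool) :
    Q c n t = l c x t * (l c x t - 1) / A c n x + l c (!x) t * (l c (!x) t - 1) / A c n (!x) := by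
  cases x
  · simp only [Q, Bool.not_false]; ring
  · simp only [Q, Bool.not_true]

noncomputable def g (c : ℕ → Bool) (n : ℕ) (t : ℕ) : ℝ :=
  Q c n t - (t : ℝ) * ((t : ℝ) - 1) / ((n : ℝ) - 1)

noncomputable def Δ (c : ℕ → Bool) (n : ℕ) (t : ℕ) : ℝ :=
  if c (t - 1) ≠ c t then
    (l c (c (t - 1)) t - 1) / A c n (c (t - 1)) - l c (c t) t / A c n (c t) else 0

noncomputable def q (n s t : ℕ) : ℝ :=
  if t ≤ s then (t : ℝ) * ((t : ℝ) - 1) * ((n : ℝ) - s) / (((s : ℝ) - 1) * ((n : ℝ) - 1))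
  else ((n : ℝ) - t) * ((n : ℝ) - t - 1) * s / (((n : ℝ) - s - 1) * ((n : ℝ) - 1))

theorem ne_iff_not {x y : Bool} : x ≠ y ↔ y = !x := by cases x <;> cases y <;> simp

/-! ### algebra -/

theorem corner_alg (X Y a b : ℝ) (ha : 0 ≤ a) (hb : 0 ≤ b) (h0 : 0 ≤ Y) (h1 : Y ≤ X) (h2 : X ≤ 1) :
    (a + b + 1) * ((1 + a * X) * X + (b * Y - 1) * Y) - (1 + a * X + b * Y) * (a * X + b * Y)
      ≤ (1 + a * X + b * Y) * (a + b + 1 - a * X - b * Y) * (X - Y) := by
  have hX : 0 ≤ X := h0.trans h1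
  have hY1 : 0 ≤ 1 - Y := by linarith
  have hX1 : 0 ≤ 1 - X := by linarith
  have key : (1 + a * X + b * Y) * (a + b + 1 - a * X - b * Y) * (X - Y) -
      ((a + b + 1) * ((1 + a * X) * X + (b * Y - 1) * Y) - (1 + a * X + b * Y) * (a * X + b * Y))
      = (X - Y) * (a ^ 2 * (X * (1 - X)) + b ^ 2 * (Y * (1 - Y)) + 2 * (a * b) * (Y * (1 - X)))
        + a * (X * (1 - X)) + b * (Y * (1 - Y)) := by ring
  have h3 : 0 ≤ X - Y := by linarith
  have : 0 ≤ (X - Y) * (a ^ 2 * (X * (1 - X)) + b ^ 2 * (Y * (1 - Y)) + 2 * (a * b) * (Y * (1 - X)))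
        + a * (X * (1 - X)) + b * (Y * (1 - Y)) := by positivity
  linarith

variable {c : ℕ → Bool} {n : ℕ}

theorem corner_le (hA : ∀ x, 0 < A c n x) {t : ℕ} (ht : 1 ≤ t) (htn : t < n)
    (hc : c (t - 1) ≠ c t) (hD : 0 ≤ Δ c n t) :
    g c n t ≤ Δ c n t * ((t : ℝ) * ((n : ℝ) - t) / ((n : ℝ) - 1)) := by
  obtain ⟨x, hx⟩ : ∃ x, c (t - 1) = x := ⟨_, rfl⟩
  have hy : c t = !x := by rw [← hx]; exact ne_iff_not.mp hc
  have hD' : Δ c n t = (l c x t - 1) / A c n x - l c (!x) t / A c n (!x) := by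
    rw [Δ, if_pos hc, hx, hy]
  rw [hD'] at hD ⊢
  rw [g, Q_eq c n t x]
  have hax := hA x
  have hay := hA (!x)
  have hadd := A_add c n x
  have hl := l_add c x t
  have hly := l_nonneg c (!x) t
  have hlx : l c x t ≤ A c n x + 1 := by
    have := l_mono c x htn.le; unfold A; linarith
  have hn1 : (0 : ℝ) < (n : ℝ) - 1 := by
    have : (2 : ℝ) ≤ n := by exact_mod_cast (by omega : 2 ≤ n)
    linarith
  set a := A c n x
  set b := A c n (!x)
  obtain ⟨X, hX⟩ : ∃ X, X = (l c x t - 1) / a := ⟨_, rfl⟩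
  obtain ⟨Y, hY⟩ : ∃ Y, Y = l c (!x) t / b := ⟨_, rfl⟩
  have hlX : l c x t = 1 + a * X := by rw [hX]; field_simp; ring
  have hlY : l c (!x) t = b * Y := by rw [hY]; field_simp
  have hY0 : 0 ≤ Y := by rw [hY]; positivity
  have hYX : Y ≤ X := by rw [hX, hY]; linarith
  have hX1 : X ≤ 1 := by rw [hX, div_le_one hax]; linarith
  have hkey := corner_alg X Y a b hax.le hay.le hY0 hYX hX1
  have ht' : (t : ℝ) = 1 + a * X + b * Y := by rw [← hl, hlX, hlY]
  have hn' : (n : ℝ) = a + b + 2 := by linarith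
  rw [hlX, hlY, ht', hn']
  have e1 : (1 + a * X) * (1 + a * X - 1) / a = (1 + a * X) * X := by field_simp; ring
  have e2 : b * Y * (b * Y - 1) / b = (b * Y - 1) * Y := by field_simp
  have e3 : (1 + a * X - 1) / a = X := by field_simp; ring
  have e4 : b * Y / b = Y := by field_simp
  rw [e1, e2, e3, e4]
  have hpos : 0 < a + b + 2 - 1 := by linarith
  rw [sub_le_iff_le_add, ← mul_div_assoc, ← add_div, le_div_iff₀ hpos]
  nlinarith [hkey]

theorem g_one : g c n 1 = 0 := by
  unfold g Q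
  have h1 : ∀ x, l c x 1 * (l c x 1 - 1) = 0 := by
    intro x
    have : l c x (0 + 1) = l c x 0 + if c 0 = x then 1 else 0 := l_succ c x 0
    rw [l_zero] at this
    simp only [zero_add] at this
    rw [this]
    split_ifs <;> simp
  rw [h1, h1]; simp

theorem g_last (hA : ∀ x, 0 < A c n x) {t : ℕ} (ht : t + 1 = n) : g c n t = 0 := by
  obtain ⟨x, hx⟩ : ∃ x, c t = x := ⟨_, rfl⟩
  have hax := hA x
  have hay := hA (!x)
  have h1 : l c x t = A c n x := by
    have := l_succ_eq (c := c) hx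
    rw [ht] at this
    unfold A; linarith
  have h2 : l c (!x) t = A c n (!x) + 1 := by
    have := l_succ_ne (c := c) (x := !x) (t := t) (by rw [hx]; cases x <;> simp)
    rw [ht] at this
    unfold A; linarith
  have hadd := A_add c n x
  rw [g, Q_eq c n t x, h1, h2]
  have hn : (n : ℝ) = t + 1 := by rw [← ht]; push_cast; ring
  have ht0 : (0 : ℝ) < t := by
    rw [hn] at hadd; linarith
  rw [hn] at hadd ⊢
  set a := A c n x
  set b := A c n (!x)
  have e1 : a * (a - 1) / a = a - 1 := by field_simp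
  have e2 : (b + 1) * (b + 1 - 1) / b = b + 1 := by field_simp; ring
  have e3 : (t : ℝ) * ((t : ℝ) - 1) / ((t : ℝ) + 1 - 1) = t - 1 := by
    rw [show (t : ℝ) + 1 - 1 = t by ring]; field_simp
  rw [e1, e2, e3]; linarith

/-- forward step -/
theorem step_fwd (hA : ∀ x, 0 < A c n x) {t : ℕ} (htn : t + 1 < n) {x : Bool} (hx : c t = x)
    (hcond : (l c (!x) t - 1) / A c n (!x) ≤ l c x t / A c n x) :
    ((t : ℝ) + 1) * g c n t ≤ ((t : ℝ) - 1) * g c n (t + 1) := by
  have h1 : l c x (t + 1) = l c x t + 1 := l_succ_eq hx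
  have h2 : l c (!x) (t + 1) = l c (!x) t := l_succ_ne (by rw [hx]; cases x <;> simp)
  have hax := hA x
  have hay := hA (!x)
  have hl := l_add c x t
  have hly := l_nonneg c (!x) t
  have hn1 : (0 : ℝ) < (n : ℝ) - 1 := by
    have : (2 : ℝ) ≤ n := by exact_mod_cast (by omega : 2 ≤ n)
    linarith
  rw [g, g, Q_eq c n t x, Q_eq c n (t + 1) x, h1, h2]
  push_cast
  set a := A c n x
  set b := A c n (!x)
  set L := l c x t
  set M := l c (!x) t
  have ht : (t : ℝ) = L + M := hl.symm
  have hm : 0 ≤ M * (L / a - (M - 1) / b) := mul_nonneg hly (by linarith)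
  have e : ((t : ℝ) - 1) * ((L + 1) * (L + 1 - 1) / a + M * (M - 1) / b - ((t : ℝ) + 1) * ((t : ℝ) + 1 - 1) / ((n : ℝ) - 1))
      - ((t : ℝ) + 1) * (L * (L - 1) / a + M * (M - 1) / b - (t : ℝ) * ((t : ℝ) - 1) / ((n : ℝ) - 1))
      = 2 * (M * (L / a - (M - 1) / b)) := by
    rw [ht]; field_simp; ring
  linarith

/-- backward step -/
theorem step_bwd (hA : ∀ x, 0 < A c n x) {t : ℕ} (htn : t + 1 < n) {x : Bool} (hx : c t = x)
    (hcond : l c x t / A c n x ≤ l c (!x) t / A c n (!x)) :
    ((n : ℝ) - t) * g c n (t + 1) ≤ ((n : ℝ) - t - 2) * g c n t := by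
  have h1 : l c x (t + 1) = l c x t + 1 := l_succ_eq hx
  have h2 : l c (!x) (t + 1) = l c (!x) t := l_succ_ne (by rw [hx]; cases x <;> simp)
  have hax := hA x
  have hay := hA (!x)
  have hl := l_add c x t
  have hly := l_nonneg c (!x) t
  have hadd := A_add c n x
  have hly2 : l c (!x) t ≤ A c n (!x) + 1 := by
    have := l_mono c (!x) (show t ≤ n by omega); unfold A; linarith
  rw [g, g, Q_eq c n t x, Q_eq c n (t + 1) x, h1, h2]
  push_cast
  set a := A c n x
  set b := A c n (!x)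
  set L := l c x t
  set M := l c (!x) t
  have ht : (t : ℝ) = L + M := hl.symm
  have hn : (n : ℝ) = a + b + 2 := by linarith
  have hm : 0 ≤ (b + 1 - M) * (M / b - L / a) := mul_nonneg (by linarith) (by linarith)
  have hne : a + b + 2 - 1 ≠ 0 := by linarith
  have e : ((n : ℝ) - t - 2) * (L * (L - 1) / a + M * (M - 1) / b - (t : ℝ) * ((t : ℝ) - 1) / ((n : ℝ) - 1))
      - ((n : ℝ) - t) * ((L + 1) * (L + 1 - 1) / a + M * (M - 1) / b - ((t : ℝ) + 1) * ((t : ℝ) + 1 - 1) / ((n : ℝ) - 1))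
      = 2 * ((b + 1 - M) * (M / b - L / a)) := by
    rw [ht, hn]; field_simp; ring
  linarith

theorem fw (hA : ∀ x, 0 < A c n x) (hD : ∀ s, 1 ≤ s → s < n → 0 ≤ Δ c n s) :
    ∀ k t : ℕ, t + k + 1 = n → 1 ≤ t →
      (l c (!(c t)) t - 1) / A c n (!(c t)) ≤ l c (c t) t / A c n (c t) →
      g c n t ≤ 0 ∨ ∃ s, t < s ∧ s < n ∧
        g c n t ≤ Δ c n s * ((t : ℝ) * ((t : ℝ) - 1) * ((n : ℝ) - s) / (((s : ℝ) - 1) * ((n : ℝ) - 1))) := by
  intro k
  induction k with
  | zero =>
    intro t ht h1 _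
    left
    exact (g_last hA (by omega)).le
  | succ k ih =>
    intro t ht h1 hcond
    have hstep := step_fwd hA (t := t) (by omega) rfl hcond
    have ht1 : (1 : ℝ) ≤ t := by exact_mod_cast h1
    have hn1 : (0 : ℝ) < (n : ℝ) - 1 := by
      have : (2 : ℝ) ≤ n := by exact_mod_cast (by omega : 2 ≤ n)
      linarith
    have hq : g c n t ≤ ((t : ℝ) - 1) / ((t : ℝ) + 1) * g c n (t + 1) := by
      rw [div_mul_eq_mul_div, le_div_iff₀ (by linarith)]
      linarith
    have hr : 0 ≤ ((t : ℝ) - 1) / ((t : ℝ) + 1) := div_nonneg (by linarith) (by linarith)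
    by_cases hc : c (t + 1) = c t
    · have h1' : l c (c t) (t + 1) = l c (c t) t + 1 := l_succ_eq rfl
      have h2' : l c (!(c t)) (t + 1) = l c (!(c t)) t := l_succ_ne (by cases c t <;> simp)
      have hcond' : (l c (!(c (t + 1))) (t + 1) - 1) / A c n (!(c (t + 1)))
          ≤ l c (c (t + 1)) (t + 1) / A c n (c (t + 1)) := by
        rw [hc, h1', h2']
        refine hcond.trans ?_
        exact div_le_div_of_nonneg_right (by linarith) (hA _).le
      rcases ih (t + 1) (by omega) (by omega) hcond' with h | ⟨s, hs1, hs2, hs3⟩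
      · left
        exact hq.trans (mul_nonpos_of_nonneg_of_nonpos hr h)
      · right
        refine ⟨s, by omega, hs2, hq.trans ?_⟩
        refine (mul_le_mul_of_nonneg_left hs3 hr).trans (le_of_eq ?_)
        push_cast
        have : (t : ℝ) + 1 ≠ 0 := by linarith
        field_simp
        ring
    · right
      refine ⟨t + 1, by omega, by omega, hq.trans ?_⟩
      have hcl := corner_le hA (t := t + 1) (by omega) (by omega)
        (by simpa using fun h => hc h.symm) (hD _ (by omega) (by omega))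
      refine (mul_le_mul_of_nonneg_left hcl hr).trans (le_of_eq ?_)
      push_cast
      have h3 : (t : ℝ) + 1 ≠ 0 := by linarith
      have h4 : (t : ℝ) ≠ 0 := by linarith
      rw [show (t : ℝ) + 1 - 1 = t by ring]
      field_simp

theorem bw (hA : ∀ x, 0 < A c n x) (hD : ∀ s, 1 ≤ s → s < n → 0 ≤ Δ c n s) :
    ∀ t : ℕ, 1 ≤ t → t < n →
      (l c (c (t - 1)) t - 1) / A c n (c (t - 1)) ≤ l c (!(c (t - 1))) t / A c n (!(c (t - 1))) →
      g c n t ≤ 0 ∨ ∃ s, 1 ≤ s ∧ s < t ∧
        g c n t ≤ Δ c n s * (((n : ℝ) - t) * ((n : ℝ) - t - 1) * s / (((n : ℝ) - s - 1) * ((n : ℝ) - 1))) := by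
  intro t
  induction t with
  | zero => intro h; omega
  | succ t ih =>
    intro _ htn hcond
    simp only [Nat.add_sub_cancel] at hcond
    rcases Nat.eq_zero_or_pos t with rfl | hpos
    · left; exact g_one.le
    have h1' : l c (c t) (t + 1) = l c (c t) t + 1 := l_succ_eq rfl
    have h2' : l c (!(c t)) (t + 1) = l c (!(c t)) t := l_succ_ne (by cases c t <;> simp)
    rw [h1', h2'] at hcond
    have hcond' : l c (c t) t / A c n (c t) ≤ l c (!(c t)) t / A c n (!(c t)) := by
      rwa [add_sub_cancel_right] at hcond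
    have hstep := step_bwd hA (t := t) (by omega) rfl hcond'
    have htn' : (t : ℝ) + 2 ≤ n := by exact_mod_cast (by omega : t + 2 ≤ n)
    have hn1 : (0 : ℝ) < (n : ℝ) - 1 := by
      have : (0 : ℝ) ≤ t := by positivity
      linarith
    have hq : g c n (t + 1) ≤ ((n : ℝ) - t - 2) / ((n : ℝ) - t) * g c n t := by
      rw [div_mul_eq_mul_div, le_div_iff₀ (by linarith)]
      linarith
    have hr : 0 ≤ ((n : ℝ) - t - 2) / ((n : ℝ) - t) := div_nonneg (by linarith) (by linarith)
    by_cases hc : c (t - 1) = c t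
    · have hcond2 : (l c (c (t - 1)) t - 1) / A c n (c (t - 1))
          ≤ l c (!(c (t - 1))) t / A c n (!(c (t - 1))) := by
        rw [hc]
        refine le_trans ?_ hcond'
        exact div_le_div_of_nonneg_right (by linarith) (hA _).le
      rcases ih (by omega) (by omega) hcond2 with h | ⟨s, hs1, hs2, hs3⟩
      · left
        exact hq.trans (mul_nonpos_of_nonneg_of_nonpos hr h)
      · right
        refine ⟨s, hs1, by omega, hq.trans ?_⟩
        refine (mul_le_mul_of_nonneg_left hs3 hr).trans (le_of_eq ?_)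
        push_cast
        have h3 : (n : ℝ) - t ≠ 0 := by linarith
        have h4 : (n : ℝ) - s - 1 ≠ 0 := by
          have : (s : ℝ) + 1 ≤ t := by exact_mod_cast (by omega : s + 1 ≤ t)
          linarith
        field_simp
        ring
    · right
      refine ⟨t, hpos, by omega, hq.trans ?_⟩
      have hcl := corner_le hA (t := t) hpos (by omega) hc (hD _ (by omega) (by omega))
      refine (mul_le_mul_of_nonneg_left hcl hr).trans (le_of_eq ?_)
      push_cast
      have h3 : (n : ℝ) - t ≠ 0 := by linarith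
      have h4 : (n : ℝ) - t - 1 ≠ 0 := by linarith
      field_simp
      ring

theorem q_nonneg {s t : ℕ} (hs : 1 ≤ s) (hsn : s < n) (ht : 1 ≤ t) (htn : t < n) : 0 ≤ q n s t := by
  have a1 : (1 : ℝ) ≤ s := by exact_mod_cast hs
  have a2 : (s : ℝ) + 1 ≤ n := by exact_mod_cast hsn
  have a3 : (1 : ℝ) ≤ t := by exact_mod_cast ht
  have a4 : (t : ℝ) + 1 ≤ n := by exact_mod_cast htn
  unfold q
  split_ifs
  · refine div_nonneg (mul_nonneg (mul_nonneg ?_ ?_) ?_) (mul_nonneg ?_ ?_) <;> linarith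
  · refine div_nonneg (mul_nonneg (mul_nonneg ?_ ?_) ?_) (mul_nonneg ?_ ?_) <;> linarith

/-- **Domination** -/
theorem domination (hA : ∀ x, 0 < A c n x) (hD : ∀ s, 1 ≤ s → s < n → 0 ≤ Δ c n s)
    {t : ℕ} (ht : 1 ≤ t) (htn : t < n) :
    g c n t ≤ ∑ s ∈ Finset.Ico 1 n, Δ c n s * q n s t := by
  have hnn : ∀ s ∈ Finset.Ico 1 n, 0 ≤ Δ c n s * q n s t := by
    intro s hs
    rw [Finset.mem_Ico] at hs
    exact mul_nonneg (hD s hs.1 hs.2) (q_nonneg hs.1 hs.2 ht htn)
  have single : ∀ s, 1 ≤ s → s < n → g c n t ≤ Δ c n s * q n s t →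
      g c n t ≤ ∑ s ∈ Finset.Ico 1 n, Δ c n s * q n s t := by
    intro s h1 h2 h3
    exact h3.trans (Finset.single_le_sum hnn (Finset.mem_Ico.mpr ⟨h1, h2⟩))
  have zero : g c n t ≤ 0 → g c n t ≤ ∑ s ∈ Finset.Ico 1 n, Δ c n s * q n s t :=
    fun h => h.trans (Finset.sum_nonneg hnn)
  by_cases hc : c (t - 1) = c t
  · by_cases hf : (l c (!(c t)) t - 1) / A c n (!(c t)) ≤ l c (c t) t / A c n (c t)
    · rcases fw hA hD (n - 1 - t) t (by omega) ht hf with h | ⟨s, h1, h2, h3⟩
      · exact zero h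
      · refine single s (by omega) h2 ?_
        rw [q, if_pos h1.le]; exact h3
    · push Not at hf
      have hb : (l c (c (t - 1)) t - 1) / A c n (c (t - 1)) ≤
          l c (!(c (t - 1))) t / A c n (!(c (t - 1))) := by
        rw [hc]
        have e1 : (l c (c t) t - 1) / A c n (c t) ≤ l c (c t) t / A c n (c t) :=
          div_le_div_of_nonneg_right (by linarith) (hA _).le
        have e2 : (l c (!(c t)) t - 1) / A c n (!(c t)) ≤ l c (!(c t)) t / A c n (!(c t)) :=
          div_le_div_of_nonneg_right (by linarith) (hA _).le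
        linarith
      rcases bw hA hD t ht htn hb with h | ⟨s, h1, h2, h3⟩
      · exact zero h
      · refine single s h1 (by omega) ?_
        rw [q, if_neg (by omega)]; exact h3
  · rcases Nat.lt_or_ge 1 t with h2 | h2
    · refine single t ht htn ?_
      have := corner_le hA ht htn hc (hD t ht htn)
      rw [q, if_pos le_rfl]
      convert this using 2
      have h3 : (t : ℝ) - 1 ≠ 0 := by
        have : (2 : ℝ) ≤ t := by exact_mod_cast h2
        linarith
      field_simp
    · have : t = 1 := by omega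
      subst this
      exact zero g_one.le

/-- **Total mass** -/
theorem mass_aux (hA : ∀ x, 0 < A c n x) : ∀ t : ℕ, 
    ∑ s ∈ Finset.Ico 1 (t + 1), Δ c n s ≤ max 0 ((l c (!(c t)) (t + 1) - 1) / A c n (!(c t))) := by
  intro t
  induction t with
  | zero => simp
  | succ t ih =>
    rw [Finset.sum_Ico_succ_top (by omega)]
    by_cases hc : c t = c (t + 1)
    · have h0 : Δ c n (t + 1) = 0 := by
        rw [Δ, if_neg]; simpa using hc
      have h2' : l c (!(c (t + 1))) (t + 1 + 1) = l c (!(c (t + 1))) (t + 1) :=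
        l_succ_ne (by cases c (t + 1) <;> simp)
      rw [h0, add_zero, h2', ← hc]
      exact ih
    · have hy : c (t + 1) = !(c t) := ne_iff_not.mp hc
      have hD : Δ c n (t + 1) = (l c (c t) (t + 1) - 1) / A c n (c t)
          - l c (!(c t)) (t + 1) / A c n (!(c t)) := by
        rw [Δ, if_pos (by simpa using hc)]
        simp only [Nat.add_sub_cancel, hy]
      have h1 : max 0 ((l c (!(c t)) (t + 1) - 1) / A c n (!(c t)))
          ≤ l c (!(c t)) (t + 1) / A c n (!(c t)) := by
        apply max_le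
        · exact div_nonneg (l_nonneg _ _ _) (hA _).le
        · exact div_le_div_of_nonneg_right (by linarith) (hA _).le
      have h3 : l c (c t) (t + 1 + 1) = l c (c t) (t + 1) :=
        l_succ_ne (by rw [hy]; cases c t <;> simp)
      rw [hD, hy, Bool.not_not, h3]
      refine le_max_of_le_right ?_
      linarith

theorem mass (hA : ∀ x, 0 < A c n x) (hn : 1 ≤ n) : ∑ s ∈ Finset.Ico 1 n, Δ c n s ≤ 1 := by
  obtain ⟨t, rfl⟩ : ∃ t, n = t + 1 := ⟨n - 1, by omega⟩
  refine (mass_aux hA t).trans ?_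
  apply max_le (by norm_num)
  rw [div_le_one (hA _)]
  unfold A
  exact le_rfl

theorem Δ_one : Δ c n 1 = 0 := by
  unfold Δ
  split_ifs with h
  · simp only [Nat.sub_self] at h ⊢
    have h1 : l c (c 0) (0 + 1) = l c (c 0) 0 + 1 := l_succ_eq rfl
    rw [l_zero] at h1
    simp only [zero_add] at h1
    by_cases hc : c 0 = c 1
    · exact absurd hc h
    · have h2 : l c (c 1) (0 + 1) = l c (c 1) 0 := l_succ_ne hc
      rw [l_zero] at h2
      simp only [zero_add] at h2
      rw [h1, h2]; simp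
  · rfl

theorem Δ_last (hA : ∀ x, 0 < A c n x) {t : ℕ} (ht : t + 1 = n) : Δ c n t = 0 := by
  unfold Δ
  split_ifs with h
  · have h1 : l c (c t) t = A c n (c t) := by
      have := l_succ_eq (c := c) (x := c t) (t := t) rfl
      rw [ht] at this
      unfold A; linarith
    have h2 : l c (c (t - 1)) t = A c n (c (t - 1)) + 1 := by
      have := l_succ_ne (c := c) (x := c (t - 1)) (t := t) (fun h' => h h'.symm)
      rw [ht] at this
      unfold A; linarith
    rw [h1, h2, add_sub_cancel_right, div_self (hA _).ne', div_self (hA _).ne', sub_self]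
  · rfl

end Pool.Agent.R472.SortedCore
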