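import Pool.Agent.R472.SortedCore

/-!
# Costs, gap decomposition, swap (MP_e22fa6_co)
-/

namespace Pool.Agent.R472.SortedCore

open Finset

/-- sum of all distances over ordered pairs -/
noncomputable def W {α : Type*} (v : α → ℝ) (S : Finset α) : ℝ := ∑ i ∈ S, ∑ j ∈ S, |v i - v j|

/-- average-distance cost of a coalition (`0/0 = 0`) -/
noncomputable def F {α : Type*} (v : α → ℝ) (S : Finset α) : ℝ := W v S / ((S.card : ℝ) - 1)

/-- cost of the pair `S, U \ S` -/
noncomputable def K {α : Type*} [DecidableEq α] (v : α → ℝ) (U S : Finset α) : ℝ :=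
  F v S + F v (U \ S)

noncomputable def ind (i t : ℕ) : ℝ := if i < t then 1 else 0

theorem abs_gap_le {v : ℕ → ℝ} {n : ℕ} {i : ℕ} : ∀ j : ℕ, i ≤ j → j < n →
    v j - v i = ∑ t ∈ Finset.Ico 1 n, (v t - v (t - 1)) * (ind i t * (1 - ind j t)) := by
  intro j hij
  induction j, hij using Nat.le_induction with
  | base =>
    intro _
    rw [sub_self]
    symm
    apply Finset.sum_eq_zero
    intro t _
    unfold ind; split_ifs <;> simp
  | succ j hij ih =>
    intro hjn
    have h1 := ih (by omega)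
    have h2 : ∑ t ∈ Finset.Ico 1 n, (v t - v (t - 1)) * (ind i t * (1 - ind (j + 1) t))
        = ∑ t ∈ Finset.Ico 1 n, (v t - v (t - 1)) * (ind i t * (1 - ind j t))
        + ∑ t ∈ Finset.Ico 1 n, (if t = j + 1 then (v t - v (t - 1)) else 0) := by
      rw [← Finset.sum_add_distrib]
      apply Finset.sum_congr rfl
      intro t _
      unfold ind
      by_cases h3 : t = j + 1
      · subst h3
        have : i < j + 1 := by omega
        simp [this]
      · by_cases h4 : j < t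
        · have : j + 1 < t := by omega
          simp [h3, h4, this]
        · have : ¬ j + 1 < t := by omega
          simp [h3, h4, this]
    rw [h2, ← h1, Finset.sum_ite_eq' , if_pos (Finset.mem_Ico.mpr ⟨by omega, hjn⟩)]
    simp

theorem abs_gap {v : ℕ → ℝ} {n : ℕ} (hv : ∀ i j, i ≤ j → j < n → v i ≤ v j) {i j : ℕ}
    (hi : i < n) (hj : j < n) :
    |v i - v j| = ∑ t ∈ Finset.Ico 1 n, (v t - v (t - 1)) *
      (ind i t * (1 - ind j t) + ind j t * (1 - ind i t)) := by
  rcases le_total i j with h | h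
  · rw [abs_sub_comm, abs_of_nonneg (by linarith [hv i j h hj]), abs_gap_le j h hj]
    apply Finset.sum_congr rfl
    intro t _
    congr 1
    have : ind j t * (1 - ind i t) = 0 := by
      unfold ind
      by_cases h1 : j < t
      · have : i < t := by omega
        simp [this]
      · simp [h1]
    rw [this, add_zero]
  · rw [abs_of_nonneg (by linarith [hv j i h hi]), abs_gap_le i h hi]
    apply Finset.sum_congr rfl
    intro t _
    congr 1
    have : ind i t * (1 - ind j t) = 0 := by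
      unfold ind
      by_cases h1 : i < t
      · have : j < t := by omega
        simp [this]
      · simp [h1]
    rw [this, zero_add]

theorem W_gap {v : ℕ → ℝ} {n : ℕ} (hv : ∀ i j, i ≤ j → j < n → v i ≤ v j) {S : Finset ℕ}
    (hS : S ⊆ range n) :
    W v S = ∑ t ∈ Finset.Ico 1 n, (v t - v (t - 1)) *
      (2 * ((∑ i ∈ S, ind i t) * ((S.card : ℝ) - ∑ i ∈ S, ind i t))) := by
  unfold W
  have h1 : ∀ i ∈ S, ∀ j ∈ S, |v i - v j| = ∑ t ∈ Finset.Ico 1 n, (v t - v (t - 1)) *
      (ind i t * (1 - ind j t) + ind j t * (1 - ind i t)) := by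
    intro i hi j hj
    exact abs_gap hv (Finset.mem_range.mp (hS hi)) (Finset.mem_range.mp (hS hj))
  rw [Finset.sum_congr rfl (fun i hi => Finset.sum_congr rfl (h1 i hi))]
  rw [Finset.sum_congr rfl (fun i _ => Finset.sum_comm), Finset.sum_comm]
  apply Finset.sum_congr rfl
  intro t _
  have h2 : ∑ i ∈ S, ∑ j ∈ S, ind i t * (1 - ind j t)
      = (∑ i ∈ S, ind i t) * ((S.card : ℝ) - ∑ i ∈ S, ind i t) := by
    rw [← Finset.sum_mul_sum]
    congr 1
    rw [Finset.sum_sub_distrib]; simp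
  have h3 : ∑ i ∈ S, ∑ j ∈ S, ind j t * (1 - ind i t)
      = (∑ i ∈ S, ind i t) * ((S.card : ℝ) - ∑ i ∈ S, ind i t) := by
    rw [Finset.sum_comm, h2]
  have h4 : ∑ i ∈ S, ∑ j ∈ S, (v t - v (t - 1)) *
      (ind i t * (1 - ind j t) + ind j t * (1 - ind i t))
      = (v t - v (t - 1)) * (∑ i ∈ S, ∑ j ∈ S, ind i t * (1 - ind j t)
        + ∑ i ∈ S, ∑ j ∈ S, ind j t * (1 - ind i t)) := by
    rw [← Finset.sum_add_distrib, Finset.mul_sum]
    apply Finset.sum_congr rfl
    intro i _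
    rw [← Finset.sum_add_distrib, Finset.mul_sum]
  rw [h4, h2, h3]; ring

/-- colour class -/
def S (c : ℕ → Bool) (n : ℕ) (x : Bool) : Finset ℕ := (range n).filter (fun i => c i = x)

theorem S_sub (c : ℕ → Bool) (n : ℕ) (x : Bool) : S c n x ⊆ range n := Finset.filter_subset _ _

theorem S_card (c : ℕ → Bool) (n : ℕ) (x : Bool) : ((S c n x).card : ℝ) = l c x n := rfl

theorem S_ind (c : ℕ → Bool) {n : ℕ} (x : Bool) {t : ℕ} (ht : t ≤ n) :
    ∑ i ∈ S c n x, ind i t = l c x t := by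
  unfold ind l S
  rw [Finset.sum_boole, Finset.filter_filter]
  congr 2
  ext i
  simp only [Finset.mem_filter, Finset.mem_range]
  constructor
  · rintro ⟨_, h1, h2⟩; exact ⟨h2, h1⟩
  · rintro ⟨h1, h2⟩; exact ⟨by omega, h2, h1⟩

noncomputable def φ (c : ℕ → Bool) (n t : ℕ) : ℝ :=
  l c true t * (l c true n - l c true t) / A c n true
    + l c false t * (l c false n - l c false t) / A c n false

noncomputable def KC (v : ℕ → ℝ) (n : ℕ) (c : ℕ → Bool) : ℝ :=
  F v (S c n true) + F v (S c n false)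

theorem KC_gap {v : ℕ → ℝ} {n : ℕ} (hv : ∀ i j, i ≤ j → j < n → v i ≤ v j) (c : ℕ → Bool) :
    KC v n c = 2 * ∑ t ∈ Finset.Ico 1 n, (v t - v (t - 1)) * φ c n t := by
  have h : ∀ x, F v (S c n x) = 2 * ∑ t ∈ Finset.Ico 1 n, (v t - v (t - 1)) *
      (l c x t * (l c x n - l c x t) / A c n x) := by
    intro x
    rw [F, W_gap hv (S_sub c n x), Finset.sum_div, Finset.mul_sum]
    apply Finset.sum_congr rfl
    intro t ht
    rw [Finset.mem_Ico] at ht
    rw [S_ind c x ht.2.le, S_card, A]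
    ring
  rw [KC, h, h, ← mul_add, ← Finset.sum_add_distrib]
  congr 1
  apply Finset.sum_congr rfl
  intro t _
  rw [φ]; ring

theorem φ_eq {c : ℕ → Bool} {n : ℕ} (hA : ∀ x, 0 < A c n x) (hn : 2 ≤ n) (t : ℕ) :
    φ c n t = (t : ℝ) * ((n : ℝ) - t) / ((n : ℝ) - 1) - g c n t := by
  have h1 := hA true
  have h2 := hA false
  have hn1 : (0 : ℝ) < (n : ℝ) - 1 := by
    have : (2 : ℝ) ≤ n := by exact_mod_cast hn
    linarith
  have hl := l_add c true t
  simp only [Bool.not_true] at hl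
  have e1 : ∀ x, l c x n = A c n x + 1 := fun x => by unfold A; ring
  rw [φ, g, Q, e1, e1]
  have : (t : ℝ) * ((n : ℝ) - t) / ((n : ℝ) - 1) = t - (t : ℝ) * ((t : ℝ) - 1) / ((n : ℝ) - 1) := by
    field_simp; ring
  rw [this, ← hl]
  field_simp
  ring

/-- sorted colouring -/
def cs (s : ℕ) : ℕ → Bool := fun i => decide (i < s)

theorem l_cs_true (s t : ℕ) : l (cs s) true t = min s t := by
  unfold l cs
  have : (range t).filter (fun i => decide (i < s) = true) = range (min s t) := by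
    ext i; simp; omega
  rw [this]; simp

theorem l_cs_false (s t : ℕ) : l (cs s) false t = t - min s t := by
  have := l_add (cs s) true t
  rw [l_cs_true] at this
  simp only [Bool.not_true] at this
  linarith

theorem φ_cs_top {n : ℕ} (t : ℕ) (htn : t < n) :
    φ (cs n) n t = (t : ℝ) * ((n : ℝ) - t) / ((n : ℝ) - 1) := by
  rw [φ, A, A, l_cs_true, l_cs_true, l_cs_false, l_cs_false]
  have h1 : ((min n t : ℕ) : ℝ) = t := by rw [min_eq_right htn.le]
  have h2 : ((min n n : ℕ) : ℝ) = n := by rw [min_self]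
  rw [h1, h2]
  simp

theorem φ_cs {n s : ℕ} (hs : 2 ≤ s) (hsn : s + 2 ≤ n) (t : ℕ) (htn : t < n) :
    φ (cs s) n t = (t : ℝ) * ((n : ℝ) - t) / ((n : ℝ) - 1) - q n s t := by
  rw [φ, A, A, l_cs_true, l_cs_true, l_cs_false, l_cs_false, q]
  have h2 : ((min s n : ℕ) : ℝ) = s := by
    rw [min_eq_left (by omega : s ≤ n)]
  have a1 : (2 : ℝ) ≤ s := by exact_mod_cast hs
  have a2 : (s : ℝ) + 2 ≤ n := by exact_mod_cast hsn
  have b1 : (s : ℝ) - 1 ≠ 0 := by linarith
  have b2 : (n : ℝ) - s - 1 ≠ 0 := by linarith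
  have b3 : (n : ℝ) - 1 ≠ 0 := by linarith
  rw [h2]
  split_ifs with h
  · have h1 : ((min s t : ℕ) : ℝ) = t := by
      rw [min_eq_right h]
    rw [h1]
    field_simp
    ring
  · have h1 : ((min s t : ℕ) : ℝ) = s := by
      rw [min_eq_left (by omega : s ≤ t)]
    rw [h1]
    field_simp
    ring

/-- **Core theorem.** -/
theorem core {v : ℕ → ℝ} {n : ℕ} (hn : 2 ≤ n) (hv : ∀ i j, i ≤ j → j < n → v i ≤ v j)
    {c : ℕ → Bool} (hA : ∀ x, 0 < A c n x) (hD : ∀ s, 1 ≤ s → s < n → 0 ≤ Δ c n s) :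
    KC v n (cs n) ≤ KC v n c ∨
      ∃ s, 2 ≤ s ∧ s + 2 ≤ n ∧ c (s - 1) ≠ c s ∧ KC v n (cs s) ≤ KC v n c := by
  by_contra hcon
  push Not at hcon
  obtain ⟨hc1, hc2⟩ := hcon
  -- range of nonzero Δ
  have hrange : ∀ s, 1 ≤ s → s < n → Δ c n s ≠ 0 → 2 ≤ s ∧ s + 2 ≤ n ∧ c (s - 1) ≠ c s := by
    intro s h1 h2 h3
    refine ⟨?_, ?_, ?_⟩
    · by_contra h
      have : s = 1 := by omega
      subst this
      exact h3 Δ_one
    · by_contra h
      have : s + 1 = n := by omega
      exact h3 (Δ_last hA this)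
    · intro h
      apply h3
      rw [Δ, if_neg (by simpa using h)]
  set M := ∑ s ∈ Finset.Ico 1 n, Δ c n s with hM
  have hM1 : M ≤ 1 := mass hA (by omega)
  -- the main inequality
  have hmain : ∑ s ∈ Finset.Ico 1 n, Δ c n s * (KC v n (cs s) - KC v n c)
      + (1 - M) * (KC v n (cs n) - KC v n c) ≤ 0 := by
    have e1 : ∑ s ∈ Finset.Ico 1 n, Δ c n s * (KC v n (cs s) - KC v n c)
        = ∑ s ∈ Finset.Ico 1 n, Δ c n s * KC v n (cs s) - M * KC v n c := by
      rw [hM, Finset.sum_mul, ← Finset.sum_sub_distrib]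
      apply Finset.sum_congr rfl; intro s _; ring
    have e2 : ∑ s ∈ Finset.Ico 1 n, Δ c n s * KC v n (cs s)
        = 2 * ∑ t ∈ Finset.Ico 1 n, (v t - v (t - 1)) *
          (M * ((t : ℝ) * ((n : ℝ) - t) / ((n : ℝ) - 1)) - ∑ s ∈ Finset.Ico 1 n, Δ c n s * q n s t) := by
      have e3 : ∀ s ∈ Finset.Ico 1 n, Δ c n s * KC v n (cs s) =
          ∑ t ∈ Finset.Ico 1 n, 2 * ((v t - v (t - 1)) *
            (Δ c n s * ((t : ℝ) * ((n : ℝ) - t) / ((n : ℝ) - 1)) - Δ c n s * q n s t)) := by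
        intro s hs
        rw [Finset.mem_Ico] at hs
        by_cases h0 : Δ c n s = 0
        · rw [h0]; simp
        · obtain ⟨h1, h2, _⟩ := hrange s hs.1 hs.2 h0
          rw [KC_gap hv, Finset.mul_sum, Finset.mul_sum]
          apply Finset.sum_congr rfl
          intro t ht
          rw [Finset.mem_Ico] at ht
          rw [φ_cs h1 h2 t ht.2]
          ring
      rw [Finset.sum_congr rfl e3, Finset.sum_comm, Finset.mul_sum]
      apply Finset.sum_congr rfl
      intro t _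
      rw [← Finset.mul_sum, ← Finset.mul_sum, Finset.sum_sub_distrib, hM, Finset.sum_mul]
    have e4 : KC v n (cs n) = 2 * ∑ t ∈ Finset.Ico 1 n, (v t - v (t - 1)) *
        ((t : ℝ) * ((n : ℝ) - t) / ((n : ℝ) - 1)) := by
      rw [KC_gap hv]
      congr 1
      apply Finset.sum_congr rfl
      intro t ht
      rw [Finset.mem_Ico] at ht
      rw [φ_cs_top t ht.2]
    have e5 : KC v n c = 2 * ∑ t ∈ Finset.Ico 1 n, (v t - v (t - 1)) *
        ((t : ℝ) * ((n : ℝ) - t) / ((n : ℝ) - 1) - g c n t) := by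
      rw [KC_gap hv]
      congr 1
      apply Finset.sum_congr rfl
      intro t _
      rw [φ_eq hA hn]
    have e6 : ∑ s ∈ Finset.Ico 1 n, Δ c n s * (KC v n (cs s) - KC v n c)
      + (1 - M) * (KC v n (cs n) - KC v n c)
      = 2 * ∑ t ∈ Finset.Ico 1 n, (v t - v (t - 1)) *
        (g c n t - ∑ s ∈ Finset.Ico 1 n, Δ c n s * q n s t) := by
      rw [e1, e2, e4, e5]
      have f1 : ∑ t ∈ Finset.Ico 1 n, (v t - v (t - 1)) *
          (M * ((t : ℝ) * ((n : ℝ) - t) / ((n : ℝ) - 1)) - ∑ s ∈ Finset.Ico 1 n, Δ c n s * q n s t)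
          = M * ∑ t ∈ Finset.Ico 1 n, (v t - v (t - 1)) * ((t : ℝ) * ((n : ℝ) - t) / ((n : ℝ) - 1))
            - ∑ t ∈ Finset.Ico 1 n, (v t - v (t - 1)) * ∑ s ∈ Finset.Ico 1 n, Δ c n s * q n s t := by
        rw [Finset.mul_sum, ← Finset.sum_sub_distrib]
        apply Finset.sum_congr rfl; intro t _; ring
      have f2 : ∑ t ∈ Finset.Ico 1 n, (v t - v (t - 1)) *
          ((t : ℝ) * ((n : ℝ) - t) / ((n : ℝ) - 1) - g c n t)
          = ∑ t ∈ Finset.Ico 1 n, (v t - v (t - 1)) * ((t : ℝ) * ((n : ℝ) - t) / ((n : ℝ) - 1))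
            - ∑ t ∈ Finset.Ico 1 n, (v t - v (t - 1)) * g c n t := by
        rw [← Finset.sum_sub_distrib]
        apply Finset.sum_congr rfl; intro t _; ring
      have f3 : ∑ t ∈ Finset.Ico 1 n, (v t - v (t - 1)) *
          (g c n t - ∑ s ∈ Finset.Ico 1 n, Δ c n s * q n s t)
          = ∑ t ∈ Finset.Ico 1 n, (v t - v (t - 1)) * g c n t
            - ∑ t ∈ Finset.Ico 1 n, (v t - v (t - 1)) * ∑ s ∈ Finset.Ico 1 n, Δ c n s * q n s t := by
        rw [← Finset.sum_sub_distrib]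
        apply Finset.sum_congr rfl; intro t _; ring
      rw [f1, f2, f3]
      ring
    rw [e6]
    have : ∑ t ∈ Finset.Ico 1 n, (v t - v (t - 1)) *
        (g c n t - ∑ s ∈ Finset.Ico 1 n, Δ c n s * q n s t) ≤ 0 := by
      apply Finset.sum_nonpos
      intro t ht
      rw [Finset.mem_Ico] at ht
      apply mul_nonpos_of_nonneg_of_nonpos
      · have := hv (t - 1) t (by omega) ht.2
        linarith
      · have := domination hA hD ht.1 ht.2
        linarith
    linarith
  have hterm : ∀ s ∈ Finset.Ico 1 n, 0 ≤ Δ c n s * (KC v n (cs s) - KC v n c) := by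
    intro s hs
    rw [Finset.mem_Ico] at hs
    by_cases h0 : Δ c n s = 0
    · rw [h0, zero_mul]
    · obtain ⟨h1, h2, h3⟩ := hrange s hs.1 hs.2 h0
      exact mul_nonneg (hD s hs.1 hs.2) (by linarith [hc2 s h1 h2 h3])
  rcases hM1.lt_or_eq with hlt | heq
  · have h1 := Finset.sum_nonneg hterm
    have h2 : 0 < (1 - M) * (KC v n (cs n) - KC v n c) :=
      mul_pos (by linarith) (by linarith)
    linarith
  · have hex : ∃ s ∈ Finset.Ico 1 n, Δ c n s ≠ 0 := by
      by_contra hno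
      push Not at hno
      rw [hM, Finset.sum_eq_zero hno] at heq
      norm_num at heq
    obtain ⟨s, hs, h0⟩ := hex
    have hs' := Finset.mem_Ico.mp hs
    obtain ⟨h1, h2, h3⟩ := hrange s hs'.1 hs'.2 h0
    have hpos : 0 < Δ c n s := lt_of_le_of_ne (hD s hs'.1 hs'.2) (Ne.symm h0)
    have h4 : 0 < Δ c n s * (KC v n (cs s) - KC v n c) :=
      mul_pos hpos (by linarith [hc2 s h1 h2 h3])
    have h5 := Finset.single_le_sum hterm hs
    rw [heq] at hmain
    linarith

/-! ### swapping two neighbours -/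

def sw (c : ℕ → Bool) (s : ℕ) : ℕ → Bool :=
  fun i => if i = s - 1 then c s else if i = s then c (s - 1) else c i

theorem sw_l_lt (c : ℕ → Bool) (x : Bool) {s t : ℕ} (ht : t + 1 ≤ s) : l (sw c s) x t = l c x t := by
  unfold l
  congr 2
  apply Finset.filter_congr
  intro i hi
  rw [Finset.mem_range] at hi
  simp only [sw]
  rw [if_neg (by omega), if_neg (by omega)]

theorem sw_l_gt (c : ℕ → Bool) (x : Bool) {s : ℕ} (hs : 1 ≤ s) {t : ℕ} (ht : s + 1 ≤ t) :
    l (sw c s) x t = l c x t := by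
  induction t, ht using Nat.le_induction with
  | base =>
    obtain ⟨r, rfl⟩ : ∃ r, s = r + 1 := ⟨s - 1, by omega⟩
    have e1 : sw c (r + 1) r = c (r + 1) := by simp [sw]
    have e2 : sw c (r + 1) (r + 1) = c r := by simp [sw]
    rw [l_succ, l_succ, l_succ, l_succ, sw_l_lt c x (by omega), e1, e2]
    ring
  | succ t ht ih =>
    rw [l_succ, l_succ, ih]
    congr 2
    simp only [sw]
    rw [if_neg (by omega), if_neg (by omega)]

theorem sw_l_eq (c : ℕ → Bool) (x : Bool) {s : ℕ} (hs : 1 ≤ s) :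
    l (sw c s) x s = l c x s - (if c (s - 1) = x then 1 else 0) + (if c s = x then 1 else 0) := by
  obtain ⟨r, rfl⟩ : ∃ r, s = r + 1 := ⟨s - 1, by omega⟩
  have e1 : sw c (r + 1) r = c (r + 1) := by simp [sw]
  rw [l_succ, l_succ, sw_l_lt c x (by omega), e1, Nat.add_sub_cancel]
  ring

theorem swap_opt {v : ℕ → ℝ} {n : ℕ} (hn : 2 ≤ n) (hv : ∀ i j, i ≤ j → j < n → v i ≤ v j)
    {c : ℕ → Bool} (hA : ∀ x, 0 < A c n x) {s : ℕ} (hs : 1 ≤ s) (hsn : s < n)
    (hc : c (s - 1) ≠ c s) (hgap : v (s - 1) < v s) (hK : KC v n c ≤ KC v n (sw c s)) :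
    0 ≤ Δ c n s := by
  have hAe : ∀ x, A (sw c s) n x = A c n x := by
    intro x; unfold A; rw [sw_l_gt c x hs (by omega)]
  have hA' : ∀ x, 0 < A (sw c s) n x := by intro x; rw [hAe]; exact hA x
  have hg : ∀ t, t ≠ s → g (sw c s) n t = g c n t := by
    intro t ht
    have hlt : ∀ x, l (sw c s) x t = l c x t := by
      intro x
      rcases Nat.lt_or_ge t s with h | h
      · exact sw_l_lt c x (by omega)
      · exact sw_l_gt c x hs (by omega)
    unfold g Q
    rw [hlt, hlt, hAe, hAe]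
  rw [KC_gap hv, KC_gap hv] at hK
  have hK2 : 0 ≤ ∑ t ∈ Finset.Ico 1 n, (v t - v (t - 1)) * (g c n t - g (sw c s) n t) := by
    have : ∑ t ∈ Finset.Ico 1 n, (v t - v (t - 1)) * (g c n t - g (sw c s) n t)
        = ∑ t ∈ Finset.Ico 1 n, (v t - v (t - 1)) * φ (sw c s) n t
          - ∑ t ∈ Finset.Ico 1 n, (v t - v (t - 1)) * φ c n t := by
      rw [← Finset.sum_sub_distrib]
      apply Finset.sum_congr rfl
      intro t _
      rw [φ_eq hA hn, φ_eq hA' hn]; ring
    rw [this]; linarith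
  rw [Finset.sum_eq_single s] at hK2
  · have h1 : 0 ≤ g c n s - g (sw c s) n s := by
      have h2 : 0 < v s - v (s - 1) := by linarith
      exact (mul_nonneg_iff_of_pos_left h2).mp hK2
    obtain ⟨x, hx⟩ : ∃ x, c (s - 1) = x := ⟨_, rfl⟩
    have hy : c s = !x := by rw [← hx]; exact ne_iff_not.mp hc
    have hx1 : l (sw c s) x s = l c x s - 1 := by
      rw [sw_l_eq c x hs, if_pos hx, if_neg (by rw [hy]; cases x <;> simp)]; ring
    have hy1 : l (sw c s) (!x) s = l c (!x) s + 1 := by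
      rw [sw_l_eq c (!x) hs, if_neg (by rw [hx]; cases x <;> simp), if_pos hy]; ring
    rw [g, g, Q_eq c n s x, Q_eq (sw c s) n s x, hAe, hAe, hx1, hy1] at h1
    rw [Δ, if_pos hc, hx, hy]
    have hax := hA x
    have hay := hA (!x)
    set a := A c n x
    set b := A c n (!x)
    have e : l c x s * (l c x s - 1) / a + l c (!x) s * (l c (!x) s - 1) / b - (s : ℝ) * ((s : ℝ) - 1) / ((n : ℝ) - 1)
        - ((l c x s - 1) * (l c x s - 1 - 1) / a + (l c (!x) s + 1) * (l c (!x) s + 1 - 1) / b - (s : ℝ) * ((s : ℝ) - 1) / ((n : ℝ) - 1))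
        = 2 * ((l c x s - 1) / a - l c (!x) s / b) := by
      field_simp; ring
    linarith
  · intro t _ hts
    rw [hg t hts]; simp
  · intro h
    exact absurd (Finset.mem_Ico.mpr ⟨hs, hsn⟩) h

end Pool.Agent.R472.SortedCore
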