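import Pool.Agent.R472.SortedCost

/-!
# Moving groups of equal agents (MP_e22fa6_co)
-/

namespace Pool.Agent.R472.SortedCore

open Finset

section group

variable {α : Type*} [DecidableEq α] (v : α → ℝ)

noncomputable def D (S : Finset α) (x0 : ℝ) : ℝ := ∑ j ∈ S, |v j - x0|

theorem D_nonneg (S : Finset α) (x0 : ℝ) : 0 ≤ D v S x0 :=
  Finset.sum_nonneg fun _ _ => abs_nonneg _

theorem W_nonneg (S : Finset α) : 0 ≤ W v S :=
  Finset.sum_nonneg fun _ _ => Finset.sum_nonneg fun _ _ => abs_nonneg _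

theorem W_union {S T : Finset α} (hd : Disjoint S T) {x0 : ℝ} (hT : ∀ k ∈ T, v k = x0) :
    W v (S ∪ T) = W v S + 2 * (T.card : ℝ) * D v S x0 := by
  have h1 : ∀ i, ∑ j ∈ T, |v i - v j| = (T.card : ℝ) * |v i - x0| := by
    intro i
    rw [Finset.sum_congr rfl (fun j hj => by rw [hT j hj]), Finset.sum_const, nsmul_eq_mul]
  unfold W D
  rw [Finset.sum_union hd]
  have h2 : ∀ i, ∑ j ∈ S ∪ T, |v i - v j| = ∑ j ∈ S, |v i - v j| + (T.card : ℝ) * |v i - x0| := by
    intro i
    rw [Finset.sum_union hd, h1]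
  simp_rw [h2]
  rw [Finset.sum_add_distrib, ← Finset.mul_sum]
  have h3 : ∑ i ∈ T, (∑ j ∈ S, |v i - v j| + (T.card : ℝ) * |v i - x0|)
      = (T.card : ℝ) * ∑ j ∈ S, |v j - x0| := by
    rw [Finset.sum_congr rfl (g := fun _ => ∑ j ∈ S, |v j - x0|), Finset.sum_const, nsmul_eq_mul]
    intro i hi
    rw [hT i hi, sub_self, abs_zero, mul_zero, add_zero]
    apply Finset.sum_congr rfl
    intro j _
    exact abs_sub_comm _ _
  rw [h3]; ring

theorem W_le (S : Finset α) (x0 : ℝ) : W v S ≤ 2 * ((S.card : ℝ) - 1) * D v S x0 := by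
  have h1 : W v S ≤ ∑ i ∈ S, ∑ j ∈ S, ((|v i - x0| + |v j - x0|) - if i = j then 2 * |v i - x0| else 0) := by
    unfold W
    apply Finset.sum_le_sum; intro i _
    apply Finset.sum_le_sum; intro j _
    split_ifs with h
    · subst h; rw [sub_self, abs_zero]; linarith
    · have h2 : v i - v j = (v i - x0) - (v j - x0) := by ring
      have := abs_sub (v i - x0) (v j - x0)
      rw [← h2] at this
      linarith
  refine h1.trans (le_of_eq ?_)
  have h3 : ∀ i ∈ S, ∑ j ∈ S, ((|v i - x0| + |v j - x0|) - if i = j then 2 * |v i - x0| else 0)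
      = (S.card : ℝ) * |v i - x0| + D v S x0 - 2 * |v i - x0| := by
    intro i hi
    rw [Finset.sum_sub_distrib, Finset.sum_add_distrib, Finset.sum_const, nsmul_eq_mul,
      Finset.sum_ite_eq, if_pos hi, D]
  rw [Finset.sum_congr rfl h3, Finset.sum_sub_distrib, Finset.sum_add_distrib, Finset.sum_const,
    nsmul_eq_mul, ← Finset.mul_sum, ← Finset.mul_sum]
  unfold D; ring

/-- the Möbius function -/
noncomputable def mob (w d p x : ℝ) : ℝ := (w + 2 * x * d) / (p + x - 1)

theorem F_union {S T : Finset α} (hd : Disjoint S T) {x0 : ℝ} (hT : ∀ k ∈ T, v k = x0) :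
    F v (S ∪ T) = mob (W v S) (D v S x0) S.card T.card := by
  rw [F, W_union v hd hT, Finset.card_union_of_disjoint hd, mob]
  push_cast; ring

theorem F_self (S : Finset α) (x0 : ℝ) : F v S = mob (W v S) (D v S x0) S.card 0 := by
  rw [F, mob]; ring_nf

theorem mob_conc {w d : ℝ} {p : ℕ} (hw : 0 ≤ w) (hd : 0 ≤ d) (h : w ≤ 2 * ((p : ℝ) - 1) * d)
    {x y : ℝ} (hx : 1 ≤ x) (hy : 0 < y) :
    x / (x + y) * mob w d p (x + y) + y / (x + y) * mob w d p 0 ≤ mob w d p x := by
  have hxy : 0 < x + y := by linarith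
  rcases Nat.lt_or_ge p 2 with hp | hp
  · interval_cases p
    · have hd0 : d = 0 := by
        have : 2 * (((0 : ℕ) : ℝ) - 1) * d = -2 * d := by push_cast; ring
        rw [this] at h; linarith
      have hw0 : w = 0 := by rw [hd0, mul_zero] at h; linarith
      unfold mob; rw [hd0, hw0]; simp
    · have hw0 : w = 0 := by
        have : 2 * (((1 : ℕ) : ℝ) - 1) * d = 0 := by push_cast; ring
        rw [this] at h; linarith
      unfold mob
      rw [hw0]
      have e1 : (0 + 2 * (x + y) * d) / (((1 : ℕ) : ℝ) + (x + y) - 1) = 2 * d := by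
        push_cast; rw [show (1 : ℝ) + (x + y) - 1 = x + y by ring]; field_simp; ring
      have e2 : (0 + 2 * x * d) / (((1 : ℕ) : ℝ) + x - 1) = 2 * d := by
        push_cast; rw [show (1 : ℝ) + x - 1 = x by ring]; field_simp; ring
      have e3 : (0 + 2 * 0 * d) / (((1 : ℕ) : ℝ) + 0 - 1) = 0 := by simp
      rw [e1, e2, e3, mul_zero, add_zero]
      have : x / (x + y) ≤ 1 := by rw [div_le_one hxy]; linarith
      nlinarith
  · have hP : (1 : ℝ) ≤ (p : ℝ) - 1 := by
      have : (2 : ℝ) ≤ p := by exact_mod_cast hp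
      linarith
    set P := (p : ℝ) - 1 with hPdef
    have hp' : (p : ℝ) = P + 1 := by rw [hPdef]; ring
    unfold mob
    rw [hp']
    have d1 : P + 1 + (x + y) - 1 = P + (x + y) := by ring
    have d2 : P + 1 + x - 1 = P + x := by ring
    have d3 : P + 1 + 0 - 1 = P := by ring
    rw [d1, d2, d3]
    have hE : 0 ≤ 2 * P * d - w := by linarith
    have key : (w + 2 * x * d) / (P + x) - (x / (x + y) * ((w + 2 * (x + y) * d) / (P + (x + y)))
        + y / (x + y) * ((w + 2 * 0 * d) / P))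
        = (2 * P * d - w) * (x * y) / (P * (P + (x + y)) * (P + x)) := by
      have h1 : P ≠ 0 := by linarith
      have h2 : P + (x + y) ≠ 0 := by linarith
      have h3 : P + x ≠ 0 := by linarith
      have h4 : x + y ≠ 0 := by linarith
      field_simp
      ring
    have : 0 ≤ (2 * P * d - w) * (x * y) / (P * (P + (x + y)) * (P + x)) := by
      have h0 : 0 ≤ x * y := by positivity
      have hPp : 0 < P := by linarith
      positivity
    linarith

theorem mob_mono {w d : ℝ} {p : ℕ} (hw : 0 ≤ w) (hd : 0 ≤ d) (h : w ≤ 2 * ((p : ℝ) - 1) * d)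
    (hp1 : p ≠ 1) {x : ℝ} (hx : 0 ≤ x) : mob w d p 0 ≤ mob w d p x := by
  rcases Nat.lt_or_ge p 2 with hp | hp
  · have hp0 : p = 0 := by omega
    subst hp0
    have hd0 : d = 0 := by
      have : 2 * (((0 : ℕ) : ℝ) - 1) * d = -2 * d := by push_cast; ring
      rw [this] at h; linarith
    have hw0 : w = 0 := by rw [hd0, mul_zero] at h; linarith
    unfold mob; rw [hd0, hw0]; simp
  · have hP : (1 : ℝ) ≤ (p : ℝ) - 1 := by
      have : (2 : ℝ) ≤ p := by exact_mod_cast hp
      linarith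
    set P := (p : ℝ) - 1 with hPdef
    have hp' : (p : ℝ) = P + 1 := by rw [hPdef]; ring
    unfold mob
    rw [hp']
    have d2 : P + 1 + x - 1 = P + x := by ring
    have d3 : P + 1 + 0 - 1 = P := by ring
    rw [d2, d3, div_le_div_iff₀ (by linarith) (by linarith)]
    nlinarith

theorem mob_one {d x : ℝ} (hx : 0 < x) : mob 0 d 1 x = 2 * d := by
  unfold mob
  rw [show (1 : ℝ) + x - 1 = x by ring]; field_simp; ring

variable {v}

/-- pieces of a structure relative to the group with value `x0` -/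
theorem K_pieces {U C : Finset α} (hC : C ⊆ U) (x0 : ℝ) :
    let Γ := U.filter (fun k => v k = x0)
    let S0 := C \ Γ
    let T0 := (U \ C) \ Γ
    K v U C = mob (W v S0) (D v S0 x0) S0.card (C ∩ Γ).card
        + mob (W v T0) (D v T0 x0) T0.card ((U \ C) ∩ Γ).card ∧
    K v U (C ∪ Γ) = mob (W v S0) (D v S0 x0) S0.card ((C ∩ Γ).card + ((U \ C) ∩ Γ).card : ℝ)
        + mob (W v T0) (D v T0 x0) T0.card 0 ∧
    K v U (C \ Γ) = mob (W v S0) (D v S0 x0) S0.card 0
        + mob (W v T0) (D v T0 x0) T0.card ((C ∩ Γ).card + ((U \ C) ∩ Γ).card : ℝ) := by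
  intro Γ S0 T0
  have hΓU : Γ ⊆ U := Finset.filter_subset _ _
  have hΓ : ∀ k ∈ Γ, v k = x0 := fun k hk => (Finset.mem_filter.mp hk).2
  have hcard : ((C ∩ Γ).card + ((U \ C) ∩ Γ).card : ℝ) = (Γ.card : ℝ) := by
    rw [← Nat.cast_add, ← Finset.card_union_of_disjoint]
    · congr 2
      ext k
      simp only [Finset.mem_union, Finset.mem_inter, Finset.mem_sdiff]
      constructor
      · rintro (⟨_, h⟩ | ⟨_, h⟩) <;> exact h
      · intro h
        by_cases hk : k ∈ C
        · exact Or.inl ⟨hk, h⟩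
        · exact Or.inr ⟨⟨hΓU h, hk⟩, h⟩
    · rw [Finset.disjoint_left]
      intro k h1 h2
      simp only [Finset.mem_inter, Finset.mem_sdiff] at h1 h2
      exact h2.1.2 h1.1
  refine ⟨?_, ?_, ?_⟩
  · have e1 : C = S0 ∪ (C ∩ Γ) := (Finset.sdiff_union_inter C Γ).symm
    have e2 : U \ C = T0 ∪ ((U \ C) ∩ Γ) := (Finset.sdiff_union_inter (U \ C) Γ).symm
    have h1 : F v C = mob (W v S0) (D v S0 x0) S0.card (C ∩ Γ).card := by
      conv_lhs => rw [e1]
      exact F_union v (Finset.disjoint_sdiff_inter C Γ) (fun k hk => hΓ k (Finset.mem_inter.mp hk).2)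
    have h2 : F v (U \ C) = mob (W v T0) (D v T0 x0) T0.card ((U \ C) ∩ Γ).card := by
      conv_lhs => rw [e2]
      exact F_union v (Finset.disjoint_sdiff_inter (U \ C) Γ)
        (fun k hk => hΓ k (Finset.mem_inter.mp hk).2)
    rw [K, h1, h2]
  · have e1 : C ∪ Γ = S0 ∪ Γ := (Finset.sdiff_union_self_eq_union).symm
    have e2 : U \ (C ∪ Γ) = T0 := by
      ext k
      simp only [T0, Finset.mem_union, Finset.mem_sdiff]
      tauto
    rw [K, e2, e1, F_union v (Finset.sdiff_disjoint) hΓ, hcard, ← F_self]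
  · have e2 : U \ (C \ Γ) = T0 ∪ Γ := by
      ext k
      simp only [T0, Finset.mem_union, Finset.mem_sdiff]
      constructor
      · rintro ⟨h1, h2⟩
        by_cases hk : k ∈ Γ
        · exact Or.inr hk
        · exact Or.inl ⟨⟨h1, fun h => h2 ⟨h, hk⟩⟩, hk⟩
      · rintro (⟨⟨h1, h2⟩, h3⟩ | h)
        · exact ⟨h1, fun h => h2 h.1⟩
        · exact ⟨hΓU h, fun h' => h'.2 h⟩
    rw [K, e2, F_union v (Finset.sdiff_disjoint) hΓ, hcard, ← F_self]

/-- group lemma, unrestricted (HIS) -/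
theorem group_HIS {U C : Finset α} (hC : C ⊆ U) {i j : α} (hi : i ∈ C) (hj : j ∈ U \ C)
    (hij : v i = v j) :
    K v U (C ∪ U.filter (fun k => v k = v i)) ≤ K v U C ∨
      K v U (C \ U.filter (fun k => v k = v i)) ≤ K v U C := by
  obtain ⟨h1, h2, h3⟩ := K_pieces (v := v) hC (v i)
  set Γ := U.filter (fun k => v k = v i)
  have hiΓ : i ∈ Γ := Finset.mem_filter.mpr ⟨hC hi, rfl⟩
  have hjΓ : j ∈ Γ := Finset.mem_filter.mpr ⟨(Finset.mem_sdiff.mp hj).1, hij.symm⟩
  rw [h1, h2, h3]
  set S0 := C \ Γ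
  set T0 := (U \ C) \ Γ
  have hx : (1 : ℝ) ≤ (C ∩ Γ).card := by
    exact_mod_cast Finset.card_pos.mpr ⟨i, Finset.mem_inter.mpr ⟨hi, hiΓ⟩⟩
  have hy : (1 : ℝ) ≤ ((U \ C) ∩ Γ).card := by
    exact_mod_cast Finset.card_pos.mpr ⟨j, Finset.mem_inter.mpr ⟨hj, hjΓ⟩⟩
  set x := ((C ∩ Γ).card : ℝ)
  set y := (((U \ C) ∩ Γ).card : ℝ)
  have c1 := mob_conc (W_nonneg v S0) (D_nonneg v S0 (v i)) (W_le v S0 (v i)) hx
    (show 0 < y by linarith)
  have c2 := mob_conc (W_nonneg v T0) (D_nonneg v T0 (v i)) (W_le v T0 (v i)) hy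
    (show 0 < x by linarith)
  rw [add_comm y x] at c2
  set a1 := mob (W v S0) (D v S0 (v i)) S0.card (x + y)
  set a0 := mob (W v S0) (D v S0 (v i)) S0.card 0
  set a := mob (W v S0) (D v S0 (v i)) S0.card x
  set b1 := mob (W v T0) (D v T0 (v i)) T0.card (x + y)
  set b0 := mob (W v T0) (D v T0 (v i)) T0.card 0
  set b := mob (W v T0) (D v T0 (v i)) T0.card y
  by_contra hcon
  push Not at hcon
  obtain ⟨g1, g2⟩ := hcon
  have hxy : 0 < x + y := by linarith
  have f1 : 0 < x / (x + y) := div_pos (by linarith) hxy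
  have f2 : 0 < y / (x + y) := div_pos (by linarith) hxy
  have f3 : x / (x + y) + y / (x + y) = 1 := by field_simp
  have m1 := mul_lt_mul_of_pos_left g1 f1
  have m2 := mul_lt_mul_of_pos_left g2 f2
  have : (x / (x + y) + y / (x + y)) * (a + b) < (a + b) := by nlinarith
  rw [f3] at this
  linarith

def FeasU (U C : Finset α) : Prop := C.card ≠ 1 ∧ (U \ C).card ≠ 1

/-- group lemma, with feasibility (UIS) -/
theorem group_UIS {U C : Finset α} (hC : C ⊆ U) {i j : α} (hi : i ∈ C) (hj : j ∈ U \ C)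
    (hij : v i = v j) (hf : FeasU U C) :
    (FeasU U (C ∪ U.filter (fun k => v k = v i)) ∧
      K v U (C ∪ U.filter (fun k => v k = v i)) ≤ K v U C) ∨
    (FeasU U (C \ U.filter (fun k => v k = v i)) ∧
      K v U (C \ U.filter (fun k => v k = v i)) ≤ K v U C) ∨
    (FeasU U ∅ ∧ K v U ∅ ≤ K v U C) := by
  have hH := group_HIS hC hi hj hij
  obtain ⟨h1, h2, h3⟩ := K_pieces (v := v) hC (v i)
  set Γ := U.filter (fun k => v k = v i) with hΓdef
  have hΓU : Γ ⊆ U := Finset.filter_subset _ _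
  have hiΓ : i ∈ Γ := Finset.mem_filter.mpr ⟨hC hi, rfl⟩
  have hjΓ : j ∈ Γ := Finset.mem_filter.mpr ⟨(Finset.mem_sdiff.mp hj).1, hij.symm⟩
  have hne : i ≠ j := by rintro rfl; exact (Finset.mem_sdiff.mp hj).2 hi
  have hΓ2 : 2 ≤ Γ.card := by
    have : ({i, j} : Finset α) ⊆ Γ := by
      intro k hk
      simp only [Finset.mem_insert, Finset.mem_singleton] at hk
      rcases hk with rfl | rfl <;> assumption
    calc 2 = ({i, j} : Finset α).card := (Finset.card_pair hne).symm
      _ ≤ _ := Finset.card_le_card this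
  set S0 := C \ Γ with hS0
  set T0 := (U \ C) \ Γ with hT0
  have hx : (1 : ℝ) ≤ (C ∩ Γ).card := by
    exact_mod_cast Finset.card_pos.mpr ⟨i, Finset.mem_inter.mpr ⟨hi, hiΓ⟩⟩
  have hy : (1 : ℝ) ≤ ((U \ C) ∩ Γ).card := by
    exact_mod_cast Finset.card_pos.mpr ⟨j, Finset.mem_inter.mpr ⟨hj, hjΓ⟩⟩
  have e2 : U \ (C ∪ Γ) = T0 := by
    ext k
    simp only [hT0, Finset.mem_union, Finset.mem_sdiff]
    tauto
  have e3 : 2 ≤ (C ∪ Γ).card := hΓ2.trans (Finset.card_le_card Finset.subset_union_right)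
  have e4 : 2 ≤ (U \ (C \ Γ)).card := by
    refine hΓ2.trans (Finset.card_le_card ?_)
    intro k hk
    simp only [Finset.mem_sdiff]
    exact ⟨hΓU hk, fun h => h.2 hk⟩
  have hw1 := W_nonneg v S0
  have hd1 := D_nonneg v S0 (v i)
  have hl1 := W_le v S0 (v i)
  have hw2 := W_nonneg v T0
  have hd2 := D_nonneg v T0 (v i)
  have hl2 := W_le v T0 (v i)
  by_cases hp : S0.card = 1
  · have w0 : W v S0 = 0 := by
      rw [hp] at hl1; norm_num at hl1; linarith
    by_cases hq : T0.card = 1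
    · -- grand coalition
      have w0' : W v T0 = 0 := by
        rw [hq] at hl2; norm_num at hl2; linarith
      right; right
      have hUc : 2 ≤ U.card := by
        exact hΓ2.trans (Finset.card_le_card hΓU)
      refine ⟨⟨by simp, by rw [Finset.sdiff_empty]; omega⟩, ?_⟩
      rw [h1, hp, hq, w0, w0']
      push_cast
      rw [mob_one (by linarith), mob_one (by linarith)]
      have hUe : U = (S0 ∪ T0) ∪ Γ := by
        ext k
        simp only [hS0, hT0, Finset.mem_union, Finset.mem_sdiff]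
        constructor
        · intro hk
          by_cases h5 : k ∈ Γ
          · exact Or.inr h5
          · by_cases h6 : k ∈ C
            · exact Or.inl (Or.inl ⟨h6, h5⟩)
            · exact Or.inl (Or.inr ⟨⟨hk, h6⟩, h5⟩)
        · rintro ((⟨h5, _⟩ | ⟨⟨h5, _⟩, _⟩) | h5)
          · exact hC h5
          · exact h5
          · exact hΓU h5
      have hdis : Disjoint S0 T0 := by
        rw [Finset.disjoint_left]
        intro k h5 h6
        simp only [hS0, hT0, Finset.mem_sdiff] at h5 h6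
        exact h6.1.2 h5.1
      have hdis2 : Disjoint (S0 ∪ T0) Γ := by
        rw [Finset.disjoint_left]
        intro k h5 h6
        simp only [hS0, hT0, Finset.mem_union, Finset.mem_sdiff] at h5
        rcases h5 with h5 | h5 <;> exact h5.2 h6
      have hK : K v U ∅ = mob (W v (S0 ∪ T0)) (D v (S0 ∪ T0) (v i)) (S0 ∪ T0).card Γ.card := by
        rw [K, Finset.sdiff_empty]
        have hF0 : F v (∅ : Finset α) = 0 := by simp [F, W]
        rw [hF0, zero_add]
        conv_lhs => rw [hUe]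
        exact F_union v hdis2 (fun k hk => (Finset.mem_filter.mp hk).2)
      rw [hK]
      have hDs : D v (S0 ∪ T0) (v i) = D v S0 (v i) + D v T0 (v i) := by
        unfold D; rw [Finset.sum_union hdis]
      have hcs : (S0 ∪ T0).card = 2 := by
        rw [Finset.card_union_of_disjoint hdis, hp, hq]
      have hWs := W_le v (S0 ∪ T0) (v i)
      rw [hcs] at hWs ⊢
      rw [hDs] at hWs ⊢
      unfold mob
      have hΓr : (2 : ℝ) ≤ Γ.card := by exact_mod_cast hΓ2
      push_cast at hWs ⊢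
      rw [div_le_iff₀ (by linarith)]
      nlinarith
    · left
      refine ⟨⟨by omega, by rw [e2]; exact hq⟩, ?_⟩
      rw [h1, h2, hp, w0]
      push_cast
      rw [mob_one (by linarith), mob_one (by linarith)]
      have := mob_mono hw2 hd2 hl2 hq (x := (((U \ C) ∩ Γ).card : ℝ)) (by linarith)
      linarith
  · by_cases hq : T0.card = 1
    · have w0' : W v T0 = 0 := by
        rw [hq] at hl2; norm_num at hl2; linarith
      right; left
      refine ⟨⟨hp, by show (U \ (C \ Γ)).card ≠ 1; omega⟩, ?_⟩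
      rw [h1, h3, hq, w0']
      push_cast
      rw [mob_one (by linarith), mob_one (by linarith)]
      have := mob_mono hw1 hd1 hl1 hp (x := ((C ∩ Γ).card : ℝ)) (by linarith)
      linarith
    · rcases hH with h | h
      · left
        exact ⟨⟨by omega, by rw [e2]; exact hq⟩, h⟩
      · right; left
        exact ⟨⟨hp, by show (U \ (C \ Γ)).card ≠ 1; omega⟩, h⟩

/-- number of split pairs -/
noncomputable def mu (v : α → ℝ) (U C : Finset α) : ℕ :=
  ((C ×ˢ (U \ C)).filter (fun p => v p.1 = v p.2)).card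

theorem mu_union_lt {U C : Finset α} (hC : C ⊆ U) {i j : α} (hi : i ∈ C) (hj : j ∈ U \ C)
    (hij : v i = v j) : mu v U (C ∪ U.filter (fun k => v k = v i)) < mu v U C := by
  unfold mu
  apply Finset.card_lt_card
  rw [Finset.ssubset_iff_of_subset]
  · refine ⟨(i, j), ?_, ?_⟩
    · simp only [Finset.mem_filter, Finset.mem_product]
      exact ⟨⟨hi, hj⟩, hij⟩
    · simp only [Finset.mem_filter, Finset.mem_product, Finset.mem_union, Finset.mem_sdiff]
      rintro ⟨⟨_, h1, h2⟩, _⟩
      exact h2 (Or.inr ⟨h1, hij.symm⟩)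
  · rintro ⟨a, b⟩
    simp only [Finset.mem_filter, Finset.mem_product, Finset.mem_union, Finset.mem_sdiff]
    rintro ⟨⟨h1, h2, h3⟩, h4⟩
    refine ⟨⟨?_, h2, fun h => h3 (Or.inl h)⟩, h4⟩
    rcases h1 with h1 | ⟨_, h1⟩
    · exact h1
    · exact absurd (Or.inr ⟨h2, by rw [← h4]; exact h1⟩) h3

theorem mu_sdiff_lt {U C : Finset α} (hC : C ⊆ U) {i j : α} (hi : i ∈ C) (hj : j ∈ U \ C)
    (hij : v i = v j) : mu v U (C \ U.filter (fun k => v k = v i)) < mu v U C := by
  unfold mu
  apply Finset.card_lt_card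
  rw [Finset.ssubset_iff_of_subset]
  · refine ⟨(i, j), ?_, ?_⟩
    · simp only [Finset.mem_filter, Finset.mem_product]
      exact ⟨⟨hi, hj⟩, hij⟩
    · simp only [Finset.mem_filter, Finset.mem_product, Finset.mem_sdiff]
      rintro ⟨⟨⟨_, h1⟩, _⟩, _⟩
      exact h1 ⟨hC hi, trivial⟩
  · rintro ⟨a, b⟩
    simp only [Finset.mem_filter, Finset.mem_product, Finset.mem_sdiff]
    rintro ⟨⟨⟨h1, h1'⟩, h2, h3⟩, h4⟩
    refine ⟨⟨h1, h2, fun h => h3 ⟨h, ?_⟩⟩, h4⟩
    rintro ⟨_, h5⟩
    exact h1' ⟨hC h1, by rw [h4]; exact h5⟩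

theorem mu_empty (U : Finset α) : mu v U ∅ = 0 := by simp [mu]

/-- a structure is unsplit if equal values are never separated -/
def Unsplit (v : α → ℝ) (U C : Finset α) : Prop := ∀ i ∈ C, ∀ j ∈ U \ C, v i ≠ v j

theorem mu_pos {U C : Finset α} {i j : α} (hi : i ∈ C) (hj : j ∈ U \ C) (hij : v i = v j) :
    0 < mu v U C := by
  unfold mu
  exact Finset.card_pos.mpr ⟨(i, j), by
    simp only [Finset.mem_filter, Finset.mem_product]; exact ⟨⟨hi, hj⟩, hij⟩⟩

theorem unsplit_HIS {U : Finset α} : ∀ m : ℕ, ∀ C ⊆ U, mu v U C ≤ m →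
    ∃ C' ⊆ U, Unsplit v U C' ∧ K v U C' ≤ K v U C := by
  intro m
  induction m with
  | zero =>
    intro C hC hm
    refine ⟨C, hC, ?_, le_rfl⟩
    intro i hi j hj hij
    have := mu_pos hi hj hij
    omega
  | succ m ih =>
    intro C hC hm
    by_cases h : Unsplit v U C
    · exact ⟨C, hC, h, le_rfl⟩
    · unfold Unsplit at h
      push Not at h
      obtain ⟨i, hi, j, hj, hij⟩ := h
      rcases group_HIS hC hi hj hij with h1 | h1
      · obtain ⟨C', a1, a2, a3⟩ := ih (C ∪ U.filter (fun k => v k = v i))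
          (Finset.union_subset hC (Finset.filter_subset _ _))
          (by have := mu_union_lt hC hi hj hij; omega)
        exact ⟨C', a1, a2, a3.trans h1⟩
      · obtain ⟨C', a1, a2, a3⟩ := ih (C \ U.filter (fun k => v k = v i))
          (Finset.sdiff_subset.trans hC)
          (by have := mu_sdiff_lt hC hi hj hij; omega)
        exact ⟨C', a1, a2, a3.trans h1⟩

theorem unsplit_UIS {U : Finset α} : ∀ m : ℕ, ∀ C ⊆ U, mu v U C ≤ m → FeasU U C →
    ∃ C' ⊆ U, FeasU U C' ∧ Unsplit v U C' ∧ K v U C' ≤ K v U C := by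
  intro m
  induction m with
  | zero =>
    intro C hC hm hf
    refine ⟨C, hC, hf, ?_, le_rfl⟩
    intro i hi j hj hij
    have := mu_pos hi hj hij
    omega
  | succ m ih =>
    intro C hC hm hf
    by_cases h : Unsplit v U C
    · exact ⟨C, hC, hf, h, le_rfl⟩
    · unfold Unsplit at h
      push Not at h
      obtain ⟨i, hi, j, hj, hij⟩ := h
      rcases group_UIS hC hi hj hij hf with ⟨hf1, h1⟩ | ⟨hf1, h1⟩ | ⟨hf1, h1⟩
      · obtain ⟨C', a1, a0, a2, a3⟩ := ih (C ∪ U.filter (fun k => v k = v i))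
          (Finset.union_subset hC (Finset.filter_subset _ _))
          (by have := mu_union_lt hC hi hj hij; omega) hf1
        exact ⟨C', a1, a0, a2, a3.trans h1⟩
      · obtain ⟨C', a1, a0, a2, a3⟩ := ih (C \ U.filter (fun k => v k = v i))
          (Finset.sdiff_subset.trans hC)
          (by have := mu_sdiff_lt hC hi hj hij; omega) hf1
        exact ⟨C', a1, a0, a2, a3.trans h1⟩
      · exact ⟨∅, Finset.empty_subset _, hf1, by intro i hi; simp at hi, h1⟩

end group

end Pool.Agent.R472.SortedCore
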